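import Pool.Agent.H42.TSP.Step

set_option autoImplicit false

namespace Pool.Agent.H42.TSP

open Finset
open scoped BigOperators

noncomputable section

/-- the property proved by iteration -/
private def AWP (C : ℝ) (N : ℕ) (θ : ℝ) : Prop :=
  ∀ (T : Type) [Fintype T] (w : T → ℝ), PW w →
    ∀ H : (Fin N × Fin N → T) → ℝ, OscSq C H → Va (pw w) H ≤ θ * N ^ 2

private lemma AWP_mono {C : ℝ} {N : ℕ} {θ θ' : ℝ} (h : θ ≤ θ') (hP : AWP C N θ) : AWP C N θ' := by
  intro T _ w hw H hH
  refine (hP T w hw H hH).trans ?_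
  exact mul_le_mul_of_nonneg_right h (by positivity)

private lemma AWP_one {C : ℝ} (hC : 0 < C) : AWP C 1 (C ^ 2) := by
  intro T _ w hw H hH
  have hpw : PW (pw w : (Fin 1 × Fin 1 → T) → ℝ) := pw_PW hw
  have hosc : ∀ ω ω' : Fin 1 × Fin 1 → T, |H ω - H ω'| ≤ C := by
    intro ω ω'
    have := hH 0 0 1 ω ω' (by
      intro c hc
      exfalso
      apply hc
      have h1 : (c.1 : ℕ) = 0 := by omega
      have h2 : (c.2 : ℕ) = 0 := by omega
      omega)
    simpa using this
  -- there is a configuration, since the weights sum to one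
  have hne : Nonempty (Fin 1 × Fin 1 → T) := by
    by_contra hcon
    rw [not_nonempty_iff] at hcon
    have := hpw.sum_one
    simp at this
  obtain ⟨ω0⟩ := hne
  have h1 := Va_le hpw H (H ω0)
  refine h1.trans ?_
  have h2 : EE (pw w : (Fin 1 × Fin 1 → T) → ℝ) (fun t => (H t - H ω0) ^ 2) ≤
      EE (pw w : (Fin 1 × Fin 1 → T) → ℝ) (fun _ => C ^ 2) := by
    apply EE_mono hpw
    intro t
    have := hosc t ω0
    rw [← sq_abs]
    exact pow_le_pow_left₀ (abs_nonneg _) this 2
  rw [EE_const hpw] at h2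
  simpa using h2

/-- index equivalence -/
private def idx (b N : ℕ) : (Fin b × Fin b) × (Fin N × Fin N) ≃ Fin (b * N) × Fin (b * N) :=
  (Equiv.prodProdProdComm (Fin b) (Fin b) (Fin N) (Fin N)).trans
    (Equiv.prodCongr finProdFinEquiv finProdFinEquiv)

private lemma idx_apply_fst (b N : ℕ) (i : Fin b × Fin b) (c : Fin N × Fin N) :
    (((idx b N) (i, c)).1 : ℕ) = (c.1 : ℕ) + N * (i.1 : ℕ) := by
  simp [idx, finProdFinEquiv]

private lemma idx_apply_snd (b N : ℕ) (i : Fin b × Fin b) (c : Fin N × Fin N) :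
    (((idx b N) (i, c)).2 : ℕ) = (c.2 : ℕ) + N * (i.2 : ℕ) := by
  simp [idx, finProdFinEquiv]

/-- glue the blocks -/
private def glue {T : Type} (b N : ℕ) (z : Fin b × Fin b → (Fin N × Fin N → T)) :
    Fin (b * N) × Fin (b * N) → T :=
  fun c => z ((idx b N).symm c).1 ((idx b N).symm c).2

private def glueE {T : Type} (b N : ℕ) : (Fin b × Fin b → (Fin N × Fin N → T)) ≃
    (Fin (b * N) × Fin (b * N) → T) :=
  ((Equiv.curry (Fin b × Fin b) (Fin N × Fin N) T).symm).trans
    (Equiv.arrowCongr (idx b N) (Equiv.refl T))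

private lemma glueE_apply {T : Type} (b N : ℕ) (z : Fin b × Fin b → (Fin N × Fin N → T)) :
    glueE b N z = glue b N z := by
  rfl

private lemma pw_glue {T : Type} [Fintype T] (w : T → ℝ) (b N : ℕ)
    (z : Fin b × Fin b → (Fin N × Fin N → T)) :
    pw w (glue b N z) = pw (pw w : (Fin N × Fin N → T) → ℝ) z := by
  unfold pw glue
  rw [← Fintype.prod_equiv (idx b N) (fun p => w (z p.1 p.2)) _ (by intro p; simp)]
  rw [Fintype.prod_prod_type]

private lemma EE_glue' {T : Type} [Fintype T] (w : T → ℝ) (b N : ℕ)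
    (H : (Fin (b * N) × Fin (b * N) → T) → ℝ) :
    EE (pw w) H = EE (pw (pw w : (Fin N × Fin N → T) → ℝ))
      (fun z : Fin b × Fin b → (Fin N × Fin N → T) => H (glue b N z)) := by
  unfold EE
  rw [← Fintype.sum_equiv (glueE b N) (fun z => pw w (glue b N z) * H (glue b N z)) _
    (by intro z; rw [glueE_apply])]
  apply Finset.sum_congr rfl
  intro z _
  rw [pw_glue]

private lemma Va_glue {T : Type} [Fintype T] (w : T → ℝ) (b N : ℕ)
    (H : (Fin (b * N) × Fin (b * N) → T) → ℝ) :
    Va (pw w) H = Va (pw (pw w : (Fin N × Fin N → T) → ℝ))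
      (fun z : Fin b × Fin b → (Fin N × Fin N → T) => H (glue b N z)) := by
  unfold Va
  rw [EE_glue' w b N, ← EE_glue' w b N H]

private lemma AWP_step {C a : ℝ} {b : ℕ} {δ : ℝ} (hb : 2 ≤ b)
    (hstep : ∀ (I T : Type) [Fintype I] [DecidableEq I] [Fintype T] (w : T → ℝ), PW w →
      ∀ F : (I → T) → ℝ, Fintype.card I = b ^ 2 →
      (∀ i y t t', |F (Function.update y i t) - F (Function.update y i t')| ≤ C / b) →
      (∀ y y', |F y - F y'| ≤ C) → ∀ θ : ℝ,
      (∑ i, EE (pw w) (fun y => Va w (fun t => F (Function.update y i t))) ≤ θ) →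
      Va (pw w) F ≤ max a (θ - δ))
    {N : ℕ} (hN : 0 < N) {θ : ℝ} (hP : AWP C N θ) : AWP C (b * N) (max a (θ - δ)) := by
  intro T _ w hw H hH
  have hb0 : (0 : ℝ) < b := by
    have : 0 < b := by omega
    exact_mod_cast this
  have hN0 : (0 : ℝ) < N := by exact_mod_cast hN
  have hpw : PW (pw w : (Fin N × Fin N → T) → ℝ) := pw_PW hw
  -- the oscillation of H on glued configurations
  have key : ∀ (i : Fin b × Fin b) (y : Fin b × Fin b → (Fin N × Fin N → T))
      (x x' t : ℕ) (ω ω' : Fin N × Fin N → T),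
      (∀ c : Fin N × Fin N,
        ¬ (x ≤ (c.1 : ℕ) ∧ (c.1 : ℕ) < x + t ∧ x' ≤ (c.2 : ℕ) ∧ (c.2 : ℕ) < x' + t) → ω c = ω' c) →
      |H (glue b N (Function.update y i ω)) - H (glue b N (Function.update y i ω'))| ≤ C * t := by
    intro i y x x' t ω ω' hω
    apply hH (x + N * (i.1 : ℕ)) (x' + N * (i.2 : ℕ)) t
    intro c hc
    obtain ⟨⟨j, d⟩, rfl⟩ := (idx b N).surjective c
    rw [idx_apply_fst, idx_apply_snd] at hc
    simp only [glue, Equiv.symm_apply_apply]
    by_cases hj : j = i
    · subst hj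
      simp only [Function.update_self]
      apply hω
      intro hd
      apply hc
      omega
    · rw [Function.update_of_ne hj, Function.update_of_ne hj]
  set F : (Fin b × Fin b → (Fin N × Fin N → T)) → ℝ :=
    fun z => (1 / (b * N : ℝ)) * H (glue b N z) with hF
  have hFdiff : ∀ z z', F z - F z' = (1 / (b * N : ℝ)) * (H (glue b N z) - H (glue b N z')) := by
    intro z z'
    simp only [hF]
    ring
  have hbN : (0 : ℝ) < 1 / (b * N : ℝ) := by positivity
  have h1 : ∀ i y t t', |F (Function.update y i t) - F (Function.update y i t')| ≤ C / b := by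
    intro i y t t'
    rw [hFdiff, abs_mul, abs_of_pos hbN]
    have := key i y 0 0 N t t' (by
      intro c hc
      exfalso
      apply hc
      have := c.1.isLt
      have := c.2.isLt
      omega)
    calc (1 / (b * N : ℝ)) * |H (glue b N (Function.update y i t)) - H (glue b N (Function.update y i t'))|
        ≤ (1 / (b * N : ℝ)) * (C * N) := mul_le_mul_of_nonneg_left this hbN.le
      _ = C / b := by field_simp
  have h2 : ∀ y y', |F y - F y'| ≤ C := by
    intro y y'
    rw [hFdiff, abs_mul, abs_of_pos hbN]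
    have := hH 0 0 (b * N) (glue b N y) (glue b N y') (by
      intro c hc
      exfalso
      apply hc
      have := c.1.isLt
      have := c.2.isLt
      omega)
    calc (1 / (b * N : ℝ)) * |H (glue b N y) - H (glue b N y')|
        ≤ (1 / (b * N : ℝ)) * (C * ((b * N : ℕ) : ℝ)) := mul_le_mul_of_nonneg_left this hbN.le
      _ = C := by push_cast; field_simp
  have h3 : ∑ i, EE (pw (pw w : (Fin N × Fin N → T) → ℝ))
      (fun y => Va (pw w : (Fin N × Fin N → T) → ℝ) (fun t => F (Function.update y i t))) ≤ θ := by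
    have hpp : PW (pw (pw w : (Fin N × Fin N → T) → ℝ) :
        (Fin b × Fin b → (Fin N × Fin N → T)) → ℝ) := pw_PW hpw
    have hV : ∀ (i : Fin b × Fin b) (y : Fin b × Fin b → (Fin N × Fin N → T)),
        Va (pw w : (Fin N × Fin N → T) → ℝ) (fun t => F (Function.update y i t)) ≤ θ / b ^ 2 := by
      intro i y
      have hosc : OscSq C (fun t : Fin N × Fin N → T => H (glue b N (Function.update y i t))) := by
        intro x x' t ω ω' hω
        exact key i y x x' t ω ω' hω
      have hv := hP T w hw _ hosc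
      have : Va (pw w : (Fin N × Fin N → T) → ℝ) (fun t => F (Function.update y i t))
          = (1 / (b * N : ℝ)) ^ 2 * Va (pw w : (Fin N × Fin N → T) → ℝ)
            (fun t => H (glue b N (Function.update y i t))) := by
        rw [← Va_const_mul]
      rw [this]
      calc (1 / (b * N : ℝ)) ^ 2 * Va (pw w : (Fin N × Fin N → T) → ℝ)
            (fun t => H (glue b N (Function.update y i t)))
          ≤ (1 / (b * N : ℝ)) ^ 2 * (θ * N ^ 2) := mul_le_mul_of_nonneg_left hv (by positivity)
        _ = θ / b ^ 2 := by field_simp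
    calc ∑ i, EE (pw (pw w : (Fin N × Fin N → T) → ℝ))
          (fun y => Va (pw w : (Fin N × Fin N → T) → ℝ) (fun t => F (Function.update y i t)))
        ≤ ∑ _i : Fin b × Fin b, θ / b ^ 2 := by
          apply Finset.sum_le_sum
          intro i _
          calc _ ≤ EE (pw (pw w : (Fin N × Fin N → T) → ℝ) :
                  (Fin b × Fin b → (Fin N × Fin N → T)) → ℝ) (fun _ => θ / b ^ 2) :=
                EE_mono hpp (fun y => hV i y)
            _ = θ / b ^ 2 := EE_const hpp _
      _ = θ := by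
          rw [Finset.sum_const, Finset.card_univ, Fintype.card_prod, Fintype.card_fin, nsmul_eq_mul]
          push_cast
          field_simp
  have h4 := hstep (Fin b × Fin b) (Fin N × Fin N → T) (pw w) hpw F
    (by rw [Fintype.card_prod, Fintype.card_fin]; ring) h1 h2 θ h3
  have h5 : Va (pw w) H = (b * N : ℝ) ^ 2 * Va (pw (pw w : (Fin N × Fin N → T) → ℝ)) F := by
    rw [Va_glue w b N H, hF, Va_const_mul]
    field_simp
  rw [h5]
  calc (b * N : ℝ) ^ 2 * Va (pw (pw w : (Fin N × Fin N → T) → ℝ)) F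
      ≤ (b * N : ℝ) ^ 2 * max a (θ - δ) := mul_le_mul_of_nonneg_left h4 (by positivity)
    _ = max a (θ - δ) * ((b * N : ℕ) : ℝ) ^ 2 := by push_cast; ring

/-- Module AW : Aizenman-Wehr lemma. -/
theorem aw (C a : ℝ) (hC : 0 < C) (ha : 0 < a) : ∃ N : ℕ, 0 < N ∧ ∀ (T : Type) [Fintype T] (w : T → ℝ),
    PW w → ∀ H : (Fin N × Fin N → T) → ℝ, OscSq C H → Va (pw w) H ≤ a * N ^ 2 := by
  obtain ⟨b, δ, hb, hδ, hstep⟩ := step C a hC ha
  have hind : ∀ k : ℕ, AWP C (b ^ k) (max a (C ^ 2 - k * δ)) := by
    intro k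
    induction k with
    | zero =>
      have := AWP_one hC
      simp only [pow_zero, Nat.cast_zero, zero_mul, sub_zero]
      exact AWP_mono (le_max_right _ _) this
    | succ k ih =>
      have hN : 0 < b ^ k := by
        have : 0 < b := by omega
        positivity
      have h := AWP_step hb hstep hN ih
      rw [pow_succ, mul_comm (b ^ k) b]
      refine AWP_mono ?_ h
      apply max_le (le_max_left _ _)
      rw [sub_le_iff_le_add]
      apply max_le
      · have := le_max_left a (C ^ 2 - ((k + 1 : ℕ) : ℝ) * δ)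
        linarith
      · have := le_max_right a (C ^ 2 - ((k + 1 : ℕ) : ℝ) * δ)
        push_cast at this ⊢
        linarith
  obtain ⟨k, hk⟩ := exists_nat_gt ((C ^ 2) / δ)
  refine ⟨b ^ k, ?_, ?_⟩
  · have : 0 < b := by omega
    positivity
  · intro T _ w hw H hH
    have h1 := hind k T w hw H hH
    have h2 : max a (C ^ 2 - k * δ) = a := by
      apply max_eq_left
      rw [div_lt_iff₀ hδ] at hk
      linarith
    rw [h2] at h1
    exact h1

end

end Pool.Agent.H42.TSP
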