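import Pool.Agent.H42.TSP.Basic

set_option autoImplicit false

namespace Pool.Agent.H42.TSP

open Finset
open scoped BigOperators

noncomputable section

namespace Asym

open Filter Topology

/-! ### shifts of sequences -/

lemma shift_mul {g : ℕ → ℝ} {t : ℝ} (hg : Tendsto (fun n : ℕ => (n : ℝ) * g n) atTop (𝓝 t)) (c : ℕ) :
    Tendsto (fun n : ℕ => (n : ℝ) * g (n + c)) atTop (𝓝 t) := by
  have h0 : Tendsto g atTop (𝓝 0) := ProbabilityTheory.tendsto_zero_of_tendsto_mul_atTop hg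
  have h1 : Tendsto (fun n : ℕ => ((n + c : ℕ) : ℝ) * g (n + c)) atTop (𝓝 t) :=
    (tendsto_add_atTop_iff_nat (f := fun n : ℕ => (n : ℝ) * g n) c).2 hg
  have h2 : Tendsto (fun n : ℕ => (c : ℝ) * g (n + c)) atTop (𝓝 ((c : ℝ) * 0)) :=
    ((tendsto_add_atTop_iff_nat (f := g) c).2 h0).const_mul _
  have h3 := h1.sub h2
  rw [mul_zero, sub_zero] at h3
  refine h3.congr (fun n => ?_)
  push_cast
  ring

lemma pow_shift {g : ℕ → ℝ} {t : ℝ} (hg : Tendsto (fun n : ℕ => (n : ℝ) * g n) atTop (𝓝 t)) (c : ℕ) :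
    Tendsto (fun n : ℕ => (1 + g n) ^ (n - c)) atTop (𝓝 (Real.exp t)) := by
  refine (tendsto_add_atTop_iff_nat (f := fun n : ℕ => (1 + g n) ^ (n - c)) c).1 ?_
  have := Real.tendsto_one_add_pow_exp_of_tendsto (shift_mul hg c)
  simpa using this

lemma choose_shift {p : ℕ → ℝ} {μ : ℝ} (hp : Tendsto (fun n : ℕ => (n : ℝ) * p n) atTop (𝓝 μ)) (c k : ℕ) :
    Tendsto (fun n : ℕ => ((n - c).choose k : ℝ) * p n ^ k) atTop (𝓝 (μ ^ k / k.factorial)) := by
  refine (tendsto_add_atTop_iff_nat (f := fun n : ℕ => ((n - c).choose k : ℝ) * p n ^ k) c).1 ?_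
  have := ProbabilityTheory.tendsto_choose_mul_pow_atTop k (shift_mul hp c)
  simpa using this

/-! ### differences of powers -/

lemma pow_diff_lower {x y : ℝ} (hx : 0 ≤ x) (hxy : x ≤ y) (M : ℕ) :
    (M : ℝ) * x ^ (M - 1) * (y - x) ≤ y ^ M - x ^ M := by
  rw [← geom_sum₂_mul y x M]
  refine mul_le_mul_of_nonneg_right ?_ (by linarith)
  have : ∀ i ∈ range M, x ^ (M - 1) ≤ y ^ i * x ^ (M - 1 - i) := by
    intro i hi
    have hi' : i < M := mem_range.1 hi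
    have e : M - 1 = i + (M - 1 - i) := by omega
    calc x ^ (M - 1) = x ^ i * x ^ (M - 1 - i) := by rw [← pow_add, ← e]
      _ ≤ y ^ i * x ^ (M - 1 - i) :=
        mul_le_mul_of_nonneg_right (pow_le_pow_left₀ hx hxy i) (pow_nonneg hx _)
  have h := Finset.card_nsmul_le_sum (range M) _ _ this
  simpa using h

lemma pow_diff_upper {x y : ℝ} (hx : 0 ≤ x) (hxy : x ≤ y) (M : ℕ) :
    y ^ M - x ^ M ≤ (M : ℝ) * y ^ (M - 1) * (y - x) := by
  rw [← geom_sum₂_mul y x M]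
  refine mul_le_mul_of_nonneg_right ?_ (by linarith)
  have : ∀ i ∈ range M, y ^ i * x ^ (M - 1 - i) ≤ y ^ (M - 1) := by
    intro i hi
    have hi' : i < M := mem_range.1 hi
    have e : M - 1 = i + (M - 1 - i) := by omega
    calc y ^ i * x ^ (M - 1 - i) ≤ y ^ i * y ^ (M - 1 - i) :=
        mul_le_mul_of_nonneg_left (pow_le_pow_left₀ hx hxy _) (pow_nonneg (hx.trans hxy) _)
      _ = y ^ (M - 1) := by rw [← pow_add, ← e]
  have h := Finset.sum_le_card_nsmul (range M) _ _ this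
  simpa using h

/-! ### the weights as functions of `p` -/

/-- binomial weight -/
def Q1 (n : ℕ) (p : ℝ) (a : ℕ) : ℝ := (n.choose a : ℝ) * p ^ a * (1 - p) ^ (n - a)

/-- trinomial weight -/
def Q2 (n : ℕ) (p : ℝ) (a b : ℕ) : ℝ := if a + b ≤ n then
  (n.choose a : ℝ) * ((n - a).choose b : ℝ) * p ^ (a + b) * (1 - 2 * p) ^ (n - a - b) else 0

lemma choose_mul_pow_le {n : ℕ} {p C : ℝ} (hp : 0 ≤ p) (hC : (n : ℝ) * p ≤ C) (a : ℕ) :
    (n.choose a : ℝ) * p ^ a ≤ C ^ a / a.factorial := by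
  have h1 : (n.choose a : ℝ) ≤ (n : ℝ) ^ a / a.factorial := Nat.choose_le_pow_div a n
  have hn : (0 : ℝ) ≤ n := Nat.cast_nonneg n
  calc (n.choose a : ℝ) * p ^ a ≤ (n : ℝ) ^ a / a.factorial * p ^ a :=
        mul_le_mul_of_nonneg_right h1 (pow_nonneg hp _)
    _ = ((n : ℝ) * p) ^ a / a.factorial := by rw [mul_pow]; ring
    _ ≤ C ^ a / a.factorial := by
        have : ((n : ℝ) * p) ^ a ≤ C ^ a := pow_le_pow_left₀ (mul_nonneg hn hp) hC a
        exact div_le_div_of_nonneg_right this (Nat.cast_nonneg _)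

lemma choose_diff_le (n b : ℕ) (a : ℕ) :
    (n.choose (b + 1) : ℝ) - ((n - a).choose (b + 1) : ℝ) ≤ a * (n.choose b : ℝ) := by
  induction a with
  | zero => simp
  | succ a ih =>
    have step : ((n - a).choose (b + 1) : ℝ) - ((n - (a + 1)).choose (b + 1) : ℝ) ≤ (n.choose b : ℝ) := by
      rcases Nat.lt_or_ge a n with h | h
      · obtain ⟨m, hm⟩ : ∃ m, n - a = m + 1 := ⟨n - a - 1, by omega⟩
        have hm' : n - (a + 1) = m := by omega
        rw [hm, hm', Nat.choose_succ_succ]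
        push_cast
        have : (m.choose b : ℝ) ≤ (n.choose b : ℝ) := by
          exact_mod_cast Nat.choose_le_choose b (by omega)
        linarith
      · have e1 : n - a = 0 := by omega
        have e2 : n - (a + 1) = 0 := by omega
        rw [e1, e2]
        simp
    push_cast
    nlinarith [ih, step]

lemma choose_diff_nonneg (n b a : ℕ) :
    0 ≤ (n.choose b : ℝ) - ((n - a).choose b : ℝ) := by
  have : ((n - a).choose b : ℝ) ≤ (n.choose b : ℝ) := by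
    exact_mod_cast Nat.choose_le_choose b (by omega)
  linarith

/-- `n p^b (C(n,b) - C(n-a,b)) ≤ a b C^b / b!` -/
lemma choose_diff_bound {n : ℕ} {p C : ℝ} (hp : 0 ≤ p) (hC0 : 0 ≤ C) (hC : (n : ℝ) * p ≤ C) (a b : ℕ) :
    (n : ℝ) * (p ^ b * ((n.choose b : ℝ) - ((n - a).choose b : ℝ))) ≤ a * b * (C ^ b / b.factorial) := by
  cases b with
  | zero => simp
  | succ b =>
    have h1 := choose_diff_le n b a
    have h2 := choose_mul_pow_le hp hC b
    have hn : (0 : ℝ) ≤ n := Nat.cast_nonneg n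
    have ha : (0 : ℝ) ≤ a := Nat.cast_nonneg a
    have hcb : (0 : ℝ) ≤ (n.choose b : ℝ) := Nat.cast_nonneg _
    have hpb : 0 ≤ p ^ b := pow_nonneg hp _
    calc (n : ℝ) * (p ^ (b + 1) * ((n.choose (b + 1) : ℝ) - ((n - a).choose (b + 1) : ℝ)))
        ≤ (n : ℝ) * (p ^ (b + 1) * (a * (n.choose b : ℝ))) := by gcongr
      _ = (a : ℝ) * (((n : ℝ) * p) * ((n.choose b : ℝ) * p ^ b)) := by rw [pow_succ]; ring
      _ ≤ (a : ℝ) * (C * (C ^ b / b.factorial)) := by gcongr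
      _ = a * ((b + 1 : ℕ) : ℝ) * (C ^ (b + 1) / (b + 1).factorial) := by
          rw [Nat.factorial_succ, pow_succ]
          push_cast
          have : ((b : ℝ) + 1) ≠ 0 := by positivity
          have hf : (b.factorial : ℝ) ≠ 0 := by positivity
          field_simp

/-- the limit of `n p^b (C(n,b) - C(n-a,b))` exists -/
lemma choose_diff_tendsto {p : ℕ → ℝ} {μ : ℝ} (hp : Tendsto (fun n : ℕ => (n : ℝ) * p n) atTop (𝓝 μ)) (a b : ℕ) :
    ∃ c : ℝ, Tendsto (fun n : ℕ => (n : ℝ) * (p n ^ b * ((n.choose b : ℝ) - ((n - a).choose b : ℝ)))) atTop (𝓝 c) := by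
  cases b with
  | zero => exact ⟨0, by simp⟩
  | succ b =>
    induction a with
    | zero => exact ⟨0, by simp⟩
    | succ a ih =>
      obtain ⟨c, hc⟩ := ih
      have h1 := hp.mul (choose_shift hp (a + 1) b)
      refine ⟨_, (hc.add h1).congr' ?_⟩
      filter_upwards [eventually_ge_atTop (a + 1)] with n hn
      obtain ⟨m, hm⟩ : ∃ m, n - a = m + 1 := ⟨n - a - 1, by omega⟩
      have hm' : n - (a + 1) = m := by omega
      rw [hm, hm', Nat.choose_succ_succ m b]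
      push_cast
      ring

/-! ### the covariance -/

lemma Q_diff_eq {n a b : ℕ} (p : ℝ) (h : a + b ≤ n) :
    (n : ℝ) * (Q2 n p a b - Q1 n p a * Q1 n p b) =
      ((n.choose a : ℝ) * ((n - a).choose b : ℝ) * p ^ (a + b)) *
        ((n : ℝ) * ((1 - 2 * p) ^ (n - (a + b)) - ((1 - p) ^ 2) ^ (n - (a + b)) * (1 - p) ^ (a + b)))
      - ((n.choose a : ℝ) * p ^ a) * ((n : ℝ) * (p ^ b * ((n.choose b : ℝ) - ((n - a).choose b : ℝ)))) *
        (((1 - p) ^ 2) ^ (n - (a + b)) * (1 - p) ^ (a + b)) := by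
  have e1 : n - a - b = n - (a + b) := by omega
  have e2 : (1 - p) ^ (n - a) * (1 - p) ^ (n - b) = ((1 - p) ^ 2) ^ (n - (a + b)) * (1 - p) ^ (a + b) := by
    rw [← pow_mul, ← pow_add, ← pow_add]
    congr 1
    omega
  have e3 : Q1 n p a * Q1 n p b = (n.choose a : ℝ) * (n.choose b : ℝ) * p ^ (a + b) *
      (((1 - p) ^ 2) ^ (n - (a + b)) * (1 - p) ^ (a + b)) := by
    rw [← e2, Q1, Q1, pow_add]
    ring
  rw [e3, Q2, if_pos h, e1, pow_add p a b]
  ring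

/-- the analytic bound -/
lemma pow_part_bound {n k : ℕ} {p C : ℝ} (hp : 0 ≤ p) (hp2 : 2 * p ≤ 1) (hC : (n : ℝ) * p ≤ C) :
    |(n : ℝ) * ((1 - 2 * p) ^ (n - k) - ((1 - p) ^ 2) ^ (n - k) * (1 - p) ^ k)| ≤ C ^ 2 + k * C := by
  have hn : (0 : ℝ) ≤ n := Nat.cast_nonneg n
  have hk : (0 : ℝ) ≤ k := Nat.cast_nonneg k
  have hx : 0 ≤ 1 - 2 * p := by linarith
  have hxy : 1 - 2 * p ≤ (1 - p) ^ 2 := by nlinarith [sq_nonneg p]
  have hy0 : 0 ≤ (1 - p) ^ 2 := sq_nonneg _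
  have hy1 : (1 - p) ^ 2 ≤ 1 := by nlinarith
  have h1p : 0 ≤ 1 - p := by linarith
  have hup := pow_diff_upper hx hxy (n - k)
  have hlo : 0 ≤ ((1 - p) ^ 2) ^ (n - k) - (1 - 2 * p) ^ (n - k) := by
    have := pow_le_pow_left₀ hx hxy (n - k)
    linarith
  have hM : ((n - k : ℕ) : ℝ) ≤ n := by exact_mod_cast Nat.sub_le n k
  have hyM : ((1 - p) ^ 2) ^ (n - k - 1) ≤ 1 := pow_le_one₀ hy0 hy1
  have hyM0 : 0 ≤ ((1 - p) ^ 2) ^ (n - k - 1) := pow_nonneg hy0 _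
  have hup2 : ((1 - p) ^ 2) ^ (n - k) - (1 - 2 * p) ^ (n - k) ≤ (n : ℝ) * p ^ 2 := by
    have e : (1 - p) ^ 2 - (1 - 2 * p) = p ^ 2 := by ring
    rw [e] at hup
    have hp22 : 0 ≤ p ^ 2 := sq_nonneg p
    calc _ ≤ _ := hup
      _ ≤ (n : ℝ) * 1 * p ^ 2 := by gcongr
      _ = (n : ℝ) * p ^ 2 := by ring
  have hb : 1 - (1 - p) ^ k ≤ k * p := by
    have := one_add_mul_le_pow (a := -p) (by linarith) k
    have e : 1 + -p = 1 - p := by ring
    rw [e] at this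
    linarith
  have hb0 : 0 ≤ 1 - (1 - p) ^ k := by
    have := pow_le_one₀ (n := k) h1p (by linarith)
    linarith
  have hY0 : 0 ≤ ((1 - p) ^ 2) ^ (n - k) := pow_nonneg hy0 _
  have hY1 : ((1 - p) ^ 2) ^ (n - k) ≤ 1 := pow_le_one₀ hy0 hy1
  have hnp : 0 ≤ (n : ℝ) * p := mul_nonneg hn hp
  have T1 : (n : ℝ) * (((1 - p) ^ 2) ^ (n - k) - (1 - 2 * p) ^ (n - k)) ≤ C ^ 2 := by
    calc (n : ℝ) * (((1 - p) ^ 2) ^ (n - k) - (1 - 2 * p) ^ (n - k)) ≤ (n : ℝ) * ((n : ℝ) * p ^ 2) := by gcongr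
      _ = ((n : ℝ) * p) ^ 2 := by ring
      _ ≤ C ^ 2 := pow_le_pow_left₀ hnp hC 2
  have T2 : (n : ℝ) * (((1 - p) ^ 2) ^ (n - k) * (1 - (1 - p) ^ k)) ≤ k * C := by
    calc (n : ℝ) * (((1 - p) ^ 2) ^ (n - k) * (1 - (1 - p) ^ k)) ≤ (n : ℝ) * (1 * (k * p)) := by gcongr
      _ = k * ((n : ℝ) * p) := by ring
      _ ≤ k * C := by gcongr
  have T1' : 0 ≤ (n : ℝ) * (((1 - p) ^ 2) ^ (n - k) - (1 - 2 * p) ^ (n - k)) := mul_nonneg hn hlo
  have T2' : 0 ≤ (n : ℝ) * (((1 - p) ^ 2) ^ (n - k) * (1 - (1 - p) ^ k)) := mul_nonneg hn (mul_nonneg hY0 hb0)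
  have E : (n : ℝ) * ((1 - 2 * p) ^ (n - k) - ((1 - p) ^ 2) ^ (n - k) * (1 - p) ^ k)
      = (n : ℝ) * (((1 - p) ^ 2) ^ (n - k) * (1 - (1 - p) ^ k))
        - (n : ℝ) * (((1 - p) ^ 2) ^ (n - k) - (1 - 2 * p) ^ (n - k)) := by ring
  rw [E, abs_le]
  constructor <;> nlinarith

lemma Q1_nonneg {n : ℕ} {p : ℝ} (hp : 0 ≤ p) (hp2 : 2 * p ≤ 1) (a : ℕ) : 0 ≤ Q1 n p a := by
  have h1p : 0 ≤ 1 - p := by linarith
  unfold Q1
  positivity

lemma Q1_le {n : ℕ} {p C : ℝ} (hp : 0 ≤ p) (hp2 : 2 * p ≤ 1) (hC : (n : ℝ) * p ≤ C) (a : ℕ) :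
    Q1 n p a ≤ C ^ a / a.factorial := by
  have h1p : 0 ≤ 1 - p := by linarith
  have h := choose_mul_pow_le hp hC a
  have h2 : (1 - p) ^ (n - a) ≤ 1 := pow_le_one₀ h1p (by linarith)
  have h0 : 0 ≤ (n.choose a : ℝ) * p ^ a := by positivity
  calc Q1 n p a ≤ (n.choose a : ℝ) * p ^ a * 1 := by unfold Q1; gcongr
    _ ≤ _ := by rw [mul_one]; exact h

lemma choose2_le {n : ℕ} {p C : ℝ} (hp : 0 ≤ p) (hC0 : 0 ≤ C) (hC : (n : ℝ) * p ≤ C) (a b : ℕ) :
    (n.choose a : ℝ) * ((n - a).choose b : ℝ) * p ^ (a + b) ≤ C ^ a / a.factorial * (C ^ b / b.factorial) := by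
  have h1 := choose_mul_pow_le hp hC a
  have h2 := choose_mul_pow_le hp hC b
  have h3 : ((n - a).choose b : ℝ) ≤ (n.choose b : ℝ) := by
    exact_mod_cast Nat.choose_le_choose b (by omega)
  calc (n.choose a : ℝ) * ((n - a).choose b : ℝ) * p ^ (a + b)
      ≤ (n.choose a : ℝ) * (n.choose b : ℝ) * p ^ (a + b) := by gcongr
    _ = ((n.choose a : ℝ) * p ^ a) * ((n.choose b : ℝ) * p ^ b) := by rw [pow_add]; ring
    _ ≤ _ := by gcongr

lemma Q2_abs_le {n : ℕ} {p C : ℝ} (hp : 0 ≤ p) (hp2 : 2 * p ≤ 1) (hC0 : 0 ≤ C) (hC : (n : ℝ) * p ≤ C)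
    (a b : ℕ) : |Q2 n p a b| ≤ C ^ a / a.factorial * (C ^ b / b.factorial) := by
  have h1p : 0 ≤ 1 - 2 * p := by linarith
  unfold Q2
  split_ifs with h
  · have h1 := choose2_le hp hC0 hC a b
    have h2 : (1 - 2 * p) ^ (n - a - b) ≤ 1 := pow_le_one₀ h1p (by linarith)
    rw [abs_of_nonneg (by positivity)]
    calc _ ≤ (n.choose a : ℝ) * ((n - a).choose b : ℝ) * p ^ (a + b) * 1 := by gcongr
      _ ≤ _ := by rw [mul_one]; exact h1
  · rw [abs_zero]; positivity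

lemma Q_diff_bound {n : ℕ} {p C : ℝ} (hp : 0 ≤ p) (hp2 : 2 * p ≤ 1) (hC0 : 0 ≤ C) (hC : (n : ℝ) * p ≤ C)
    (a b : ℕ) : |(n : ℝ) * (Q2 n p a b - Q1 n p a * Q1 n p b)| ≤
      (C ^ a / a.factorial * (a + C + 1)) * (C ^ b / b.factorial * (b + C + 1)) := by
  have ha : (0 : ℝ) ≤ a := Nat.cast_nonneg a
  have hb : (0 : ℝ) ≤ b := Nat.cast_nonneg b
  have hA : 0 ≤ C ^ a / a.factorial := by positivity
  have hB : 0 ≤ C ^ b / b.factorial := by positivity
  have hAB : 0 ≤ C ^ a / a.factorial * (C ^ b / b.factorial) := mul_nonneg hA hB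
  by_cases h : a + b ≤ n
  · rw [Q_diff_eq p h]
    have h1p : 0 ≤ 1 - p := by linarith
    have hy1 : (1 - p) ^ 2 ≤ 1 := by nlinarith
    have b1 := choose2_le hp hC0 hC a b
    have b1' : 0 ≤ (n.choose a : ℝ) * ((n - a).choose b : ℝ) * p ^ (a + b) := by positivity
    have b2 := pow_part_bound (k := a + b) hp hp2 hC
    have b3 := choose_mul_pow_le hp hC a
    have b3' : 0 ≤ (n.choose a : ℝ) * p ^ a := by positivity
    have b4 := choose_diff_bound hp hC0 hC a b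
    have b4' : 0 ≤ (n : ℝ) * (p ^ b * ((n.choose b : ℝ) - ((n - a).choose b : ℝ))) :=
      mul_nonneg (Nat.cast_nonneg n) (mul_nonneg (pow_nonneg hp _) (choose_diff_nonneg n b a))
    have b5 : ((1 - p) ^ 2) ^ (n - (a + b)) * (1 - p) ^ (a + b) ≤ 1 := by
      have u1 : ((1 - p) ^ 2) ^ (n - (a + b)) ≤ 1 := pow_le_one₀ (sq_nonneg _) hy1
      have u2 : (1 - p) ^ (a + b) ≤ 1 := pow_le_one₀ h1p (by linarith)
      exact mul_le_one₀ u1 (pow_nonneg h1p _) u2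
    have b5' : 0 ≤ ((1 - p) ^ 2) ^ (n - (a + b)) * (1 - p) ^ (a + b) := by positivity
    refine (abs_sub _ _).trans ?_
    rw [abs_mul, abs_of_nonneg b1', abs_of_nonneg (mul_nonneg (mul_nonneg b3' b4') b5')]
    calc _ ≤ (C ^ a / a.factorial * (C ^ b / b.factorial)) * (C ^ 2 + ((a + b : ℕ) : ℝ) * C)
          + (C ^ a / a.factorial) * (a * b * (C ^ b / b.factorial)) * 1 := by gcongr
      _ = C ^ a / a.factorial * (C ^ b / b.factorial) * ((a + C) * (b + C)) := by push_cast; ring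
      _ ≤ C ^ a / a.factorial * (C ^ b / b.factorial) * ((a + C + 1) * (b + C + 1)) :=
          mul_le_mul_of_nonneg_left
            (mul_le_mul (by linarith) (by linarith) (by linarith) (by linarith)) hAB
      _ = _ := by ring
  · have h2 : Q2 n p a b = 0 := by unfold Q2; rw [if_neg h]
    have hn : (n : ℝ) ≤ a + b := by
      have : n ≤ a + b := by omega
      exact_mod_cast this
    have q1 := Q1_le hp hp2 hC a
    have q1' := Q1_nonneg (n := n) hp hp2 a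
    have q2 := Q1_le hp hp2 hC b
    have q2' := Q1_nonneg (n := n) hp hp2 b
    rw [h2, zero_sub, mul_neg, abs_neg, abs_of_nonneg (by positivity)]
    calc (n : ℝ) * (Q1 n p a * Q1 n p b) ≤ ((a : ℝ) + b) * (C ^ a / a.factorial * (C ^ b / b.factorial)) := by
          gcongr
      _ = C ^ a / a.factorial * (C ^ b / b.factorial) * (a + b) := by ring
      _ ≤ C ^ a / a.factorial * (C ^ b / b.factorial) * ((a + C + 1) * (b + C + 1)) := by
          gcongr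
          nlinarith [mul_nonneg ha hb, mul_nonneg ha hC0, mul_nonneg hb hC0, mul_nonneg hC0 hC0]
      _ = _ := by ring

/-! ### pointwise limits -/

lemma pow_part_tendsto {p : ℕ → ℝ} {μ : ℝ} (hp : Tendsto (fun n : ℕ => (n : ℝ) * p n) atTop (𝓝 μ))
    (hp0 : ∀ᶠ n in atTop, 0 ≤ p n ∧ 2 * p n ≤ 1) (k : ℕ) :
    ∃ c : ℝ, Tendsto (fun n : ℕ => (n : ℝ) * ((1 - 2 * p n) ^ (n - k)
      - ((1 - p n) ^ 2) ^ (n - k) * (1 - p n) ^ k)) atTop (𝓝 c) := by
  have hp1 : Tendsto p atTop (𝓝 0) := ProbabilityTheory.tendsto_zero_of_tendsto_mul_atTop hp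
  -- first part
  have hx : Tendsto (fun n : ℕ => (n : ℝ) * (-(2 * p n))) atTop (𝓝 (-(2 * μ))) := by
    have := (hp.const_mul 2).neg
    refine this.congr (fun n => by ring)
  have hy : Tendsto (fun n : ℕ => (n : ℝ) * ((1 - p n) ^ 2 - 1)) atTop (𝓝 (-(2 * μ))) := by
    have h1 : Tendsto (fun n : ℕ => (n : ℝ) * p n * (p n - 2)) atTop (𝓝 (μ * (0 - 2))) :=
      hp.mul (hp1.sub_const 2)
    have e : μ * (0 - 2) = -(2 * μ) := by ring
    rw [e] at h1
    refine h1.congr (fun n => by ring)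
  have hMp : Tendsto (fun n : ℕ => ((n - k : ℕ) : ℝ) * p n) atTop (𝓝 μ) := by
    have := choose_shift hp k 1
    simpa using this
  have lowL : Tendsto (fun n : ℕ => ((n : ℝ) * p n) * (((n - k : ℕ) : ℝ) * p n) *
      (1 + (-(2 * p n))) ^ (n - (k + 1))) atTop (𝓝 (μ * μ * Real.exp (-(2 * μ)))) :=
    (hp.mul hMp).mul (pow_shift hx (k + 1))
  have upL : Tendsto (fun n : ℕ => ((n : ℝ) * p n) * (((n - k : ℕ) : ℝ) * p n) *
      (1 + ((1 - p n) ^ 2 - 1)) ^ (n - (k + 1))) atTop (𝓝 (μ * μ * Real.exp (-(2 * μ)))) :=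
    (hp.mul hMp).mul (pow_shift hy (k + 1))
  have L1 : Tendsto (fun n : ℕ => (n : ℝ) * (((1 - p n) ^ 2) ^ (n - k) - (1 - 2 * p n) ^ (n - k)))
      atTop (𝓝 (μ * μ * Real.exp (-(2 * μ)))) := by
    refine tendsto_of_tendsto_of_tendsto_of_le_of_le' lowL upL ?_ ?_
    · filter_upwards [hp0] with n ⟨h0, h2⟩
      have hn : (0 : ℝ) ≤ n := Nat.cast_nonneg n
      have h := pow_diff_lower (x := 1 - 2 * p n) (y := (1 - p n) ^ 2) (by linarith)
        (by nlinarith [sq_nonneg (p n)]) (n - k)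
      have e : (1 - p n) ^ 2 - (1 - 2 * p n) = p n ^ 2 := by ring
      rw [e] at h
      have e2 : n - (k + 1) = n - k - 1 := by omega
      have e3 : 1 + (-(2 * p n)) = 1 - 2 * p n := by ring
      rw [e2, e3]
      calc _ = (n : ℝ) * (((n - k : ℕ) : ℝ) * (1 - 2 * p n) ^ (n - k - 1) * p n ^ 2) := by ring
        _ ≤ _ := mul_le_mul_of_nonneg_left h hn
    · filter_upwards [hp0] with n ⟨h0, h2⟩
      have hn : (0 : ℝ) ≤ n := Nat.cast_nonneg n
      have h := pow_diff_upper (x := 1 - 2 * p n) (y := (1 - p n) ^ 2) (by linarith)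
        (by nlinarith [sq_nonneg (p n)]) (n - k)
      have e : (1 - p n) ^ 2 - (1 - 2 * p n) = p n ^ 2 := by ring
      rw [e] at h
      have e2 : n - (k + 1) = n - k - 1 := by omega
      have e3 : 1 + ((1 - p n) ^ 2 - 1) = (1 - p n) ^ 2 := by ring
      rw [e2, e3]
      calc _ ≤ (n : ℝ) * (((n - k : ℕ) : ℝ) * ((1 - p n) ^ 2) ^ (n - k - 1) * p n ^ 2) :=
            mul_le_mul_of_nonneg_left h hn
        _ = _ := by ring
  -- second part
  have L2 : ∃ c : ℝ, Tendsto (fun n : ℕ => (n : ℝ) * (1 - (1 - p n) ^ k)) atTop (𝓝 c) := by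
    have h1 : ∀ n : ℕ, (n : ℝ) * (1 - (1 - p n) ^ k) = ((n : ℝ) * p n) * ∑ i ∈ range k, (1 - p n) ^ i := by
      intro n
      have := geom_sum_mul (1 - p n) k
      have e : (∑ i ∈ range k, (1 - p n) ^ i) * p n = 1 - (1 - p n) ^ k := by linarith
      rw [← e]; ring
    have h2 : Tendsto (fun n : ℕ => ∑ i ∈ range k, (1 - p n) ^ i) atTop (𝓝 (∑ i ∈ range k, (1 - (0 : ℝ)) ^ i)) :=
      tendsto_finsetSum _ (fun i _ => (hp1.const_sub 1).pow i)
    exact ⟨_, (hp.mul h2).congr (fun n => (h1 n).symm)⟩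
  obtain ⟨c2, hc2⟩ := L2
  have L3 : Tendsto (fun n : ℕ => (1 + ((1 - p n) ^ 2 - 1)) ^ (n - k)) atTop (𝓝 (Real.exp (-(2 * μ)))) :=
    pow_shift hy k
  refine ⟨_, ((L3.mul hc2).sub L1).congr (fun n => ?_)⟩
  have e3 : 1 + ((1 - p n) ^ 2 - 1) = (1 - p n) ^ 2 := by ring
  rw [e3]
  ring

lemma Q_diff_tendsto {p : ℕ → ℝ} {μ : ℝ} (hp : Tendsto (fun n : ℕ => (n : ℝ) * p n) atTop (𝓝 μ))
    (hp0 : ∀ᶠ n in atTop, 0 ≤ p n ∧ 2 * p n ≤ 1) (a b : ℕ) :
    ∃ c : ℝ, Tendsto (fun n : ℕ => (n : ℝ) * (Q2 n (p n) a b - Q1 n (p n) a * Q1 n (p n) b)) atTop (𝓝 c) := by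
  have hp1 : Tendsto p atTop (𝓝 0) := ProbabilityTheory.tendsto_zero_of_tendsto_mul_atTop hp
  obtain ⟨c1, h1⟩ := pow_part_tendsto hp hp0 (a + b)
  obtain ⟨c2, h2⟩ := choose_diff_tendsto hp a b
  have h3 := ProbabilityTheory.tendsto_choose_mul_pow_atTop a hp
  have h4 : Tendsto (fun n : ℕ => (n.choose a : ℝ) * ((n - a).choose b : ℝ) * p n ^ (a + b)) atTop
      (𝓝 (μ ^ a / a.factorial * (μ ^ b / b.factorial))) := by
    refine (h3.mul (choose_shift hp a b)).congr (fun n => ?_)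
    rw [pow_add]; ring
  have hy : Tendsto (fun n : ℕ => (n : ℝ) * ((1 - p n) ^ 2 - 1)) atTop (𝓝 (-(2 * μ))) := by
    have h1 : Tendsto (fun n : ℕ => (n : ℝ) * p n * (p n - 2)) atTop (𝓝 (μ * (0 - 2))) :=
      hp.mul (hp1.sub_const 2)
    have e : μ * (0 - 2) = -(2 * μ) := by ring
    rw [e] at h1
    refine h1.congr (fun n => by ring)
  have L3 : Tendsto (fun n : ℕ => ((1 - p n) ^ 2) ^ (n - (a + b)) * (1 - p n) ^ (a + b)) atTop
      (𝓝 (Real.exp (-(2 * μ)) * (1 - 0) ^ (a + b))) := by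
    refine ((pow_shift hy (a + b)).mul ((hp1.const_sub 1).pow (a + b))).congr (fun n => ?_)
    have e3 : 1 + ((1 - p n) ^ 2 - 1) = (1 - p n) ^ 2 := by ring
    rw [e3]
  refine ⟨_, ((h4.mul h1).sub ((h3.mul h2).mul L3)).congr' ?_⟩
  filter_upwards [eventually_ge_atTop (a + b)] with n hn
  exact (Q_diff_eq (p n) hn).symm

lemma Q2_tendsto {p : ℕ → ℝ} {μ : ℝ} (hp : Tendsto (fun n : ℕ => (n : ℝ) * p n) atTop (𝓝 μ)) (a b : ℕ) :
    ∃ c : ℝ, Tendsto (fun n : ℕ => Q2 n (p n) a b) atTop (𝓝 c) := by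
  have h3 := ProbabilityTheory.tendsto_choose_mul_pow_atTop a hp
  have h4 : Tendsto (fun n : ℕ => (n.choose a : ℝ) * ((n - a).choose b : ℝ) * p n ^ (a + b)) atTop
      (𝓝 (μ ^ a / a.factorial * (μ ^ b / b.factorial))) := by
    refine (h3.mul (choose_shift hp a b)).congr (fun n => ?_)
    rw [pow_add]; ring
  have hx : Tendsto (fun n : ℕ => (n : ℝ) * (-(2 * p n))) atTop (𝓝 (-(2 * μ))) := by
    have := (hp.const_mul 2).neg
    refine this.congr (fun n => by ring)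
  refine ⟨_, (h4.mul (pow_shift hx (a + b))).congr' ?_⟩
  filter_upwards [eventually_ge_atTop (a + b)] with n hn
  have e1 : n - a - b = n - (a + b) := by omega
  have e3 : 1 + (-(2 * p n)) = 1 - 2 * p n := by ring
  rw [Q2, if_pos hn, e1, e3]

/-! ### summability of the bounds -/

/-- the dominating sequence -/
def bd (C K : ℝ) (a : ℕ) : ℝ := C ^ a / a.factorial * (a + C + 1) * (K * a)

lemma bd_nonneg {C K : ℝ} (hC : 0 ≤ C) (hK : 0 ≤ K) (a : ℕ) : 0 ≤ bd C K a := by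
  unfold bd; positivity

lemma sq_le_four_pow (a : ℕ) : (a : ℝ) ^ 2 ≤ 4 ^ a := by
  have h : (a : ℝ) ≤ 2 ^ a := by exact_mod_cast (Nat.lt_two_pow_self (n := a)).le
  calc (a : ℝ) ^ 2 ≤ (2 ^ a) ^ 2 := pow_le_pow_left₀ (Nat.cast_nonneg a) h 2
    _ = 4 ^ a := by rw [← pow_mul, mul_comm a 2, pow_mul]; norm_num

lemma bd_summable {C K : ℝ} (hC : 0 ≤ C) (hK : 0 ≤ K) : Summable (bd C K) := by
  have h1 : Summable (fun a : ℕ => ((C + 2) * K) * ((C * 4) ^ a / a.factorial)) :=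
    (Real.summable_pow_div_factorial (C * 4)).mul_left _
  refine Summable.of_nonneg_of_le (bd_nonneg hC hK) (fun a => ?_) h1
  have ha : (0 : ℝ) ≤ a := Nat.cast_nonneg a
  have h2 : ((a : ℝ) + C + 1) * a ≤ (C + 2) * (4 : ℝ) ^ a := by
    rcases Nat.eq_zero_or_pos a with rfl | hpos
    · simp; linarith
    · have ha1 : (1 : ℝ) ≤ a := by exact_mod_cast hpos
      have h3 := sq_le_four_pow a
      calc ((a : ℝ) + C + 1) * a ≤ ((C + 2) * a) * a := by
            refine mul_le_mul_of_nonneg_right ?_ ha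
            nlinarith
        _ = (C + 2) * (a : ℝ) ^ 2 := by ring
        _ ≤ _ := by gcongr
  calc bd C K a = C ^ a / a.factorial * (((a : ℝ) + C + 1) * a) * K := by unfold bd; ring
    _ ≤ C ^ a / a.factorial * ((C + 2) * (4 : ℝ) ^ a) * K := by gcongr
    _ = _ := by rw [mul_pow]; ring

/-! ### sums -/

lemma Q1_zero {n a : ℕ} (p : ℝ) (h : a ∉ range (n + 1)) : Q1 n p a = 0 := by
  have : n < a := by simpa [Nat.lt_succ_iff] using h
  unfold Q1
  rw [Nat.choose_eq_zero_of_lt this]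
  simp

lemma Q2_zero {n : ℕ} {x : ℕ × ℕ} (p : ℝ) (h : x ∉ range (n + 1) ×ˢ range (n + 1)) : Q2 n p x.1 x.2 = 0 := by
  unfold Q2
  rw [if_neg]
  intro h'
  apply h
  rw [mem_product, mem_range, mem_range]
  constructor <;> omega

lemma Q11_zero {n : ℕ} {x : ℕ × ℕ} (p : ℝ) (h : x ∉ range (n + 1) ×ˢ range (n + 1)) :
    Q1 n p x.1 * Q1 n p x.2 = 0 := by
  rw [mem_product, not_and_or] at h
  rcases h with h | h
  · rw [Q1_zero p h, zero_mul]
  · rw [Q1_zero p h, mul_zero]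

lemma sum_eq1 (n : ℕ) (p : ℝ) (s : ℕ → ℝ) :
    ∑ a ∈ range (n + 1), Q1 n p a * s a = ∑' a, Q1 n p a * s a := by
  rw [tsum_eq_sum (s := range (n + 1))]
  intro a ha
  rw [Q1_zero p ha, zero_mul]

lemma sum_eq2 (n : ℕ) (p : ℝ) (l : ℕ → ℝ) :
    ∑ a ∈ range (n + 1), ∑ b ∈ range (n + 1), Q2 n p a b * (l a * l b)
      = ∑' x : ℕ × ℕ, Q2 n p x.1 x.2 * (l x.1 * l x.2) := by
  rw [tsum_eq_sum (s := range (n + 1) ×ˢ range (n + 1)), sum_product]
  intro x hx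
  rw [Q2_zero p hx, zero_mul]

lemma sum_eq3 (n : ℕ) (p : ℝ) (l : ℕ → ℝ) :
    (n : ℝ) * (∑ a ∈ range (n + 1), ∑ b ∈ range (n + 1), Q2 n p a b * (l a * l b)
      - (∑ a ∈ range (n + 1), Q1 n p a * l a) ^ 2)
      = ∑' x : ℕ × ℕ, ((n : ℝ) * (Q2 n p x.1 x.2 - Q1 n p x.1 * Q1 n p x.2)) * (l x.1 * l x.2) := by
  rw [tsum_eq_sum (s := range (n + 1) ×ˢ range (n + 1)), sum_product, sq, sum_mul_sum,
    ← sum_sub_distrib, mul_sum]
  · refine sum_congr rfl (fun a _ => ?_)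
    rw [← sum_sub_distrib, mul_sum]
    refine sum_congr rfl (fun b _ => ?_)
    ring
  · intro x hx
    rw [Q2_zero p hx, Q11_zero p hx, sub_zero, mul_zero, zero_mul]

end Asym

open Asym Filter Topology in
/-- Module V : multinomial asymptotics. With `π` = Poisson(μ) weights the limit is
`∑ π s - (∑ π l)² - (∑ π(a) (a-μ) l(a))² / μ`. (Dominated convergence: `n |q2 - q1 q1| ≤ C^{a+b}/(a! b!) (ab + μ² + (a+b) μ)`.) -/
theorem Vf_tendsto (l s : ℕ → ℝ) (K : ℝ) (hl : ∀ a : ℕ, |l a| ≤ K * a) (hs : ∀ a : ℕ, |s a| ≤ K * a ^ 2)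
    (B : ℕ → ℕ) (μ : ℝ) (hμ : 0 < μ)
    (hB : Filter.Tendsto (fun n : ℕ => (n : ℝ) / B n) Filter.atTop (nhds μ)) :
    ∃ c : ℝ, Filter.Tendsto (fun n => Vf n (B n) l s) Filter.atTop (nhds c) := by
  have hK : 0 ≤ K := by
    have h := hl 1
    have h0 := abs_nonneg (l 1)
    have : |l 1| ≤ K := by simpa using h
    linarith
  set p : ℕ → ℝ := fun n => 1 / (B n : ℝ) with hpdef
  have hp : Tendsto (fun n : ℕ => (n : ℝ) * p n) atTop (𝓝 μ) := by
    refine hB.congr (fun n => ?_)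
    rw [hpdef]; ring
  have hp1 : Tendsto p atTop (𝓝 0) := ProbabilityTheory.tendsto_zero_of_tendsto_mul_atTop hp
  have hp0 : ∀ᶠ n in atTop, 0 ≤ p n ∧ 2 * p n ≤ 1 := by
    have : ∀ᶠ n in atTop, p n < 1 / 2 := hp1.eventually (Iio_mem_nhds (by norm_num))
    filter_upwards [this] with n hn
    refine ⟨by rw [hpdef]; positivity, by linarith⟩
  have hBpos : ∀ᶠ n in atTop, (0 : ℝ) < B n := by
    have : ∀ᶠ n : ℕ in atTop, 0 < (n : ℝ) / B n := hB.eventually (Ioi_mem_nhds hμ)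
    filter_upwards [this] with n hn
    rcases Nat.eq_zero_or_pos (B n) with h | h
    · rw [h] at hn; simp at hn
    · exact_mod_cast h
  have hCev : ∀ᶠ n : ℕ in atTop, (n : ℝ) * p n ≤ μ + 1 := by
    have : ∀ᶠ n : ℕ in atTop, (n : ℝ) * p n < μ + 1 := hp.eventually (Iio_mem_nhds (by linarith))
    filter_upwards [this] with n hn using hn.le
  set C : ℝ := μ + 1 with hCdef
  have hC0 : 0 ≤ C := by rw [hCdef]; linarith
  have hsum := bd_summable hC0 hK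
  have hsum2 : Summable (fun x : ℕ × ℕ => bd C K x.1 * bd C K x.2) :=
    hsum.mul_of_nonneg hsum (bd_nonneg hC0 hK) (bd_nonneg hC0 hK)
  -- first term
  have T1 : ∃ c : ℝ, Tendsto (fun n : ℕ => ∑' a, Q1 n (p n) a * s a) atTop (𝓝 c) := by
    refine ⟨_, tendsto_tsum_of_dominated_convergence (bound := fun a => K * ((C * 4) ^ a / a.factorial))
      ((Real.summable_pow_div_factorial (C * 4)).mul_left _)
      (fun a => (ProbabilityTheory.tendsto_choose_mul_pow_of_tendsto_mul_atTop a hp).mul_const (s a)) ?_⟩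
    filter_upwards [hp0, hCev] with n ⟨h0, h2⟩ hC a
    rw [Real.norm_eq_abs, abs_mul]
    have q := Q1_le h0 h2 hC a
    have q0 := Q1_nonneg (n := n) h0 h2 a
    rw [abs_of_nonneg q0]
    calc Q1 n (p n) a * |s a| ≤ C ^ a / a.factorial * (K * (4 : ℝ) ^ a) := by
          refine mul_le_mul q ?_ (abs_nonneg _) (by positivity)
          refine (hs a).trans ?_
          exact mul_le_mul_of_nonneg_left (sq_le_four_pow a) hK
      _ = _ := by rw [mul_pow]; ring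
  have hll : ∀ x : ℕ × ℕ, |l x.1 * l x.2| ≤ (K * x.1) * (K * x.2) := by
    intro x
    rw [abs_mul]
    exact mul_le_mul (hl _) (hl _) (abs_nonneg _) (by positivity)
  -- second term
  have T2 : ∃ c : ℝ, Tendsto (fun n : ℕ => ∑' x : ℕ × ℕ, Q2 n (p n) x.1 x.2 * (l x.1 * l x.2)) atTop (𝓝 c) := by
    choose g hg using (fun x : ℕ × ℕ => Q2_tendsto hp x.1 x.2)
    refine ⟨_, tendsto_tsum_of_dominated_convergence (bound := fun x : ℕ × ℕ => bd C K x.1 * bd C K x.2)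
      hsum2 (fun x => (hg x).mul_const (l x.1 * l x.2)) ?_⟩
    filter_upwards [hp0, hCev] with n ⟨h0, h2⟩ hC x
    rw [Real.norm_eq_abs, abs_mul]
    have q := Q2_abs_le h0 h2 hC0 hC x.1 x.2
    have hx1 : (0 : ℝ) ≤ x.1 := Nat.cast_nonneg _
    have hx2 : (0 : ℝ) ≤ x.2 := Nat.cast_nonneg _
    have hA : 0 ≤ C ^ x.1 / (x.1.factorial : ℝ) := by positivity
    have hA2 : 0 ≤ C ^ x.2 / (x.2.factorial : ℝ) := by positivity
    calc |Q2 n (p n) x.1 x.2| * |l x.1 * l x.2|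
        ≤ (C ^ x.1 / x.1.factorial * (C ^ x.2 / x.2.factorial)) * ((K * x.1) * (K * x.2)) :=
          mul_le_mul q (hll x) (abs_nonneg _) (mul_nonneg hA hA2)
      _ = (C ^ x.1 / x.1.factorial * 1 * (K * x.1)) * (C ^ x.2 / x.2.factorial * 1 * (K * x.2)) := by ring
      _ ≤ bd C K x.1 * bd C K x.2 := by
          unfold bd
          gcongr <;> linarith
  -- third term
  have T3 : ∃ c : ℝ, Tendsto (fun n : ℕ => ∑' x : ℕ × ℕ,
      ((n : ℝ) * (Q2 n (p n) x.1 x.2 - Q1 n (p n) x.1 * Q1 n (p n) x.2)) * (l x.1 * l x.2)) atTop (𝓝 c) := by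
    choose g hg using (fun x : ℕ × ℕ => Q_diff_tendsto hp hp0 x.1 x.2)
    refine ⟨_, tendsto_tsum_of_dominated_convergence (bound := fun x : ℕ × ℕ => bd C K x.1 * bd C K x.2)
      hsum2 (fun x => (hg x).mul_const (l x.1 * l x.2)) ?_⟩
    filter_upwards [hp0, hCev] with n ⟨h0, h2⟩ hC x
    rw [Real.norm_eq_abs, abs_mul]
    have q := Q_diff_bound h0 h2 hC0 hC x.1 x.2
    have hA : 0 ≤ C ^ x.1 / (x.1.factorial : ℝ) * (x.1 + C + 1) := by positivity
    have hA2 : 0 ≤ C ^ x.2 / (x.2.factorial : ℝ) * (x.2 + C + 1) := by positivity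
    calc _ ≤ ((C ^ x.1 / x.1.factorial * (x.1 + C + 1)) * (C ^ x.2 / x.2.factorial * (x.2 + C + 1)))
            * ((K * x.1) * (K * x.2)) := mul_le_mul q (hll x) (abs_nonneg _) (mul_nonneg hA hA2)
      _ = bd C K x.1 * bd C K x.2 := by unfold bd; ring
  obtain ⟨c1, h1⟩ := T1
  obtain ⟨c2, h2⟩ := T2
  obtain ⟨c3, h3⟩ := T3
  have hBn : Tendsto (fun n : ℕ => ((n : ℝ) / B n)⁻¹) atTop (𝓝 μ⁻¹) := hB.inv₀ hμ.ne'
  refine ⟨_, ((h1.sub h2).add (hBn.mul h3)).congr' ?_⟩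
  filter_upwards [eventually_ge_atTop 1, hBpos] with n hn hBn
  rw [← sum_eq1, ← sum_eq2, ← sum_eq3]
  have hn0 : (n : ℝ) ≠ 0 := by
    have : n ≠ 0 := by omega
    exact_mod_cast this
  have eq1 : ∀ a, q1 n (B n) a = Q1 n (p n) a := fun a => rfl
  have eq2 : ∀ a b, q2 n (B n) a b = Q2 n (p n) a b := by
    intro a b
    unfold q2 Q2
    have : (1 - 2 / (B n : ℝ)) = 1 - 2 * p n := by rw [hpdef]; ring
    rw [this]
  unfold Vf
  simp only [eq1, eq2]
  have e : ((n : ℝ) / B n)⁻¹ * (n : ℝ) = B n := by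
    rw [inv_div]; field_simp
  rw [← mul_assoc, e]
  ring

end

end Pool.Agent.H42.TSP
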