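import Mathlib

set_option autoImplicit false

/-! MP_b3ccf3_pr : basic definitions (tours, grid model, finite expectations). -/

namespace Pool.Agent.H42.TSP

open Finset
open scoped BigOperators

noncomputable section

/-! ### Tours -/

/-- Euclidean distance in `ℝ × ℝ`. -/
def ed (p q : ℝ × ℝ) : ℝ := Real.sqrt ((p.1 - q.1) ^ 2 + (p.2 - q.2) ^ 2)

/-- length of a walk -/
def wl : List (ℝ × ℝ) → ℝ
  | [] => 0
  | [_] => 0
  | x :: y :: l => ed x y + wl (y :: l)

/-- length of a closed walk -/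
def cl : List (ℝ × ℝ) → ℝ
  | [] => 0
  | x :: l => wl (x :: (l ++ [x]))

/-- shortest closed walk visiting the finite set `S` -/
def tsp (S : Finset (ℝ × ℝ)) : ℝ := sInf {c | ∃ l : List (ℝ × ℝ), (∀ p ∈ S, p ∈ l) ∧ cl l = c}

/-! ### Finite expectations -/

/-- expectation of `f` for the weight `w` -/
def EE {T : Type} [Fintype T] (w f : T → ℝ) : ℝ := ∑ t, w t * f t

/-- variance of `f` for the weight `w` -/
def Va {T : Type} [Fintype T] (w f : T → ℝ) : ℝ := EE w (fun t => (f t - EE w f) ^ 2)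

/-- probability weight -/
structure PW {T : Type} [Fintype T] (w : T → ℝ) : Prop where
  nonneg : ∀ t, 0 ≤ w t
  sum_one : ∑ t, w t = 1

/-- product weight on `I → T` -/
def pw {I T : Type} [Fintype I] (w : T → ℝ) (y : I → T) : ℝ := ∏ i, w (y i)

/-- `H` changes by at most `C t` if the configuration is changed inside a `t × t` square of cells. -/
def OscSq {N : ℕ} {T : Type} (C : ℝ) (H : (Fin N × Fin N → T) → ℝ) : Prop :=
  ∀ (x y t : ℕ) (ω ω' : Fin N × Fin N → T),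
    (∀ c : Fin N × Fin N,
      ¬ (x ≤ (c.1 : ℕ) ∧ (c.1 : ℕ) < x + t ∧ y ≤ (c.2 : ℕ) ∧ (c.2 : ℕ) < y + t) → ω c = ω' c) →
    |H ω - H ω'| ≤ C * t

/-! ### Subsets of a finite set -/

/-- Bernoulli weight of a subset -/
def bw {U : Type} [Fintype U] (p : ℝ) (S : Finset U) : ℝ :=
  p ^ S.card * (1 - p) ^ (Fintype.card U - S.card)

/-- average over the `k`-subsets -/
def avgk {U : Type} [Fintype U] (k : ℕ) (F : Finset U → ℝ) : ℝ :=
  (∑ S ∈ powersetCard k (univ : Finset U), F S) / ((Fintype.card U).choose k : ℝ)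

/-- variance over the `k`-subsets -/
def vark {U : Type} [Fintype U] (k : ℕ) (F : Finset U → ℝ) : ℝ :=
  avgk k (fun S => (F S - avgk k F) ^ 2)

/-- average over the `k`-tuples -/
def avgi {U : Type} [Fintype U] (k : ℕ) (F : (Fin k → U) → ℝ) : ℝ :=
  (∑ x : Fin k → U, F x) / (Fintype.card U : ℝ) ^ k

/-! ### The grid model -/

/-- block, cell, site in the cell -/
abbrev Site (m N r : ℕ) : Type := (Fin m × Fin m) × ((Fin N × Fin N) × (Fin r × Fin r))

/-- position of a site inside the unit square, for the block structure `m × m`, cells `N × N` per block,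
`r × r` sites per cell -/
def pos (m N r : ℕ) (s : Site m N r) : ℝ × ℝ :=
  ((((s.1.1 : ℕ) : ℝ) + (((s.2.1.1 : ℕ) : ℝ) + (((s.2.2.1 : ℕ) : ℝ) + 1 / 2) / r) / N) / m,
   (((s.1.2 : ℕ) : ℝ) + (((s.2.1.2 : ℕ) : ℝ) + (((s.2.2.2 : ℕ) : ℝ) + 1 / 2) / r) / N) / m)

/-- tour length of a set of sites -/
def LL (m N r : ℕ) (S : Finset (Site m N r)) : ℝ := tsp (S.image (pos m N r))

/-- sum of the tour lengths in the blocks -/
def SS (m N r : ℕ) (S : Finset (Site m N r)) : ℝ :=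
  ∑ b : Fin m × Fin m, tsp ((S.filter (fun s => s.1 = b)).image (pos m N r))

/-- the error functional -/
def GG (m N r : ℕ) (S : Finset (Site m N r)) : ℝ := LL m N r S - SS m N r S

/-! ### Continuum -/

/-- the functional of the frozen statement -/
def Lf (n : ℕ) (x : Fin n → ℝ × ℝ) : ℝ :=
  ⨅ σ : Equiv.Perm (Fin n), ∑ i : Fin n,
    Real.sqrt (((x (σ i)).1 - (x (σ (finRotate n i))).1) ^ 2
      + ((x (σ i)).2 - (x (σ (finRotate n i))).2) ^ 2)

/-- the unit cube of configurations -/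
def cube (n : ℕ) : Set (Fin n → ℝ × ℝ) :=
  Set.univ.pi fun _ : Fin n => Set.Icc (0:ℝ) 1 ×ˢ Set.Icc (0:ℝ) 1

/-- moments -/
def mom (j n : ℕ) : ℝ := ∫ x in cube n, (tsp (univ.image x)) ^ j

/-! ### Multinomial weights -/

/-- `P(N₁ = a)` for `n` balls in `B` boxes -/
def q1 (n B a : ℕ) : ℝ := (n.choose a : ℝ) * (1 / B : ℝ) ^ a * (1 - 1 / B : ℝ) ^ (n - a)

/-- `P(N₁ = a, N₂ = b)` for `n` balls in `B` boxes -/
def q2 (n B a b : ℕ) : ℝ := if a + b ≤ n then
  (n.choose a : ℝ) * ((n - a).choose b : ℝ) * (1 / B : ℝ) ^ (a + b) * (1 - 2 / B : ℝ) ^ (n - a - b) else 0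

/-- variance of `B^{-1/2} ∑_b T_b` -/
def Vf (n B : ℕ) (l s : ℕ → ℝ) : ℝ :=
  (∑ a ∈ range (n + 1), q1 n B a * s a)
    + ((B : ℝ) - 1) * (∑ a ∈ range (n + 1), ∑ b ∈ range (n + 1), q2 n B a b * (l a * l b))
    - B * (∑ a ∈ range (n + 1), q1 n B a * l a) ^ 2

end

end Pool.Agent.H42.TSP
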