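import Pool.Agent.H42.TSP.ES

set_option autoImplicit false

namespace Pool.Agent.H42.TSP

open Finset
open scoped BigOperators

noncomputable section

/-! Module Bern : Bernoulli subsets. -/

lemma bw_PW {U : Type} [Fintype U] [DecidableEq U] {p : ℝ} (hp : 0 ≤ p) (hp1 : p ≤ 1) :
    PW (bw p : Finset U → ℝ) := by
  refine ⟨fun S => mul_nonneg (pow_nonneg hp _) (pow_nonneg (by linarith) _), ?_⟩
  have h := Fintype.sum_pow_mul_eq_add_pow U p (1 - p)
  simp only [bw]
  rw [h]
  simp

/-- by cardinality -/
lemma EE_bw {U : Type} [Fintype U] [DecidableEq U] (p : ℝ) (F : Finset U → ℝ) :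
    EE (bw p) F = ∑ k ∈ range (Fintype.card U + 1),
      ((Fintype.card U).choose k : ℝ) * p ^ k * (1 - p) ^ (Fintype.card U - k) * avgk k F := by
  have h0 : EE (bw p) F = ∑ S ∈ (univ : Finset U).powerset, bw p S * F S := by
    rw [Finset.powerset_univ]; rfl
  rw [h0, Finset.sum_powerset, Finset.card_univ]
  refine Finset.sum_congr rfl (fun k hk => ?_)
  have hk' : k ≤ Fintype.card U := by
    have := Finset.mem_range.1 hk; omega
  have hc : ((Fintype.card U).choose k : ℝ) ≠ 0 := by
    exact_mod_cast (Nat.choose_pos hk').ne'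
  have h1 : ∑ S ∈ powersetCard k (univ : Finset U), bw p S * F S
      = p ^ k * (1 - p) ^ (Fintype.card U - k) * ∑ S ∈ powersetCard k (univ : Finset U), F S := by
    rw [Finset.mul_sum]
    refine Finset.sum_congr rfl (fun S hS => ?_)
    rw [bw, (Finset.mem_powersetCard.1 hS).2]
  rw [h1, avgk]
  field_simp

/-- Mecke formula -/
lemma mecke {U : Type} [Fintype U] [DecidableEq U] (p : ℝ) (f : Finset U → U → ℝ) :
    p * EE (bw p) (fun S => ∑ x ∈ univ \ S, f (insert x S) x) =
      (1 - p) * EE (bw p) (fun S => ∑ x ∈ S, f S x) := by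
  simp only [EE, Finset.mul_sum]
  rw [Finset.sum_comm' (t' := univ) (s' := fun x => univ.filter (fun S : Finset U => x ∉ S)) (by simp),
    Finset.sum_comm' (t' := univ) (s' := fun x => univ.filter (fun S : Finset U => x ∈ S)) (by simp)]
  refine Finset.sum_congr rfl (fun x _ => ?_)
  refine Finset.sum_bij' (fun S _ => insert x S) (fun S _ => S.erase x) ?_ ?_ ?_ ?_ ?_
  · intro S hS; simp
  · intro S hS; simp
  · intro S hS
    have : x ∉ S := by simpa using hS
    exact Finset.erase_insert this
  · intro S hS
    have : x ∈ S := by simpa using hS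
    exact Finset.insert_erase this
  · intro S hS
    have hx : x ∉ S := by simpa using hS
    have hc : (insert x S).card = S.card + 1 := Finset.card_insert_of_notMem hx
    have hle : S.card + 1 ≤ Fintype.card U := by
      rw [← hc]; exact Finset.card_le_univ _
    have he : Fintype.card U - S.card = (Fintype.card U - (S.card + 1)) + 1 := by omega
    rw [bw, bw, hc, he, pow_succ, pow_succ]
    ring

/-- the set of pairs with given sections -/
def glue {β U : Type} [Fintype β] [Fintype U] [DecidableEq U] (ω : β → Finset U) :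
    Finset (β × U) := univ.filter (fun s => s.2 ∈ ω s.1)

lemma mem_glue {β U : Type} [Fintype β] [Fintype U] [DecidableEq U] (ω : β → Finset U) (s : β × U) :
    s ∈ glue ω ↔ s.2 ∈ ω s.1 := by simp [glue]

/-- sections and gluing -/
def glueEquiv (β U : Type) [Fintype β] [DecidableEq β] [Fintype U] [DecidableEq U] :
    (β → Finset U) ≃ Finset (β × U) where
  toFun ω := glue ω
  invFun S := fun b => univ.filter (fun u => (b, u) ∈ S)
  left_inv ω := by
    funext b
    ext u
    simp [mem_glue]
  right_inv S := by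
    ext ⟨b, u⟩
    simp [mem_glue]

lemma card_glue {β U : Type} [Fintype β] [DecidableEq β] [Fintype U] [DecidableEq U] (ω : β → Finset U) :
    (glue ω).card = ∑ b, (ω b).card := by
  have h : glue ω = (univ : Finset β).biUnion (fun b => (ω b).image (fun u => (b, u))) := by
    ext ⟨b, u⟩
    simp [mem_glue]
  rw [h, Finset.card_biUnion]
  · refine Finset.sum_congr rfl (fun b _ => ?_)
    exact Finset.card_image_of_injective _ (fun u v huv => by simpa using huv)
  · intro b _ b' _ hbb'
    rw [Function.onFun, Finset.disjoint_left]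
    rintro ⟨c, u⟩ h1 h2
    simp only [Finset.mem_image, Prod.mk.injEq] at h1 h2
    obtain ⟨_, _, h1, _⟩ := h1
    obtain ⟨_, _, h2, _⟩ := h2
    exact hbb' (h1.trans h2.symm)

lemma bw_glue {β U : Type} [Fintype β] [DecidableEq β] [Fintype U] [DecidableEq U] (p : ℝ)
    (ω : β → Finset U) : bw p (glue ω) = pw (bw p : Finset U → ℝ) ω := by
  simp only [bw, pw]
  rw [Finset.prod_mul_distrib, Finset.prod_pow_eq_pow_sum, Finset.prod_pow_eq_pow_sum, card_glue]
  congr 2
  rw [Fintype.card_prod]
  have h1 : ∀ b ∈ (univ : Finset β), (ω b).card ≤ Fintype.card U := fun b _ => Finset.card_le_univ _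
  have h2 : ∑ b, (Fintype.card U - (ω b).card) + ∑ b, (ω b).card = ∑ _b : β, Fintype.card U := by
    rw [← Finset.sum_add_distrib]
    refine Finset.sum_congr rfl (fun b hb => ?_)
    have := h1 b hb
    omega
  rw [Finset.sum_const, Finset.card_univ, smul_eq_mul] at h2
  omega

lemma EE_glue {β U : Type} [Fintype β] [DecidableEq β] [Fintype U] [DecidableEq U] (p : ℝ)
    (F : Finset (β × U) → ℝ) :
    EE (bw p) F = EE (pw (bw p : Finset U → ℝ)) (fun ω : β → Finset U => F (glue ω)) := by
  rw [EE, EE, ← Equiv.sum_comp (glueEquiv β U)]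
  refine Finset.sum_congr rfl (fun ω _ => ?_)
  rw [← bw_glue]
  rfl

end

end Pool.Agent.H42.TSP
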