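import Pool.Agent.H42.TSP.Closing

set_option autoImplicit false

namespace Pool.Agent.H42.TSP

open Finset
open scoped BigOperators

noncomputable section

lemma ed_segment {x y z : ℝ × ℝ} (h : z ∈ segment ℝ x y) : ed x z + ed z y = ed x y := by
  obtain ⟨u, v, hu, hv, huv, rfl⟩ := h
  have e1 : ed x (u • x + v • y) = v * ed x y := by
    have hx1 : x.1 - (u • x + v • y).1 = v * (x.1 - y.1) := by
      simp only [Prod.fst_add, Prod.smul_fst, smul_eq_mul]
      linear_combination (-x.1) * huv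
    have hx2 : x.2 - (u • x + v • y).2 = v * (x.2 - y.2) := by
      simp only [Prod.snd_add, Prod.smul_snd, smul_eq_mul]
      linear_combination (-x.2) * huv
    unfold ed
    rw [hx1, hx2]
    have h1 : (v * (x.1 - y.1)) ^ 2 + (v * (x.2 - y.2)) ^ 2 =
        v ^ 2 * ((x.1 - y.1) ^ 2 + (x.2 - y.2) ^ 2) := by ring
    rw [h1, Real.sqrt_mul (sq_nonneg v), Real.sqrt_sq hv]
  have e2 : ed (u • x + v • y) y = u * ed x y := by
    have hx1 : (u • x + v • y).1 - y.1 = u * (x.1 - y.1) := by
      simp only [Prod.fst_add, Prod.smul_fst, smul_eq_mul]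
      linear_combination y.1 * huv
    have hx2 : (u • x + v • y).2 - y.2 = u * (x.2 - y.2) := by
      simp only [Prod.snd_add, Prod.smul_snd, smul_eq_mul]
      linear_combination y.2 * huv
    unfold ed
    rw [hx1, hx2]
    have h1 : (u * (x.1 - y.1)) ^ 2 + (u * (x.2 - y.2)) ^ 2 =
        u ^ 2 * ((x.1 - y.1) ^ 2 + (x.2 - y.2) ^ 2) := by ring
    rw [h1, Real.sqrt_mul (sq_nonneg u), Real.sqrt_sq hu]
  rw [e1, e2]
  linear_combination (ed x y) * huv

lemma Qs_eq (a : ℝ × ℝ) (s : ℝ) :
    Qs a s = (Set.Ico a.1 (a.1 + s)) ×ˢ (Set.Ico a.2 (a.2 + s)) := by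
  ext p
  rw [Set.mem_prod, Set.mem_Ico, Set.mem_Ico]
  show (a.1 ≤ p.1 ∧ p.1 < a.1 + s ∧ a.2 ≤ p.2 ∧ p.2 < a.2 + s) ↔ _
  tauto

/-- a segment from the inside to the outside meets the boundary -/
lemma exists_cross (a : ℝ × ℝ) (s : ℝ) {x y : ℝ × ℝ} (hx : x ∈ Qs a s) (hy : y ∉ Qs a s) :
    ∃ z ∈ Bs a s, ed x z + ed z y = ed x y := by
  have hs : 0 < s := by
    obtain ⟨h1, h2, _, _⟩ := hx
    linarith
  have hpre : IsPreconnected (segment ℝ x y) := (convex_segment x y).isPreconnected
  have hex : ∃ z ∈ segment ℝ x y, z ∈ frontier (Qs a s) := by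
    by_contra hcon
    push Not at hcon
    have hin : ∀ z ∈ segment ℝ x y, z ∈ closure (Qs a s) → z ∈ interior (Qs a s) := by
      intro z hz hzc
      by_contra hzi
      exact hcon z hz ⟨hzc, hzi⟩
    have h1 : (segment ℝ x y ∩ interior (Qs a s)).Nonempty :=
      ⟨x, left_mem_segment ℝ x y, hin x (left_mem_segment ℝ x y) (subset_closure hx)⟩
    have h2 : (segment ℝ x y ∩ (closure (Qs a s))ᶜ).Nonempty := by
      refine ⟨y, right_mem_segment ℝ x y, fun hyc => ?_⟩
      exact hy (interior_subset (hin y (right_mem_segment ℝ x y) hyc))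
    obtain ⟨z, _, hz1, hz2⟩ := hpre (interior (Qs a s)) (closure (Qs a s))ᶜ isOpen_interior
      isClosed_closure.isOpen_compl (by
        intro z hz
        by_cases hzc : z ∈ closure (Qs a s)
        · exact Or.inl (hin z hz hzc)
        · exact Or.inr hzc) h1 h2
    exact hz2 (subset_closure (interior_subset hz1))
  obtain ⟨z, hz, hzf⟩ := hex
  refine ⟨z, ?_, ed_segment hz⟩
  rw [Qs_eq, frontier_prod_eq, closure_Ico (by linarith : a.1 ≠ a.1 + s),
    closure_Ico (by linarith : a.2 ≠ a.2 + s), frontier_Ico (by linarith : a.1 < a.1 + s),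
    frontier_Ico (by linarith : a.2 < a.2 + s)] at hzf
  simp only [Set.mem_union, Set.mem_prod, Set.mem_Icc, Set.mem_insert_iff,
    Set.mem_singleton_iff] at hzf
  show a.1 ≤ z.1 ∧ z.1 ≤ a.1 + s ∧ a.2 ≤ z.2 ∧ z.2 ≤ a.2 + s ∧
    (z.1 = a.1 ∨ z.1 = a.1 + s ∨ z.2 = a.2 ∨ z.2 = a.2 + s)
  rcases hzf with ⟨⟨h1, h2⟩, h3⟩ | ⟨h3, ⟨h1, h2⟩⟩
  · refine ⟨h1, h2, ?_, ?_, ?_⟩
    · rcases h3 with h3 | h3 <;> rw [h3] <;> linarith
    · rcases h3 with h3 | h3 <;> rw [h3] <;> linarith
    · tauto
  · refine ⟨?_, ?_, h1, h2, ?_⟩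
    · rcases h3 with h3 | h3 <;> rw [h3] <;> linarith
    · rcases h3 with h3 | h3 <;> rw [h3] <;> linarith
    · tauto

lemma PV_prepend (q : ℝ × ℝ) (π : PD) (h : PV π) :
    PV (q, π.2.1, insert q π.2.2.1, ed q π.1 + π.2.2.2) := by
  obtain ⟨l, h1, h2⟩ := h
  refine ⟨π.1 :: l, ?_, ?_⟩
  · intro p hp
    have hp' : p ∈ insert q π.2.2.1 := hp
    rw [Finset.mem_insert] at hp'
    show p ∈ q :: (π.1 :: (l ++ [π.2.1]))
    rcases hp' with rfl | hp'
    · exact List.mem_cons_self
    · exact List.mem_cons_of_mem _ (h1 p hp')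
  · show wl (q :: π.1 :: (l ++ [π.2.1])) ≤ ed q π.1 + π.2.2.2
    rw [wl_cons_cons]
    linarith

lemma PV_short (x z : ℝ × ℝ) : PV (x, z, {x}, ed x z) := by
  refine ⟨[], ?_, ?_⟩
  · intro p hp
    have hp' : p ∈ ({x} : Finset (ℝ × ℝ)) := hp
    rw [Finset.mem_singleton] at hp'
    subst hp'
    exact List.mem_cons_self
  · show wl (x :: z :: []) ≤ ed x z
    rw [wl_cons_cons, wl_single]
    linarith

/-- the invariant of the induction -/
def CrInv (a : ℝ × ℝ) (s : ℝ) (w x : ℝ × ℝ) (l : List (ℝ × ℝ)) (P P' : List PD)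
    (Z : List (ℝ × ℝ)) (π : PD) : Prop :=
  PV π ∧ π.1 = x ∧ (∀ π ∈ P, PV π) ∧ (∀ π ∈ P', PV π) ∧ (∀ z ∈ Z, z ∈ Bs a s) ∧
  (x ∈ Qs a s → (π.2.1 :: ends P).Perm Z ∧ (ends P').Perm (w :: Z) ∧
    (∀ p ∈ x :: l, p ∈ Qs a s → p ∈ π.2.2.1 ∨ ∃ π ∈ P, p ∈ π.2.2.1) ∧
    (∀ p ∈ x :: l, p ∉ Qs a s → ∃ π ∈ P', p ∈ π.2.2.1)) ∧
  (x ∉ Qs a s → (ends P).Perm Z ∧ (π.2.1 :: ends P').Perm (w :: Z) ∧
    (∀ p ∈ x :: l, p ∈ Qs a s → ∃ π ∈ P, p ∈ π.2.2.1) ∧
    (∀ p ∈ x :: l, p ∉ Qs a s → p ∈ π.2.2.1 ∨ ∃ π ∈ P', p ∈ π.2.2.1)) ∧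
  π.2.2.2 + (P.map (fun π => π.2.2.2)).sum + (P'.map (fun π => π.2.2.2)).sum ≤ wl (x :: (l ++ [w]))

lemma crossing_ind (a : ℝ × ℝ) (s : ℝ) (w : ℝ × ℝ) (l : List (ℝ × ℝ)) :
    ∀ x : ℝ × ℝ, (x :: l).getLast (List.cons_ne_nil _ _) ∉ Qs a s →
      ∃ (P P' : List PD) (Z : List (ℝ × ℝ)) (π : PD), CrInv a s w x l P P' Z π := by
  induction l with
  | nil =>
    intro x hx
    have hx' : x ∉ Qs a s := hx
    refine ⟨[], [], [], (x, w, {x}, ed x w), PV_short x w, rfl, by simp, by simp, by simp, ?_, ?_, ?_⟩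
    · intro h; exact absurd h hx'
    · intro _
      refine ⟨List.Perm.refl _, List.Perm.refl _, ?_, ?_⟩
      · intro p hp hpQ
        rw [List.mem_singleton] at hp
        subst hp
        exact absurd hpQ hx'
      · intro p hp _
        rw [List.mem_singleton] at hp
        subst hp
        left
        exact Finset.mem_singleton_self _
    · show ed x w + 0 + 0 ≤ wl (x :: w :: [])
      rw [wl_cons_cons, wl_single]
      linarith
  | cons y l ih =>
    intro x hx
    have hy : (y :: l).getLast (List.cons_ne_nil _ _) ∉ Qs a s := by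
      rwa [List.getLast_cons (List.cons_ne_nil _ _)] at hx
    obtain ⟨P, P', Z, π, h1, h2, h3, h4, h5, h6, h7, h8⟩ := ih y hy
    have hcost : wl (x :: ((y :: l) ++ [w])) = ed x y + wl (y :: (l ++ [w])) := rfl
    by_cases hxQ : x ∈ Qs a s
    · by_cases hyQ : y ∈ Qs a s
      · -- both inside
        obtain ⟨g1, g2, g3, g4⟩ := h6 hyQ
        refine ⟨P, P', Z, (x, π.2.1, insert x π.2.2.1, ed x π.1 + π.2.2.2), PV_prepend x π h1, rfl,
          h3, h4, h5, ?_, fun h => absurd hxQ h, ?_⟩
        · intro _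
          refine ⟨g1, g2, ?_, ?_⟩
          · intro p hp hpQ
            rcases List.mem_cons.mp hp with rfl | hp
            · left; exact Finset.mem_insert_self _ _
            · rcases g3 p hp hpQ with h | h
              · left; exact Finset.mem_insert_of_mem h
              · right; exact h
          · intro p hp hpQ
            rcases List.mem_cons.mp hp with rfl | hp
            · exact absurd hxQ hpQ
            · exact g4 p hp hpQ
        · rw [hcost, h2]
          show ed x y + π.2.2.2 + _ + _ ≤ _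
          linarith
      · -- x inside, y outside
        obtain ⟨g1, g2, g3, g4⟩ := h7 hyQ
        obtain ⟨z, hz, hzed⟩ := exists_cross a s hxQ hyQ
        refine ⟨P, (z, π.2.1, insert z π.2.2.1, ed z π.1 + π.2.2.2) :: P', z :: Z,
          (x, z, {x}, ed x z), PV_short x z, rfl, h3, ?_, ?_, ?_, fun h => absurd hxQ h, ?_⟩
        · intro ρ hρ
          rcases List.mem_cons.mp hρ with rfl | hρ
          · exact PV_prepend z π h1
          · exact h4 ρ hρ
        · intro t ht
          rcases List.mem_cons.mp ht with rfl | ht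
          · exact hz
          · exact h5 t ht
        · intro _
          refine ⟨List.Perm.cons z g1, ?_, ?_, ?_⟩
          · rw [ends_cons]
            exact (List.Perm.cons z g2).trans (List.Perm.swap w z Z)
          · intro p hp hpQ
            rcases List.mem_cons.mp hp with rfl | hp
            · left; exact Finset.mem_singleton_self _
            · right; exact g3 p hp hpQ
          · intro p hp hpQ
            rcases List.mem_cons.mp hp with rfl | hp
            · exact absurd hxQ hpQ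
            · rcases g4 p hp hpQ with h | ⟨ρ, hρ, h⟩
              · exact ⟨_, List.mem_cons_self, Finset.mem_insert_of_mem h⟩
              · exact ⟨ρ, List.mem_cons_of_mem _ hρ, h⟩
        · rw [hcost, List.map_cons, List.sum_cons, h2]
          show ed x z + _ + (ed z y + π.2.2.2 + _) ≤ _
          linarith
    · by_cases hyQ : y ∈ Qs a s
      · -- x outside, y inside
        obtain ⟨g1, g2, g3, g4⟩ := h6 hyQ
        obtain ⟨z, hz, hzed⟩ := exists_cross a s hyQ hxQ
        refine ⟨(z, π.2.1, insert z π.2.2.1, ed z π.1 + π.2.2.2) :: P, P', z :: Z,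
          (x, z, {x}, ed x z), PV_short x z, rfl, ?_, h4, ?_, fun h => absurd h hxQ, ?_, ?_⟩
        · intro ρ hρ
          rcases List.mem_cons.mp hρ with rfl | hρ
          · exact PV_prepend z π h1
          · exact h3 ρ hρ
        · intro t ht
          rcases List.mem_cons.mp ht with rfl | ht
          · exact hz
          · exact h5 t ht
        · intro _
          refine ⟨?_, ?_, ?_, ?_⟩
          · rw [ends_cons]
            exact List.Perm.cons z g1
          · exact (List.Perm.cons z g2).trans (List.Perm.swap w z Z)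
          · intro p hp hpQ
            rcases List.mem_cons.mp hp with rfl | hp
            · exact absurd hpQ hxQ
            · rcases g3 p hp hpQ with h | ⟨ρ, hρ, h⟩
              · exact ⟨_, List.mem_cons_self, Finset.mem_insert_of_mem h⟩
              · exact ⟨ρ, List.mem_cons_of_mem _ hρ, h⟩
          · intro p hp hpQ
            rcases List.mem_cons.mp hp with rfl | hp
            · left; exact Finset.mem_singleton_self _
            · right; exact g4 p hp hpQ
        · rw [hcost, List.map_cons, List.sum_cons, h2]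
          show ed x z + (ed z y + π.2.2.2 + _) + _ ≤ _
          rw [ed_comm y z, ed_comm z x, ed_comm y x] at hzed
          linarith
      · -- both outside
        obtain ⟨g1, g2, g3, g4⟩ := h7 hyQ
        refine ⟨P, P', Z, (x, π.2.1, insert x π.2.2.1, ed x π.1 + π.2.2.2), PV_prepend x π h1, rfl,
          h3, h4, h5, fun h => absurd h hxQ, ?_, ?_⟩
        · intro _
          refine ⟨g1, g2, ?_, ?_⟩
          · intro p hp hpQ
            rcases List.mem_cons.mp hp with rfl | hp
            · exact absurd hpQ hxQ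
            · exact g3 p hp hpQ
          · intro p hp hpQ
            rcases List.mem_cons.mp hp with rfl | hp
            · left; exact Finset.mem_insert_self _ _
            · rcases g4 p hp hpQ with h | h
              · left; exact Finset.mem_insert_of_mem h
              · right; exact h
        · rw [hcost, h2]
          show ed x y + π.2.2.2 + _ + _ ≤ _
          linarith

/-- the first element with a given property -/
lemma first_split {α : Type} (R : α → Prop) (m : List α) (h : ∃ p ∈ m, R p) :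
    ∃ u x v, m = u ++ x :: v ∧ R x ∧ ∀ y ∈ u, ¬ R y := by
  induction m with
  | nil => obtain ⟨p, hp, _⟩ := h; exact absurd hp List.not_mem_nil
  | cons b m ih =>
    by_cases hb : R b
    · exact ⟨[], b, m, rfl, hb, by simp⟩
    · have h' : ∃ p ∈ m, R p := by
        obtain ⟨p, hp, hR⟩ := h
        rcases List.mem_cons.mp hp with rfl | hp
        · exact absurd hR hb
        · exact ⟨p, hp, hR⟩
      obtain ⟨u, x, v, rfl, hx, hu⟩ := ih h'
      refine ⟨b :: u, x, v, rfl, hx, ?_⟩
      intro y hy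
      rcases List.mem_cons.mp hy with rfl | hy
      · exact hb
      · exact hu y hy

/-- rotation such that the first point is inside and the last one outside -/
lemma rotate_good (a : ℝ × ℝ) (s : ℝ) (l : List (ℝ × ℝ)) (hin : ∃ p ∈ l, p ∈ Qs a s)
    (hout : ∃ p ∈ l, p ∉ Qs a s) :
    ∃ x k, cl l = cl (x :: k) ∧ (∀ p, p ∈ l ↔ p ∈ x :: k) ∧ x ∈ Qs a s ∧
      (x :: k).getLast (List.cons_ne_nil _ _) ∉ Qs a s := by
  obtain ⟨q, hq, hqQ⟩ := hout
  obtain ⟨s', t, rfl⟩ := List.append_of_mem hq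
  have hm : ∃ p ∈ (t ++ s') ++ [q], p ∈ Qs a s := by
    obtain ⟨p, hp, hpQ⟩ := hin
    refine ⟨p, ?_, hpQ⟩
    simp only [List.mem_append, List.mem_cons, List.not_mem_nil, or_false] at hp ⊢
    tauto
  obtain ⟨u, x, v, he, hx, hu⟩ := first_split (fun p => p ∈ Qs a s) _ hm
  refine ⟨x, v ++ u, ?_, ?_, hx, ?_⟩
  · have h1 : cl (s' ++ q :: t) = cl ((t ++ s') ++ [q]) := by
      have h2 : s' ++ q :: t = (s' ++ [q]) ++ t := by simp
      rw [h2, cl_append_comm]
      congr 1
      simp
    rw [h1, he, cl_append_comm]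
    rfl
  · intro p
    have h1 : p ∈ (t ++ s') ++ [q] ↔ p ∈ u ++ x :: v := by rw [he]
    simp only [List.mem_append, List.mem_cons, List.not_mem_nil, or_false] at h1 ⊢
    tauto
  · by_cases hue : u = []
    · subst hue
      have he' : x :: (v ++ []) = (t ++ s') ++ [q] := by rw [he]; simp
      have : (x :: (v ++ [])).getLast (List.cons_ne_nil _ _) = q := by
        simp only [he', List.getLast_append_singleton]
      rw [this]
      exact hqQ
    · have h1 : (x :: (v ++ u)).getLast (List.cons_ne_nil _ _) = u.getLast hue := by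
        have h2 : x :: (v ++ u) = (x :: v) ++ u := rfl
        simp only [h2]
        exact List.getLast_append_of_ne_nil _ hue
      rw [h1]
      exact hu _ (List.getLast_mem hue)

/-- Module D2 : cutting a closed walk at the crossing points (rotate the list so that it starts at a crossing edge,
then induction on the list, see docs proof/MP_b3ccf3_pr and board). -/
theorem crossing (a : ℝ × ℝ) (s : ℝ) (l : List (ℝ × ℝ)) (hin : ∃ p ∈ l, p ∈ Qs a s)
    (hout : ∃ p ∈ l, p ∉ Qs a s) :
    ∃ (P P' : List PD) (Z : List (ℝ × ℝ)), (∀ π ∈ P, PV π) ∧ (∀ π ∈ P', PV π) ∧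
      (ends P).Perm Z ∧ (ends P').Perm Z ∧ Z ≠ [] ∧ (∀ z ∈ Z, z ∈ Bs a s) ∧
      (∀ p ∈ l, p ∈ Qs a s → ∃ π ∈ P, p ∈ π.2.2.1) ∧
      (∀ p ∈ l, p ∉ Qs a s → ∃ π ∈ P', p ∈ π.2.2.1) ∧
      (P.map (fun π => π.2.2.2)).sum + (P'.map (fun π => π.2.2.2)).sum ≤ cl l := by
  obtain ⟨x, k, hcl, hmem, hxQ, hlast⟩ := rotate_good a s l hin hout
  set q := (x :: k).getLast (List.cons_ne_nil _ _) with hq
  obtain ⟨w, hw, hwed⟩ := exists_cross a s hxQ hlast
  obtain ⟨P, P', Z, π, h1, h2, h3, h4, h5, h6, _, h8⟩ := crossing_ind a s w k x hlast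
  obtain ⟨g1, g2, g3, g4⟩ := h6 hxQ
  refine ⟨(w, π.2.1, insert w π.2.2.1, ed w π.1 + π.2.2.2) :: P, P', w :: Z, ?_, h4, ?_, g2,
    List.cons_ne_nil _ _, ?_, ?_, ?_, ?_⟩
  · intro ρ hρ
    rcases List.mem_cons.mp hρ with rfl | hρ
    · exact PV_prepend w π h1
    · exact h3 ρ hρ
  · rw [ends_cons]
    exact List.Perm.cons w g1
  · intro t ht
    rcases List.mem_cons.mp ht with rfl | ht
    · exact hw
    · exact h5 t ht
  · intro p hp hpQ
    rcases g3 p ((hmem p).mp hp) hpQ with h | ⟨ρ, hρ, h⟩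
    · exact ⟨_, List.mem_cons_self, Finset.mem_insert_of_mem h⟩
    · exact ⟨ρ, List.mem_cons_of_mem _ hρ, h⟩
  · intro p hp hpQ
    exact g4 p ((hmem p).mp hp) hpQ
  · rw [List.map_cons, List.sum_cons, h2]
    show ed w x + π.2.2.2 + _ + _ ≤ _
    have hk : (x :: k).dropLast ++ [q] = x :: k := List.dropLast_append_getLast _
    have e1 : cl (x :: k) = wl (x :: k) + ed q x := by
      have : cl (x :: k) = wl ((x :: k) ++ [x]) := rfl
      rw [this, ← hk, List.append_assoc]
      show wl ((x :: k).dropLast ++ q :: [x]) = _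
      rw [wl_append, wl_cons_cons, wl_single]
      ring
    have e2 : wl (x :: (k ++ [w])) = wl (x :: k) + ed q w := by
      have : x :: (k ++ [w]) = (x :: k) ++ [w] := rfl
      rw [this]
      conv_lhs => rw [← hk]
      rw [List.append_assoc]
      show wl ((x :: k).dropLast ++ q :: [w]) = _
      rw [wl_append, wl_cons_cons, wl_single, hk]
      ring
    rw [hcl, e1]
    rw [e2] at h8
    rw [ed_comm x w, ed_comm w q, ed_comm x q] at hwed
    linarith

end

end Pool.Agent.H42.TSP
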