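import Pool.Agent.H42.TSP.Closing
import Pool.Agent.H42.TSP.Crossing
set_option autoImplicit false

namespace Pool.Agent.H42.TSP

open Finset
open scoped BigOperators

noncomputable section

/-- arc length position on the boundary of the square -/
def bpos (a : ℝ × ℝ) (s : ℝ) (z : ℝ × ℝ) : ℝ :=
  if z.2 = a.2 then z.1 - a.1
  else if z.1 = a.1 + s then s + (z.2 - a.2)
  else if z.2 = a.2 + s then 2 * s + (a.1 + s - z.1)
  else 3 * s + (a.2 + s - z.2)

lemma bpos_nonneg {a : ℝ × ℝ} {s : ℝ} (hs : 0 < s) {z : ℝ × ℝ} (hz : z ∈ Bs a s) :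
    0 ≤ bpos a s z := by
  obtain ⟨h1, h2, h3, h4, h5⟩ := hz
  unfold bpos
  split_ifs <;> linarith

lemma bpos_le {a : ℝ × ℝ} {s : ℝ} (hs : 0 < s) {z : ℝ × ℝ} (hz : z ∈ Bs a s) :
    bpos a s z ≤ 4 * s := by
  obtain ⟨h1, h2, h3, h4, h5⟩ := hz
  unfold bpos
  split_ifs <;> linarith

lemma ed_le_abs (p q : ℝ × ℝ) : ed p q ≤ |p.1 - q.1| + |p.2 - q.2| := by
  unfold ed
  apply Real.sqrt_le_iff.2
  refine ⟨by positivity, ?_⟩
  nlinarith [abs_nonneg (p.1 - q.1), abs_nonneg (p.2 - q.2), sq_abs (p.1 - q.1),
    sq_abs (p.2 - q.2)]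

lemma ed_le_bpos {a : ℝ × ℝ} {s : ℝ} (hs : 0 < s) {p q : ℝ × ℝ} (hp : p ∈ Bs a s)
    (hq : q ∈ Bs a s) (h : bpos a s p ≤ bpos a s q) : ed p q ≤ bpos a s q - bpos a s p := by
  refine (ed_le_abs p q).trans ?_
  obtain ⟨h1, h2, h3, h4, h5⟩ := hp
  obtain ⟨k1, k2, k3, k4, k5⟩ := hq
  have key : ∀ x y b : ℝ, x + y ≤ b → x - y ≤ b → -x + y ≤ b → -x - y ≤ b → |x| + |y| ≤ b := by
    intro x y b e1 e2 e3 e4
    rcases abs_cases x with ⟨hx, _⟩ | ⟨hx, _⟩ <;> rcases abs_cases y with ⟨hy, _⟩ | ⟨hy, _⟩ <;>
      rw [hx, hy] <;> linarith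
  unfold bpos at h ⊢
  by_cases c1 : p.2 = a.2
  · rw [if_pos c1] at h ⊢
    by_cases d1 : q.2 = a.2
    · rw [if_pos d1] at h ⊢
      apply key <;> linarith
    · rw [if_neg d1] at h ⊢
      by_cases d2 : q.1 = a.1 + s
      · rw [if_pos d2] at h ⊢
        apply key <;> linarith
      · rw [if_neg d2] at h ⊢
        by_cases d3 : q.2 = a.2 + s
        · rw [if_pos d3] at h ⊢
          apply key <;> linarith
        · rw [if_neg d3] at h ⊢
          have d4 : q.1 = a.1 := by
            rcases k5 with k | k | k | k
            · exact k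
            · exact absurd k d2
            · exact absurd k d1
            · exact absurd k d3
          apply key <;> linarith
  · rw [if_neg c1] at h ⊢
    by_cases c2 : p.1 = a.1 + s
    · rw [if_pos c2] at h ⊢
      by_cases d1 : q.2 = a.2
      · rw [if_pos d1] at h ⊢
        apply key <;> linarith
      · rw [if_neg d1] at h ⊢
        by_cases d2 : q.1 = a.1 + s
        · rw [if_pos d2] at h ⊢
          apply key <;> linarith
        · rw [if_neg d2] at h ⊢
          by_cases d3 : q.2 = a.2 + s
          · rw [if_pos d3] at h ⊢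
            apply key <;> linarith
          · rw [if_neg d3] at h ⊢
            have d4 : q.1 = a.1 := by
              rcases k5 with k | k | k | k
              · exact k
              · exact absurd k d2
              · exact absurd k d1
              · exact absurd k d3
            apply key <;> linarith
    · rw [if_neg c2] at h ⊢
      by_cases c3 : p.2 = a.2 + s
      · rw [if_pos c3] at h ⊢
        by_cases d1 : q.2 = a.2
        · rw [if_pos d1] at h ⊢
          apply key <;> linarith
        · rw [if_neg d1] at h ⊢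
          by_cases d2 : q.1 = a.1 + s
          · rw [if_pos d2] at h ⊢
            apply key <;> linarith
          · rw [if_neg d2] at h ⊢
            by_cases d3 : q.2 = a.2 + s
            · rw [if_pos d3] at h ⊢
              apply key <;> linarith
            · rw [if_neg d3] at h ⊢
              have d4 : q.1 = a.1 := by
                rcases k5 with k | k | k | k
                · exact k
                · exact absurd k d2
                · exact absurd k d1
                · exact absurd k d3
              apply key <;> linarith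
      · rw [if_neg c3] at h ⊢
        have c4 : p.1 = a.1 := by
          rcases h5 with k | k | k | k
          · exact k
          · exact absurd k c2
          · exact absurd k c1
          · exact absurd k c3
        by_cases d1 : q.2 = a.2
        · rw [if_pos d1] at h ⊢
          apply key <;> linarith
        · rw [if_neg d1] at h ⊢
          by_cases d2 : q.1 = a.1 + s
          · rw [if_pos d2] at h ⊢
            apply key <;> linarith
          · rw [if_neg d2] at h ⊢
            by_cases d3 : q.2 = a.2 + s
            · rw [if_pos d3] at h ⊢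
              apply key <;> linarith
            · rw [if_neg d3] at h ⊢
              have d4 : q.1 = a.1 := by
                rcases k5 with k | k | k | k
                · exact k
                · exact absurd k d2
                · exact absurd k d1
                · exact absurd k d3
              apply key <;> linarith

lemma wl_sorted {a : ℝ × ℝ} {s : ℝ} (hs : 0 < s) : ∀ (Z : List (ℝ × ℝ)) (x : ℝ × ℝ),
    (∀ z ∈ x :: Z, z ∈ Bs a s) →
    (x :: Z).Pairwise (fun p q => bpos a s p ≤ bpos a s q) →
    wl (x :: Z) ≤ 4 * s - bpos a s x := by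
  intro Z
  induction Z with
  | nil =>
    intro x hx _
    have := bpos_le hs (hx x (by simp))
    simp only [wl]
    linarith
  | cons y Z ih =>
    intro x hx hp
    have h1 := ih y (fun z hz => hx z (List.mem_cons_of_mem _ hz)) (List.pairwise_cons.1 hp).2
    have h2 := ed_le_bpos hs (hx x (by simp)) (hx y (by simp))
      ((List.pairwise_cons.1 hp).1 y (by simp))
    simp only [wl]
    linarith

/-- Module D3 : the boundary points can be visited in a short walk (sort along the four sides). -/
theorem sorting (a : ℝ × ℝ) (s : ℝ) (hs : 0 < s) (Z : List (ℝ × ℝ)) (hZ : ∀ z ∈ Z, z ∈ Bs a s) :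
    ∃ Z' : List (ℝ × ℝ), Z.Perm Z' ∧ wl Z' ≤ 9 * s := by
  classical
  let r : ℝ × ℝ → ℝ × ℝ → Prop := fun p q => bpos a s p ≤ bpos a s q
  have : Std.Total r := ⟨fun p q => le_total _ _⟩
  have : IsTrans (ℝ × ℝ) r := ⟨fun p q t h1 h2 => le_trans h1 h2⟩
  have hperm := List.perm_insertionSort r Z
  have hsort := List.pairwise_insertionSort r Z
  refine ⟨Z.insertionSort r, hperm.symm, ?_⟩
  have hmem : ∀ z ∈ Z.insertionSort r, z ∈ Bs a s := fun z hz => hZ z (hperm.subset hz)
  generalize Z.insertionSort r = W at hperm hsort hmem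
  cases W with
  | nil => simp only [wl]; linarith
  | cons x W =>
    have h1 := wl_sorted hs W x hmem hsort
    have h2 := bpos_nonneg hs (hmem x (by simp))
    linarith

lemma ed_corner_le {a : ℝ × ℝ} {s : ℝ} {q : ℝ × ℝ} (h1 : a.1 ≤ q.1) (h2 : q.1 ≤ a.1 + s)
    (h3 : a.2 ≤ q.2) (h4 : q.2 ≤ a.2 + s) : ed a q ≤ 2 * s := by
  refine (ed_le_abs a q).trans ?_
  rw [abs_of_nonpos (by linarith), abs_of_nonpos (by linarith)]
  linarith

/-- Module D : decomposition along a square (from `closing`, `crossing`, `sorting`). -/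
theorem tsp_decomp (a : ℝ × ℝ) (s : ℝ) (hs : 0 < s) (A R : Finset (ℝ × ℝ)) (hA : A.Nonempty)
    (hAQ : ∀ p ∈ A, p ∈ Qs a s) (hR : ∀ p ∈ R, p ∉ Qs a s) :
    |tsp (A ∪ R) - tsp A - tsp (insert a R)| ≤ 60 * s := by
  classical
  obtain ⟨q, hq⟩ := hA
  have hqQ := hAQ q hq
  obtain ⟨q1, q2, q3, q4⟩ := hqQ
  rw [abs_le]
  constructor
  · -- lower bound
    have hmain : tsp A + tsp (insert a R) - 60 * s ≤ tsp (A ∪ R) := by
      apply le_tsp
      intro l hl
      by_cases hout : ∃ p ∈ l, p ∉ Qs a s
      · have hin : ∃ p ∈ l, p ∈ Qs a s := ⟨q, hl q (mem_union_left _ hq), hAQ q hq⟩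
        obtain ⟨P, P', Z, hP, hP', hZ, hZ', hne, hB, hvis, hvis', hsum⟩ := crossing a s l hin hout
        obtain ⟨Z', hperm, hwl⟩ := sorting a s hs Z hB
        have c1 := closing P hP Z' (hZ.trans hperm) A (fun p hp =>
          Or.inl (hvis p (hl p (mem_union_left _ hp)) (hAQ p hp)))
        have c2 := closing P' hP' Z' (hZ'.trans hperm) (R ∪ Z'.toFinset) (fun p hp => by
          rcases mem_union.1 hp with hp | hp
          · exact Or.inl (hvis' p (hl p (mem_union_right _ hp)) (hR p hp))
          · exact Or.inr (List.mem_toFinset.1 hp))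
        obtain ⟨z, hz⟩ := List.exists_mem_of_ne_nil Z hne
        have hzB := hB z hz
        have hzZ' : z ∈ R ∪ Z'.toFinset :=
          mem_union_right _ (List.mem_toFinset.2 (hperm.subset hz))
        have c3 : tsp (insert a R) ≤ tsp (insert a (R ∪ Z'.toFinset)) :=
          tsp_mono (insert_subset_insert _ subset_union_left)
        have c4 := tsp_insert_le (p := a) hzZ'
        have c5 : ed a z ≤ 2 * s := ed_corner_le hzB.1 hzB.2.1 hzB.2.2.1 hzB.2.2.2.1
        linarith
      · push Not at hout
        have hR0 : R = ∅ := by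
          rw [eq_empty_iff_forall_notMem]
          intro p hp
          exact hR p hp (hout p (hl p (mem_union_right _ hp)))
        have h1 : tsp A ≤ cl l := tsp_le_cl (fun p hp => hl p (mem_union_left _ hp))
        have h2 : tsp (insert a R) = 0 := by
          rw [hR0]
          exact tsp_singleton a
        rw [h2]
        linarith
    linarith
  · have h1 : tsp (A ∪ R) ≤ tsp (insert a A ∪ insert a R) :=
      tsp_mono (union_subset_union (subset_insert _ _) (subset_insert _ _))
    have h2 : tsp (insert a A ∪ insert a R) ≤ tsp (insert a A) + tsp (insert a R) :=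
      tsp_union_le (mem_insert_self _ _) (mem_insert_self _ _)
    have h3 := tsp_insert_le (p := a) hq
    have h4 : ed a q ≤ 2 * s := ed_corner_le q1 q2.le q3 q4.le
    linarith

end

end Pool.Agent.H42.TSP
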