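import Pool.Agent.H42.TSP.Tours

set_option autoImplicit false

namespace Pool.Agent.H42.TSP

open Finset
open scoped BigOperators

noncomputable section

/-- disjoint open squares in a square -/
lemma squares_area (a : ℝ × ℝ) (s : ℝ) (hs : 0 ≤ s) (A : Finset (ℝ × ℝ))
    (hA : ∀ p ∈ A, a.1 ≤ p.1 ∧ p.1 ≤ a.1 + s ∧ a.2 ≤ p.2 ∧ p.2 ≤ a.2 + s)
    (h : ℝ × ℝ → ℝ) (h0 : ∀ p ∈ A, 0 ≤ h p) (hle : ∀ p ∈ A, h p ≤ s / 2)
    (hdis : ∀ p ∈ A, ∀ q ∈ A, p ≠ q → h p + h q ≤ |p.1 - q.1| ∨ h p + h q ≤ |p.2 - q.2|) :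
    ∑ p ∈ A, (2 * h p) ^ 2 ≤ (2 * s) ^ 2 := by
  classical
  set Sq : ℝ × ℝ → Set (ℝ × ℝ) := fun p =>
    Set.Ioo (p.1 - h p) (p.1 + h p) ×ˢ Set.Ioo (p.2 - h p) (p.2 + h p) with hSq
  have hvol : ∀ p ∈ A, MeasureTheory.volume (Sq p) = ENNReal.ofReal ((2 * h p) ^ 2) := by
    intro p hp
    rw [hSq, MeasureTheory.Measure.volume_eq_prod, MeasureTheory.Measure.prod_prod,
      Real.volume_Ioo, Real.volume_Ioo, ← ENNReal.ofReal_mul (by have := h0 p hp; linarith)]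
    congr 1
    ring
  have hdisj : (A : Set (ℝ × ℝ)).PairwiseDisjoint Sq := by
    intro p hp q hq hpq
    rw [Function.onFun, Set.disjoint_left]
    rintro z ⟨⟨h1, h2⟩, ⟨h3, h4⟩⟩ ⟨⟨h5, h6⟩, ⟨h7, h8⟩⟩
    rcases hdis p hp q hq hpq with h9 | h9
    · rcases abs_cases (p.1 - q.1) with ⟨h10, _⟩ | ⟨h10, _⟩ <;> rw [h10] at h9 <;> linarith
    · rcases abs_cases (p.2 - q.2) with ⟨h10, _⟩ | ⟨h10, _⟩ <;> rw [h10] at h9 <;> linarith
  have hU : MeasureTheory.volume (⋃ p ∈ A, Sq p) = ∑ p ∈ A, MeasureTheory.volume (Sq p) :=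
    MeasureTheory.measure_biUnion_finset hdisj
      (fun p _ => measurableSet_Ioo.prod measurableSet_Ioo)
  have hsub : (⋃ p ∈ A, Sq p) ⊆
      Set.Icc (a.1 - s / 2) (a.1 + 3 * s / 2) ×ˢ Set.Icc (a.2 - s / 2) (a.2 + 3 * s / 2) := by
    intro z hz
    simp only [Set.mem_iUnion] at hz
    obtain ⟨p, hp, ⟨h1, h2⟩, ⟨h3, h4⟩⟩ := hz
    have h5 := hA p hp
    have h6 := hle p hp
    refine ⟨⟨?_, ?_⟩, ⟨?_, ?_⟩⟩ <;> linarith [h5.1, h5.2.1, h5.2.2.1, h5.2.2.2]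
  have hbig : MeasureTheory.volume
      (Set.Icc (a.1 - s / 2) (a.1 + 3 * s / 2) ×ˢ Set.Icc (a.2 - s / 2) (a.2 + 3 * s / 2)) =
      ENNReal.ofReal ((2 * s) ^ 2) := by
    rw [MeasureTheory.Measure.volume_eq_prod, MeasureTheory.Measure.prod_prod,
      Real.volume_Icc, Real.volume_Icc, ← ENNReal.ofReal_mul (by linarith)]
    congr 1
    ring
  have h1 := MeasureTheory.measure_mono (μ := MeasureTheory.volume) hsub
  rw [hU, hbig, Finset.sum_congr rfl hvol,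
    ← ENNReal.ofReal_sum_of_nonneg (fun p _ => sq_nonneg _)] at h1
  exact (ENNReal.ofReal_le_ofReal_iff (sq_nonneg _)).mp h1

/-- Module P : packing. `0 ≤ tsp A - tsp (A.erase x) ≤ 2 d(x)`, `d(x)` = distance to the nearest other point of `A`;
the open sup-norm squares of half side `d(x)/(2√2)` around the points are pairwise disjoint and lie in a square of side `2s`. -/
theorem tsp_pack (a : ℝ × ℝ) (s : ℝ) (hs : 0 ≤ s) (A : Finset (ℝ × ℝ))
    (hA : ∀ p ∈ A, a.1 ≤ p.1 ∧ p.1 ≤ a.1 + s ∧ a.2 ≤ p.2 ∧ p.2 ≤ a.2 + s) :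
    ∑ x ∈ A, (tsp A - tsp (A.erase x)) ^ 2 ≤ 100 * s ^ 2 := by
  classical
  by_cases hcard : A.card ≤ 1
  · rw [Finset.card_le_one_iff_subset_singleton] at hcard
    obtain ⟨p, hp⟩ := hcard
    rcases Finset.subset_singleton_iff.mp hp with h | h
    · rw [h, Finset.sum_empty]; positivity
    · rw [h, Finset.sum_singleton, Finset.erase_singleton, tsp_singleton, tsp_empty]
      nlinarith [sq_nonneg s]
  push Not at hcard
  -- nearest neighbour
  have hnn : ∀ x ∈ A, ∃ y ∈ A.erase x, ∀ q ∈ A.erase x, ed x y ≤ ed x q := by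
    intro x hx
    have hne : (A.erase x).Nonempty := by
      rw [← Finset.card_pos, Finset.card_erase_of_mem hx]; omega
    exact Finset.exists_min_image _ _ hne
  choose! nn hnn1 hnn2 using hnn
  set d : ℝ × ℝ → ℝ := fun x => ed x (nn x) with hd
  have hd0 : ∀ x, 0 ≤ d x := fun x => ed_nonneg _ _
  have hbound : ∀ x ∈ A, (tsp A - tsp (A.erase x)) ^ 2 ≤ 4 * d x ^ 2 := by
    intro x hx
    have h1 : tsp A ≤ tsp (A.erase x) + 2 * ed x (nn x) := by
      have := tsp_insert_le (p := x) (hnn1 x hx)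
      rwa [Finset.insert_erase hx] at this
    have h2 : tsp (A.erase x) ≤ tsp A := tsp_mono (Finset.erase_subset _ _)
    have h3 : 0 ≤ tsp A - tsp (A.erase x) := by linarith
    have h4 : tsp A - tsp (A.erase x) ≤ 2 * d x := by rw [hd]; simp only; linarith
    nlinarith
  have hed : ∀ p q : ℝ × ℝ, ed p q ^ 2 = (p.1 - q.1) ^ 2 + (p.2 - q.2) ^ 2 := by
    intro p q
    rw [ed, Real.sq_sqrt (by positivity)]
  -- half sides: h with 8 h ^ 2 = d ^ 2
  have h2 : (0:ℝ) < Real.sqrt 2 := by positivity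
  have h22 : Real.sqrt 2 ^ 2 = 2 := Real.sq_sqrt (by norm_num)
  set h : ℝ × ℝ → ℝ := fun x => d x / (2 * Real.sqrt 2) with hh
  have hh0 : ∀ x, 0 ≤ h x := fun x => div_nonneg (hd0 x) (by positivity)
  have hhsq : ∀ x, (2 * h x) ^ 2 = d x ^ 2 / 2 := by
    intro x
    rw [hh]
    field_simp
    rw [h22]
    ring
  have hdh : ∀ x, d x = 2 * Real.sqrt 2 * h x := by
    intro x; rw [hh]; field_simp
  have hle : ∀ p ∈ A, h p ≤ s / 2 := by
    intro p hp
    have h3 := hA p hp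
    have h4 := hA (nn p) (Finset.mem_of_mem_erase (hnn1 p hp))
    have h5 : d p ^ 2 ≤ 2 * s ^ 2 := by
      rw [hd]; simp only; rw [hed]
      have h6 : (p.1 - (nn p).1) ^ 2 ≤ s ^ 2 := by
        apply sq_le_sq'
        · linarith [h3.1, h4.2.1]
        · linarith [h3.2.1, h4.1]
      have h7 : (p.2 - (nn p).2) ^ 2 ≤ s ^ 2 := by
        apply sq_le_sq'
        · linarith [h3.2.2.1, h4.2.2.2]
        · linarith [h3.2.2.2, h4.2.2.1]
      linarith
    have h8 : (2 * h p) ^ 2 ≤ s ^ 2 := by rw [hhsq]; linarith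
    have h9 := abs_le_of_sq_le_sq h8 hs
    linarith [le_abs_self (2 * h p)]
  have hdis : ∀ p ∈ A, ∀ q ∈ A, p ≠ q →
      h p + h q ≤ |p.1 - q.1| ∨ h p + h q ≤ |p.2 - q.2| := by
    intro p hp q hq hpq
    have h3 : d p ≤ ed p q := hnn2 p hp q (Finset.mem_erase.mpr ⟨Ne.symm hpq, hq⟩)
    have h4 : d q ≤ ed p q := by
      rw [ed_comm]
      exact hnn2 q hq p (Finset.mem_erase.mpr ⟨hpq, hp⟩)
    by_contra hcon
    push Not at hcon
    obtain ⟨h5, h6⟩ := hcon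
    have h7 : 0 ≤ h p + h q := by linarith [hh0 p, hh0 q]
    have h8 : |p.1 - q.1| ^ 2 < (h p + h q) ^ 2 := by
      apply pow_lt_pow_left₀ h5 (abs_nonneg _) (by norm_num)
    have h9 : |p.2 - q.2| ^ 2 < (h p + h q) ^ 2 := by
      apply pow_lt_pow_left₀ h6 (abs_nonneg _) (by norm_num)
    rw [sq_abs] at h8 h9
    have h10 : ed p q ^ 2 < 2 * (h p + h q) ^ 2 := by rw [hed]; linarith
    have h11 : Real.sqrt 2 * (h p + h q) ≤ ed p q := by
      have := hdh p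
      have := hdh q
      nlinarith
    have h12 : (Real.sqrt 2 * (h p + h q)) ^ 2 ≤ ed p q ^ 2 :=
      pow_le_pow_left₀ (by positivity) h11 2
    rw [mul_pow, h22] at h12
    linarith
  have harea := squares_area a s hs A hA h (fun p _ => hh0 p) hle hdis
  calc ∑ x ∈ A, (tsp A - tsp (A.erase x)) ^ 2 ≤ ∑ x ∈ A, 4 * d x ^ 2 := Finset.sum_le_sum hbound
    _ = 8 * ∑ x ∈ A, (2 * h x) ^ 2 := by
        rw [Finset.mul_sum]
        apply Finset.sum_congr rfl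
        intro x _
        rw [hhsq]; ring
    _ ≤ 8 * (2 * s) ^ 2 := by linarith
    _ ≤ 100 * s ^ 2 := by nlinarith [sq_nonneg s]

end

end Pool.Agent.H42.TSP
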