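import Pool.Agent.H42.TSP.Bern
import Pool.Agent.H42.TSP.Decomp
import Pool.Agent.H42.TSP.Pack
import Pool.Agent.H42.TSP.AW

set_option autoImplicit false

namespace Pool.Agent.H42.TSP

open Finset
open scoped BigOperators

noncomputable section

/-! ### Positions -/

lemma nat_digit {r x x' e e' : ℕ} (he : e < r) (he' : e' < r) (h : x * r + e = x' * r + e') :
    x = x' ∧ e = e' := by
  have h1 : e = e' := by
    have := congrArg (fun z => z % r) h
    simp only [Nat.add_mod, Nat.mul_mod_left, Nat.zero_add, Nat.mod_eq_of_lt he,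
      Nat.mod_eq_of_lt he'] at this
    exact this
  subst h1
  refine ⟨?_, rfl⟩
  have hr : 0 < r := by omega
  have : x * r = x' * r := by omega
  exact Nat.eq_of_mul_eq_mul_right hr this

/-- one coordinate of a site -/
def co (m N r b c e : ℕ) : ℝ := ((b : ℝ) + ((c : ℝ) + ((e : ℝ) + 1 / 2) / r) / N) / m

lemma pos_co (m N r : ℕ) (s : Site m N r) :
    pos m N r s = (co m N r s.1.1 s.2.1.1 s.2.2.1, co m N r s.1.2 s.2.1.2 s.2.2.2) := rfl

lemma co_eq {m N r : ℕ} (hm : 0 < m) (hN : 0 < N) (hr : 0 < r) (b c e : ℕ) :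
    co m N r b c e = (((b * N + c) * r + e : ℕ) + 1 / 2) / (m * N * r) := by
  have hm' : (m : ℝ) ≠ 0 := by positivity
  have hN' : (N : ℝ) ≠ 0 := by positivity
  have hr' : (r : ℝ) ≠ 0 := by positivity
  unfold co
  push_cast
  field_simp
  ring

lemma co_inj {m N r : ℕ} (hm : 0 < m) (hN : 0 < N) (hr : 0 < r) {b c e b' c' e' : ℕ}
    (hc : c < N) (hc' : c' < N) (he : e < r) (he' : e' < r)
    (h : co m N r b c e = co m N r b' c' e') : b = b' ∧ c = c' ∧ e = e' := by
  rw [co_eq hm hN hr, co_eq hm hN hr] at h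
  have hpos : (0 : ℝ) < m * N * r := by positivity
  rw [div_left_inj' hpos.ne'] at h
  have h1 : (((b * N + c) * r + e : ℕ) : ℝ) = ((b' * N + c') * r + e' : ℕ) := by linarith
  have h2 : (b * N + c) * r + e = (b' * N + c') * r + e' := by exact_mod_cast h1
  obtain ⟨h3, h4⟩ := nat_digit he he' h2
  obtain ⟨h5, h6⟩ := nat_digit hc hc' h3
  exact ⟨h5, h6, h4⟩

lemma pos_injective (m N r : ℕ) (hm : 0 < m) (hN : 0 < N) (hr : 0 < r) : Function.Injective (pos m N r) := by
  intro s s' h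
  rw [pos_co, pos_co] at h
  have h1 := congrArg Prod.fst h
  have h2 := congrArg Prod.snd h
  simp only at h1 h2
  obtain ⟨a1, a2, a3⟩ := co_inj hm hN hr s.2.1.1.isLt s'.2.1.1.isLt s.2.2.1.isLt s'.2.2.1.isLt h1
  obtain ⟨b1, b2, b3⟩ := co_inj hm hN hr s.2.1.2.isLt s'.2.1.2.isLt s.2.2.2.isLt s'.2.2.2.isLt h2
  refine Prod.ext (Prod.ext (Fin.ext a1) (Fin.ext b1)) (Prod.ext (Prod.ext (Fin.ext a2) (Fin.ext b2))
    (Prod.ext (Fin.ext a3) (Fin.ext b3)))

/-- a coordinate lies in `[X/(mN), (X+t)/(mN))` iff the global cell index lies in `[X, X+t)` -/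
lemma co_mem {m N r : ℕ} (hm : 0 < m) (hN : 0 < N) (hr : 0 < r) {b c e : ℕ} (he : e < r) (X t : ℕ) :
    ((X : ℝ) / (m * N) ≤ co m N r b c e ∧ co m N r b c e < (X : ℝ) / (m * N) + t / (m * N)) ↔
      (X ≤ b * N + c ∧ b * N + c < X + t) := by
  have hm' : (0 : ℝ) < m := by exact_mod_cast hm
  have hN' : (0 : ℝ) < N := by exact_mod_cast hN
  have hr' : (0 : ℝ) < r := by exact_mod_cast hr
  have hpos : (0 : ℝ) < m * N := by positivity
  set θ : ℝ := ((e : ℝ) + 1 / 2) / r with hθ
  have hθ0 : 0 < θ := by positivity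
  have hθ1 : θ < 1 := by
    rw [hθ, div_lt_one hr']
    have : (e : ℝ) + 1 ≤ r := by exact_mod_cast he
    linarith
  have hco : co m N r b c e = (((b * N + c : ℕ) : ℝ) + θ) / (m * N) := by
    unfold co; push_cast; rw [← hθ]; field_simp; ring
  rw [hco, ← add_div, div_le_div_iff_of_pos_right hpos, div_lt_div_iff_of_pos_right hpos]
  constructor
  · rintro ⟨h1, h2⟩
    constructor
    · by_contra h
      push Not at h
      have : ((b * N + c : ℕ) : ℝ) + 1 ≤ X := by exact_mod_cast h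
      linarith
    · by_contra h
      push Not at h
      have : ((X + t : ℕ) : ℝ) ≤ ((b * N + c : ℕ) : ℝ) := by exact_mod_cast h
      push_cast at this h2
      linarith
  · rintro ⟨h1, h2⟩
    constructor
    · have : (X : ℝ) ≤ ((b * N + c : ℕ) : ℝ) := by exact_mod_cast h1
      linarith
    · have : ((b * N + c : ℕ) : ℝ) + 1 ≤ ((X + t : ℕ) : ℝ) := by exact_mod_cast h2
      push_cast at this ⊢
      linarith

/-- the square of cells with corner `(X, Y)` (global cell indices) and side `t` cells -/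
def QQ (m N : ℕ) (X Y t : ℕ) : Set (ℝ × ℝ) :=
  Qs ((X : ℝ) / (m * N), (Y : ℝ) / (m * N)) (t / (m * N))

lemma pos_mem_QQ {m N r : ℕ} (hm : 0 < m) (hN : 0 < N) (hr : 0 < r) (s : Site m N r) (X Y t : ℕ) :
    pos m N r s ∈ QQ m N X Y t ↔
      (X ≤ (s.1.1 : ℕ) * N + s.2.1.1 ∧ (s.1.1 : ℕ) * N + s.2.1.1 < X + t) ∧
      (Y ≤ (s.1.2 : ℕ) * N + s.2.1.2 ∧ (s.1.2 : ℕ) * N + s.2.1.2 < Y + t) := by
  rw [← co_mem hm hN hr s.2.2.1.isLt X t, ← co_mem hm hN hr s.2.2.2.isLt Y t, pos_co]
  unfold QQ Qs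
  simp only [Set.mem_ofPred_eq]
  tauto

/-- block squares -/
lemma pos_mem_block {m N r : ℕ} (hm : 0 < m) (hN : 0 < N) (hr : 0 < r) (b : Fin m × Fin m) (s : Site m N r) :
    pos m N r s ∈ QQ m N ((b.1 : ℕ) * N) ((b.2 : ℕ) * N) N ↔ s.1 = b := by
  rw [pos_mem_QQ hm hN hr]
  have h1 := s.2.1.1.isLt
  have h2 := s.2.1.2.isLt
  constructor
  · rintro ⟨⟨a1, a2⟩, a3, a4⟩
    have key : ∀ x y c : ℕ, c < N → y * N ≤ x * N + c → x * N + c < y * N + N → x = y := by
      intro x y c hc e1 e2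
      have e3 : x * N < (y + 1) * N := by linarith
      have e4 : y * N < (x + 1) * N := by linarith
      have e5 := Nat.lt_of_mul_lt_mul_right e3
      have e6 := Nat.lt_of_mul_lt_mul_right e4
      omega
    exact Prod.ext (Fin.ext (key _ _ _ h1 a1 a2)) (Fin.ext (key _ _ _ h2 a3 a4))
  · rintro rfl
    refine ⟨⟨?_, ?_⟩, ?_, ?_⟩ <;> omega

/-! ### Packing bound for `GG` -/

lemma sq_sub_le {α β : ℝ} (hα : 0 ≤ α) (hβ : 0 ≤ β) : (α - β) ^ 2 ≤ α ^ 2 + β ^ 2 := by
  nlinarith [mul_nonneg hα hβ]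

lemma LL_pack (m N r : ℕ) (hm : 0 < m) (hN : 0 < N) (hr : 0 < r) (S : Finset (Site m N r)) :
    ∑ x ∈ S, (LL m N r S - LL m N r (S.erase x)) ^ 2 ≤ 100 := by
  have hinj := pos_injective m N r hm hN hr
  have h1 : ∑ x ∈ S, (LL m N r S - LL m N r (S.erase x)) ^ 2 =
      ∑ p ∈ S.image (pos m N r), (tsp (S.image (pos m N r)) - tsp ((S.image (pos m N r)).erase p)) ^ 2 := by
    rw [Finset.sum_image (fun a _ b _ h => hinj h)]
    apply Finset.sum_congr rfl
    intro x _
    unfold LL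
    rw [Finset.image_erase hinj]
  rw [h1]
  refine (tsp_pack (0, 0) 1 zero_le_one _ ?_).trans (by norm_num)
  intro p hp
  obtain ⟨s, _, rfl⟩ := mem_image.1 hp
  have hm' : (0 : ℝ) < m := by exact_mod_cast hm
  have hN' : (0 : ℝ) < N := by exact_mod_cast hN
  have h2 := (pos_mem_QQ hm hN hr s 0 0 (m * N)).2 (by
    have key : ∀ x c : ℕ, x < m → c < N → x * N + c < m * N := by
      intro x c hx hc
      calc x * N + c < x * N + N := by omega
        _ = (x + 1) * N := by ring
        _ ≤ m * N := Nat.mul_le_mul_right _ hx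
    refine ⟨⟨Nat.zero_le _, ?_⟩, Nat.zero_le _, ?_⟩
    · rw [Nat.zero_add]; exact key _ _ s.1.1.isLt s.2.1.1.isLt
    · rw [Nat.zero_add]; exact key _ _ s.1.2.isLt s.2.1.2.isLt)
  unfold QQ Qs at h2
  simp only [Set.mem_ofPred_eq, Nat.cast_zero, zero_div, zero_add, Nat.cast_mul] at h2
  rw [div_self (by positivity)] at h2
  simp only [zero_add]
  exact ⟨h2.1, h2.2.1.le, h2.2.2.1, h2.2.2.2.le⟩

lemma SS_erase {m N r : ℕ} (S : Finset (Site m N r)) (x : Site m N r) :
    SS m N r S - SS m N r (S.erase x) =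
      tsp ((S.filter (fun s => s.1 = x.1)).image (pos m N r)) -
      tsp (((S.filter (fun s => s.1 = x.1)).erase x).image (pos m N r)) := by
  unfold SS
  rw [← Finset.sum_sub_distrib, Finset.sum_eq_single x.1]
  · congr 3
    ext s; simp only [mem_filter, mem_erase]; tauto
  · intro b _ hb
    have : (S.erase x).filter (fun s => s.1 = b) = S.filter (fun s => s.1 = b) := by
      ext s; simp only [mem_filter, mem_erase]
      constructor
      · rintro ⟨⟨_, h⟩, h2⟩; exact ⟨h, h2⟩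
      · rintro ⟨h, h2⟩; exact ⟨⟨fun h3 => hb (by rw [← h2, h3]), h⟩, h2⟩
    rw [this, sub_self]
  · intro h; exact absurd (mem_univ _) h

lemma SS_pack (m N r : ℕ) (hm : 0 < m) (hN : 0 < N) (hr : 0 < r) (S : Finset (Site m N r)) :
    ∑ x ∈ S, (SS m N r S - SS m N r (S.erase x)) ^ 2 ≤ 100 := by
  have hinj := pos_injective m N r hm hN hr
  have hm' : (0 : ℝ) < m := by exact_mod_cast hm
  have hN' : (0 : ℝ) < N := by exact_mod_cast hN
  rw [← Finset.sum_fiberwise S (fun s => s.1)]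
  calc ∑ b : Fin m × Fin m, ∑ x ∈ S with x.1 = b, (SS m N r S - SS m N r (S.erase x)) ^ 2
      ≤ ∑ _b : Fin m × Fin m, 100 * (1 / (m : ℝ)) ^ 2 := by
        apply Finset.sum_le_sum
        intro b _
        set P : Finset (ℝ × ℝ) := (S.filter (fun s => s.1 = b)).image (pos m N r) with hP
        have h1 : ∑ x ∈ S with x.1 = b, (SS m N r S - SS m N r (S.erase x)) ^ 2 =
            ∑ p ∈ P, (tsp P - tsp (P.erase p)) ^ 2 := by
          rw [hP, Finset.sum_image (fun a _ b _ h => hinj h)]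
          apply Finset.sum_congr rfl
          intro x hx
          rw [mem_filter] at hx
          rw [SS_erase, hx.2, Finset.image_erase hinj]
        rw [h1]
        apply tsp_pack (((b.1 * N : ℕ) : ℝ) / (m * N), ((b.2 * N : ℕ) : ℝ) / (m * N)) (1 / m) (by positivity)
        intro p hp
        rw [hP] at hp
        obtain ⟨s, hs, rfl⟩ := mem_image.1 hp
        rw [mem_filter] at hs
        have h2 := (pos_mem_block hm hN hr b s).2 hs.2
        unfold QQ Qs at h2
        simp only [Set.mem_ofPred_eq] at h2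
        have e : (N : ℝ) / (m * N) = 1 / m := by field_simp
        rw [e] at h2
        exact ⟨h2.1, h2.2.1.le, h2.2.2.1, h2.2.2.2.le⟩
    _ = 100 := by
        rw [Finset.sum_const, card_univ, Fintype.card_prod, Fintype.card_fin, nsmul_eq_mul]
        push_cast; field_simp

lemma LL_mono {m N r : ℕ} {S T : Finset (Site m N r)} (h : S ⊆ T) : LL m N r S ≤ LL m N r T :=
  tsp_mono (Finset.image_subset_image h)

lemma SS_mono {m N r : ℕ} {S T : Finset (Site m N r)} (h : S ⊆ T) : SS m N r S ≤ SS m N r T := by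
  apply Finset.sum_le_sum
  intro b _
  exact tsp_mono (Finset.image_subset_image (Finset.filter_subset_filter _ h))

theorem GG_pack (m N r : ℕ) (hm : 0 < m) (hN : 0 < N) (hr : 0 < r) (S : Finset (Site m N r)) :
    ∑ x ∈ S, (GG m N r S - GG m N r (S.erase x)) ^ 2 ≤ 200 := by
  calc ∑ x ∈ S, (GG m N r S - GG m N r (S.erase x)) ^ 2
      ≤ ∑ x ∈ S, ((LL m N r S - LL m N r (S.erase x)) ^ 2 + (SS m N r S - SS m N r (S.erase x)) ^ 2) := by
        apply Finset.sum_le_sum
        intro x _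
        have h1 : 0 ≤ LL m N r S - LL m N r (S.erase x) := sub_nonneg.2 (LL_mono (erase_subset _ _))
        have h2 : 0 ≤ SS m N r S - SS m N r (S.erase x) := sub_nonneg.2 (SS_mono (erase_subset _ _))
        have := sq_sub_le h1 h2
        unfold GG
        calc _ = ((LL m N r S - LL m N r (S.erase x)) - (SS m N r S - SS m N r (S.erase x))) ^ 2 := by ring
          _ ≤ _ := this
    _ ≤ 200 := by
        rw [Finset.sum_add_distrib]
        linarith [LL_pack m N r hm hN hr S, SS_pack m N r hm hN hr S]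

/-! ### The environment of a block -/

abbrev UU (N r : ℕ) : Type := (Fin N × Fin N) × (Fin r × Fin r)

/-- points of the configuration `t` placed in block `b` -/
def PB (m N r : ℕ) (b : Fin m × Fin m) (t : Finset (UU N r)) : Finset (ℝ × ℝ) :=
  t.image (fun u => pos m N r (b, u))

/-- points in the other blocks -/
def RB (m N r : ℕ) (b : Fin m × Fin m) (y : Fin m × Fin m → Finset (UU N r)) : Finset (ℝ × ℝ) :=
  ((univ : Finset (Fin m × Fin m)).erase b).biUnion (fun b' => PB m N r b' (y b'))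

/-- the block functional -/
def HH (m N r : ℕ) (b : Fin m × Fin m) (R : Finset (ℝ × ℝ)) (t : Finset (UU N r)) : ℝ :=
  tsp (PB m N r b t ∪ R) - tsp (PB m N r b t)

lemma image_glue (m N r : ℕ) (ω : Fin m × Fin m → Finset (UU N r)) :
    (glue ω).image (pos m N r) = univ.biUnion (fun b => PB m N r b (ω b)) := by
  ext p
  simp only [glue, PB, mem_image, mem_filter, mem_univ, true_and, mem_biUnion]
  constructor
  · rintro ⟨s, hs, rfl⟩; exact ⟨s.1, s.2, hs, rfl⟩
  · rintro ⟨b, u, hu, rfl⟩; exact ⟨(b, u), hu, rfl⟩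

lemma image_filter_glue (m N r : ℕ) (ω : Fin m × Fin m → Finset (UU N r)) (b : Fin m × Fin m) :
    ((glue ω).filter (fun s => s.1 = b)).image (pos m N r) = PB m N r b (ω b) := by
  ext p
  simp only [glue, PB, mem_image, mem_filter, mem_univ, true_and]
  constructor
  · rintro ⟨s, ⟨hs, rfl⟩, rfl⟩; exact ⟨s.2, hs, rfl⟩
  · rintro ⟨u, hu, rfl⟩; exact ⟨(b, u), ⟨hu, rfl⟩, rfl⟩

lemma image_glue_update (m N r : ℕ) (y : Fin m × Fin m → Finset (UU N r)) (b : Fin m × Fin m)
    (t : Finset (UU N r)) :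
    (glue (Function.update y b t)).image (pos m N r) = PB m N r b t ∪ RB m N r b y := by
  rw [image_glue]
  ext p
  simp only [mem_biUnion, mem_univ, true_and, mem_union, RB, mem_erase]
  constructor
  · rintro ⟨b', hb'⟩
    by_cases h : b' = b
    · subst h; rw [Function.update_self] at hb'; exact Or.inl hb'
    · rw [Function.update_of_ne h] at hb'; exact Or.inr ⟨b', ⟨h, trivial⟩, hb'⟩
  · rintro (h | ⟨b', ⟨h, _⟩, hb'⟩)
    · exact ⟨b, by rw [Function.update_self]; exact h⟩
    · exact ⟨b', by rw [Function.update_of_ne h]; exact hb'⟩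

lemma GG_update (m N r : ℕ) (y : Fin m × Fin m → Finset (UU N r)) (b : Fin m × Fin m)
    (t : Finset (UU N r)) :
    GG m N r (glue (Function.update y b t)) = HH m N r b (RB m N r b y) t +
      (-∑ b' ∈ (univ : Finset (Fin m × Fin m)).erase b, tsp (PB m N r b' (y b'))) := by
  unfold GG LL SS HH
  rw [image_glue_update]
  have h1 : ∑ b' : Fin m × Fin m, tsp (((glue (Function.update y b t)).filter (fun s => s.1 = b')).image (pos m N r)) =
      tsp (PB m N r b t) + ∑ b' ∈ (univ : Finset (Fin m × Fin m)).erase b, tsp (PB m N r b' (y b')) := by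
    rw [← Finset.add_sum_erase _ _ (mem_univ b)]
    congr 1
    · rw [image_filter_glue, Function.update_self]
    · apply Finset.sum_congr rfl
      intro b' hb'
      rw [image_filter_glue, Function.update_of_ne (ne_of_mem_erase hb')]
  rw [h1]; ring

lemma RB_notMem {m N r : ℕ} (hm : 0 < m) (hN : 0 < N) (hr : 0 < r) (b : Fin m × Fin m)
    (y : Fin m × Fin m → Finset (UU N r)) :
    ∀ q ∈ RB m N r b y, q ∉ QQ m N ((b.1 : ℕ) * N) ((b.2 : ℕ) * N) N := by
  intro q hq
  simp only [RB, PB, mem_biUnion, mem_erase, mem_image] at hq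
  obtain ⟨b', ⟨hb', _⟩, u, _, rfl⟩ := hq
  intro h
  exact hb' ((pos_mem_block hm hN hr b (b', u)).1 h)

/-- all nonempty configurations give almost the same value -/
lemma HH_close {m N r : ℕ} (hm : 0 < m) (hN : 0 < N) (hr : 0 < r) (b : Fin m × Fin m)
    (R : Finset (ℝ × ℝ)) (hR : ∀ q ∈ R, q ∉ QQ m N ((b.1 : ℕ) * N) ((b.2 : ℕ) * N) N)
    (t : Finset (UU N r)) (ht : t.Nonempty) :
    |HH m N r b R t - tsp (insert ((((b.1 : ℕ) * N : ℕ) : ℝ) / (m * N), (((b.2 : ℕ) * N : ℕ) : ℝ) / (m * N)) R)| ≤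
      60 / m := by
  have hm' : (0 : ℝ) < m := by exact_mod_cast hm
  have hN' : (0 : ℝ) < N := by exact_mod_cast hN
  have h := tsp_decomp ((((b.1 : ℕ) * N : ℕ) : ℝ) / (m * N), (((b.2 : ℕ) * N : ℕ) : ℝ) / (m * N))
    ((N : ℝ) / (m * N)) (by positivity) (PB m N r b t) R (ht.image _) (by
      intro p hp
      obtain ⟨u, _, rfl⟩ := mem_image.1 hp
      exact (pos_mem_block hm hN hr b (b, u)).2 rfl) hR
  unfold HH
  have e : 60 * ((N : ℝ) / (m * N)) = 60 / m := by field_simp
  rw [e] at h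
  exact h

/-- oscillation in a square of cells -/
lemma HH_osc {m N r : ℕ} (hm : 0 < m) (hN : 0 < N) (hr : 0 < r) (b : Fin m × Fin m)
    (R : Finset (ℝ × ℝ)) (hR : ∀ q ∈ R, q ∉ QQ m N ((b.1 : ℕ) * N) ((b.2 : ℕ) * N) N)
    (ω ω' : Fin N × Fin N → Finset (Fin r × Fin r)) (hω : ∀ c, (ω c).Nonempty) (hω' : ∀ c, (ω' c).Nonempty)
    (x y t : ℕ)
    (h : ∀ c : Fin N × Fin N,
      ¬ (x ≤ (c.1 : ℕ) ∧ (c.1 : ℕ) < x + t ∧ y ≤ (c.2 : ℕ) ∧ (c.2 : ℕ) < y + t) → ω c = ω' c) :
    |HH m N r b R (glue ω) - HH m N r b R (glue ω')| ≤ 240 * t / (m * N) := by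
  classical
  have hm' : (0 : ℝ) < m := by exact_mod_cast hm
  have hN' : (0 : ℝ) < N := by exact_mod_cast hN
  rcases Nat.eq_zero_or_pos t with ht | ht
  · have : ω = ω' := by
      funext c
      apply h
      rintro ⟨h1, h2, _⟩; omega
    rw [this, sub_self, abs_zero, ht]; simp
  · set t' : ℕ := min t N with ht'
    set x' : ℕ := min x (N - t') with hx'
    set y' : ℕ := min y (N - t') with hy'
    have ht'1 : 1 ≤ t' := by omega
    have ht'N : t' ≤ N := by omega
    set X : ℕ := (b.1 : ℕ) * N + x' with hX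
    set Y : ℕ := (b.2 : ℕ) * N + y' with hY
    have hagree : ∀ c : Fin N × Fin N,
      ¬ (x' ≤ (c.1 : ℕ) ∧ (c.1 : ℕ) < x' + t' ∧ y' ≤ (c.2 : ℕ) ∧ (c.2 : ℕ) < y' + t') → ω c = ω' c := by
      intro c hc
      apply h
      intro hc2
      apply hc
      have h1 := c.1.isLt
      have h2 := c.2.isLt
      omega
    -- inside the square / outside
    set inS : (Fin N × Fin N) → Prop := fun c =>
      (x' ≤ (c.1 : ℕ) ∧ (c.1 : ℕ) < x' + t' ∧ y' ≤ (c.2 : ℕ) ∧ (c.2 : ℕ) < y' + t') with hinS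
    have hmemQ : ∀ u : UU N r, pos m N r (b, u) ∈ QQ m N X Y t' ↔ inS u.1 := by
      intro u
      rw [pos_mem_QQ hm hN hr]
      simp only [hinS, hX, hY]
      constructor
      · rintro ⟨⟨a1, a2⟩, a3, a4⟩; refine ⟨?_, ?_, ?_, ?_⟩ <;> omega
      · rintro ⟨a1, a2, a3, a4⟩; refine ⟨⟨?_, ?_⟩, ?_, ?_⟩ <;> omega
    set B : Finset (ℝ × ℝ) := PB m N r b ((glue ω).filter (fun u => ¬ inS u.1)) with hB
    have hB' : B = PB m N r b ((glue ω').filter (fun u => ¬ inS u.1)) := by
      rw [hB]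
      congr 1
      ext u
      simp only [mem_filter, glue, mem_univ, true_and]
      constructor
      · rintro ⟨h1, h2⟩; exact ⟨by rw [← hagree u.1 h2]; exact h1, h2⟩
      · rintro ⟨h1, h2⟩; exact ⟨by rw [hagree u.1 h2]; exact h1, h2⟩
    set s : ℝ := (t' : ℝ) / (m * N) with hs
    have hs0 : 0 < s := by
      have : (0 : ℝ) < t' := by exact_mod_cast ht'1
      positivity
    set a : ℝ × ℝ := ((X : ℝ) / (m * N), (Y : ℝ) / (m * N)) with ha
    have hBQ : ∀ q ∈ B, q ∉ Qs a s := by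
      intro q hq
      rw [hB] at hq
      obtain ⟨u, hu, rfl⟩ := mem_image.1 hq
      rw [mem_filter] at hu
      intro hq2
      exact hu.2 ((hmemQ u).1 hq2)
    have hRQ : ∀ q ∈ R, q ∉ Qs a s := by
      intro q hq hq2
      apply hR q hq
      unfold QQ
      unfold Qs at hq2 ⊢
      simp only [Set.mem_ofPred_eq, ha, hs] at hq2 ⊢
      have hpos : (0 : ℝ) < m * N := by positivity
      have i1 : (((b.1 : ℕ) * N : ℕ) : ℝ) / (m * N) ≤ (X : ℝ) / (m * N) := by
        gcongr; rw [hX]; omega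
      have i2 : (((b.2 : ℕ) * N : ℕ) : ℝ) / (m * N) ≤ (Y : ℝ) / (m * N) := by
        gcongr; rw [hY]; omega
      have i3 : (X : ℝ) / (m * N) + t' / (m * N) ≤ (((b.1 : ℕ) * N : ℕ) : ℝ) / (m * N) + N / (m * N) := by
        rw [← add_div, ← add_div]
        have : X + t' ≤ (b.1 : ℕ) * N + N := by omega
        have h' : (X : ℝ) + t' ≤ (((b.1 : ℕ) * N : ℕ) : ℝ) + N := by exact_mod_cast this
        exact div_le_div_of_nonneg_right h' hpos.le
      have i4 : (Y : ℝ) / (m * N) + t' / (m * N) ≤ (((b.2 : ℕ) * N : ℕ) : ℝ) / (m * N) + N / (m * N) := by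
        rw [← add_div, ← add_div]
        have : Y + t' ≤ (b.2 : ℕ) * N + N := by omega
        have h' : (Y : ℝ) + t' ≤ (((b.2 : ℕ) * N : ℕ) : ℝ) + N := by exact_mod_cast this
        exact div_le_div_of_nonneg_right h' hpos.le
      obtain ⟨j1, j2, j3, j4⟩ := hq2
      exact ⟨i1.trans j1, lt_of_lt_of_le j2 i3, i2.trans j3, lt_of_lt_of_le j4 i4⟩
    have main : ∀ ξ : Fin N × Fin N → Finset (Fin r × Fin r), (∀ c, (ξ c).Nonempty) →
        PB m N r b ((glue ξ).filter (fun u => ¬ inS u.1)) = B →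
        |HH m N r b R (glue ξ) - (tsp (insert a (B ∪ R)) - tsp (insert a B))| ≤ 120 * s := by
      intro ξ hξ hξB
      set A : Finset (ℝ × ℝ) := PB m N r b ((glue ξ).filter (fun u => inS u.1)) with hA
      have hAB : PB m N r b (glue ξ) = A ∪ B := by
        rw [hA, ← hξB]
        unfold PB
        rw [← Finset.image_union, Finset.filter_union_filter_not_eq]
      have hAne : A.Nonempty := by
        have hx'N : x' < N := by omega
        have hy'N : y' < N := by omega
        obtain ⟨e, he⟩ := hξ (⟨x', hx'N⟩, ⟨y', hy'N⟩)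
        refine ⟨pos m N r (b, ((⟨x', hx'N⟩, ⟨y', hy'N⟩), e)), ?_⟩
        rw [hA]
        apply mem_image_of_mem
        rw [mem_filter]
        refine ⟨?_, ?_⟩
        · simp only [glue, mem_filter, mem_univ, true_and]; exact he
        · simp only [hinS]; omega
      have hAQ : ∀ p ∈ A, p ∈ Qs a s := by
        intro p hp
        rw [hA] at hp
        obtain ⟨u, hu, rfl⟩ := mem_image.1 hp
        rw [mem_filter] at hu
        exact (hmemQ u).2 hu.2
      have d1 := tsp_decomp a s hs0 A (B ∪ R) hAne hAQ (by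
        intro p hp
        rcases mem_union.1 hp with hp | hp
        · exact hBQ p hp
        · exact hRQ p hp)
      have d2 := tsp_decomp a s hs0 A B hAne hAQ hBQ
      unfold HH
      rw [hAB, Finset.union_assoc]
      rw [abs_le] at d1 d2 ⊢
      constructor <;> linarith [d1.1, d1.2, d2.1, d2.2]
    have m1 := main ω hω rfl
    have m2 := main ω' hω' hB'.symm
    have hst : 240 * s ≤ 240 * t / (m * N) := by
      rw [hs, mul_div_assoc]
      have : (t' : ℝ) ≤ t := by exact_mod_cast (min_le_left t N)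
      gcongr
    rw [abs_le] at m1 m2 ⊢
    constructor <;> linarith [m1.1, m1.2, m2.1, m2.2]

/-! ### Conditioning on nonempty cells -/

lemma cond_le {I T : Type} [Fintype I] [DecidableEq I] [Fintype T] {w : T → ℝ} (hw : PW w)
    (P : T → Prop) [DecidablePred P] (hZ : 0 < ∑ t : {t // P t}, w t.1) (F : (I → T) → ℝ) (hF : ∀ y, 0 ≤ F y) :
    EE (pw w) (fun ω : I → T => if ∀ c, P (ω c) then F ω else 0) ≤
      EE (pw (fun t : {t // P t} => w t.1 / ∑ t : {t // P t}, w t.1)) (fun ω => F (fun c => (ω c).1)) := by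
  set Z : ℝ := ∑ t : {t // P t}, w t.1 with hZdef
  have hZ1 : Z ≤ 1 := by
    rw [← hw.sum_one, hZdef, ← Finset.sum_subtype (univ.filter P) (by simp) w]
    exact Finset.sum_le_sum_of_subset_of_nonneg (Finset.filter_subset _ _) (fun t _ _ => hw.nonneg t)
  have h1 : EE (pw w) (fun ω : I → T => if ∀ c, P (ω c) then F ω else 0) =
      ∑ ω : I → {t // P t}, pw w (fun c => (ω c).1) * F (fun c => (ω c).1) := by
    unfold EE
    symm
    refine Fintype.sum_of_injective (fun ω : I → {t // P t} => fun c => (ω c).1) ?_ _ _ ?_ ?_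
    · intro ω ω' h
      funext c
      exact Subtype.ext (congrFun h c)
    · intro ω hω
      beta_reduce
      rw [if_neg, mul_zero]
      intro hP
      apply hω
      exact ⟨fun c => ⟨ω c, hP c⟩, rfl⟩
    · intro ω
      beta_reduce
      rw [if_pos (fun c => (ω c).2)]
  have h2 : ∀ ω : I → {t // P t}, pw w (fun c => (ω c).1) =
      Z ^ Fintype.card I * pw (fun t : {t // P t} => w t.1 / Z) ω := by
    intro ω
    unfold pw
    rw [Finset.prod_div_distrib, Finset.prod_const, card_univ]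
    field_simp
  rw [h1]
  unfold EE
  apply Finset.sum_le_sum
  intro ω _
  rw [h2]
  have h3 : 0 ≤ pw (fun t : {t // P t} => w t.1 / Z) ω :=
    Finset.prod_nonneg (fun c _ => div_nonneg (hw.nonneg _) hZ.le)
  have h4 : Z ^ Fintype.card I ≤ 1 := pow_le_one₀ hZ.le hZ1
  have h5 := hF (fun c => (ω c).1)
  calc Z ^ Fintype.card I * pw (fun t : {t // P t} => w t.1 / Z) ω * F (fun c => (ω c).1)
      ≤ 1 * pw (fun t : {t // P t} => w t.1 / Z) ω * F (fun c => (ω c).1) := by gcongr
    _ = _ := by rw [one_mul]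

lemma cond_PW {T : Type} [Fintype T] {w : T → ℝ} (hw : PW w)
    (P : T → Prop) [DecidablePred P] (hZ : 0 < ∑ t : {t // P t}, w t.1) :
    PW (fun t : {t // P t} => w t.1 / ∑ t : {t // P t}, w t.1) := by
  constructor
  · intro t; exact div_nonneg (hw.nonneg _) hZ.le
  · rw [← Finset.sum_div, div_self hZ.ne']

lemma bw_empty {U : Type} [Fintype U] (p : ℝ) : bw p (∅ : Finset U) = (1 - p) ^ Fintype.card U := by
  simp [bw]

lemma card_UU (N r : ℕ) : Fintype.card (UU N r) = N ^ 2 * r ^ 2 := by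
  simp only [UU, Fintype.card_prod, Fintype.card_fin]; ring

/-- the estimate in one block -/
lemma block_est {a : ℝ} {N : ℕ} (hN : 0 < N)
    (haw : ∀ (T : Type) [Fintype T] (w : T → ℝ),
      PW w → ∀ H : (Fin N × Fin N → T) → ℝ, OscSq 240 H → Va (pw w) H ≤ a * N ^ 2)
    {m r : ℕ} {p : ℝ} (hm : 0 < m) (hr : 0 < r) (hp : 0 < p) (hp1 : p < 1) (b : Fin m × Fin m)
    (R : Finset (ℝ × ℝ)) (hR : ∀ q ∈ R, q ∉ QQ m N ((b.1 : ℕ) * N) ((b.2 : ℕ) * N) N) :
    Va (bw p) (HH m N r b R) ≤ a / m ^ 2 + (120 / m) ^ 2 * (N ^ 2 * (1 - p) ^ (r ^ 2)) +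
      (1 - p) ^ (N ^ 2 * r ^ 2) * (2 / (N ^ 2 * r ^ 2) *
        (∑ x : UU N r, (tsp (insert (pos m N r (b, x)) R) - tsp R) ^ 2) + 2 * (120 / m) ^ 2) := by
  classical
  have hm' : (0 : ℝ) < m := by exact_mod_cast hm
  have hN' : (0 : ℝ) < N := by exact_mod_cast hN
  have hr' : (0 : ℝ) < r := by exact_mod_cast hr
  have hbw : PW (bw p : Finset (Fin r × Fin r) → ℝ) := bw_PW hp.le hp1.le
  have hbwU : PW (bw p : Finset (UU N r) → ℝ) := bw_PW hp.le hp1.le
  -- the conditioned cell law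
  have hZ : 0 < ∑ t : {t : Finset (Fin r × Fin r) // t.Nonempty}, bw p t.1 := by
    have hne : (univ : Finset (Fin r × Fin r)).Nonempty := ⟨(⟨0, hr⟩, ⟨0, hr⟩), mem_univ _⟩
    refine Finset.sum_pos' (fun t _ => hbw.nonneg _) ⟨⟨univ, hne⟩, mem_univ _, ?_⟩
    unfold bw; have : 0 < 1 - p := by linarith
    positivity
  set Z : ℝ := ∑ t : {t : Finset (Fin r × Fin r) // t.Nonempty}, bw p t.1 with hZdef
  set ws : {t : Finset (Fin r × Fin r) // t.Nonempty} → ℝ := fun t => bw p t.1 / Z with hws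
  have hwsP : PW ws := cond_PW hbw (fun t => t.Nonempty) hZ
  set Hs : (Fin N × Fin N → {t : Finset (Fin r × Fin r) // t.Nonempty}) → ℝ :=
    fun ω => HH m N r b R (glue (fun c => (ω c).1)) with hHs
  set c : ℝ := EE (pw ws) Hs with hc
  have hpw : PW (pw ws : (Fin N × Fin N → {t : Finset (Fin r × Fin r) // t.Nonempty}) → ℝ) := pw_PW hwsP
  -- variance of the conditioned law
  have hVs : Va (pw ws) Hs ≤ a / m ^ 2 := by
    have h1 := haw _ ws hwsP (fun ω => (m * N : ℝ) * Hs ω) (by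
      intro x y t ω ω' h
      have := HH_osc hm hN hr b R hR (fun c => (ω c).1) (fun c => (ω' c).1) (fun c => (ω c).2)
        (fun c => (ω' c).2) x y t (fun c hc => congrArg Subtype.val (h c hc))
      rw [← mul_sub, abs_mul, abs_of_pos (by positivity : (0 : ℝ) < m * N)]
      rw [le_div_iff₀ (by positivity)] at this
      linarith)
    rw [Va_const_mul] at h1
    rw [le_div_iff₀ (by positivity)]
    have hN2 : (0 : ℝ) < (N : ℝ) ^ 2 := by positivity
    have h2 : Va (pw ws) Hs * m ^ 2 * N ^ 2 ≤ a * N ^ 2 := by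
      calc _ = (m * N : ℝ) ^ 2 * Va (pw ws) Hs := by ring
        _ ≤ _ := h1
    exact le_of_mul_le_mul_right h2 hN2
  -- values of nonempty configurations
  set κ : ℝ := 120 / m with hκ
  set h₀ : ℝ := tsp (insert ((((b.1 : ℕ) * N : ℕ) : ℝ) / (m * N), (((b.2 : ℕ) * N : ℕ) : ℝ) / (m * N)) R) with hh₀
  have hclose : ∀ t : Finset (UU N r), t.Nonempty → |HH m N r b R t - h₀| ≤ 60 / m :=
    fun t ht => HH_close hm hN hr b R hR t ht
  have hgne : ∀ ω : Fin N × Fin N → {t : Finset (Fin r × Fin r) // t.Nonempty},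
      (glue (fun c => (ω c).1)).Nonempty := by
    intro ω
    obtain ⟨e, he⟩ := (ω (⟨0, hN⟩, ⟨0, hN⟩)).2
    exact ⟨((⟨0, hN⟩, ⟨0, hN⟩), e), by simp only [glue, mem_filter, mem_univ, true_and]; exact he⟩
  have hcc : |c - h₀| ≤ 60 / m := by
    have e1 : EE (pw ws) Hs ≤ EE (pw ws) (fun _ => h₀ + 60 / m) :=
      EE_mono hpw (fun ω => by have := abs_le.1 (hclose _ (hgne ω)); simp only [hHs]; linarith [this.2])
    have e2 : EE (pw ws) (fun _ => h₀ - 60 / m) ≤ EE (pw ws) Hs :=
      EE_mono hpw (fun ω => by have := abs_le.1 (hclose _ (hgne ω)); simp only [hHs]; linarith [this.1])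
    rw [EE_const hpw] at e1 e2
    rw [abs_le]; constructor <;> linarith
  have hκ' : ∀ t : Finset (UU N r), t.Nonempty → (HH m N r b R t - c) ^ 2 ≤ κ ^ 2 := by
    intro t ht
    have h1 := abs_le.1 (hclose t ht)
    have h2 := abs_le.1 hcc
    have hk : κ = 60 / m + 60 / m := by rw [hκ]; ring
    apply sq_le_sq' <;> linarith
  -- pointwise decomposition
  have hVa := Va_le hbwU (HH m N r b R) c
  rw [EE_glue p (fun t : Finset (UU N r) => (HH m N r b R t - c) ^ 2)] at hVa
  have hbwpw : PW (pw (bw p) : ((Fin N × Fin N) → Finset (Fin r × Fin r)) → ℝ) := pw_PW hbw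
  set F1 : ((Fin N × Fin N) → Finset (Fin r × Fin r)) → ℝ := fun ω =>
    if ∀ c, (ω c).Nonempty then (HH m N r b R (glue ω) - c) ^ 2 else 0 with hF1
  set F2 : ((Fin N × Fin N) → Finset (Fin r × Fin r)) → ℝ := fun ω =>
    ∑ c' : Fin N × Fin N, (if ω c' = ∅ then κ ^ 2 else 0) with hF2
  set F3 : ((Fin N × Fin N) → Finset (Fin r × Fin r)) → ℝ := fun ω =>
    if glue ω = (∅ : Finset (UU N r)) then (HH m N r b R ∅ - c) ^ 2 else 0 with hF3
  have hF2nn : ∀ ω, 0 ≤ F2 ω := fun ω => Finset.sum_nonneg (fun c' _ => by split_ifs <;> positivity)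
  have hF3nn : ∀ ω, 0 ≤ F3 ω := fun ω => by simp only [hF3]; split_ifs <;> positivity
  have hpt : ∀ ω : (Fin N × Fin N) → Finset (Fin r × Fin r),
      (HH m N r b R (glue ω) - c) ^ 2 ≤ F1 ω + (F2 ω + F3 ω) := by
    intro ω
    by_cases h1 : ∀ c, (ω c).Nonempty
    · have : F1 ω = (HH m N r b R (glue ω) - c) ^ 2 := by simp only [hF1]; rw [if_pos h1]
      rw [this]; linarith [hF2nn ω, hF3nn ω]
    · have e1 : F1 ω = 0 := by simp only [hF1]; rw [if_neg h1]
      rw [e1]
      by_cases h2 : glue ω = (∅ : Finset (UU N r))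
      · have : F3 ω = (HH m N r b R ∅ - c) ^ 2 := by simp only [hF3]; rw [if_pos h2]
        rw [this, h2]; linarith [hF2nn ω]
      · have h3 := hκ' (glue ω) (Finset.nonempty_iff_ne_empty.2 h2)
        push Not at h1
        obtain ⟨c', hc'⟩ := h1
        have h4 : κ ^ 2 ≤ F2 ω := by
          simp only [hF2]
          calc κ ^ 2 = (if ω c' = ∅ then κ ^ 2 else 0) := by rw [if_pos hc']
            _ ≤ _ := Finset.single_le_sum (f := fun c' => (if ω c' = ∅ then κ ^ 2 else (0 : ℝ)))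
              (fun c' _ => by split_ifs <;> positivity) (mem_univ c')
        linarith [hF3nn ω]
  have hsum : EE (pw (bw p)) (fun ω : (Fin N × Fin N) → Finset (Fin r × Fin r) =>
      (HH m N r b R (glue ω) - c) ^ 2) ≤ EE (pw (bw p)) F1 + (EE (pw (bw p)) F2 + EE (pw (bw p)) F3) := by
    calc _ ≤ EE (pw (bw p)) (fun ω => F1 ω + (F2 ω + F3 ω)) := EE_mono hbwpw hpt
      _ = _ := by rw [EE_add, EE_add]
  have hE1 : EE (pw (bw p)) F1 ≤ a / m ^ 2 := by
    have := cond_le hbw (fun t => t.Nonempty) hZ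
      (fun ω : (Fin N × Fin N) → Finset (Fin r × Fin r) => (HH m N r b R (glue ω) - c) ^ 2)
      (fun ω => by positivity)
    refine this.trans ?_
    exact hVs
  have hE2 : EE (pw (bw p)) F2 ≤ κ ^ 2 * (N ^ 2 * (1 - p) ^ (r ^ 2)) := by
    have h1 : EE (pw (bw p)) F2 = ∑ c' : Fin N × Fin N,
        EE (pw (bw p)) (fun ω : (Fin N × Fin N) → Finset (Fin r × Fin r) => if ω c' = ∅ then κ ^ 2 else 0) := by
      unfold EE
      simp only [hF2, Finset.mul_sum]
      exact Finset.sum_comm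
    have h2 : ∀ c' : Fin N × Fin N,
        EE (pw (bw p)) (fun ω : (Fin N × Fin N) → Finset (Fin r × Fin r) => if ω c' = ∅ then κ ^ 2 else 0) =
        κ ^ 2 * (1 - p) ^ (r ^ 2) := by
      intro c'
      rw [EE_coord hbw c' (fun t : Finset (Fin r × Fin r) => if t = ∅ then κ ^ 2 else 0)]
      unfold EE
      beta_reduce
      rw [Finset.sum_eq_single (∅ : Finset (Fin r × Fin r))]
      · rw [if_pos rfl, bw_empty]
        simp only [Fintype.card_prod, Fintype.card_fin]
        rw [← pow_two]; ring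
      · intro t _ ht; rw [if_neg ht, mul_zero]
      · intro h; exact absurd (mem_univ _) h
    rw [h1, Finset.sum_congr rfl (fun c' _ => h2 c'), Finset.sum_const, card_univ, Fintype.card_prod,
      Fintype.card_fin, nsmul_eq_mul]
    push_cast
    apply le_of_eq; ring
  have hE3 : EE (pw (bw p)) F3 = (1 - p) ^ (N ^ 2 * r ^ 2) * (HH m N r b R ∅ - c) ^ 2 := by
    have h1 := EE_glue p (fun t : Finset (UU N r) => if t = ∅ then (HH m N r b R ∅ - c) ^ 2 else 0)
    have h2 : EE (pw (bw p)) F3 = EE (bw p) (fun t : Finset (UU N r) =>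
        if t = ∅ then (HH m N r b R ∅ - c) ^ 2 else 0) := by rw [h1]
    rw [h2]
    unfold EE
    beta_reduce
    rw [Finset.sum_eq_single (∅ : Finset (UU N r))]
    · rw [if_pos rfl, bw_empty, card_UU]
    · intro t _ ht; rw [if_neg ht, mul_zero]
    · intro h; exact absurd (mem_univ _) h
  -- the empty configuration
  have hempty : (HH m N r b R ∅ - c) ^ 2 ≤ 2 / (N ^ 2 * r ^ 2) *
        (∑ x : UU N r, (tsp (insert (pos m N r (b, x)) R) - tsp R) ^ 2) + 2 * κ ^ 2 := by
    have h1 : ∀ x : UU N r, (HH m N r b R ∅ - c) ^ 2 ≤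
        2 * (tsp (insert (pos m N r (b, x)) R) - tsp R) ^ 2 + 2 * κ ^ 2 := by
      intro x
      have e1 : HH m N r b R ∅ = tsp R := by
        unfold HH PB; rw [Finset.image_empty, Finset.empty_union, tsp_empty, sub_zero]
      have e2 : HH m N r b R {x} = tsp (insert (pos m N r (b, x)) R) := by
        unfold HH PB; rw [Finset.image_singleton, tsp_singleton, sub_zero, Finset.insert_eq]
      have e3 := hκ' {x} (singleton_nonempty x)
      rw [e2] at e3
      rw [e1]
      nlinarith [sq_nonneg (tsp (insert (pos m N r (b, x)) R) - tsp R + (tsp (insert (pos m N r (b, x)) R) - c))]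
    have h2 : (Fintype.card (UU N r) : ℝ) * (HH m N r b R ∅ - c) ^ 2 ≤
        2 * (∑ x : UU N r, (tsp (insert (pos m N r (b, x)) R) - tsp R) ^ 2) +
          Fintype.card (UU N r) * (2 * κ ^ 2) := by
      calc (Fintype.card (UU N r) : ℝ) * (HH m N r b R ∅ - c) ^ 2
          = ∑ _x : UU N r, (HH m N r b R ∅ - c) ^ 2 := by rw [Finset.sum_const, card_univ, nsmul_eq_mul]
        _ ≤ ∑ x : UU N r, (2 * (tsp (insert (pos m N r (b, x)) R) - tsp R) ^ 2 + 2 * κ ^ 2) :=
            Finset.sum_le_sum (fun x _ => h1 x)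
        _ = _ := by
            rw [Finset.sum_add_distrib, Finset.sum_const, card_univ, nsmul_eq_mul, Finset.mul_sum]
    rw [card_UU] at h2
    push_cast at h2
    have hpos : (0 : ℝ) < (N : ℝ) ^ 2 * r ^ 2 := by positivity
    have h3 : (HH m N r b R ∅ - c) ^ 2 ≤ (2 * (∑ x : UU N r, (tsp (insert (pos m N r (b, x)) R) - tsp R) ^ 2) +
          ((N : ℝ) ^ 2 * r ^ 2) * (2 * κ ^ 2)) / ((N : ℝ) ^ 2 * r ^ 2) := by
      rw [le_div_iff₀ hpos]; linarith
    refine h3.trans (le_of_eq ?_)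
    field_simp
  have hq : 0 ≤ (1 - p) ^ (N ^ 2 * r ^ 2) := pow_nonneg (by linarith) _
  have hE3' : EE (pw (bw p)) F3 ≤ (1 - p) ^ (N ^ 2 * r ^ 2) * (2 / (N ^ 2 * r ^ 2) *
        (∑ x : UU N r, (tsp (insert (pos m N r (b, x)) R) - tsp R) ^ 2) + 2 * κ ^ 2) := by
    rw [hE3]; gcongr
  linarith [hVa, hsum, hE1, hE2, hE3']

/-- Module G : variance of the error functional in the Bernoulli model. -/
theorem block_var : ∃ C : ℝ, 0 < C ∧ ∀ a : ℝ, 0 < a → ∃ N : ℕ, 0 < N ∧ ∀ (m r : ℕ) (p : ℝ), 0 < m → 0 < r →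
    0 < p → p < 1 →
    Va (bw p) (GG m N r) ≤ a + C * N ^ 2 * Real.exp (-(p * r ^ 2)) + C / (p * N ^ 2 * r ^ 2) := by
  classical
  refine ⟨43200, by norm_num, ?_⟩
  intro a ha
  obtain ⟨N, hN, haw⟩ := aw 240 a (by norm_num) ha
  refine ⟨N, hN, ?_⟩
  intro m r p hm hr hp hp1
  have hm' : (0 : ℝ) < m := by exact_mod_cast hm
  have hN' : (0 : ℝ) < N := by exact_mod_cast hN
  have hr' : (0 : ℝ) < r := by exact_mod_cast hr
  have h1p : 0 < 1 - p := by linarith
  have hbwU : PW (bw p : Finset (UU N r) → ℝ) := bw_PW hp.le hp1.le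
  have hbwS : PW (bw p : Finset (Site m N r) → ℝ) := bw_PW hp.le hp1.le
  have hpw : PW (pw (bw p) : ((Fin m × Fin m) → Finset (UU N r)) → ℝ) := pw_PW hbwU
  have hVa : Va (bw p) (GG m N r) = Va (pw (bw p) : ((Fin m × Fin m) → Finset (UU N r)) → ℝ)
      (fun ω => GG m N r (glue ω)) := by
    unfold Va
    rw [EE_glue p (GG m N r), EE_glue]
  have hES := ES hbwU (fun ω : (Fin m × Fin m) → Finset (UU N r) => GG m N r (glue ω))
  set κ2 : ℝ := (120 / (m : ℝ)) ^ 2 with hκ2
  set q : ℝ := (1 - p) ^ (N ^ 2 * r ^ 2) with hq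
  set Φ : (b : Fin m × Fin m) → Finset (ℝ × ℝ) → ℝ := fun b R =>
    ∑ x : UU N r, (tsp (insert (pos m N r (b, x)) R) - tsp R) ^ 2 with hΦ
  have hblock : ∀ (b : Fin m × Fin m) (y : (Fin m × Fin m) → Finset (UU N r)),
      Va (bw p) (fun t => GG m N r (glue (Function.update y b t))) ≤
        (a / m ^ 2 + κ2 * (N ^ 2 * (1 - p) ^ (r ^ 2)) + q * (2 * κ2)) +
          2 / (N ^ 2 * r ^ 2) * (q * Φ b (RB m N r b y)) := by
    intro b y
    have h1 : (fun t => GG m N r (glue (Function.update y b t))) = fun t => HH m N r b (RB m N r b y) t +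
      (-∑ b' ∈ (univ : Finset (Fin m × Fin m)).erase b, tsp (PB m N r b' (y b'))) := by
      funext t; exact GG_update m N r y b t
    rw [h1, Va_add_const hbwU]
    have := block_est hN haw hm hr hp hp1 b (RB m N r b y) (RB_notMem hm hN hr b y)
    refine this.trans (le_of_eq ?_)
    simp only [hΦ, hκ2, hq]
    ring
  -- sum over the blocks
  have hE : ∀ b : Fin m × Fin m, EE (pw (bw p)) (fun y : (Fin m × Fin m) → Finset (UU N r) =>
      Va (bw p) (fun t => GG m N r (glue (Function.update y b t)))) ≤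
      (a / m ^ 2 + κ2 * (N ^ 2 * (1 - p) ^ (r ^ 2)) + q * (2 * κ2)) +
        2 / (N ^ 2 * r ^ 2) * EE (pw (bw p)) (fun y : (Fin m × Fin m) → Finset (UU N r) =>
          if y b = ∅ then Φ b ((glue y).image (pos m N r)) else 0) := by
    intro b
    refine (EE_mono hpw (hblock b)).trans (le_of_eq ?_)
    rw [EE_add, EE_const hpw, EE_const_mul]
    congr 2
    rw [EE_resample hbwU b (fun y : (Fin m × Fin m) → Finset (UU N r) =>
          if y b = ∅ then Φ b ((glue y).image (pos m N r)) else 0)]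
    congr 1
    funext y
    unfold EE
    beta_reduce
    rw [Finset.sum_eq_single (∅ : Finset (UU N r))]
    · rw [Function.update_self, if_pos rfl, bw_empty, card_UU, image_glue_update]
      unfold PB
      rw [Finset.image_empty, Finset.empty_union]
    · intro t _ ht; rw [Function.update_self, if_neg ht, mul_zero]
    · intro h; exact absurd (mem_univ _) h
  have hsumΦ : ∑ b : Fin m × Fin m, EE (pw (bw p)) (fun y : (Fin m × Fin m) → Finset (UU N r) =>
          if y b = ∅ then Φ b ((glue y).image (pos m N r)) else 0) ≤ 100 / p := by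
    have h1 : ∑ b : Fin m × Fin m, EE (pw (bw p)) (fun y : (Fin m × Fin m) → Finset (UU N r) =>
          if y b = ∅ then Φ b ((glue y).image (pos m N r)) else 0) =
        EE (pw (bw p)) (fun y : (Fin m × Fin m) → Finset (UU N r) =>
          ∑ b : Fin m × Fin m, if y b = ∅ then Φ b ((glue y).image (pos m N r)) else 0) := by
      unfold EE
      rw [Finset.sum_comm]
      apply Finset.sum_congr rfl
      intro y _
      rw [Finset.mul_sum]
    rw [h1]
    have h2 : ∀ y : (Fin m × Fin m) → Finset (UU N r),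
        (∑ b : Fin m × Fin m, if y b = ∅ then Φ b ((glue y).image (pos m N r)) else 0) ≤
        (fun S : Finset (Site m N r) => ∑ s ∈ univ \ S, (fun (S' : Finset (Site m N r)) (s : Site m N r) =>
          (LL m N r S' - LL m N r (S'.erase s)) ^ 2) (insert s S) s) (glue y) := by
      intro y
      have e1 : (∑ b : Fin m × Fin m, if y b = ∅ then Φ b ((glue y).image (pos m N r)) else 0) =
          ∑ s : Site m N r, if y s.1 = ∅ then (tsp (insert (pos m N r s) ((glue y).image (pos m N r))) -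
            tsp ((glue y).image (pos m N r))) ^ 2 else 0 := by
        refine Eq.trans ?_ (Fintype.sum_prod_type (fun s : (Fin m × Fin m) × UU N r =>
          if y s.1 = ∅ then (tsp (insert (pos m N r s) ((glue y).image (pos m N r))) -
            tsp ((glue y).image (pos m N r))) ^ 2 else 0)).symm
        apply Finset.sum_congr rfl
        intro b _
        split_ifs with h
        · rfl
        · simp
      rw [e1]
      beta_reduce
      have e2 : ∑ s ∈ univ \ glue y, (LL m N r (insert s (glue y)) - LL m N r ((insert s (glue y)).erase s)) ^ 2 =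
          ∑ s : Site m N r, if s ∈ univ \ glue y then
            (tsp (insert (pos m N r s) ((glue y).image (pos m N r))) -
            tsp ((glue y).image (pos m N r))) ^ 2 else 0 := by
        rw [Finset.sum_ite_mem, Finset.univ_inter]
        apply Finset.sum_congr rfl
        intro s hs
        have hs' : s ∉ glue y := (mem_sdiff.1 hs).2
        rw [Finset.erase_insert hs']
        unfold LL
        rw [Finset.image_insert]
      rw [e2]
      apply Finset.sum_le_sum
      intro s _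
      by_cases h : y s.1 = ∅
      · rw [if_pos h, if_pos]
        rw [mem_sdiff]
        refine ⟨mem_univ _, ?_⟩
        simp only [glue, mem_filter, mem_univ, true_and]
        rw [h]; exact notMem_empty _
      · rw [if_neg h]; split_ifs <;> positivity
    refine (EE_mono hpw h2).trans ?_
    rw [← EE_glue p (fun S : Finset (Site m N r) => ∑ s ∈ univ \ S,
      (fun (S' : Finset (Site m N r)) (s : Site m N r) =>
          (LL m N r S' - LL m N r (S'.erase s)) ^ 2) (insert s S) s)]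
    have hM := mecke p (fun (S' : Finset (Site m N r)) (s : Site m N r) =>
          (LL m N r S' - LL m N r (S'.erase s)) ^ 2)
    have h3 : EE (bw p) (fun S : Finset (Site m N r) => ∑ x ∈ S, (LL m N r S - LL m N r (S.erase x)) ^ 2) ≤ 100 := by
      calc _ ≤ EE (bw p) (fun _ : Finset (Site m N r) => (100 : ℝ)) :=
            EE_mono hbwS (fun S => LL_pack m N r hm hN hr S)
        _ = 100 := EE_const hbwS _
    rw [le_div_iff₀ hp]
    calc _ = p * EE (bw p) (fun S : Finset (Site m N r) => ∑ s ∈ univ \ S,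
      (fun (S' : Finset (Site m N r)) (s : Site m N r) =>
          (LL m N r S' - LL m N r (S'.erase s)) ^ 2) (insert s S) s) := by ring
      _ = (1 - p) * EE (bw p) (fun S : Finset (Site m N r) => ∑ x ∈ S,
          (LL m N r S - LL m N r (S.erase x)) ^ 2) := hM
      _ ≤ 1 * 100 := by
          have h0 : 0 ≤ EE (bw p) (fun S : Finset (Site m N r) => ∑ x ∈ S,
            (LL m N r S - LL m N r (S.erase x)) ^ 2) := by
            rw [← EE_const hbwS 0]
            exact EE_mono hbwS (fun S => Finset.sum_nonneg (fun x _ => sq_nonneg _))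
          nlinarith
      _ = 100 := by norm_num
  -- conclusion
  have htot : Va (bw p) (GG m N r) ≤ (m : ℝ) ^ 2 * (a / m ^ 2 + κ2 * (N ^ 2 * (1 - p) ^ (r ^ 2)) + q * (2 * κ2)) +
      2 / (N ^ 2 * r ^ 2) * (100 / p) := by
    rw [hVa]
    refine hES.trans ((Finset.sum_le_sum (fun b _ => hE b)).trans ?_)
    rw [Finset.sum_add_distrib, Finset.sum_const, card_univ, Fintype.card_prod, Fintype.card_fin,
      nsmul_eq_mul, ← Finset.mul_sum]
    have : (((m * m : ℕ) : ℝ)) = (m : ℝ) ^ 2 := by push_cast; ring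
    rw [this]
    gcongr
  have hexp : (1 - p) ^ (r ^ 2) ≤ Real.exp (-(p * r ^ 2)) := by
    have h1 : 1 - p ≤ Real.exp (-p) := by linarith [Real.add_one_le_exp (-p)]
    calc (1 - p) ^ (r ^ 2) ≤ (Real.exp (-p)) ^ (r ^ 2) := by gcongr
      _ = Real.exp (-(p * r ^ 2)) := by
          rw [← Real.exp_nat_mul]; congr 1; push_cast; ring
  have hqle : q ≤ (1 - p) ^ (r ^ 2) := by
    rw [hq]
    apply pow_le_pow_of_le_one h1p.le (by linarith)
    have : 1 ≤ N ^ 2 := Nat.one_le_pow _ _ hN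
    calc r ^ 2 = 1 * r ^ 2 := by ring
      _ ≤ N ^ 2 * r ^ 2 := Nat.mul_le_mul_right _ this
  have hN1 : (1 : ℝ) ≤ (N : ℝ) ^ 2 := by
    have : (1 : ℝ) ≤ N := by exact_mod_cast hN
    nlinarith
  have hmκ : (m : ℝ) ^ 2 * κ2 = 14400 := by rw [hκ2]; field_simp; norm_num
  have hq0 : 0 ≤ (1 - p) ^ (r ^ 2) := by positivity
  have e1 : (m : ℝ) ^ 2 * (a / m ^ 2 + κ2 * (N ^ 2 * (1 - p) ^ (r ^ 2)) + q * (2 * κ2)) =
      a + 14400 * (N ^ 2 * (1 - p) ^ (r ^ 2)) + 28800 * q := by
    have : (m : ℝ) ^ 2 * (a / m ^ 2) = a := by field_simp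
    calc _ = (m : ℝ) ^ 2 * (a / m ^ 2) + ((m : ℝ) ^ 2 * κ2) * (N ^ 2 * (1 - p) ^ (r ^ 2)) +
        2 * ((m : ℝ) ^ 2 * κ2) * q := by ring
      _ = _ := by rw [this, hmκ]; ring
  have e2 : 2 / ((N : ℝ) ^ 2 * r ^ 2) * (100 / p) = 200 / (p * N ^ 2 * r ^ 2) := by
    field_simp; norm_num
  rw [e1, e2] at htot
  have e3 : 28800 * q ≤ 28800 * (N ^ 2 * Real.exp (-(p * r ^ 2))) := by
    have : q ≤ N ^ 2 * Real.exp (-(p * r ^ 2)) := by
      calc q ≤ 1 * Real.exp (-(p * r ^ 2)) := by linarith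
        _ ≤ N ^ 2 * Real.exp (-(p * r ^ 2)) := by gcongr
    linarith
  have e4 : 14400 * ((N : ℝ) ^ 2 * (1 - p) ^ (r ^ 2)) ≤ 14400 * (N ^ 2 * Real.exp (-(p * r ^ 2))) := by gcongr
  have e5 : 200 / (p * N ^ 2 * r ^ 2) ≤ 43200 / (p * N ^ 2 * r ^ 2) := by gcongr; norm_num
  calc Va (bw p) (GG m N r) ≤ a + 14400 * (N ^ 2 * (1 - p) ^ (r ^ 2)) + 28800 * q + 200 / (p * N ^ 2 * r ^ 2) := htot
    _ ≤ a + 14400 * (N ^ 2 * Real.exp (-(p * r ^ 2))) + 28800 * (N ^ 2 * Real.exp (-(p * r ^ 2))) +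
        43200 / (p * N ^ 2 * r ^ 2) := by linarith
    _ = _ := by ring

end

end Pool.Agent.H42.TSP
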