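import Pool.Agent.H42.TSP.Tours

set_option autoImplicit false

namespace Pool.Agent.H42.TSP

open Finset
open scoped BigOperators

noncomputable section

/-! Module D : decomposition along the boundary of a square. -/

/-- half-open square -/
def Qs (a : ℝ × ℝ) (s : ℝ) : Set (ℝ × ℝ) :=
  {p | a.1 ≤ p.1 ∧ p.1 < a.1 + s ∧ a.2 ≤ p.2 ∧ p.2 < a.2 + s}

/-- boundary of the square -/
def Bs (a : ℝ × ℝ) (s : ℝ) : Set (ℝ × ℝ) :=
  {p | a.1 ≤ p.1 ∧ p.1 ≤ a.1 + s ∧ a.2 ≤ p.2 ∧ p.2 ≤ a.2 + s ∧
    (p.1 = a.1 ∨ p.1 = a.1 + s ∨ p.2 = a.2 ∨ p.2 = a.2 + s)}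

/-- path data: start, end, visited set, cost -/
abbrev PD : Type := (ℝ × ℝ) × (ℝ × ℝ) × Finset (ℝ × ℝ) × ℝ

/-- there is a walk from `π.1` to `π.2.1` visiting `π.2.2.1`, of length at most `π.2.2.2` -/
def PV (π : PD) : Prop :=
  ∃ l : List (ℝ × ℝ), (∀ p ∈ π.2.2.1, p ∈ π.1 :: (l ++ [π.2.1])) ∧ wl (π.1 :: (l ++ [π.2.1])) ≤ π.2.2.2

/-- the list of the ends of the paths -/
def ends (P : List PD) : List (ℝ × ℝ) := P.flatMap (fun π => [π.1, π.2.1])

lemma ends_cons (π : PD) (P : List PD) : ends (π :: P) = π.1 :: π.2.1 :: ends P := rfl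

/-- a path may be reversed -/
lemma PV_rev {x y : ℝ × ℝ} {A : Finset (ℝ × ℝ)} {c : ℝ} (h : PV (x, y, A, c)) :
    PV (y, x, A, c) := by
  obtain ⟨l, h1, h2⟩ := h
  refine ⟨l.reverse, ?_, ?_⟩
  · intro p hp
    have := h1 p hp
    simp only [List.mem_cons, List.mem_append, List.mem_reverse,
      List.not_mem_nil, or_false] at this ⊢
    tauto
  · show wl (y :: (l.reverse ++ [x])) ≤ c
    have e : y :: (l.reverse ++ [x]) = (x :: (l ++ [y])).reverse := by simp
    rw [e, wl_reverse]
    exact h2

/-- paths may be joined -/
lemma PV_join {x y x' y' : ℝ × ℝ} {A A' : Finset (ℝ × ℝ)} {c c' : ℝ} (h : PV (x, y, A, c))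
    (h' : PV (x', y', A', c')) :
    PV (y, y', insert x (insert x' (A ∪ A')), c + c' + ed x x') := by
  obtain ⟨l, h1, h2⟩ := PV_rev h
  obtain ⟨l', h1', h2'⟩ := h'
  refine ⟨l ++ x :: x' :: l', ?_, ?_⟩
  · intro p hp
    simp only [mem_insert, mem_union] at hp
    have g1 := h1 p
    have g2 := h1' p
    simp only [List.mem_cons, List.mem_append,
      List.not_mem_nil, or_false] at g1 g2 ⊢
    tauto
  · show wl (y :: ((l ++ x :: x' :: l') ++ [y'])) ≤ c + c' + ed x x'
    have e : y :: ((l ++ x :: x' :: l') ++ [y']) = (y :: l) ++ x :: (x' :: (l' ++ [y'])) := by simp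
    rw [e, wl_append]
    have e2 : wl (x :: x' :: (l' ++ [y'])) = ed x x' + wl (x' :: (l' ++ [y'])) := rfl
    rw [e2]
    have e3 : wl (y :: l ++ [x]) ≤ c := h2
    have e4 : wl (x' :: (l' ++ [y'])) ≤ c' := h2'
    linarith

/-- a path may be closed -/
lemma PV_close {x y : ℝ × ℝ} {A : Finset (ℝ × ℝ)} {c : ℝ} (h : PV (x, y, A, c)) :
    tsp (insert y (insert x A)) ≤ c + ed x y := by
  obtain ⟨l, h1, h2⟩ := h
  have h3 : tsp (insert y (insert x A)) ≤ cl (x :: (l ++ [y])) := by
    refine tsp_le_cl fun p hp => ?_
    simp only [mem_insert] at hp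
    have g1 := h1 p
    simp only [List.mem_cons, List.mem_append,
      List.not_mem_nil, or_false] at g1 ⊢
    tauto
  refine h3.trans ?_
  show wl (x :: ((l ++ [y]) ++ [x])) ≤ c + ed x y
  have e : x :: ((l ++ [y]) ++ [x]) = (x :: l) ++ y :: [x] := by simp
  rw [e, wl_append]
  have e2 : wl (y :: [x]) = ed y x + 0 := rfl
  rw [e2, ed_comm y x]
  have e3 : wl (x :: l ++ [y]) ≤ c := h2
  linarith

/-- choose the path with a given end -/
lemma pick {z : ℝ × ℝ} (P : List PD) (hP : ∀ π ∈ P, PV π) (hz : z ∈ ends P) :
    ∃ (y : ℝ × ℝ) (A : Finset (ℝ × ℝ)) (c : ℝ) (P' : List PD), PV (z, y, A, c) ∧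
      (∀ π ∈ P', PV π) ∧ (ends P).Perm (z :: y :: ends P') ∧
      (P.map (fun π => π.2.2.2)).sum = c + (P'.map (fun π => π.2.2.2)).sum ∧
      P.length = P'.length + 1 ∧
      ∀ p, (∃ π ∈ P, p ∈ π.2.2.1) → p ∈ A ∨ ∃ π ∈ P', p ∈ π.2.2.1 := by
  induction P with
  | nil => simp [ends] at hz
  | cons π P ih =>
    rw [ends_cons, List.mem_cons, List.mem_cons] at hz
    obtain ⟨x, y, A, c⟩ := π
    have hπ := hP _ (List.mem_cons_self)
    have hP0 : ∀ π ∈ P, PV π := fun π h => hP π (List.mem_cons_of_mem _ h)
    rcases hz with hz | hz | hz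
    · simp only at hz
      subst hz
      refine ⟨y, A, c, P, hπ, hP0, List.Perm.refl _, by simp, by simp, ?_⟩
      rintro p ⟨π, h1, h2⟩
      rcases List.mem_cons.1 h1 with h | h
      · subst h; exact Or.inl h2
      · exact Or.inr ⟨π, h, h2⟩
    · simp only at hz
      subst hz
      refine ⟨x, A, c, P, PV_rev hπ, hP0, List.Perm.swap _ _ _, by simp, by simp, ?_⟩
      rintro p ⟨π, h1, h2⟩
      rcases List.mem_cons.1 h1 with h | h
      · subst h; exact Or.inl h2
      · exact Or.inr ⟨π, h, h2⟩
    · obtain ⟨y', A', c', P', g1, g2, g3, g4, g5, g6⟩ := ih hP0 hz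
      refine ⟨y', A', c', (x, y, A, c) :: P', g1, ?_, ?_, ?_, ?_, ?_⟩
      · intro π h
        rcases List.mem_cons.1 h with h | h
        · subst h; exact hπ
        · exact g2 π h
      · rw [ends_cons, ends_cons]
        show (x :: y :: ends P).Perm (z :: y' :: x :: y :: ends P')
        have p1 : (x :: y :: ends P).Perm (x :: y :: z :: y' :: ends P') :=
          (g3.cons y).cons x
        refine p1.trans ?_
        have p2 : (x :: y :: z :: y' :: ends P') = [x, y] ++ ([z, y'] ++ ends P') := rfl
        have p3 : (z :: y' :: x :: y :: ends P') = [z, y'] ++ ([x, y] ++ ends P') := rfl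
        rw [p2, p3, ← List.append_assoc, ← List.append_assoc]
        exact List.Perm.append_right _ List.perm_append_comm
      · simp only [List.map_cons, List.sum_cons]
        rw [g4]; ring
      · simp only [List.length_cons]
        omega
      · rintro p ⟨π, h1, h2⟩
        rcases List.mem_cons.1 h1 with h | h
        · right
          exact ⟨π, by rw [h]; exact List.mem_cons_self, h2⟩
        · rcases g6 p ⟨π, h, h2⟩ with h3 | ⟨π', h3, h4⟩
          · exact Or.inl h3
          · exact Or.inr ⟨π', List.mem_cons_of_mem _ h3, h4⟩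

/-- Module D1 : closing lemma. Paths whose ends are the points of the list `Z` can be joined into one closed
walk of length at most the sum of the costs plus `3 wl Z` (induction on the number of paths: look at the first
two points `z₁, z₂` of `Z`; ends of the same path: close it up and attach it to the rest at `z₂, z₃`; otherwise merge
the two paths). -/
theorem closing (P : List PD) (hP : ∀ π ∈ P, PV π) (Z : List (ℝ × ℝ)) (hZ : (ends P).Perm Z)
    (S : Finset (ℝ × ℝ)) (hS : ∀ p ∈ S, (∃ π ∈ P, p ∈ π.2.2.1) ∨ p ∈ Z) :
    tsp S ≤ (P.map (fun π => π.2.2.2)).sum + 3 * wl Z := by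
  classical
  induction hn : P.length using Nat.strong_induction_on generalizing P Z S with
  | _ n ih =>
  match Z, hZ with
  | [], hZ =>
    have h1 : ends P = [] := hZ.eq_nil
    have h2 : P = [] := by
      cases P with
      | nil => rfl
      | cons π P => rw [ends_cons] at h1; exact absurd h1 (by simp)
    subst h2
    have h3 : S = ∅ := by
      rw [Finset.eq_empty_iff_forall_notMem]
      intro p hp
      rcases hS p hp with ⟨π, h, -⟩ | h
      · simp at h
      · simp at h
    rw [h3, tsp_empty]
    simp [wl]
  | [z], hZ =>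
    exfalso
    have h1 := hZ.length_eq
    cases P with
    | nil => simp [ends] at h1
    | cons π P => rw [ends_cons] at h1; simp at h1
  | z1 :: z2 :: Z', hZ =>
    have hz1 : z1 ∈ ends P := hZ.mem_iff.2 List.mem_cons_self
    obtain ⟨y, A, c, P', g1, g2, g3, g4, g5, g6⟩ := pick P hP hz1
    have q1 : (y :: ends P').Perm (z2 :: Z') := List.Perm.cons_inv (g3.symm.trans hZ)
    have hw0 : 0 ≤ wl Z' := wl_nonneg _
    have he0 : 0 ≤ ed z1 z2 := ed_nonneg _ _
    by_cases hy : y = z2
    · subst hy
      have q2 : (ends P').Perm Z' := List.Perm.cons_inv q1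
      rw [g4]
      have hcl := PV_close g1
      match Z', q2 with
      | [], q2 =>
        have h1 : ends P' = [] := q2.eq_nil
        have h2 : P' = [] := by
          cases P' with
          | nil => rfl
          | cons π P => rw [ends_cons] at h1; exact absurd h1 (by simp)
        subst h2
        have hsub : S ⊆ insert y (insert z1 A) := by
          intro p hp
          rcases hS p hp with h | h
          · rcases g6 p h with h | ⟨π, h, -⟩
            · simp [h]
            · simp at h
          · simp only [List.mem_cons, List.not_mem_nil, or_false] at h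
            rcases h with h | h <;> simp [h]
        have := (tsp_mono hsub).trans hcl
        have e : wl [z1, y] = ed z1 y + 0 := rfl
        rw [e]
        simp only [List.map_nil, List.sum_nil]
        linarith
      | z3 :: Z'', q2 =>
        set S' : Finset (ℝ × ℝ) :=
          insert z3 (S.filter fun p => (∃ π ∈ P', p ∈ π.2.2.1) ∨ p ∈ z3 :: Z'') with hS'
        have i1 := ih P'.length (by omega) P' g2 (z3 :: Z'') q2 S' (by
          intro p hp
          rw [hS', mem_insert, mem_filter] at hp
          rcases hp with hp | hp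
          · right; rw [hp]; exact List.mem_cons_self
          · exact hp.2) rfl
        have i2 := tsp_insert_le (S := insert y (insert z1 A)) (p := z3) (q := y)
          (mem_insert_self _ _)
        have i3 := tsp_union_le (S := insert z3 (insert y (insert z1 A))) (T := S') (p := z3)
          (mem_insert_self _ _) (mem_insert_self _ _)
        have hsub : S ⊆ insert z3 (insert y (insert z1 A)) ∪ S' := by
          intro p hp
          have h0 : p ∈ A ∨ p = z1 ∨ p = y ∨ ((∃ π ∈ P', p ∈ π.2.2.1) ∨ p ∈ z3 :: Z'') := by
            rcases hS p hp with h | h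
            · rcases g6 p h with h | h
              · exact Or.inl h
              · exact Or.inr (Or.inr (Or.inr (Or.inl h)))
            · rcases List.mem_cons.1 h with h | h
              · exact Or.inr (Or.inl h)
              · rcases List.mem_cons.1 h with h | h
                · exact Or.inr (Or.inr (Or.inl h))
                · exact Or.inr (Or.inr (Or.inr (Or.inr h)))
          rw [mem_union, mem_insert, mem_insert, mem_insert, hS', mem_insert, mem_filter]
          rcases h0 with h | h | h | h
          · exact Or.inl (Or.inr (Or.inr (Or.inr h)))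
          · exact Or.inl (Or.inr (Or.inr (Or.inl h)))
          · exact Or.inl (Or.inr (Or.inl h))
          · exact Or.inr (Or.inr ⟨hp, h⟩)
        have i4 := tsp_mono hsub
        have e : wl (z1 :: y :: z3 :: Z'') = ed z1 y + (ed y z3 + wl (z3 :: Z'')) := rfl
        rw [e]
        have e2 : ed z3 y = ed y z3 := ed_comm _ _
        have e3 : 0 ≤ ed y z3 := ed_nonneg _ _
        rw [e2] at i2
        linarith
    · have hz2 : z2 ∈ ends P' := by
        have : z2 ∈ y :: ends P' := q1.mem_iff.2 List.mem_cons_self
        rcases List.mem_cons.1 this with h | h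
        · exact absurd h.symm hy
        · exact h
      obtain ⟨y', A', c', P'', k1, k2, k3, k4, k5, k6⟩ := pick P' g2 hz2
      set π' : PD := (y, y', insert z1 (insert z2 (A ∪ A')), c + c' + ed z1 z2) with hπ'
      have hj : PV π' := PV_join g1 k1
      have q3 : (ends (π' :: P'')).Perm Z' := by
        rw [ends_cons]
        show (y :: y' :: ends P'').Perm Z'
        have r1 : (y :: z2 :: y' :: ends P'').Perm (z2 :: Z') := (k3.symm.cons y).trans q1
        have r2 : (z2 :: y :: y' :: ends P'').Perm (z2 :: Z') := (List.Perm.swap _ _ _).trans r1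
        exact List.Perm.cons_inv r2
      have i1 := ih (π' :: P'').length (by simp only [List.length_cons]; omega) (π' :: P'') (by
        intro π h
        rcases List.mem_cons.1 h with h | h
        · rw [h]; exact hj
        · exact k2 π h) Z' q3 S (by
        intro p hp
        rcases hS p hp with h | h
        · rcases g6 p h with h | h
          · left
            exact ⟨π', List.mem_cons_self, by simp [hπ', h]⟩
          · rcases k6 p h with h | ⟨π, h, h'⟩
            · left
              exact ⟨π', List.mem_cons_self, by simp [hπ', h]⟩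
            · left
              exact ⟨π, List.mem_cons_of_mem _ h, h'⟩
        · rcases List.mem_cons.1 h with h | h
          · left
            exact ⟨π', List.mem_cons_self, by simp [hπ', h]⟩
          · rcases List.mem_cons.1 h with h | h
            · left
              exact ⟨π', List.mem_cons_self, by simp [hπ', h]⟩
            · exact Or.inr h) rfl
      have e0 : ((π' :: P'').map (fun π => π.2.2.2)).sum =
          (c + c' + ed z1 z2) + (P''.map (fun π => π.2.2.2)).sum := by
        simp [hπ']
      rw [e0] at i1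
      rw [g4, k4]
      have e1 : ed z1 z2 + wl Z' ≤ wl (z1 :: z2 :: Z') := by
        cases Z' with
        | nil => exact le_refl _
        | cons z3 Z'' =>
          have : wl (z1 :: z2 :: z3 :: Z'') = ed z1 z2 + (ed z2 z3 + wl (z3 :: Z'')) := rfl
          rw [this]
          have := ed_nonneg z2 z3
          linarith
      linarith

end

end Pool.Agent.H42.TSP
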