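import Pool.Agent.H42.TSP.Basic

set_option autoImplicit false

namespace Pool.Agent.H42.TSP

open Finset
open scoped BigOperators

noncomputable section

/-! Module C : grid averages converge to integrals. -/

/-- unit position of a site in its block -/
def posU (N r : ℕ) (u : (Fin N × Fin N) × (Fin r × Fin r)) : ℝ × ℝ :=
  ((((u.1.1 : ℕ) : ℝ) + (((u.2.1 : ℕ) : ℝ) + 1 / 2) / r) / N,
   (((u.1.2 : ℕ) : ℝ) + (((u.2.2 : ℕ) : ℝ) + 1 / 2) / r) / N)

/-- index of a real number in the grid -/
def cIdx (R : ℕ) (hR : 0 < R) (x : ℝ) : Fin R :=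
  ⟨min ⌊x * R⌋₊ (R - 1), lt_of_le_of_lt (min_le_right _ _) (Nat.sub_lt hR one_pos)⟩

/-- grid centre -/
def cCtr (R : ℕ) (i : ℕ) : ℝ := ((i : ℝ) + 1 / 2) / R

theorem cIdx_measurable (R : ℕ) (hR : 0 < R) : Measurable (cIdx R hR) := by
  have h1 : Measurable (fun x : ℝ => ⌊x * R⌋₊) :=
    Nat.measurable_floor.comp (measurable_id.mul_const _)
  have h2 : Measurable (fun k : ℕ => (⟨min k (R - 1),
      lt_of_le_of_lt (min_le_right _ _) (Nat.sub_lt hR one_pos)⟩ : Fin R)) :=
    measurable_from_top
  exact h2.comp h1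

theorem cIdx_preimage (R : ℕ) (hR : 0 < R) (i : Fin R) :
    MeasureTheory.volume (cIdx R hR ⁻¹' {i} ∩ Set.Icc (0:ℝ) 1) = ENNReal.ofReal (1 / R) := by
  have hR' : (0:ℝ) < R := by exact_mod_cast hR
  have h1R : ((R - 1 : ℕ) : ℝ) = (R:ℝ) - 1 := by
    rw [Nat.cast_sub hR]; simp
  rcases lt_or_ge (i : ℕ) (R - 1) with hi | hi
  · have : cIdx R hR ⁻¹' {i} ∩ Set.Icc (0:ℝ) 1 = Set.Ico ((i:ℝ) / R) (((i:ℝ) + 1) / R) := by
      ext x
      simp only [Set.mem_inter_iff, Set.mem_preimage, Set.mem_singleton_iff, Set.mem_Icc,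
        Set.mem_Ico]
      constructor
      · rintro ⟨hx, hx0, hx1⟩
        have h := congrArg Fin.val hx
        simp only [cIdx] at h
        have hfl : ⌊x * R⌋₊ = (i : ℕ) := by omega
        have hnn : 0 ≤ x * R := by positivity
        rw [Nat.floor_eq_iff hnn] at hfl
        rw [div_le_iff₀ hR', lt_div_iff₀ hR']
        exact hfl
      · rintro ⟨hx, hx'⟩
        rw [div_le_iff₀ hR'] at hx
        rw [lt_div_iff₀ hR'] at hx'
        have hx0 : 0 ≤ x := by
          by_contra hneg
          push Not at hneg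
          have : x * R < 0 := mul_neg_of_neg_of_pos hneg hR'
          have h3 : (0:ℝ) ≤ (i : ℕ) := Nat.cast_nonneg _
          linarith
        have hnn : 0 ≤ x * R := by positivity
        have hfl : ⌊x * R⌋₊ = (i : ℕ) := by
          rw [Nat.floor_eq_iff hnn]; exact ⟨hx, hx'⟩
        refine ⟨?_, hx0, ?_⟩
        · apply Fin.ext
          simp only [cIdx]
          omega
        · have h4 : ((i : ℕ) : ℝ) + 1 ≤ R := by
            have : (i : ℕ) + 1 ≤ R := by omega
            exact_mod_cast this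
          nlinarith
    rw [this, Real.volume_Ico]
    congr 1
    field_simp
    ring
  · have hi' : (i : ℕ) = R - 1 := by have := i.2; omega
    have : cIdx R hR ⁻¹' {i} ∩ Set.Icc (0:ℝ) 1 = Set.Icc (((R:ℝ) - 1) / R) 1 := by
      ext x
      simp only [Set.mem_inter_iff, Set.mem_preimage, Set.mem_singleton_iff, Set.mem_Icc]
      constructor
      · rintro ⟨hx, hx0, hx1⟩
        have h := congrArg Fin.val hx
        simp only [cIdx] at h
        have hfl : R - 1 ≤ ⌊x * R⌋₊ := by omega
        have hnn : 0 ≤ x * R := by positivity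
        rw [Nat.le_floor_iff hnn] at hfl
        rw [div_le_iff₀ hR', ← h1R]
        exact ⟨hfl, hx1⟩
      · rintro ⟨hx, hx'⟩
        rw [div_le_iff₀ hR', ← h1R] at hx
        have hx0 : 0 ≤ x := by
          by_contra hneg
          push Not at hneg
          have : x * R < 0 := mul_neg_of_neg_of_pos hneg hR'
          have h3 : (0:ℝ) ≤ ((R - 1 : ℕ) : ℝ) := Nat.cast_nonneg _
          linarith
        have hnn : 0 ≤ x * R := by positivity
        have hfl : R - 1 ≤ ⌊x * R⌋₊ := by
          rw [Nat.le_floor_iff hnn]; exact hx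
        refine ⟨?_, hx0, hx'⟩
        apply Fin.ext
        simp only [cIdx]
        omega
    rw [this, Real.volume_Icc]
    congr 1
    field_simp
    ring

theorem cCtr_mem (R : ℕ) (hR : 0 < R) (i : Fin R) : cCtr R i ∈ Set.Icc (0:ℝ) 1 := by
  have hR' : (0:ℝ) < R := by exact_mod_cast hR
  have hi : ((i : ℕ) : ℝ) + 1 ≤ R := by
    have : (i : ℕ) + 1 ≤ R := i.2
    exact_mod_cast this
  unfold cCtr
  constructor
  · positivity
  · rw [div_le_one hR']; linarith

theorem cCtr_near (R : ℕ) (hR : 0 < R) (x : ℝ) (hx : x ∈ Set.Icc (0:ℝ) 1) :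
    |cCtr R (cIdx R hR x) - x| ≤ 1 / R := by
  have hR' : (0:ℝ) < R := by exact_mod_cast hR
  have hnn : 0 ≤ x * R := mul_nonneg hx.1 hR'.le
  have h1 : (⌊x * R⌋₊ : ℝ) ≤ x * R := Nat.floor_le hnn
  have h2 : x * R < (⌊x * R⌋₊ : ℝ) + 1 := Nat.lt_floor_add_one _
  have hxR : x * R ≤ R := by nlinarith [hx.2]
  have h1R : ((R - 1 : ℕ) : ℝ) = (R:ℝ) - 1 := by
    rw [Nat.cast_sub hR]; simp
  unfold cCtr cIdx
  simp only
  have key : |((min ⌊x * R⌋₊ (R - 1) : ℕ) : ℝ) + 1 / 2 - x * R| ≤ 1 := by
    rcases le_total ⌊x * R⌋₊ (R - 1) with h | h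
    · rw [min_eq_left h, abs_le]
      constructor <;> linarith
    · rw [min_eq_right h, h1R, abs_le]
      have h' : ((R - 1 : ℕ) : ℝ) ≤ (⌊x * R⌋₊ : ℝ) := by exact_mod_cast h
      rw [h1R] at h'
      constructor <;> linarith
  have : (((min ⌊x * R⌋₊ (R - 1) : ℕ) : ℝ) + 1 / 2) / R - x
      = (((min ⌊x * R⌋₊ (R - 1) : ℕ) : ℝ) + 1 / 2 - x * R) / R := by
    field_simp
  rw [this, abs_div, abs_of_pos hR']
  exact div_le_div_of_nonneg_right key hR'.le

/-- snapping to the grid -/
def cSnap (R : ℕ) (hR : 0 < R) (p : ℝ × ℝ) : Fin R × Fin R := (cIdx R hR p.1, cIdx R hR p.2)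

/-- position of a grid point -/
def cPos (R : ℕ) (u : Fin R × Fin R) : ℝ × ℝ := (cCtr R u.1, cCtr R u.2)

theorem cSnap_measurable (R : ℕ) (hR : 0 < R) : Measurable (cSnap R hR) :=
  ((cIdx_measurable R hR).comp measurable_fst).prodMk ((cIdx_measurable R hR).comp measurable_snd)

/-- the average over the `R × R` grid is an integral over the cube -/
theorem avgi_eq_integral (n : ℕ) (f : (Fin n → ℝ × ℝ) → ℝ) (R : ℕ) (hR : 0 < R) :
    avgi n (fun x : Fin n → Fin R × Fin R => f (fun i => cPos R (x i)))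
      = ∫ x in cube n, f (fun i => cPos R (cSnap R hR (x i))) := by
  have hR' : (0:ℝ) < R := by exact_mod_cast hR
  set ν : MeasureTheory.Measure (ℝ × ℝ) :=
    MeasureTheory.volume.restrict (Set.Icc (0:ℝ) 1 ×ˢ Set.Icc (0:ℝ) 1) with hν
  have hfin : MeasureTheory.IsFiniteMeasure ν := by
    constructor
    rw [hν, MeasureTheory.Measure.restrict_apply_univ, MeasureTheory.Measure.volume_eq_prod,
      MeasureTheory.Measure.prod_prod]
    simp
  have hvol : (MeasureTheory.volume : MeasureTheory.Measure (Fin n → ℝ × ℝ)).restrict (cube n)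
      = MeasureTheory.Measure.pi (fun _ : Fin n => ν) := by
    rw [MeasureTheory.volume_pi]
    exact MeasureTheory.Measure.restrict_pi_pi _ _
  have hmap : MeasureTheory.Measure.map (fun (x : Fin n → ℝ × ℝ) i => cSnap R hR (x i))
      (MeasureTheory.Measure.pi (fun _ : Fin n => ν))
      = MeasureTheory.Measure.pi (fun _ : Fin n => ν.map (cSnap R hR)) :=
    MeasureTheory.Measure.pi_map_pi (fun i => (cSnap_measurable R hR).aemeasurable)
  have hmeas : Measurable (fun (x : Fin n → ℝ × ℝ) i => cSnap R hR (x i)) :=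
    measurable_pi_lambda _ fun i => (cSnap_measurable R hR).comp (measurable_pi_apply i)
  have hsing : ∀ u : Fin R × Fin R, (ν.map (cSnap R hR)) {u} = ENNReal.ofReal (1 / R) ^ 2 := by
    intro u
    rw [MeasureTheory.Measure.map_apply (cSnap_measurable R hR) (measurableSet_singleton u), hν,
      MeasureTheory.Measure.restrict_apply ((cSnap_measurable R hR) (measurableSet_singleton u))]
    have : cSnap R hR ⁻¹' {u} ∩ Set.Icc (0:ℝ) 1 ×ˢ Set.Icc (0:ℝ) 1
        = (cIdx R hR ⁻¹' {u.1} ∩ Set.Icc (0:ℝ) 1) ×ˢ (cIdx R hR ⁻¹' {u.2} ∩ Set.Icc (0:ℝ) 1) := by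
      ext p
      simp only [cSnap, Set.mem_inter_iff, Set.mem_preimage, Set.mem_singleton_iff, Set.mem_prod,
        Prod.ext_iff]
      tauto
    rw [this, MeasureTheory.Measure.volume_eq_prod, MeasureTheory.Measure.prod_prod,
      cIdx_preimage, cIdx_preimage, sq]
  rw [hvol]
  have hint : ∫ x, f (fun i => cPos R (cSnap R hR (x i))) ∂(MeasureTheory.Measure.pi (fun _ : Fin n => ν))
      = ∫ y, f (fun i => cPos R (y i)) ∂(MeasureTheory.Measure.pi (fun _ : Fin n => ν.map (cSnap R hR))) := by
    rw [← hmap, MeasureTheory.integral_map hmeas.aemeasurable]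
    exact (Measurable.of_discrete (f := fun y : Fin n → Fin R × Fin R =>
      f (fun i => cPos R (y i)))).aestronglyMeasurable
  rw [hint, MeasureTheory.integral_fintype (MeasureTheory.Integrable.of_finite)]
  unfold avgi
  rw [Finset.sum_div]
  refine Finset.sum_congr rfl fun y _ => ?_
  rw [MeasureTheory.measureReal_def, MeasureTheory.Measure.pi_singleton]
  simp only [hsing]
  rw [Finset.prod_const, Finset.card_univ, Fintype.card_fin, ENNReal.toReal_pow, ENNReal.toReal_pow,
    ENNReal.toReal_ofReal (by positivity), smul_eq_mul, Fintype.card_prod, Fintype.card_fin]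
  have h2 : ((1 / (R:ℝ)) ^ 2) ^ n * (((R * R : ℕ) : ℝ)) ^ n = 1 := by
    rw [← mul_pow]
    have : (1 / (R:ℝ)) ^ 2 * ((R * R : ℕ) : ℝ) = 1 := by
      push_cast
      field_simp
    rw [this, one_pow]
  have h3 : (((R * R : ℕ) : ℝ)) ^ n ≠ 0 := by positivity
  rw [div_eq_iff h3]
  calc f (fun i => cPos R (y i))
      = (((1 / (R:ℝ)) ^ 2) ^ n * (((R * R : ℕ) : ℝ)) ^ n) * f (fun i => cPos R (y i)) := by
        rw [h2, one_mul]
    _ = _ := by ring

theorem cube_compact (n : ℕ) : IsCompact (cube n) :=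
  isCompact_univ_pi fun _ => isCompact_Icc.prod isCompact_Icc

/-- the averages over the `R × R` grid converge -/
theorem tendsto_avgi_grid (n : ℕ) (f : (Fin n → ℝ × ℝ) → ℝ) (hf : Continuous f) :
    Filter.Tendsto (fun R : ℕ => avgi n (fun x : Fin n → Fin R × Fin R => f (fun i => cPos R (x i))))
      Filter.atTop (nhds (∫ x in cube n, f x)) := by
  obtain ⟨C, hC⟩ := (cube_compact n).exists_bound_of_continuousOn hf.continuousOn
  have hcube : MeasurableSet (cube n) :=
    MeasurableSet.univ_pi fun _ => measurableSet_Icc.prod measurableSet_Icc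
  have hfin : MeasureTheory.volume (cube n) < ⊤ := (cube_compact n).measure_lt_top
  have h1 : Filter.Tendsto (fun R : ℕ => ∫ x in cube n,
      (if h : 0 < R then f (fun i => cPos R (cSnap R h (x i))) else 0))
      Filter.atTop (nhds (∫ x in cube n, f x)) := by
    refine MeasureTheory.tendsto_integral_of_dominated_convergence (fun _ => C) ?_ ?_ ?_ ?_
    · intro R
      by_cases h : 0 < R
      · simp only [h, dite_true]
        have hmeas : Measurable (fun (x : Fin n → ℝ × ℝ) i => cSnap R h (x i)) :=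
          measurable_pi_lambda _ fun i => (cSnap_measurable R h).comp (measurable_pi_apply i)
        exact ((Measurable.of_discrete (f := fun y : Fin n → Fin R × Fin R =>
          f (fun i => cPos R (y i)))).comp hmeas).aestronglyMeasurable
      · simp only [h, dite_false]
        exact MeasureTheory.aestronglyMeasurable_const
    · exact MeasureTheory.integrableOn_const hfin.ne
    · intro R
      rw [MeasureTheory.ae_restrict_iff' hcube]
      refine Filter.Eventually.of_forall fun x hx => ?_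
      by_cases h : 0 < R
      · simp only [h, dite_true]
        refine hC _ ?_
        intro i _
        exact ⟨cCtr_mem R h _, cCtr_mem R h _⟩
      · simp only [h, dite_false, norm_zero]
        exact (norm_nonneg _).trans (hC x hx)
    · rw [MeasureTheory.ae_restrict_iff' hcube]
      refine Filter.Eventually.of_forall fun x hx => ?_
      have key : ∀ y : ℝ, y ∈ Set.Icc (0:ℝ) 1 → Filter.Tendsto
          (fun R : ℕ => if h : 0 < R then cCtr R (cIdx R h y) else 0) Filter.atTop (nhds y) := by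
        intro y hy
        rw [tendsto_iff_dist_tendsto_zero]
        refine squeeze_zero' (Filter.Eventually.of_forall fun _ => dist_nonneg) ?_
          (tendsto_one_div_atTop_nhds_zero_nat (𝕜 := ℝ))
        filter_upwards [Filter.eventually_gt_atTop 0] with R hR
        simp only [hR, dite_true]
        rw [Real.dist_eq]
        exact cCtr_near R hR y hy
      have h2 : Filter.Tendsto (fun R : ℕ => f (fun i =>
          ((if h : 0 < R then cCtr R (cIdx R h (x i).1) else 0),
            (if h : 0 < R then cCtr R (cIdx R h (x i).2) else 0)))) Filter.atTop (nhds (f x)) := by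
        refine (hf.tendsto x).comp ?_
        rw [tendsto_pi_nhds]
        intro i
        have hxi := hx i (Set.mem_univ i)
        exact (key _ hxi.1).prodMk_nhds (key _ hxi.2)
      refine h2.congr' ?_
      filter_upwards [Filter.eventually_gt_atTop 0] with R hR
      simp only [hR, dite_true, cPos, cSnap]
  refine h1.congr' ?_
  filter_upwards [Filter.eventually_gt_atTop 0] with R hR
  rw [avgi_eq_integral n f R hR]
  simp only [hR, dite_true]

theorem avgi_equiv {U V : Type} [Fintype U] [Fintype V] (e : U ≃ V) (n : ℕ) (F : (Fin n → V) → ℝ) :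
    avgi n (fun x : Fin n → U => F (fun i => e (x i))) = avgi n F := by
  unfold avgi
  rw [Fintype.card_congr e]
  congr 1
  exact Fintype.sum_equiv (Equiv.arrowCongr (Equiv.refl _) e) _ _ (fun x => rfl)

/-- the site indices -/
def cE1 (N r : ℕ) : (Fin N × Fin N) × (Fin r × Fin r) ≃ Fin (N * r) × Fin (N * r) :=
  (Equiv.prodProdProdComm _ _ _ _).trans (Equiv.prodCongr finProdFinEquiv finProdFinEquiv)

theorem cE1_pos (N r : ℕ) (hN : 0 < N) (hr : 0 < r) (u : (Fin N × Fin N) × (Fin r × Fin r)) :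
    cPos (N * r) (cE1 N r u) = posU N r u := by
  have hN' : (0:ℝ) < N := by exact_mod_cast hN
  have hr' : (0:ℝ) < r := by exact_mod_cast hr
  obtain ⟨⟨a, b⟩, ⟨c, d⟩⟩ := u
  simp only [cPos, cE1, posU, cCtr, Equiv.trans_apply, Equiv.prodProdProdComm_apply,
    Equiv.prodCongr_apply, Prod.map, finProdFinEquiv_apply_val]
  push_cast
  refine Prod.ext ?_ ?_ <;> · simp only; field_simp; ring

theorem riemann_avgiU (n : ℕ) (f : (Fin n → ℝ × ℝ) → ℝ) (hf : Continuous f) (N : ℕ) (hN : 0 < N) :
    Filter.Tendsto (fun r : ℕ => avgi n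
        (fun x : Fin n → (Fin N × Fin N) × (Fin r × Fin r) => f (fun i => posU N r (x i))))
      Filter.atTop (nhds (∫ x in cube n, f x)) := by
  have h1 : Filter.Tendsto (fun r : ℕ => N * r) Filter.atTop Filter.atTop :=
    Filter.tendsto_id.const_mul_atTop' hN
  refine ((tendsto_avgi_grid n f hf).comp h1).congr' ?_
  filter_upwards [Filter.eventually_gt_atTop 0] with r hr
  simp only [Function.comp]
  rw [← avgi_equiv (cE1 N r)]
  simp only [cE1_pos N r hN hr]

/-- the site indices -/
def cE2 (m N r : ℕ) : Site m N r ≃ Fin (m * (N * r)) × Fin (m * (N * r)) :=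
  (Equiv.prodCongr (Equiv.refl _) (cE1 N r)).trans (cE1 m (N * r))

theorem cE2_pos (m N r : ℕ) (hm : 0 < m) (hN : 0 < N) (hr : 0 < r) (u : Site m N r) :
    cPos (m * (N * r)) (cE2 m N r u) = pos m N r u := by
  have hN' : (0:ℝ) < N := by exact_mod_cast hN
  have hm' : (0:ℝ) < m := by exact_mod_cast hm
  have hr' : (0:ℝ) < r := by exact_mod_cast hr
  obtain ⟨⟨a', b'⟩, ⟨a, b⟩, ⟨c, d⟩⟩ := u
  simp only [cPos, cE2, cE1, pos, cCtr, Equiv.trans_apply, Equiv.prodProdProdComm_apply,
    Equiv.prodCongr_apply, Prod.map, finProdFinEquiv_apply_val, Equiv.refl_apply]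
  push_cast
  refine Prod.ext ?_ ?_ <;> · simp only; field_simp; ring

/-- grid averages on the `R × R` grid (`R = m N r`) -/
theorem riemann_avgi (n : ℕ) (f : (Fin n → ℝ × ℝ) → ℝ) (hf : Continuous f) (m N : ℕ) (hm : 0 < m) (hN : 0 < N) :
    Filter.Tendsto (fun r : ℕ => avgi n (fun x : Fin n → Site m N r => f (fun i => pos m N r (x i))))
      Filter.atTop (nhds (∫ x in cube n, f x)) := by
  have h1 : Filter.Tendsto (fun r : ℕ => m * (N * r)) Filter.atTop Filter.atTop :=
    (Filter.tendsto_id.const_mul_atTop' hN).const_mul_atTop' hm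
  refine ((tendsto_avgi_grid n f hf).comp h1).congr' ?_
  filter_upwards [Filter.eventually_gt_atTop 0] with r hr
  simp only [Function.comp]
  rw [← avgi_equiv (cE2 m N r)]
  simp only [cE2_pos m N r hm hN hr]

end

end Pool.Agent.H42.TSP
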