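import Pool.Agent.H42.TSP.Basic

set_option autoImplicit false

namespace Pool.Agent.H42.TSP

open Finset
open scoped BigOperators

noncomputable section

/-! Module E : finite expectations, Efron-Stein. -/

lemma EE_add {T : Type} [Fintype T] (w f g : T → ℝ) : EE w (fun t => f t + g t) = EE w f + EE w g := by
  simp only [EE, mul_add, Finset.sum_add_distrib]

lemma EE_const_mul {T : Type} [Fintype T] (w f : T → ℝ) (c : ℝ) : EE w (fun t => c * f t) = c * EE w f := by
  simp only [EE, Finset.mul_sum]
  exact Finset.sum_congr rfl (fun t _ => by ring)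

lemma EE_const {T : Type} [Fintype T] {w : T → ℝ} (hw : PW w) (c : ℝ) : EE w (fun _ => c) = c := by
  simp only [EE, ← Finset.sum_mul, hw.sum_one, one_mul]

lemma EE_mono {T : Type} [Fintype T] {w : T → ℝ} (hw : PW w) {f g : T → ℝ} (h : ∀ t, f t ≤ g t) :
    EE w f ≤ EE w g :=
  Finset.sum_le_sum (fun t _ => mul_le_mul_of_nonneg_left (h t) (hw.nonneg t))

lemma EE_sub {T : Type} [Fintype T] (w f g : T → ℝ) : EE w (fun t => f t - g t) = EE w f - EE w g := by
  simp only [EE, mul_sub, Finset.sum_sub_distrib]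

lemma EE_nonneg {T : Type} [Fintype T] {w : T → ℝ} (hw : PW w) {f : T → ℝ} (h : ∀ t, 0 ≤ f t) :
    0 ≤ EE w f :=
  Finset.sum_nonneg (fun t _ => mul_nonneg (hw.nonneg t) (h t))

lemma Va_nonneg {T : Type} [Fintype T] {w : T → ℝ} (hw : PW w) (f : T → ℝ) : 0 ≤ Va w f :=
  EE_nonneg hw (fun _ => sq_nonneg _)

lemma EE_sq_sub_const {T : Type} [Fintype T] {w : T → ℝ} (hw : PW w) (f : T → ℝ) (c : ℝ) :
    EE w (fun t => (f t - c) ^ 2) = EE w (fun t => f t ^ 2) - 2 * c * EE w f + c ^ 2 := by
  have h1 : (fun t => (f t - c) ^ 2) = (fun t => (f t ^ 2 - (2 * c) * f t) + c ^ 2) := by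
    funext t; ring
  rw [h1, EE_add, EE_const hw, EE_sub, EE_const_mul]

lemma Va_eq {T : Type} [Fintype T] {w : T → ℝ} (hw : PW w) (f : T → ℝ) :
    Va w f = EE w (fun t => f t ^ 2) - (EE w f) ^ 2 := by
  rw [Va, EE_sq_sub_const hw]; ring

lemma Va_le {T : Type} [Fintype T] {w : T → ℝ} (hw : PW w) (f : T → ℝ) (c : ℝ) :
    Va w f ≤ EE w (fun t => (f t - c) ^ 2) := by
  rw [Va_eq hw, EE_sq_sub_const hw]
  nlinarith [sq_nonneg (EE w f - c)]

lemma Va_const_mul {T : Type} [Fintype T] (w f : T → ℝ) (c : ℝ) :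
    Va w (fun t => c * f t) = c ^ 2 * Va w f := by
  rw [Va, Va, EE_const_mul, ← EE_const_mul w (fun t => (f t - EE w f) ^ 2) (c ^ 2)]
  congr 1
  funext t
  ring

lemma Va_add_const {T : Type} [Fintype T] {w : T → ℝ} (hw : PW w) (f : T → ℝ) (c : ℝ) :
    Va w (fun t => f t + c) = Va w f := by
  rw [Va, Va, EE_add, EE_const hw]
  congr 1
  funext t
  ring

lemma EE_equiv {T T' : Type} [Fintype T] [Fintype T'] (e : T ≃ T') (w f : T' → ℝ) :
    EE (fun t => w (e t)) (fun t => f (e t)) = EE w f :=
  Equiv.sum_comp e (fun t => w t * f t)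

lemma pw_PW {I T : Type} [Fintype I] [DecidableEq I] [Fintype T] {w : T → ℝ} (hw : PW w) :
    PW (pw w : (I → T) → ℝ) := by
  refine ⟨fun y => Finset.prod_nonneg (fun i _ => hw.nonneg _), ?_⟩
  have h := Finset.prod_univ_sum (fun _ : I => (Finset.univ : Finset T)) (fun _ t => w t)
  rw [Fintype.piFinset_univ] at h
  simp only [pw]
  rw [← h]
  simp [hw.sum_one]

lemma pw_update {I T : Type} [Fintype I] [DecidableEq I] (w : T → ℝ) (i : I) (y : I → T) (t : T) :
    pw w y * w t = pw w (Function.update y i t) * w (y i) := by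
  have h1 : pw w y = w (y i) * ∏ j ∈ Finset.univ \ {i}, w (y j) := by
    rw [pw, ← Finset.prod_sdiff (Finset.subset_univ ({i} : Finset I)), Finset.prod_singleton, mul_comm]
  have h2 : pw w (Function.update y i t) = w t * ∏ j ∈ Finset.univ \ {i}, w (y j) := by
    rw [pw, ← Finset.prod_sdiff (Finset.subset_univ ({i} : Finset I)), Finset.prod_singleton, mul_comm,
      Function.update_self]
    congr 1
    refine Finset.prod_congr rfl (fun j hj => ?_)
    rw [Function.update_of_ne]
    simpa using hj
  rw [h1, h2]; ring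

/-- exchanging the resampled value -/
def swapE {I T : Type} [DecidableEq I] (i : I) : ((I → T) × T) ≃ ((I → T) × T) where
  toFun p := (Function.update p.1 i p.2, p.1 i)
  invFun p := (Function.update p.1 i p.2, p.1 i)
  left_inv p := by simp
  right_inv p := by simp

/-- resampling coordinate `i` -/
lemma EE_resample {I T : Type} [Fintype I] [DecidableEq I] [Fintype T] {w : T → ℝ} (hw : PW w) (i : I)
    (F : (I → T) → ℝ) :
    EE (pw w) F = EE (pw w) (fun y => EE w (fun t => F (Function.update y i t))) := by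
  have h1 : EE (pw w) (fun y => EE w (fun t => F (Function.update y i t)))
      = ∑ p : (I → T) × T, pw w (Function.update p.1 i p.2) * w (p.1 i) * F (Function.update p.1 i p.2) := by
    rw [Fintype.sum_prod_type]
    simp only [EE, Finset.mul_sum]
    refine Finset.sum_congr rfl (fun y _ => Finset.sum_congr rfl (fun t _ => ?_))
    rw [← pw_update]; ring
  have h2 : (∑ p : (I → T) × T, pw w (Function.update p.1 i p.2) * w (p.1 i) * F (Function.update p.1 i p.2))
      = ∑ p : (I → T) × T, pw w p.1 * w p.2 * F p.1 :=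
    Equiv.sum_comp (swapE i) (fun p : (I → T) × T => pw w p.1 * w p.2 * F p.1)
  rw [h1, h2, Fintype.sum_prod_type, EE]
  refine Finset.sum_congr rfl (fun y _ => ?_)
  dsimp only
  rw [← Finset.sum_mul, ← Finset.mul_sum, hw.sum_one, mul_one]

/-- currying -/
lemma EE_curry {I J T : Type} [Fintype I] [DecidableEq I] [Fintype J] [DecidableEq J] [Fintype T] (w : T → ℝ)
    (F : (I × J → T) → ℝ) :
    EE (pw w) F = EE (pw (pw w : (J → T) → ℝ)) (fun z : I → J → T => F (fun c => z c.1 c.2)) := by
  rw [EE, EE, ← Equiv.sum_comp (Equiv.curry I J T).symm]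
  refine Finset.sum_congr rfl (fun z _ => ?_)
  have h1 : ((Equiv.curry I J T).symm z) = fun c : I × J => z c.1 c.2 := by
    funext c; rfl
  rw [h1]
  congr 1
  simp only [pw]
  rw [Fintype.prod_prod_type]

/-! averaging operators -/

/-- average over the coordinates in `s` -/
def Av {I T : Type} [Fintype I] [DecidableEq I] [Fintype T] (w : T → ℝ) (s : Finset I)
    (F : (I → T) → ℝ) (y : I → T) : ℝ := EE (pw w) (fun z => F (s.piecewise z y))

/-- average over one coordinate -/
def Ao {I T : Type} [Fintype I] [DecidableEq I] [Fintype T] (w : T → ℝ) (i : I)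
    (F : (I → T) → ℝ) (y : I → T) : ℝ := EE w (fun t => F (Function.update y i t))

/-- squared norm -/
def Nn {I T : Type} [Fintype I] [DecidableEq I] [Fintype T] (w : T → ℝ) (F : (I → T) → ℝ) : ℝ :=
  EE (pw w) (fun y => F y ^ 2)

section ops

variable {I T : Type} [Fintype I] [DecidableEq I] [Fintype T] {w : T → ℝ}

lemma EE_comm {T' : Type} [Fintype T'] (w : T → ℝ) (v : T' → ℝ) (f : T → T' → ℝ) :
    EE w (fun t => EE v (fun t' => f t t')) = EE v (fun t' => EE w (fun t => f t t')) := by
  simp only [EE, Finset.mul_sum]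
  rw [Finset.sum_comm]
  refine Finset.sum_congr rfl (fun y _ => Finset.sum_congr rfl (fun t _ => by ring))

lemma Av_empty (hw : PW w) (F : (I → T) → ℝ) : Av w ∅ F = F := by
  funext y
  simp only [Av, Finset.piecewise_empty]
  exact EE_const (pw_PW hw) _

lemma Av_insert (hw : PW w) {j : I} {s : Finset I} (hj : j ∉ s) (F : (I → T) → ℝ) :
    Av w (insert j s) F = Av w s (Ao w j F) := by
  funext y
  simp only [Av, Ao]
  rw [EE_resample hw j]
  congr 1
  funext z
  congr 1
  funext t
  congr 1
  rw [Finset.piecewise_insert]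
  funext k
  by_cases hk : k = j
  · subst hk; simp
  · rw [Function.update_of_ne hk, Function.update_of_ne hk]
    by_cases hks : k ∈ s
    · simp [hks, Function.update_of_ne hk]
    · simp [hks]

lemma Av_insert' (hw : PW w) {j : I} {s : Finset I} (hj : j ∉ s) (F : (I → T) → ℝ) :
    Av w (insert j s) F = Ao w j (Av w s F) := by
  rw [Av_insert hw hj]
  funext y
  simp only [Av, Ao]
  rw [EE_comm]
  congr 1
  funext t
  congr 1
  funext z
  congr 1
  funext k
  by_cases hk : k = j
  · subst hk; simp [hj]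
  · rw [Function.update_of_ne hk]
    by_cases hks : k ∈ s
    · simp [hks]
    · simp [hks, Function.update_of_ne hk]

lemma Av_sub (s : Finset I) (F G : (I → T) → ℝ) :
    Av w s (fun y => F y - G y) = fun y => Av w s F y - Av w s G y := by
  funext y
  simp only [Av]
  rw [EE_sub]

lemma Nn_sub_Ao (hw : PW w) (i : I) (G : (I → T) → ℝ) :
    Nn w (fun y => G y - Ao w i G y) = Nn w G - Nn w (Ao w i G) := by
  have h1 : EE (pw w) (fun y => G y * Ao w i G y) = Nn w (Ao w i G) := by
    rw [EE_resample hw i, Nn]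
    congr 1
    funext y
    have h2 : (fun t => G (Function.update y i t) * Ao w i G (Function.update y i t))
        = fun t => Ao w i G y * G (Function.update y i t) := by
      funext t
      have : Ao w i G (Function.update y i t) = Ao w i G y := by
        simp only [Ao, Function.update_idem]
      rw [this, mul_comm]
    rw [h2, EE_const_mul]
    simp only [Ao]; ring
  have h3 : (fun y => (G y - Ao w i G y) ^ 2)
      = fun y => (G y ^ 2 - 2 * (G y * Ao w i G y)) + Ao w i G y ^ 2 := by
    funext y; ring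
  rw [Nn, h3, EE_add, EE_sub, EE_const_mul, h1]
  simp only [Nn]; ring

lemma Nn_nonneg (hw : PW w) (F : (I → T) → ℝ) : 0 ≤ Nn w F :=
  EE_nonneg (pw_PW hw) (fun _ => sq_nonneg _)

lemma Nn_Ao_le (hw : PW w) (i : I) (G : (I → T) → ℝ) : Nn w (Ao w i G) ≤ Nn w G := by
  have := Nn_sub_Ao hw i G
  have h2 := Nn_nonneg hw (fun y => G y - Ao w i G y)
  linarith

lemma Nn_Av_sub (hw : PW w) {j : I} {s : Finset I} (hj : j ∉ s) (F : (I → T) → ℝ) :
    Nn w (Av w s (fun y => F y - Ao w j F y)) = Nn w (Av w s F) - Nn w (Av w (insert j s) F) := by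
  rw [Av_sub, ← Av_insert hw hj, Av_insert' hw hj, Nn_sub_Ao hw]

lemma Nn_Av_insert_le (hw : PW w) {j : I} {s : Finset I} (hj : j ∉ s) (F : (I → T) → ℝ) :
    Nn w (Av w (insert j s) F) ≤ Nn w (Av w s F) := by
  rw [Av_insert' hw hj]; exact Nn_Ao_le hw _ _

lemma bessel (hw : PW w) (s : Finset I) : ∀ G : (I → T) → ℝ,
    ∑ i ∈ s, (Nn w (Av w (s.erase i) G) - Nn w (Av w s G)) + Nn w (Av w s G) ≤ Nn w G := by
  induction s using Finset.induction_on with
  | empty => intro G; simp [Av_empty hw]
  | insert k s hk ih =>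
    intro G
    rw [Finset.sum_insert hk, Finset.erase_insert hk]
    have h1 : ∑ i ∈ s, (Nn w (Av w ((insert k s).erase i) G) - Nn w (Av w (insert k s) G))
        ≤ ∑ i ∈ s, (Nn w (Av w (s.erase i) G) - Nn w (Av w s G)) := by
      refine Finset.sum_le_sum (fun i hi => ?_)
      have hik : k ≠ i := fun h => hk (h ▸ hi)
      rw [Finset.erase_insert_of_ne hik]
      have hk2 : k ∉ s.erase i := fun h => hk (Finset.mem_of_mem_erase h)
      have e1 := Nn_Av_sub hw hk2 G
      have e2 := Nn_Av_sub hw hk G
      have e3 : Nn w (Av w s (fun y => G y - Ao w k G y))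
          ≤ Nn w (Av w (s.erase i) (fun y => G y - Ao w k G y)) := by
        have := Nn_Av_insert_le hw (Finset.notMem_erase i s) (fun y => G y - Ao w k G y)
        rwa [Finset.insert_erase hi] at this
      linarith
    have := ih G
    linarith

lemma es2_aux (hw : PW w) (s : Finset I) : ∀ F : (I → T) → ℝ,
    2 * (Nn w F - Nn w (Av w s F)) ≤ ∑ i ∈ s, (Nn w F - Nn w (Ao w i F))
      + ∑ i ∈ s, (Nn w (Av w (s.erase i) F) - Nn w (Av w s F)) := by
  induction s using Finset.induction_on with
  | empty => intro F; simp [Av_empty hw]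
  | insert j s hj ih =>
    intro F
    rw [Finset.sum_insert hj, Finset.sum_insert hj, Finset.erase_insert hj]
    have hb := bessel hw s (fun y => F y - Ao w j F y)
    have h1 : ∑ i ∈ s, (Nn w (Av w ((insert j s).erase i) F) - Nn w (Av w (insert j s) F))
        = ∑ i ∈ s, (Nn w (Av w (s.erase i) F) - Nn w (Av w s F))
          - ∑ i ∈ s, (Nn w (Av w (s.erase i) (fun y => F y - Ao w j F y))
            - Nn w (Av w s (fun y => F y - Ao w j F y))) := by
      rw [← Finset.sum_sub_distrib]
      refine Finset.sum_congr rfl (fun i hi => ?_)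
      have hij : j ≠ i := fun h => hj (h ▸ hi)
      have hj2 : j ∉ s.erase i := fun h => hj (Finset.mem_of_mem_erase h)
      rw [Finset.erase_insert_of_ne hij, Nn_Av_sub hw hj2, Nn_Av_sub hw hj]
      ring
    have h2 := Nn_Av_sub hw hj F
    have h3 := Nn_sub_Ao hw j F
    have := ih F
    linarith

lemma Av_univ (hw : PW w) (F : (I → T) → ℝ) : Nn w (Av w Finset.univ F) = (EE (pw w) F) ^ 2 := by
  have h : Av w Finset.univ F = fun _ => EE (pw w) F := by
    funext y
    simp only [Av, Finset.piecewise_univ]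
  rw [h, Nn, EE_const (pw_PW hw)]

lemma EE_coord (hw : PW w) (i : I) (g : T → ℝ) : EE (pw w) (fun y : I → T => g (y i)) = EE w g := by
  rw [EE_resample hw i]
  simp only [Function.update_self]
  exact EE_const (pw_PW hw) _

lemma Av_erase (hw : PW w) (i : I) (F : (I → T) → ℝ) :
    Nn w (Av w (Finset.univ.erase i) F) = EE w (fun t => (EE (pw w) (fun y => F (Function.update y i t))) ^ 2) := by
  have h : Av w (Finset.univ.erase i) F = fun y => EE (pw w) (fun z => F (Function.update z i (y i))) := by
    funext y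
    simp only [Av]
    congr 1
    funext z
    congr 1
    funext k
    by_cases hk : k = i
    · subst hk; simp
    · rw [Function.update_of_ne hk]
      simp [hk]
  rw [h, Nn]
  exact EE_coord hw i (fun t => (EE (pw w) (fun y => F (Function.update y i t))) ^ 2)

lemma first_term (hw : PW w) (i : I) (F : (I → T) → ℝ) :
    EE (pw w) (fun y => Va w (fun t => F (Function.update y i t))) = Nn w F - Nn w (Ao w i F) := by
  have h : (fun y => Va w (fun t => F (Function.update y i t)))
      = fun y => EE w (fun t => F (Function.update y i t) ^ 2) - Ao w i F y ^ 2 := by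
    funext y
    rw [Va_eq hw]; rfl
  rw [h, EE_sub, ← EE_resample hw i (fun y => F y ^ 2)]
  rfl

lemma second_term (hw : PW w) (i : I) (F : (I → T) → ℝ) :
    Va w (fun t => EE (pw w) (fun y => F (Function.update y i t)))
      = Nn w (Av w (Finset.univ.erase i) F) - Nn w (Av w Finset.univ F) := by
  rw [Va_eq hw, Av_erase hw, Av_univ hw, EE_comm, ← EE_resample hw i F]

end ops

/-- the first order parts add up to at most the variance -/
theorem ES1 {I T : Type} [Fintype I] [DecidableEq I] [Fintype T] {w : T → ℝ} (hw : PW w) (F : (I → T) → ℝ) :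
    ∑ i, Va w (fun t => EE (pw w) (fun y => F (Function.update y i t))) ≤ Va (pw w) F := by
  have h := bessel hw Finset.univ F
  simp only [second_term hw]
  rw [Va_eq (pw_PW hw)]
  rw [Av_univ hw] at *
  simp only [Nn] at *
  linarith

/-- second order Efron-Stein inequality -/
theorem ES2 {I T : Type} [Fintype I] [DecidableEq I] [Fintype T] {w : T → ℝ} (hw : PW w) (F : (I → T) → ℝ) :
    2 * Va (pw w) F ≤ ∑ i, EE (pw w) (fun y => Va w (fun t => F (Function.update y i t)))
      + ∑ i, Va w (fun t => EE (pw w) (fun y => F (Function.update y i t))) := by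
  have h := es2_aux hw Finset.univ F
  simp only [second_term hw, first_term hw]
  rw [Va_eq (pw_PW hw)]
  rw [Av_univ hw] at *
  simp only [Nn] at *
  linarith

/-- Efron-Stein inequality -/
theorem ES {I T : Type} [Fintype I] [DecidableEq I] [Fintype T] {w : T → ℝ} (hw : PW w) (F : (I → T) → ℝ) :
    Va (pw w) F ≤ ∑ i, EE (pw w) (fun y => Va w (fun t => F (Function.update y i t))) := by
  have h1 := ES1 hw F
  have h2 := ES2 hw F
  linarith

end

end Pool.Agent.H42.TSP
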