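import Pool.Agent.H42.TSP.FixedKA

set_option autoImplicit false

namespace Pool.Agent.H42.TSP

open Finset
open scoped BigOperators

noncomputable section

/-! Module K, part C : `fixedk` from the lower bound for the binomial probabilities on the window. -/

lemma vark_le_avgk {U : Type} [Fintype U] [DecidableEq U] (k : ℕ) (hk : k ≤ Fintype.card U)
    (F : Finset U → ℝ) (m : ℝ) : vark k F ≤ avgk k (fun S => (F S - m) ^ 2) := by
  rw [← Va_kw, ← EE_kw]
  exact Va_le (kw_PW k hk) F m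

lemma sum_vark_le {U : Type} [Fintype U] [DecidableEq U] {p : ℝ} (hp : 0 ≤ p) (hp1 : p ≤ 1)
    (F : Finset U → ℝ) :
    ∑ k ∈ range (Fintype.card U + 1),
      ((Fintype.card U).choose k : ℝ) * p ^ k * (1 - p) ^ (Fintype.card U - k) * vark k F
      ≤ Va (bw p) F := by
  rw [Va, EE_bw]
  refine Finset.sum_le_sum (fun k hk => ?_)
  have hk' : k ≤ Fintype.card U := by
    have := Finset.mem_range.1 hk; omega
  have h1p : 0 ≤ 1 - p := by linarith
  exact mul_le_mul_of_nonneg_left (vark_le_avgk k hk' F _) (by positivity)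

lemma vark_chain {U : Type} [Fintype U] [DecidableEq U] (n : ℕ) (hn : 1 ≤ n) (F : Finset U → ℝ) (K : ℝ)
    (hK : 0 ≤ K) (hF : ∀ S, ∑ x ∈ S, (F S - F (S.erase x)) ^ 2 ≤ K) (j : ℕ)
    (hj : n + j ≤ Fintype.card U) :
    Real.sqrt (vark n F) ≤ Real.sqrt (vark (n + j) F) + j * Real.sqrt (K / n) := by
  induction j with
  | zero => simp
  | succ j ih =>
    have h1 := ih (by omega)
    have h2 := vark_succ (n + j) (by omega) F K hF
    have hn0 : (0:ℝ) < n := by exact_mod_cast hn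
    have h3 : Real.sqrt (K / (((n + j : ℕ) : ℝ) + 1)) ≤ Real.sqrt (K / n) := by
      apply Real.sqrt_le_sqrt
      apply div_le_div_of_nonneg_left hK hn0
      push_cast
      have : (0:ℝ) ≤ j := Nat.cast_nonneg j
      linarith
    have h4 : n + (j + 1) = n + j + 1 := by ring
    rw [h4]
    push_cast
    linarith

theorem fixedk_of (c : ℝ) (hc : 0 < c) (hwin : ∀ (n M k : ℕ), 1 ≤ n → 4 * n ^ 2 ≤ M → n ≤ k →
    ((k : ℝ) - n) ≤ Real.sqrt n →
    c / Real.sqrt n ≤ (M.choose k : ℝ) * ((n : ℝ) / M) ^ k * (1 - (n : ℝ) / M) ^ (M - k)) :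
    ∃ C : ℝ, 0 < C ∧ ∀ (U : Type) [Fintype U] [DecidableEq U] (n : ℕ) (F : Finset U → ℝ)
    (K ε η : ℝ), 1 ≤ n → 4 * n ^ 2 ≤ Fintype.card U → 0 ≤ K → 0 ≤ ε →
    (∀ S, ∑ x ∈ S, (F S - F (S.erase x)) ^ 2 ≤ K) →
    Va (bw ((n : ℝ) / Fintype.card U)) F ≤ ε → 0 < η → η ≤ 1 → 1 ≤ η * Real.sqrt n →
    Real.sqrt (vark n F) ≤ C * (Real.sqrt (ε / η) + Real.sqrt K * η) := by
  refine ⟨1 / Real.sqrt c + 1, by positivity, ?_⟩
  intro U _ _ n F K ε η hn hM hK hε hF hV hη hη1 hηn
  set M := Fintype.card U with hMdef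
  set p : ℝ := (n : ℝ) / M with hp
  have hn0 : (0:ℝ) < n := by exact_mod_cast hn
  have hsn : 0 < Real.sqrt n := Real.sqrt_pos.2 hn0
  have hnn : n ≤ n ^ 2 := by nlinarith
  have hnM : 4 * n ≤ M := by omega
  have hM0 : (0:ℝ) < M := by
    have : 0 < M := by omega
    exact_mod_cast this
  have hp0 : 0 ≤ p := by positivity
  have hp1 : p ≤ 1 := by
    rw [hp, div_le_one hM0]
    have : n ≤ M := by omega
    exact_mod_cast this
  have h1p : 0 ≤ 1 - p := by linarith
  set J : ℕ := ⌊η * Real.sqrt n⌋₊ with hJ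
  have hJ1 : (J : ℝ) ≤ η * Real.sqrt n := Nat.floor_le (by positivity)
  have hJ2 : η * Real.sqrt n < (J : ℝ) + 1 := Nat.lt_floor_add_one _
  have hsle : Real.sqrt n ≤ n := by
    rw [Real.sqrt_le_left hn0.le]
    have : (1:ℝ) ≤ n := by exact_mod_cast hn
    nlinarith
  have hJn : J ≤ n := by
    have : (J : ℝ) ≤ n := by
      calc (J : ℝ) ≤ η * Real.sqrt n := hJ1
        _ ≤ 1 * Real.sqrt n := mul_le_mul_of_nonneg_right hη1 hsn.le
        _ ≤ n := by rw [one_mul]; exact hsle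
    exact_mod_cast this
  -- the window
  set P : ℕ → ℝ := fun k => (M.choose k : ℝ) * p ^ k * (1 - p) ^ (M - k) with hP
  have hP0 : ∀ k, 0 ≤ P k := fun k => by simp only [hP]; positivity
  have hsum : ∑ j ∈ range (J + 1), P (n + j) * vark (n + j) F ≤ ε := by
    refine le_trans ?_ ((sum_vark_le hp0 hp1 F).trans hV)
    have hinj : ∑ j ∈ range (J + 1), P (n + j) * vark (n + j) F
        = ∑ k ∈ (range (J + 1)).image (fun j => n + j), P k * vark k F := by
      rw [Finset.sum_image]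
      intro a _ b _ hab
      simpa using hab
    rw [hinj]
    refine Finset.sum_le_sum_of_subset_of_nonneg ?_ (fun k _ _ => mul_nonneg (hP0 k) (vark_nonneg k F))
    intro k hk
    simp only [Finset.mem_image, Finset.mem_range] at hk ⊢
    obtain ⟨j, hj, rfl⟩ := hk
    omega
  have hgsum : ∑ j ∈ range (J + 1), ε / ((J : ℝ) + 1) = ε := by
    rw [Finset.sum_const, Finset.card_range, nsmul_eq_mul]
    push_cast
    field_simp
  obtain ⟨j, hjm, hj⟩ := Finset.exists_le_of_sum_le (s := range (J + 1)) (f := fun j => P (n + j) * vark (n + j) F)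
    (g := fun _ => ε / ((J : ℝ) + 1)) ⟨0, by simp⟩ (by rw [hgsum]; exact hsum)
  have hjJ : j ≤ J := by
    have := Finset.mem_range.1 hjm; omega
  have hjJ' : (j : ℝ) ≤ J := by exact_mod_cast hjJ
  have hw := hwin n M (n + j) hn hM (by omega) (by
    push_cast
    calc (n : ℝ) + j - n = j := by ring
      _ ≤ η * Real.sqrt n := hjJ'.trans hJ1
      _ ≤ 1 * Real.sqrt n := mul_le_mul_of_nonneg_right hη1 hsn.le
      _ = Real.sqrt n := one_mul _)
  have hv0 := vark_nonneg (n + j) F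
  have hvle : vark (n + j) F ≤ ε / η / c := by
    have h1 : c / Real.sqrt n * vark (n + j) F ≤ ε / ((J : ℝ) + 1) :=
      (mul_le_mul_of_nonneg_right hw hv0).trans hj
    have h2 : ε / ((J : ℝ) + 1) ≤ ε / (η * Real.sqrt n) :=
      div_le_div_of_nonneg_left hε (by positivity) hJ2.le
    have h3 : c / Real.sqrt n * vark (n + j) F ≤ ε / (η * Real.sqrt n) := h1.trans h2
    rw [div_mul_eq_mul_div, div_le_div_iff₀ hsn (by positivity)] at h3
    rw [div_div, le_div_iff₀ (by positivity)]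
    have h4 : c * vark (n + j) F * (η * Real.sqrt n) = (vark (n + j) F * (η * c)) * Real.sqrt n := by ring
    rw [h4] at h3
    exact le_of_mul_le_mul_right h3 hsn
  have hchain := vark_chain n hn F K hK hF j (by omega)
  have h5 : Real.sqrt (vark (n + j) F) ≤ 1 / Real.sqrt c * Real.sqrt (ε / η) := by
    calc Real.sqrt (vark (n + j) F) ≤ Real.sqrt (ε / η / c) := Real.sqrt_le_sqrt hvle
      _ = 1 / Real.sqrt c * Real.sqrt (ε / η) := by
        rw [Real.sqrt_div (by positivity)]; ring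
  have h6 : (j : ℝ) * Real.sqrt (K / n) ≤ Real.sqrt K * η := by
    rw [Real.sqrt_div hK]
    calc (j : ℝ) * (Real.sqrt K / Real.sqrt n) ≤ (η * Real.sqrt n) * (Real.sqrt K / Real.sqrt n) := by
          apply mul_le_mul_of_nonneg_right (hjJ'.trans hJ1); positivity
      _ = Real.sqrt K * η := by field_simp
  have h7 : 0 ≤ Real.sqrt K * η := by positivity
  have h8 : 0 ≤ Real.sqrt (ε / η) := Real.sqrt_nonneg _
  have h9 : 0 ≤ 1 / Real.sqrt c := by positivity
  calc Real.sqrt (vark n F) ≤ 1 / Real.sqrt c * Real.sqrt (ε / η) + Real.sqrt K * η := by linarith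
    _ ≤ (1 / Real.sqrt c + 1) * (Real.sqrt (ε / η) + Real.sqrt K * η) := by nlinarith [mul_nonneg h9 h7]

end

end Pool.Agent.H42.TSP
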