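import Pool.Agent.H42.TSP.FixedKB
import Pool.Agent.H42.TSP.FixedKC

set_option autoImplicit false

namespace Pool.Agent.H42.TSP

open Finset
open scoped BigOperators

noncomputable section

/-- Module K, part C : from the Bernoulli model to a fixed number of points. -/
theorem fixedk : ∃ C : ℝ, 0 < C ∧ ∀ (U : Type) [Fintype U] [DecidableEq U] (n : ℕ) (F : Finset U → ℝ)
    (K ε η : ℝ), 1 ≤ n → 4 * n ^ 2 ≤ Fintype.card U → 0 ≤ K → 0 ≤ ε →
    (∀ S, ∑ x ∈ S, (F S - F (S.erase x)) ^ 2 ≤ K) →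
    Va (bw ((n : ℝ) / Fintype.card U)) F ≤ ε → 0 < η → η ≤ 1 → 1 ≤ η * Real.sqrt n →
    Real.sqrt (vark n F) ≤ C * (Real.sqrt (ε / η) + Real.sqrt K * η) := by
  obtain ⟨c, hc, h⟩ := binom_window
  exact fixedk_of c hc h

end

end Pool.Agent.H42.TSP
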