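import Pool.Agent.H42.TSP.Basic

set_option autoImplicit false

namespace Pool.Agent.H42.TSP

open Finset
open scoped BigOperators

noncomputable section

/-- sum of `h` over the images of the `a`-tuples -/
def labW {U : Type} [Fintype U] [DecidableEq U] (h : Finset U → ℝ) (a : ℕ) : ℝ :=
  ∑ y : Fin a → U, h (univ.image y)

theorem lab_reindex {U ι : Type} [Fintype U] [DecidableEq U] [Fintype ι] [DecidableEq ι]
    (h : Finset U → ℝ) :
    ∑ y : ι → U, h (univ.image y) = labW h (Fintype.card ι) := by
  unfold labW
  refine Fintype.sum_equiv (Equiv.arrowCongr (Fintype.equivFin ι) (Equiv.refl U)) _ _ ?_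
  intro y
  congr 1
  ext u
  simp only [mem_image, mem_univ, true_and]
  constructor
  · rintro ⟨i, hi⟩
    exact ⟨Fintype.equivFin ι i, by simp [Equiv.arrowCongr, hi]⟩
  · rintro ⟨i, hi⟩
    exact ⟨(Fintype.equivFin ι).symm i, by simpa [Equiv.arrowCongr] using hi⟩

theorem lab_split {U ι : Type} [Fintype U] [DecidableEq U] [Fintype ι] [DecidableEq ι]
    (A : Finset ι) (h : Finset U → ℝ) (G : ({i // ¬ i ∈ A} → U) → ℝ) :
    ∑ v : ι → U, h (A.image v) * G (fun i => v i) =
      labW h A.card * ∑ z : {i // ¬ i ∈ A} → U, G z := by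
  have h1 : labW h A.card = ∑ y : {i // i ∈ A} → U, h (univ.image y) := by
    rw [lab_reindex]
    congr 1
    simp
  rw [h1, Finset.sum_mul_sum, ← Fintype.sum_prod_type']
  refine Fintype.sum_equiv (Equiv.piEquivPiSubtypeProd (fun i => i ∈ A) (fun _ => U)) _ _ ?_
  intro v
  have h2 : A.image v = univ.image (fun i : {i // i ∈ A} => v i) := by
    ext u
    simp only [mem_image, mem_univ, true_and, Subtype.exists, exists_prop]
  simp only [Equiv.piEquivPiSubtypeProd_apply]
  rw [h2]

theorem lab_one {U ι : Type} [Fintype U] [DecidableEq U] [Fintype ι] [DecidableEq ι]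
    (A : Finset ι) (h : Finset U → ℝ) :
    ∑ v : ι → U, h (A.image v) =
      labW h A.card * (Fintype.card U : ℝ) ^ (Fintype.card ι - A.card) := by
  have := lab_split A h (fun _ => 1)
  simp only [mul_one] at this
  rw [this]
  congr 1
  simp only [sum_const, card_univ, nsmul_eq_mul, mul_one, Fintype.card_pi, prod_const]
  rw [Fintype.card_subtype_compl, Fintype.card_coe]
  push_cast
  rfl

theorem lab_two {U ι : Type} [Fintype U] [DecidableEq U] [Fintype ι] [DecidableEq ι]
    (A A' : Finset ι) (hd : Disjoint A A') (h h' : Finset U → ℝ) :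
    ∑ v : ι → U, h (A.image v) * h' (A'.image v) =
      labW h A.card * (labW h' A'.card *
        (Fintype.card U : ℝ) ^ (Fintype.card ι - A.card - A'.card)) := by
  have h0 : ∀ v : ι → U, h (A.image v) * h' (A'.image v) =
      h (A.image v) * (fun z : {i // ¬ i ∈ A} → U =>
        h' ((A'.subtype (fun i => ¬ i ∈ A)).image z)) (fun i => v i) := by
    intro v
    congr 2
    ext u
    simp only [mem_image, mem_subtype, Subtype.exists]
    constructor
    · rintro ⟨i, hi, rfl⟩
      exact ⟨i, fun hA => (Finset.disjoint_left.mp hd hA) hi, hi, rfl⟩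
    · rintro ⟨i, _, hi, rfl⟩
      exact ⟨i, hi, rfl⟩
  rw [Finset.sum_congr rfl (fun v _ => h0 v), lab_split A h (fun z : {i // ¬ i ∈ A} → U =>
        h' ((A'.subtype (fun i => ¬ i ∈ A)).image z)), lab_one]
  congr 2
  · congr 1
    rw [Finset.card_subtype]
    congr 1
    apply Finset.filter_true_of_mem
    intro i hi hA
    exact (Finset.disjoint_left.mp hd hA) hi
  · congr 1
    rw [Fintype.card_subtype_compl, Fintype.card_coe, Finset.card_subtype]
    congr 2
    apply Finset.filter_true_of_mem
    intro i hi hA
    exact (Finset.disjoint_left.mp hd hA) hi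

theorem lab_pow {α : Type} [DecidableEq α] (s : Finset α) (f : ℕ → ℝ) :
    ∑ A ∈ s.powerset, f A.card = ∑ a ∈ range (s.card + 1), (s.card.choose a : ℝ) * f a := by
  rw [Finset.sum_powerset_apply_card]
  simp only [nsmul_eq_mul]

/-- the positions with label `b` -/
def labA {β : Type} [DecidableEq β] {n : ℕ} (l : Fin n → β) (b : β) : Finset (Fin n) :=
  univ.filter (fun i => l i = b)

theorem lab_sum_x {β U : Type} [Fintype β] [DecidableEq β] [Fintype U] [DecidableEq U]
    (n : ℕ) (F : (Fin n → β) → (Fin n → U) → ℝ) :
    ∑ x : Fin n → β × U, F (fun i => (x i).1) (fun i => (x i).2) = ∑ l, ∑ v, F l v := by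
  rw [← Fintype.sum_prod_type']
  exact Fintype.sum_equiv (Equiv.arrowProdEquivProdArrow (Fin n) (fun _ => β) (fun _ => U)) _ _
    (fun x => rfl)

theorem lab_card_one {β : Type} [Fintype β] [DecidableEq β] (n : ℕ) (b : β) (A : Finset (Fin n)) :
    ((univ.filter (fun l : Fin n → β => labA l b = A)).card : ℝ) =
      ((Fintype.card β : ℝ) - 1) ^ (n - A.card) := by
  have h1 : univ.filter (fun l : Fin n → β => labA l b = A) =
      Fintype.piFinset (fun i => if i ∈ A then {b} else univ.erase b) := by
    ext l
    simp only [mem_filter, mem_univ, true_and, Fintype.mem_piFinset]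
    constructor
    · rintro rfl i
      by_cases hi : l i = b
      · simp [labA, hi]
      · simp [labA, hi]
    · intro hl
      ext i
      have := hl i
      by_cases hi : i ∈ A
      · simp [hi] at this
        simp [labA, hi, this]
      · simp [hi] at this
        simp [labA, hi, this]
  rw [h1, Fintype.card_piFinset]
  have h2 : ∀ i : Fin n, (if i ∈ A then ({b} : Finset β) else univ.erase b).card =
      if i ∈ A then 1 else Fintype.card β - 1 := by
    intro i
    split_ifs
    · simp
    · rw [card_erase_of_mem (mem_univ b), card_univ]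
  rw [Finset.prod_congr rfl (fun i _ => h2 i), Finset.prod_ite]
  simp only [prod_const, one_pow, one_mul]
  have h3 : (univ.filter (fun i : Fin n => ¬ i ∈ A)).card = n - A.card := by
    have : univ.filter (fun i : Fin n => ¬ i ∈ A) = Aᶜ := by
      ext i; simp
    rw [this, card_compl, Fintype.card_fin]
  rw [h3]
  have hB : 1 ≤ Fintype.card β := Fintype.card_pos_iff.mpr ⟨b⟩
  push_cast [Nat.cast_sub hB]
  rfl

theorem lab_card_two {β : Type} [Fintype β] [DecidableEq β] (n : ℕ) (b b' : β) (hb : b ≠ b')
    (A A' : Finset (Fin n)) (hd : Disjoint A A') :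
    ((univ.filter (fun l : Fin n → β => labA l b = A ∧ labA l b' = A')).card : ℝ) =
      ((Fintype.card β : ℝ) - 2) ^ (n - A.card - A'.card) := by
  have h1 : univ.filter (fun l : Fin n → β => labA l b = A ∧ labA l b' = A') =
      Fintype.piFinset (fun i => if i ∈ A then {b} else if i ∈ A' then {b'} else
        (univ.erase b).erase b') := by
    ext l
    simp only [mem_filter, mem_univ, true_and, Fintype.mem_piFinset]
    constructor
    · rintro ⟨rfl, rfl⟩ i
      by_cases hi : l i = b
      · simp [labA, hi]
      · by_cases hi' : l i = b'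
        · simp [labA, hi', hb.symm]
        · simp [labA, hi, hi']
    · intro hl
      constructor
      · ext i
        have := hl i
        by_cases hi : i ∈ A
        · simp [hi] at this
          simp [labA, hi, this]
        · by_cases hi' : i ∈ A'
          · simp [hi, hi'] at this
            simp [labA, hi, this]
            exact fun h => hb h.symm
          · simp [hi, hi'] at this
            simp [labA, hi, this]
      · ext i
        have := hl i
        by_cases hi : i ∈ A
        · have hi' : ¬ i ∈ A' := Finset.disjoint_left.mp hd hi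
          simp [hi] at this
          simp [labA, hi', this]
          exact hb
        · by_cases hi' : i ∈ A'
          · simp [hi, hi'] at this
            simp [labA, hi', this]
          · simp [hi, hi'] at this
            simp [labA, hi', this]
  rw [h1, Fintype.card_piFinset]
  have h2 : ∀ i : Fin n, (if i ∈ A then ({b} : Finset β) else if i ∈ A' then {b'} else
        (univ.erase b).erase b').card =
      if i ∈ A ∪ A' then 1 else Fintype.card β - 2 := by
    intro i
    by_cases hi : i ∈ A
    · simp [hi]
    · by_cases hi' : i ∈ A'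
      · simp [hi, hi']
      · simp only [hi, hi', if_false, mem_union, or_self]
        rw [card_erase_of_mem (by simp [hb.symm]), card_erase_of_mem (mem_univ b), card_univ]
        omega
  rw [Finset.prod_congr rfl (fun i _ => h2 i), Finset.prod_ite]
  simp only [prod_const, one_pow, one_mul]
  have h3 : (univ.filter (fun i : Fin n => ¬ i ∈ A ∪ A')).card = n - A.card - A'.card := by
    have : univ.filter (fun i : Fin n => ¬ i ∈ A ∪ A') = (A ∪ A')ᶜ := by
      ext i; simp
    rw [this, card_compl, Fintype.card_fin, card_union_of_disjoint hd]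
    omega
  rw [h3]
  have hB : 2 ≤ Fintype.card β := by
    have : ({b, b'} : Finset β).card = 2 := card_pair hb
    rw [← this]
    exact card_le_univ _
  push_cast [Nat.cast_sub hB]
  rfl

theorem lab_sum_one {β : Type} [Fintype β] [DecidableEq β] (n : ℕ) (b : β) (f : ℕ → ℝ) :
    ∑ l : Fin n → β, f (labA l b).card =
      ∑ a ∈ range (n + 1), (n.choose a : ℝ) * (((Fintype.card β : ℝ) - 1) ^ (n - a) * f a) := by
  have h1 : ∑ l : Fin n → β, f (labA l b).card =
      ∑ A ∈ (univ : Finset (Fin n)).powerset,
        ∑ l ∈ univ.filter (fun l : Fin n → β => labA l b = A), f (labA l b).card := by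
    rw [Finset.sum_fiberwise_of_maps_to]
    intro l _
    simp
  rw [h1]
  have h2 : ∀ A ∈ (univ : Finset (Fin n)).powerset,
      ∑ l ∈ univ.filter (fun l : Fin n → β => labA l b = A), f (labA l b).card =
        (fun a : ℕ => ((Fintype.card β : ℝ) - 1) ^ (n - a) * f a) A.card := by
    intro A _
    rw [Finset.sum_congr rfl (g := fun _ => f A.card)
      (fun l hl => by rw [(mem_filter.mp hl).2])]
    rw [sum_const, nsmul_eq_mul, lab_card_one]
  rw [Finset.sum_congr rfl h2, lab_pow univ (fun a : ℕ => ((Fintype.card β : ℝ) - 1) ^ (n - a) * f a)]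
  simp only [card_univ, Fintype.card_fin]

theorem lab_sum_two {β : Type} [Fintype β] [DecidableEq β] (n : ℕ) (b b' : β) (hb : b ≠ b')
    (f : ℕ → ℕ → ℝ) :
    ∑ l : Fin n → β, f (labA l b).card (labA l b').card =
      ∑ a ∈ range (n + 1), ∑ c ∈ range (n + 1), if a + c ≤ n then
        (n.choose a : ℝ) * (((n - a).choose c : ℝ) *
          (((Fintype.card β : ℝ) - 2) ^ (n - a - c) * f a c)) else 0 := by
  have h1 : ∑ l : Fin n → β, f (labA l b).card (labA l b').card =
      ∑ p ∈ ((univ : Finset (Fin n)).powerset).sigma (fun A => (Aᶜ).powerset),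
        ∑ l ∈ univ.filter (fun l : Fin n → β =>
          (⟨labA l b, labA l b'⟩ : Σ _ : Finset (Fin n), Finset (Fin n)) = p),
          f (labA l b).card (labA l b').card := by
    rw [Finset.sum_fiberwise_of_maps_to]
    intro l _
    simp only [mem_sigma, mem_powerset, subset_univ, true_and]
    intro i hi
    simp only [labA, mem_filter, mem_univ, true_and, mem_compl] at hi ⊢
    rw [hi]
    exact hb.symm
  rw [h1, Finset.sum_sigma]
  have h2 : ∀ A ∈ (univ : Finset (Fin n)).powerset, ∀ A' ∈ (Aᶜ).powerset,
      ∑ l ∈ univ.filter (fun l : Fin n → β =>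
          (⟨labA l b, labA l b'⟩ : Σ _ : Finset (Fin n), Finset (Fin n)) = ⟨A, A'⟩),
          f (labA l b).card (labA l b').card =
        (fun c : ℕ => ((Fintype.card β : ℝ) - 2) ^ (n - A.card - c) * f A.card c) A'.card := by
    intro A _ A' hA'
    have hd : Disjoint A A' := by
      rw [Finset.disjoint_left]
      intro i hi hi'
      have := (mem_powerset.mp hA') hi'
      rw [mem_compl] at this
      exact this hi
    have h3 : univ.filter (fun l : Fin n → β =>
          (⟨labA l b, labA l b'⟩ : Σ _ : Finset (Fin n), Finset (Fin n)) = ⟨A, A'⟩) =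
        univ.filter (fun l : Fin n → β => labA l b = A ∧ labA l b' = A') := by
      ext l
      simp only [mem_filter, mem_univ, true_and, Sigma.mk.injEq, heq_eq_eq]
    rw [h3]
    rw [Finset.sum_congr rfl (g := fun _ => f A.card A'.card)
      (fun l hl => by rw [(mem_filter.mp hl).2.1, (mem_filter.mp hl).2.2])]
    rw [sum_const, nsmul_eq_mul, lab_card_two n b b' hb A A' hd]
  have h4 : ∀ A ∈ (univ : Finset (Fin n)).powerset,
      ∑ A' ∈ (Aᶜ).powerset, ∑ l ∈ univ.filter (fun l : Fin n → β =>
          (⟨labA l b, labA l b'⟩ : Σ _ : Finset (Fin n), Finset (Fin n)) = ⟨A, A'⟩),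
          f (labA l b).card (labA l b').card =
        (fun a : ℕ => ∑ c ∈ range (n - a + 1), ((n - a).choose c : ℝ) *
          (((Fintype.card β : ℝ) - 2) ^ (n - a - c) * f a c)) A.card := by
    intro A hA
    rw [Finset.sum_congr rfl (h2 A hA), lab_pow (Aᶜ)
      (fun c : ℕ => ((Fintype.card β : ℝ) - 2) ^ (n - A.card - c) * f A.card c)]
    simp only [card_compl, Fintype.card_fin]
  rw [Finset.sum_congr rfl h4, lab_pow univ
    (fun a : ℕ => ∑ c ∈ range (n - a + 1), ((n - a).choose c : ℝ) *
          (((Fintype.card β : ℝ) - 2) ^ (n - a - c) * f a c))]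
  simp only [card_univ, Fintype.card_fin]
  refine Finset.sum_congr rfl (fun a ha => ?_)
  rw [Finset.mem_range] at ha
  rw [← Finset.sum_filter, Finset.mul_sum]
  refine Finset.sum_congr ?_ (fun c _ => rfl)
  ext c
  simp only [mem_range, mem_filter]
  omega

theorem labels1 {β U : Type} [Fintype β] [DecidableEq β] [Nonempty β] [Fintype U] [DecidableEq U] [Nonempty U]
    (n : ℕ) (g : Finset U → ℝ) :
    avgi n (fun x : Fin n → β × U =>
        ∑ b, g ((univ.filter (fun i => (x i).1 = b)).image (fun i => (x i).2))) =
      Fintype.card β * ∑ a ∈ range (n + 1), q1 n (Fintype.card β) a * avgi a (fun y => g (univ.image y)) := by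
  have hB : (0 : ℝ) < Fintype.card β := by exact_mod_cast Fintype.card_pos
  have hU : (0 : ℝ) < Fintype.card U := by exact_mod_cast Fintype.card_pos
  have h1 : ∑ x : Fin n → β × U,
        ∑ b, g ((univ.filter (fun i => (x i).1 = b)).image (fun i => (x i).2)) =
      Fintype.card β * ∑ a ∈ range (n + 1), (n.choose a : ℝ) *
        (((Fintype.card β : ℝ) - 1) ^ (n - a) * (labW g a * (Fintype.card U : ℝ) ^ (n - a))) := by
    rw [Finset.sum_comm]
    rw [Finset.sum_congr rfl (g := fun _ => ∑ a ∈ range (n + 1), (n.choose a : ℝ) *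
        (((Fintype.card β : ℝ) - 1) ^ (n - a) * (labW g a * (Fintype.card U : ℝ) ^ (n - a))))]
    · rw [sum_const, card_univ, nsmul_eq_mul]
    · intro b _
      have := lab_sum_x n (fun (l : Fin n → β) (v : Fin n → U) => g ((labA l b).image v))
      simp only [labA] at this
      rw [this]
      have h2 : ∀ l : Fin n → β, ∑ v : Fin n → U,
          g ((univ.filter (fun i => l i = b)).image v) =
          (fun a : ℕ => labW g a * (Fintype.card U : ℝ) ^ (n - a)) (labA l b).card := by
        intro l
        have := lab_one (univ.filter (fun i => l i = b)) g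
        rw [this, Fintype.card_fin]
        rfl
      rw [Finset.sum_congr rfl (fun l _ => h2 l)]
      exact lab_sum_one n b (fun a : ℕ => labW g a * (Fintype.card U : ℝ) ^ (n - a))
  unfold avgi
  rw [h1, mul_div_assoc, Finset.sum_div]
  congr 1
  refine Finset.sum_congr rfl (fun a ha => ?_)
  rw [Finset.mem_range] at ha
  rw [show (∑ x : Fin a → U, g (univ.image x)) = labW g a from rfl]
  unfold q1
  have h3 : (1 - 1 / (Fintype.card β : ℝ)) = ((Fintype.card β : ℝ) - 1) / Fintype.card β := by
    field_simp
  rw [Fintype.card_prod, h3]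
  push_cast
  obtain ⟨k, rfl⟩ : ∃ k, n = a + k := ⟨n - a, by omega⟩
  rw [Nat.add_sub_cancel_left, mul_pow, div_pow, div_pow, one_pow, pow_add, pow_add]
  field_simp

theorem labels2 {β U : Type} [Fintype β] [DecidableEq β] [Nonempty β] [Fintype U] [DecidableEq U] [Nonempty U]
    (n : ℕ) (g : Finset U → ℝ) :
    avgi n (fun x : Fin n → β × U =>
        (∑ b, g ((univ.filter (fun i => (x i).1 = b)).image (fun i => (x i).2))) ^ 2) =
      Fintype.card β * ∑ a ∈ range (n + 1), q1 n (Fintype.card β) a * avgi a (fun y => g (univ.image y) ^ 2)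
      + Fintype.card β * ((Fintype.card β : ℝ) - 1) *
        ∑ a ∈ range (n + 1), ∑ b ∈ range (n + 1), q2 n (Fintype.card β) a b *
          (avgi a (fun y => g (univ.image y)) * avgi b (fun y => g (univ.image y))) := by
  have hB : (0 : ℝ) < Fintype.card β := by exact_mod_cast Fintype.card_pos
  have hU : (0 : ℝ) < Fintype.card U := by exact_mod_cast Fintype.card_pos
  rw [← labels1 n (fun S : Finset U => g S ^ 2)]
  have h0 : ∀ x : Fin n → β × U,
      (∑ b, g ((univ.filter (fun i => (x i).1 = b)).image (fun i => (x i).2))) ^ 2 =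
      ∑ b, g ((univ.filter (fun i => (x i).1 = b)).image (fun i => (x i).2)) ^ 2 +
      ∑ b, ∑ b' ∈ univ.erase b, g ((univ.filter (fun i => (x i).1 = b)).image (fun i => (x i).2)) *
        g ((univ.filter (fun i => (x i).1 = b')).image (fun i => (x i).2)) := by
    intro x
    rw [sq, Finset.sum_mul_sum, ← Finset.sum_add_distrib]
    refine Finset.sum_congr rfl (fun b _ => ?_)
    rw [← Finset.add_sum_erase _ _ (mem_univ b), sq]
  have hadd : ∀ (F G : (Fin n → β × U) → ℝ), avgi n (fun x => F x + G x) = avgi n F + avgi n G := by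
    intro F G
    unfold avgi
    rw [Finset.sum_add_distrib, add_div]
  rw [show (fun x : Fin n → β × U =>
      (∑ b, g ((univ.filter (fun i => (x i).1 = b)).image (fun i => (x i).2))) ^ 2) = _ from
      funext h0, hadd]
  congr 1
  have h1 : ∑ x : Fin n → β × U, ∑ b, ∑ b' ∈ univ.erase b,
        g ((univ.filter (fun i => (x i).1 = b)).image (fun i => (x i).2)) *
        g ((univ.filter (fun i => (x i).1 = b')).image (fun i => (x i).2)) =
      Fintype.card β * (((Fintype.card β : ℝ) - 1) *
        ∑ a ∈ range (n + 1), ∑ c ∈ range (n + 1), if a + c ≤ n then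
        (n.choose a : ℝ) * (((n - a).choose c : ℝ) *
          (((Fintype.card β : ℝ) - 2) ^ (n - a - c) *
            (labW g a * (labW g c * (Fintype.card U : ℝ) ^ (n - a - c))))) else 0) := by
    rw [Finset.sum_comm]
    rw [Finset.sum_congr rfl (g := fun _ => ((Fintype.card β : ℝ) - 1) *
        ∑ a ∈ range (n + 1), ∑ c ∈ range (n + 1), if a + c ≤ n then
        (n.choose a : ℝ) * (((n - a).choose c : ℝ) *
          (((Fintype.card β : ℝ) - 2) ^ (n - a - c) *
            (labW g a * (labW g c * (Fintype.card U : ℝ) ^ (n - a - c))))) else 0)]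
    · rw [sum_const, card_univ, nsmul_eq_mul]
    · intro b _
      rw [Finset.sum_comm]
      rw [Finset.sum_congr rfl (g := fun _ =>
        ∑ a ∈ range (n + 1), ∑ c ∈ range (n + 1), if a + c ≤ n then
        (n.choose a : ℝ) * (((n - a).choose c : ℝ) *
          (((Fintype.card β : ℝ) - 2) ^ (n - a - c) *
            (labW g a * (labW g c * (Fintype.card U : ℝ) ^ (n - a - c))))) else 0)]
      · rw [sum_const, card_erase_of_mem (mem_univ b), card_univ, nsmul_eq_mul,
          Nat.cast_sub (Nat.succ_le_of_lt Fintype.card_pos)]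
        push_cast
        rfl
      · intro b' hb'
        have hbb : b ≠ b' := fun h => (Finset.ne_of_mem_erase hb') h.symm
        have := lab_sum_x n (fun (l : Fin n → β) (v : Fin n → U) =>
          g ((labA l b).image v) * g ((labA l b').image v))
        simp only [labA] at this
        rw [this]
        have h2 : ∀ l : Fin n → β, ∑ v : Fin n → U,
            g ((univ.filter (fun i => l i = b)).image v) *
              g ((univ.filter (fun i => l i = b')).image v) =
            (fun a c : ℕ => labW g a * (labW g c * (Fintype.card U : ℝ) ^ (n - a - c)))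
              (labA l b).card (labA l b').card := by
          intro l
          have hd : Disjoint (univ.filter (fun i => l i = b)) (univ.filter (fun i => l i = b')) := by
            rw [Finset.disjoint_left]
            intro i hi hi'
            rw [mem_filter] at hi hi'
            exact hbb (hi.2.symm.trans hi'.2)
          rw [lab_two _ _ hd, Fintype.card_fin]
          rfl
        rw [Finset.sum_congr rfl (fun l _ => h2 l)]
        exact lab_sum_two n b b' hbb
          (fun a c : ℕ => labW g a * (labW g c * (Fintype.card U : ℝ) ^ (n - a - c)))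
  unfold avgi
  rw [h1, mul_div_assoc, mul_assoc]
  congr 1
  rw [mul_div_assoc]
  congr 1
  rw [Finset.sum_div]
  refine Finset.sum_congr rfl (fun a ha => ?_)
  rw [Finset.mem_range] at ha
  rw [Finset.sum_div]
  refine Finset.sum_congr rfl (fun c hc => ?_)
  rw [Finset.mem_range] at hc
  rw [show (∑ x : Fin a → U, g (univ.image x)) = labW g a from rfl,
    show (∑ x : Fin c → U, g (univ.image x)) = labW g c from rfl]
  unfold q2
  by_cases hac : a + c ≤ n
  · rw [if_pos hac, if_pos hac]
    have h3 : (1 - 2 / (Fintype.card β : ℝ)) = ((Fintype.card β : ℝ) - 2) / Fintype.card β := by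
      field_simp
    rw [Fintype.card_prod, h3]
    push_cast
    obtain ⟨k, rfl⟩ : ∃ k, n = a + c + k := ⟨n - (a + c), by omega⟩
    rw [show a + c + k - a - c = k by omega, mul_pow, div_pow, div_pow, one_pow]
    simp only [pow_add]
    field_simp
  · rw [if_neg hac, if_neg hac]
    simp

end

end Pool.Agent.H42.TSP
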