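import Pool.Agent.H42.TSP.Basic

set_option autoImplicit false

namespace Pool.Agent.H42.TSP

open Finset
open scoped BigOperators

noncomputable section

lemma subiid_card {U : Type} [Fintype U] [DecidableEq U] (k : ℕ) (S : Finset U)
    (hS : S.card = k) :
    (univ.filter fun x : Fin k → U => univ.image x = S).card = k.factorial := by
  classical
  have h1 : Fintype.card (Fin k ↪ S) = k.factorial := by
    rw [Fintype.card_embedding_eq, Fintype.card_fin, Fintype.card_coe, hS,
      Nat.descFactorial_self]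
  rw [← h1, ← Finset.card_univ]
  symm
  refine Finset.card_bij (fun (f : Fin k ↪ S) _ => fun j => (f j : U)) ?_ ?_ ?_
  · intro f _
    simp only [mem_filter, mem_univ, true_and]
    refine Finset.eq_of_subset_of_card_le ?_ ?_
    · intro u hu
      obtain ⟨j, _, rfl⟩ := Finset.mem_image.mp hu
      exact (f j).2
    · rw [Finset.card_image_of_injective _ (fun a b h => f.injective (Subtype.ext h)), hS]
      simp
  · intro f _ g _ h
    ext j
    exact congrFun h j
  · intro x hx
    simp only [mem_filter, mem_univ, true_and] at hx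
    have hinj : Function.Injective x := by
      have h2 : (univ.image x).card = (univ : Finset (Fin k)).card := by
        rw [hx, hS]; simp
      have h3 := Finset.card_image_iff.mp h2
      intro a b hab
      exact h3 (by simp) (by simp) hab
    refine ⟨⟨fun j => ⟨x j, by rw [← hx]; exact Finset.mem_image_of_mem _ (mem_univ j)⟩,
      fun a b h => hinj (by simpa using congrArg Subtype.val h)⟩, mem_univ _, ?_⟩
    rfl

lemma subiid_inj_iff {U : Type} [Fintype U] [DecidableEq U] (k : ℕ) (x : Fin k → U) :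
    (univ.image x).card = k ↔ Function.Injective x := by
  constructor
  · intro h a b hab
    have h2 : (univ.image x).card = (univ : Finset (Fin k)).card := by rw [h]; simp
    exact Finset.card_image_iff.mp h2 (by simp) (by simp) hab
  · intro h
    rw [Finset.card_image_of_injective _ h]; simp

lemma subiid_sum {U : Type} [Fintype U] [DecidableEq U] (k : ℕ) (F : Finset U → ℝ) :
    ∑ x ∈ univ.filter (fun x : Fin k → U => (univ.image x).card = k), F (univ.image x) =
      k.factorial * ∑ S ∈ powersetCard k (univ : Finset U), F S := by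
  have h1 : ∀ x ∈ univ.filter (fun x : Fin k → U => (univ.image x).card = k),
      univ.image x ∈ powersetCard k (univ : Finset U) := by
    intro x hx
    simp only [mem_filter, mem_univ, true_and] at hx
    simp [mem_powersetCard, hx]
  rw [← Finset.sum_fiberwise_of_maps_to h1, Finset.mul_sum]
  refine Finset.sum_congr rfl fun S hS => ?_
  have hSk := (mem_powersetCard.mp hS).2
  have h2 : (univ.filter (fun x : Fin k → U => (univ.image x).card = k)).filter
      (fun x => univ.image x = S) = univ.filter fun x : Fin k → U => univ.image x = S := by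
    ext x
    simp only [mem_filter, mem_univ, true_and]
    constructor
    · exact fun h => h.2
    · exact fun h => ⟨by rw [h, hSk], h⟩
  rw [h2, Finset.sum_congr rfl (g := fun _ => F S)
    (fun x hx => by rw [(mem_filter.mp hx).2])]
  rw [Finset.sum_const, subiid_card k S hSk, nsmul_eq_mul]

lemma subiid_desc (n k : ℕ) (hk : k ≤ n) :
    (n : ℝ) ^ k * ((n : ℝ) - (k : ℝ) ^ 2) ≤ n * (n.descFactorial k : ℝ) := by
  induction k with
  | zero => simp
  | succ k ih =>
    have ih' := ih (by omega)
    have hkn : (k : ℝ) + 1 ≤ n := by exact_mod_cast hk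
    have h1 : ((n.descFactorial (k + 1) : ℕ) : ℝ) = ((n : ℝ) - k) * n.descFactorial k := by
      rw [Nat.descFactorial_succ]
      push_cast [Nat.cast_sub (by omega : k ≤ n)]
      ring
    have h2 : ((n : ℝ) - k) * ((n : ℝ) ^ k * ((n : ℝ) - (k : ℝ) ^ 2)) ≤
        ((n : ℝ) - k) * (n * (n.descFactorial k : ℝ)) :=
      mul_le_mul_of_nonneg_left ih' (by linarith)
    have hp : (0 : ℝ) ≤ (n : ℝ) ^ k := by positivity
    have h3 : (0 : ℝ) ≤ (n : ℝ) ^ k * ((k : ℝ) * n + n + (k : ℝ) ^ 3) := by positivity
    rw [h1]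
    push_cast
    rw [pow_succ]
    nlinarith

/-- Module I : uniform `k`-subsets against `k` independent uniform elements. -/
theorem sub_iid {U : Type} [Fintype U] [DecidableEq U] (k : ℕ) (hk : k ≤ Fintype.card U)
    (hU : 0 < Fintype.card U) (F : Finset U → ℝ) (B : ℝ) (hB : ∀ S : Finset U, S.card ≤ k → |F S| ≤ B) :
    |avgi k (fun x => F (univ.image x)) - avgk k F| ≤ 2 * B * k ^ 2 / Fintype.card U := by
  set n := Fintype.card U with hn
  have hB0 : 0 ≤ B := (abs_nonneg _).trans (hB ∅ (by simp))
  have hn0 : (0 : ℝ) < n := by exact_mod_cast hU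
  have hnk : (0 : ℝ) < (n : ℝ) ^ k := by positivity
  set D : ℝ := (n.descFactorial k : ℝ) with hD
  have hDpos : 0 < D := by
    rw [hD]; exact_mod_cast Nat.descFactorial_pos.mpr hk
  have hDle : D ≤ (n : ℝ) ^ k := by
    rw [hD]; exact_mod_cast Nat.descFactorial_le_pow n k
  have hDch : D = k.factorial * (n.choose k : ℝ) := by
    rw [hD]; exact_mod_cast Nat.descFactorial_eq_factorial_mul_choose n k
  have hchpos : (0 : ℝ) < n.choose k := by exact_mod_cast Nat.choose_pos hk
  set s1 : ℝ := ∑ x ∈ univ.filter (fun x : Fin k → U => (univ.image x).card = k),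
    F (univ.image x) with hS1
  set s2 : ℝ := ∑ x ∈ univ.filter (fun x : Fin k → U => ¬ (univ.image x).card = k),
    F (univ.image x) with hS2
  have hcardx : ∀ x : Fin k → U, (univ.image x).card ≤ k := by
    intro x
    have := Finset.card_image_le (s := (univ : Finset (Fin k))) (f := x)
    simpa using this
  have hcard1 : ((univ.filter (fun x : Fin k → U => (univ.image x).card = k)).card : ℝ) = D := by
    have h := subiid_sum k (fun _ : Finset U => (1 : ℝ))
    simp only [Finset.sum_const, nsmul_eq_mul, mul_one, card_powersetCard, card_univ] at h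
    rw [h, hDch, hn]
  have hcard : ((univ.filter (fun x : Fin k → U => (univ.image x).card = k)).card : ℝ) +
      ((univ.filter (fun x : Fin k → U => ¬ (univ.image x).card = k)).card : ℝ) =
      (n : ℝ) ^ k := by
    have h := Finset.card_filter_add_card_filter_not (s := (univ : Finset (Fin k → U)))
      (fun x : Fin k → U => (univ.image x).card = k)
    have h' : (univ : Finset (Fin k → U)).card = n ^ k := by simp [hn]
    rw [h'] at h
    exact_mod_cast h
  have hb1 : |s1| ≤ D * B := by
    rw [← hcard1, ← nsmul_eq_mul]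
    refine (Finset.abs_sum_le_sum_abs _ _).trans (Finset.sum_le_card_nsmul _ _ _ fun x _ => ?_)
    exact hB _ (hcardx x)
  have hb2 : |s2| ≤ ((n : ℝ) ^ k - D) * B := by
    have h : ((n : ℝ) ^ k - D) =
        ((univ.filter (fun x : Fin k → U => ¬ (univ.image x).card = k)).card : ℝ) := by
      rw [← hcard, hcard1]; ring
    rw [h, ← nsmul_eq_mul]
    refine (Finset.abs_sum_le_sum_abs _ _).trans (Finset.sum_le_card_nsmul _ _ _ fun x _ => ?_)
    exact hB _ (hcardx x)
  have hi : avgi k (fun x => F (univ.image x)) = (s1 + s2) / (n : ℝ) ^ k := by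
    unfold avgi
    rw [hS1, hS2, Finset.sum_filter_add_sum_filter_not]
  have hk' : avgk k F = s1 / D := by
    unfold avgk
    rw [hS1, subiid_sum, hDch, ← hn]
    field_simp
  rw [hi, hk']
  have hsub : (s1 + s2) / (n : ℝ) ^ k - s1 / D =
      -(s1 * (((n : ℝ) ^ k - D) / (D * (n : ℝ) ^ k))) + s2 / (n : ℝ) ^ k := by
    field_simp
    ring
  rw [hsub]
  have hnn : 0 ≤ ((n : ℝ) ^ k - D) / (D * (n : ℝ) ^ k) :=
    div_nonneg (by linarith) (by positivity)
  have h1 : |-(s1 * (((n : ℝ) ^ k - D) / (D * (n : ℝ) ^ k)))| ≤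
      B * (((n : ℝ) ^ k - D) / (n : ℝ) ^ k) := by
    rw [abs_neg, abs_mul, abs_of_nonneg hnn]
    calc |s1| * (((n : ℝ) ^ k - D) / (D * (n : ℝ) ^ k)) ≤
        (D * B) * (((n : ℝ) ^ k - D) / (D * (n : ℝ) ^ k)) :=
          mul_le_mul_of_nonneg_right hb1 hnn
      _ = B * (((n : ℝ) ^ k - D) / (n : ℝ) ^ k) := by field_simp
  have h2 : |s2 / (n : ℝ) ^ k| ≤ B * (((n : ℝ) ^ k - D) / (n : ℝ) ^ k) := by
    rw [abs_div, abs_of_pos hnk]
    calc |s2| / (n : ℝ) ^ k ≤ (((n : ℝ) ^ k - D) * B) / (n : ℝ) ^ k :=
          div_le_div_of_nonneg_right hb2 hnk.le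
      _ = B * (((n : ℝ) ^ k - D) / (n : ℝ) ^ k) := by ring
  have h3 : ((n : ℝ) ^ k - D) / (n : ℝ) ^ k ≤ (k : ℝ) ^ 2 / n := by
    rw [div_le_div_iff₀ hnk hn0]
    have := subiid_desc n k hk
    rw [← hD] at this
    nlinarith
  refine (abs_add_le _ _).trans ?_
  calc _ ≤ B * (((n : ℝ) ^ k - D) / (n : ℝ) ^ k) + B * (((n : ℝ) ^ k - D) / (n : ℝ) ^ k) :=
        add_le_add h1 h2
    _ = 2 * B * (((n : ℝ) ^ k - D) / (n : ℝ) ^ k) := by ring
    _ ≤ 2 * B * ((k : ℝ) ^ 2 / n) := mul_le_mul_of_nonneg_left h3 (by positivity)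
    _ = 2 * B * (k : ℝ) ^ 2 / n := by ring

end

end Pool.Agent.H42.TSP
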