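import Pool.Agent.H42.TSP.Tours

set_option autoImplicit false

namespace Pool.Agent.H42.TSP

open Finset
open scoped BigOperators

noncomputable section

/-- length of an open walk given by a function -/
lemma wl_ofFn : ∀ (k : ℕ) (z : Fin (k + 1) → ℝ × ℝ),
    wl (List.ofFn z) = ∑ i : Fin k, ed (z i.castSucc) (z i.succ) := by
  intro k
  induction k with
  | zero => intro z; simp [List.ofFn_succ, wl]
  | succ k ih =>
    intro z
    have h := ih (fun i => z i.succ)
    rw [Fin.sum_univ_succ, List.ofFn_succ]
    rw [List.ofFn_succ] at h ⊢
    rw [wl, h]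
    rfl

/-- length of a closed walk given by a function -/
lemma cl_ofFn (n : ℕ) (y : Fin n → ℝ × ℝ) :
    cl (List.ofFn y) = ∑ i : Fin n, ed (y i) (y (finRotate n i)) := by
  cases n with
  | zero => simp [cl]
  | succ k =>
    have h1 : cl (List.ofFn y)
        = wl (List.ofFn (Fin.snoc (α := fun _ => ℝ × ℝ) y (y 0) : Fin (k + 2) → ℝ × ℝ)) := by
      rw [List.ofFn_succ' (Fin.snoc (α := fun _ => ℝ × ℝ) y (y 0) : Fin (k + 2) → ℝ × ℝ)]
      simp only [Fin.snoc_castSucc, Fin.snoc_last]
      rw [List.ofFn_succ (f := y)]
      simp [cl]
    rw [h1, wl_ofFn]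
    refine Finset.sum_congr rfl fun i _ => ?_
    rw [Fin.snoc_castSucc]
    congr 1
    induction i using Fin.lastCases with
    | last =>
      rw [finRotate_last]
      have : (Fin.last k).succ = Fin.last (k + 1) := rfl
      rw [this, Fin.snoc_last]
    | cast j =>
      rw [Fin.succ_castSucc, Fin.snoc_castSucc]
      congr 1
      rw [finRotate_apply]
      simp

/-- repeated visits of the same point are free -/
lemma wl_stutter (y : ℝ × ℝ) : ∀ (L : List (ℝ × ℝ)), (∀ p ∈ L, p = y) → ∀ M : List (ℝ × ℝ),
    wl (y :: (L ++ M)) = wl (y :: M) := by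
  intro L
  induction L with
  | nil => intro _ M; rfl
  | cons a L ih =>
    intro h M
    have ha : a = y := h a (by simp)
    subst ha
    rw [List.cons_append, wl_cons_cons, ed_self, zero_add]
    exact ih (fun p hp => h p (by simp [hp])) M

lemma exists_order_open {n : ℕ} (x : Fin n → ℝ × ℝ) : ∀ (l : List (ℝ × ℝ)) (A : Finset (Fin n)),
    (∀ i ∈ A, x i ∈ l) → ∃ m : List (Fin n), m.Nodup ∧ (∀ i, i ∈ m ↔ i ∈ A) ∧
      ∀ a b : ℝ × ℝ, wl (a :: (m.map x ++ [b])) ≤ wl (a :: (l ++ [b])) := by
  classical
  intro l
  induction l with
  | nil =>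
    intro A hA
    refine ⟨[], List.nodup_nil, fun i => ⟨fun h => by simp at h, fun h => ?_⟩, fun a b => le_rfl⟩
    exact absurd (hA i h) (by simp)
  | cons y l ih =>
    intro A hA
    obtain ⟨m, hm1, hm2, hm3⟩ := ih (A.filter (fun i => x i ≠ y)) (by
      intro i hi
      rw [Finset.mem_filter] at hi
      have := hA i hi.1
      rw [List.mem_cons] at this
      rcases this with h | h
      · exact absurd h hi.2
      · exact h)
    refine ⟨(A.filter (fun i => x i = y)).toList ++ m, ?_, ?_, ?_⟩
    · rw [List.nodup_append]
      refine ⟨Finset.nodup_toList _, hm1, ?_⟩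
      intro a ha b hb hab
      subst hab
      rw [Finset.mem_toList, Finset.mem_filter] at ha
      rw [hm2, Finset.mem_filter] at hb
      exact hb.2 ha.2
    · intro i
      rw [List.mem_append, Finset.mem_toList, hm2, Finset.mem_filter, Finset.mem_filter]
      tauto
    · intro a b
      rw [List.map_append, List.append_assoc]
      rcases hcase : (A.filter (fun i => x i = y)).toList with _ | ⟨i0, L⟩
      · rw [List.map_nil, List.nil_append]
        refine (hm3 a b).trans (wl_sublist ?_)
        rw [List.cons_append]
        exact List.Sublist.cons_cons a (List.sublist_cons_self _ _)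
      · have hi0 : x i0 = y := by
          have : i0 ∈ (A.filter (fun i => x i = y)).toList := by rw [hcase]; simp
          rw [Finset.mem_toList, Finset.mem_filter] at this
          exact this.2
        have hL : ∀ p ∈ L.map x, p = y := by
          intro p hp
          rw [List.mem_map] at hp
          obtain ⟨i, hi, rfl⟩ := hp
          have : i ∈ (A.filter (fun i => x i = y)).toList := by rw [hcase]; simp [hi]
          rw [Finset.mem_toList, Finset.mem_filter] at this
          exact this.2
        rw [List.map_cons, hi0, List.cons_append, wl_cons_cons, wl_stutter y _ hL,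
          List.cons_append, wl_cons_cons]
        have := hm3 y b
        linarith

lemma exists_order {n : ℕ} (x : Fin n → ℝ × ℝ) : ∀ (l : List (ℝ × ℝ)) (A : Finset (Fin n)),
    (∀ i ∈ A, x i ∈ l) → ∃ m : List (Fin n), m.Nodup ∧ (∀ i, i ∈ m ↔ i ∈ A) ∧
      cl (m.map x) ≤ cl l := by
  classical
  intro l
  induction l with
  | nil =>
    intro A hA
    refine ⟨[], List.nodup_nil, fun i => ⟨fun h => by simp at h, fun h => ?_⟩, le_rfl⟩
    exact absurd (hA i h) (by simp)
  | cons y l ih =>
    intro A hA
    rcases hcase : (A.filter (fun i => x i = y)).toList with _ | ⟨i0, L⟩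
    · have hemp : A.filter (fun i => x i = y) = ∅ := Finset.toList_eq_nil.1 hcase
      obtain ⟨m, hm1, hm2, hm3⟩ := ih A (by
        intro i hi
        have := hA i hi
        rw [List.mem_cons] at this
        rcases this with h | h
        · have : i ∈ A.filter (fun i => x i = y) := Finset.mem_filter.2 ⟨hi, h⟩
          rw [hemp] at this
          exact absurd this (Finset.notMem_empty _)
        · exact h)
      exact ⟨m, hm1, hm2, hm3.trans (cl_sublist (List.sublist_cons_self _ _))⟩
    · obtain ⟨m, hm1, hm2, hm3⟩ := exists_order_open x l (A.filter (fun i => x i ≠ y)) (by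
        intro i hi
        rw [Finset.mem_filter] at hi
        have := hA i hi.1
        rw [List.mem_cons] at this
        rcases this with h | h
        · exact absurd h hi.2
        · exact h)
      refine ⟨(A.filter (fun i => x i = y)).toList ++ m, ?_, ?_, ?_⟩
      · rw [List.nodup_append]
        refine ⟨Finset.nodup_toList _, hm1, ?_⟩
        intro a ha b hb hab
        subst hab
        rw [Finset.mem_toList, Finset.mem_filter] at ha
        rw [hm2, Finset.mem_filter] at hb
        exact hb.2 ha.2
      · intro i
        rw [List.mem_append, Finset.mem_toList, hm2, Finset.mem_filter, Finset.mem_filter]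
        tauto
      · have hi0 : x i0 = y := by
          have : i0 ∈ (A.filter (fun i => x i = y)).toList := by rw [hcase]; simp
          rw [Finset.mem_toList, Finset.mem_filter] at this
          exact this.2
        have hL : ∀ p ∈ L.map x, p = y := by
          intro p hp
          rw [List.mem_map] at hp
          obtain ⟨i, hi, rfl⟩ := hp
          have : i ∈ (A.filter (fun i => x i = y)).toList := by rw [hcase]; simp [hi]
          rw [Finset.mem_toList, Finset.mem_filter] at this
          exact this.2
        rw [List.map_append, hcase, List.map_cons, hi0, List.cons_append, cl_cons,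
          List.append_assoc, wl_stutter y _ hL, cl_cons]
        exact hm3 y y

/-- Module B : the functional of the frozen statement is the shortest closed walk. -/
theorem Lf_eq_tsp (n : ℕ) (x : Fin n → ℝ × ℝ) : Lf n x = tsp (univ.image x) := by
  classical
  have hval : ∀ σ : Equiv.Perm (Fin n),
      (∑ i : Fin n, Real.sqrt (((x (σ i)).1 - (x (σ (finRotate n i))).1) ^ 2
        + ((x (σ i)).2 - (x (σ (finRotate n i))).2) ^ 2))
      = cl (List.ofFn (fun i => x (σ i))) := by
    intro σ
    rw [cl_ofFn]
    rfl
  apply le_antisymm
  · apply le_tsp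
    intro l hl
    obtain ⟨m, hm1, hm2, hm3⟩ := exists_order x l univ (by
      intro i _
      exact hl _ (Finset.mem_image_of_mem _ (Finset.mem_univ _)))
    refine le_trans ?_ hm3
    have hmem : ∀ i, i ∈ m := fun i => (hm2 i).2 (Finset.mem_univ _)
    have hlen : m.length = n := by
      have h1 : m.toFinset = univ := by
        ext i; simp [hmem i]
      have h2 := List.toFinset_card_of_nodup hm1
      rw [h1, Finset.card_univ, Fintype.card_fin] at h2
      exact h2.symm
    let σ : Equiv.Perm (Fin n) :=
      (finCongr hlen.symm).trans (List.Nodup.getEquivOfForallMemList m hm1 hmem)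
    have hσ : List.ofFn (fun i => x (σ i)) = m.map x := by
      apply List.ext_getElem
      · simp [hlen]
      · intro i h1 h2
        simp [σ]
    rw [← hσ, ← hval σ]
    exact ciInf_le ⟨0, by
      rintro _ ⟨τ, rfl⟩
      exact Finset.sum_nonneg fun i _ => Real.sqrt_nonneg _⟩ σ
  · unfold Lf
    apply le_ciInf
    intro σ
    rw [hval σ]
    apply tsp_le_cl
    intro p hp
    rw [Finset.mem_image] at hp
    obtain ⟨i, _, rfl⟩ := hp
    rw [List.mem_ofFn]
    exact ⟨σ.symm i, by simp⟩

end

end Pool.Agent.H42.TSP
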