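import Pool.Agent.H42.TSP.Tours
import Pool.Agent.H42.TSP.Perm
set_option autoImplicit false

namespace Pool.Agent.H42.TSP

open Finset
open scoped BigOperators

noncomputable section

lemma vareq_volume_cube (n : ℕ) : MeasureTheory.volume (cube n) = 1 := by
  unfold cube
  rw [MeasureTheory.volume_pi_pi]
  refine Finset.prod_eq_one fun i _ => ?_
  rw [MeasureTheory.Measure.volume_eq_prod, MeasureTheory.Measure.prod_prod, Real.volume_Icc]
  norm_num

lemma vareq_isCompact_cube (n : ℕ) : IsCompact (cube n) :=
  isCompact_univ_pi fun _ => isCompact_Icc.prod isCompact_Icc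

lemma vareq_prob (n : ℕ) :
    MeasureTheory.IsProbabilityMeasure (MeasureTheory.volume.restrict (cube n)) :=
  ⟨by rw [MeasureTheory.Measure.restrict_apply_univ, vareq_volume_cube]⟩

lemma vareq_memLp (n : ℕ) : MeasureTheory.MemLp (fun x : Fin n → ℝ × ℝ => tsp (univ.image x)) 2
    (MeasureTheory.volume.restrict (cube n)) := by
  haveI := vareq_prob n
  obtain ⟨C, hC⟩ := (vareq_isCompact_cube n).exists_bound_of_continuousOn
    (tsp_continuous n).continuousOn
  refine MeasureTheory.MemLp.of_bound (tsp_continuous n).aestronglyMeasurable C ?_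
  exact MeasureTheory.ae_restrict_of_forall_mem (vareq_isCompact_cube n).measurableSet hC

/-- Module W : the variance of the frozen statement. -/
theorem variance_eq (n : ℕ) : ProbabilityTheory.variance (Lf n) (MeasureTheory.volume.restrict (cube n)) =
    mom 2 n - (mom 1 n) ^ 2 := by
  haveI := vareq_prob n
  have h : Lf n = fun x : Fin n → ℝ × ℝ => tsp (univ.image x) := funext fun x => Lf_eq_tsp n x
  rw [h, ProbabilityTheory.variance_eq_sub (vareq_memLp n)]
  unfold mom
  simp only [pow_one, Pi.pow_apply]

end

end Pool.Agent.H42.TSP
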