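import Pool.Agent.H42.TSP.Blocks
import Pool.Agent.H42.TSP.FixedK
import Pool.Agent.H42.TSP.SubIid
import Pool.Agent.H42.TSP.Labels
import Pool.Agent.H42.TSP.Asym
import Pool.Agent.H42.TSP.Cont
import Pool.Agent.H42.TSP.VarEq

set_option autoImplicit false

namespace Pool.Agent.H42.TSP

open Finset Filter Topology
open scoped BigOperators

noncomputable section

lemma card_Site (m N r : ℕ) : Fintype.card (Site m N r) = m ^ 2 * N ^ 2 * r ^ 2 := by
  simp only [Site, Fintype.card_prod, Fintype.card_fin]; ring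

lemma ed_unit {p q : ℝ × ℝ} (hp : 0 ≤ p.1 ∧ p.1 ≤ 1 ∧ 0 ≤ p.2 ∧ p.2 ≤ 1)
    (hq : 0 ≤ q.1 ∧ q.1 ≤ 1 ∧ 0 ≤ q.2 ∧ q.2 ≤ 1) : ed p q ≤ 3 / 2 := by
  unfold ed
  apply Real.sqrt_le_iff.2
  refine ⟨by norm_num, ?_⟩
  nlinarith [hp.1, hp.2.1, hp.2.2.1, hp.2.2.2, hq.1, hq.2.1, hq.2.2.1, hq.2.2.2]

lemma posU_mem (N r : ℕ) (hN : 0 < N) (hr : 0 < r) (u : (Fin N × Fin N) × (Fin r × Fin r)) :
    0 ≤ (posU N r u).1 ∧ (posU N r u).1 ≤ 1 ∧ 0 ≤ (posU N r u).2 ∧ (posU N r u).2 ≤ 1 := by
  have hN' : (0 : ℝ) < N := by exact_mod_cast hN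
  have hr' : (0 : ℝ) < r := by exact_mod_cast hr
  have key : ∀ (c : Fin N) (e : Fin r), (((c : ℕ) : ℝ) + (((e : ℕ) : ℝ) + 1 / 2) / r) / N ≤ 1 := by
    intro c e
    have h1 : ((e : ℕ) : ℝ) + 1 ≤ r := by exact_mod_cast e.isLt
    have h2 : ((c : ℕ) : ℝ) + 1 ≤ N := by exact_mod_cast c.isLt
    rw [div_le_one hN']
    have h3 : (((e : ℕ) : ℝ) + 1 / 2) / r ≤ 1 := by rw [div_le_one hr']; linarith
    linarith
  refine ⟨?_, key _ _, ?_, key _ _⟩
  · unfold posU; positivity
  · unfold posU; positivity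

lemma pos_eq (m N r : ℕ) (s : Site m N r) : pos m N r s =
    (((s.1.1 : ℕ) : ℝ) / m + (1 / m) * (posU N r s.2).1, ((s.1.2 : ℕ) : ℝ) / m + (1 / m) * (posU N r s.2).2) := by
  unfold pos posU
  ext <;> simp only <;> ring

lemma pos_mem (m N r : ℕ) (hm : 0 < m) (hN : 0 < N) (hr : 0 < r) (s : Site m N r) :
    0 ≤ (pos m N r s).1 ∧ (pos m N r s).1 ≤ 1 ∧ 0 ≤ (pos m N r s).2 ∧ (pos m N r s).2 ≤ 1 := by
  have hm' : (0 : ℝ) < m := by exact_mod_cast hm
  have h := posU_mem N r hN hr s.2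
  have h1 : ((s.1.1 : ℕ) : ℝ) + 1 ≤ m := by exact_mod_cast s.1.1.isLt
  have h2 : ((s.1.2 : ℕ) : ℝ) + 1 ≤ m := by exact_mod_cast s.1.2.isLt
  rw [pos_eq]
  have key : ∀ (b x : ℝ), b + 1 ≤ m → x ≤ 1 → b / m + 1 / m * x ≤ 1 := by
    intro b x hb hx
    rw [show b / m + 1 / m * x = (b + x) / m by ring, div_le_one hm']; linarith
  refine ⟨?_, key _ _ h1 h.2.1, ?_, key _ _ h2 h.2.2.2⟩
  · have := h.1; simp only; positivity
  · have := h.2.2.1; simp only; positivity

lemma LL_bound (m N r : ℕ) (hm : 0 < m) (hN : 0 < N) (hr : 0 < r) (S : Finset (Site m N r)) :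
    0 ≤ LL m N r S ∧ LL m N r S ≤ 3 * S.card := by
  refine ⟨tsp_nonneg _, ?_⟩
  unfold LL
  calc tsp (S.image (pos m N r)) ≤ 2 * (3 / 2) * (S.image (pos m N r)).card := by
        apply tsp_le_card (by norm_num)
        intro p hp q hq
        obtain ⟨s, _, rfl⟩ := mem_image.1 hp
        obtain ⟨t, _, rfl⟩ := mem_image.1 hq
        exact ed_unit (pos_mem m N r hm hN hr s) (pos_mem m N r hm hN hr t)
    _ ≤ 3 * S.card := by
        have : ((S.image (pos m N r)).card : ℝ) ≤ S.card := by exact_mod_cast card_image_le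
        linarith

lemma SS_bound (m N r : ℕ) (hm : 0 < m) (hN : 0 < N) (hr : 0 < r) (S : Finset (Site m N r)) :
    0 ≤ SS m N r S ∧ SS m N r S ≤ 3 * S.card := by
  refine ⟨Finset.sum_nonneg (fun b _ => tsp_nonneg _), ?_⟩
  unfold SS
  calc ∑ b : Fin m × Fin m, tsp ((S.filter (fun s => s.1 = b)).image (pos m N r))
      ≤ ∑ b : Fin m × Fin m, 3 * ((S.filter (fun s => s.1 = b)).card : ℝ) := by
        apply Finset.sum_le_sum; intro b _
        exact (LL_bound m N r hm hN hr (S.filter (fun s => s.1 = b))).2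
    _ = 3 * S.card := by
        rw [← Finset.mul_sum]; congr 1
        rw [← Nat.cast_sum]
        congr 1
        exact (Finset.card_eq_sum_card_fiberwise (f := fun s : Site m N r => s.1) (t := univ)
          (fun _ _ => mem_univ _)).symm

/-- `SS` of the image of an `n`-tuple -/
lemma SS_image (m N r : ℕ) (hm : 0 < m) (n : ℕ) (x : Fin n → Site m N r) :
    SS m N r (univ.image x) = (1 / m) * ∑ b : Fin m × Fin m,
      tsp (((univ.filter (fun i => (x i).1 = b)).image (fun i => (x i).2)).image (posU N r)) := by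
  unfold SS
  rw [Finset.mul_sum]
  apply Finset.sum_congr rfl
  intro b _
  have hm' : (0 : ℝ) < 1 / m := by positivity
  rw [← tsp_affine _ (1 / m) hm' (((b.1 : ℕ) : ℝ) / m, ((b.2 : ℕ) : ℝ) / m)]
  congr 1
  ext p
  simp only [mem_image, mem_filter, mem_univ, true_and]
  constructor
  · rintro ⟨s, ⟨⟨i, rfl⟩, hb⟩, rfl⟩
    refine ⟨posU N r (x i).2, ⟨(x i).2, ⟨i, hb, rfl⟩, rfl⟩, ?_⟩
    rw [pos_eq, hb]
  · rintro ⟨q, ⟨u, ⟨i, hb, rfl⟩, rfl⟩, rfl⟩
    refine ⟨x i, ⟨⟨i, rfl⟩, hb⟩, ?_⟩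
    rw [pos_eq, hb]

/-- the mean over `k`-subsets and over `k`-tuples have the same limit -/
lemma avgk_of_avgi (m N : ℕ) (hm : 0 < m) (hN : 0 < N) (n : ℕ)
    (F : (r : ℕ) → Finset (Site m N r) → ℝ) (Bd : ℝ)
    (hB : ∀ r, 0 < r → ∀ S : Finset (Site m N r), S.card ≤ n → |F r S| ≤ Bd) (c : ℝ)
    (h : Tendsto (fun r => avgi n (fun x : Fin n → Site m N r => F r (univ.image x))) atTop (𝓝 c)) :
    Tendsto (fun r => avgk n (F r)) atTop (𝓝 c) := by
  have hcard : ∀ r : ℕ, (r : ℝ) ≤ Fintype.card (Site m N r) := by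
    intro r
    rw [card_Site]
    have h1 : 1 ≤ m ^ 2 := Nat.one_le_pow _ _ hm
    have h2 : 1 ≤ N ^ 2 := Nat.one_le_pow _ _ hN
    have : r ≤ m ^ 2 * N ^ 2 * r ^ 2 := by
      calc r ≤ r ^ 2 := by nlinarith [Nat.zero_le r, Nat.le_self_pow (n := 2) (by norm_num) r]
        _ = 1 * 1 * r ^ 2 := by ring
        _ ≤ m ^ 2 * N ^ 2 * r ^ 2 := by gcongr
    exact_mod_cast this
  have herr : Tendsto (fun r : ℕ => avgi n (fun x : Fin n → Site m N r => F r (univ.image x)) - avgk n (F r))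
      atTop (𝓝 0) := by
    have hb : ∀ᶠ r : ℕ in atTop, ‖avgi n (fun x : Fin n → Site m N r => F r (univ.image x)) - avgk n (F r)‖ ≤
        2 * Bd * n ^ 2 / r := by
      filter_upwards [eventually_ge_atTop (n + 1)] with r hr
      have hr0 : 0 < r := by omega
      have hc := hcard r
      have hrr : (0 : ℝ) < r := by exact_mod_cast hr0
      have hnc : n ≤ Fintype.card (Site m N r) := by
        have : (n : ℝ) ≤ Fintype.card (Site m N r) := by
          have : (n : ℝ) ≤ r := by exact_mod_cast (by omega : n ≤ r)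
          linarith
        exact_mod_cast this
      have hpos : 0 < Fintype.card (Site m N r) := by
        have : (0 : ℝ) < Fintype.card (Site m N r) := lt_of_lt_of_le hrr hc
        exact_mod_cast this
      have h1 := sub_iid n hnc hpos (F r) Bd (hB r hr0)
      have hBd : 0 ≤ Bd := (abs_nonneg _).trans (hB r hr0 ∅ (by simp))
      rw [Real.norm_eq_abs]
      refine h1.trans ?_
      gcongr
    refine squeeze_zero_norm' hb ?_
    exact tendsto_const_div_atTop_nhds_zero_nat _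
  have := h.sub herr
  simpa using this

lemma f_cont (n j : ℕ) : Continuous (fun x : Fin n → ℝ × ℝ => (tsp (univ.image x)) ^ j) :=
  (tsp_continuous n).pow j

lemma LL_image (m N r n : ℕ) (x : Fin n → Site m N r) :
    LL m N r (univ.image x) = tsp (univ.image (fun i => pos m N r (x i))) := by
  unfold LL; rw [Finset.image_image]; rfl

/-- limit of `vark n LL` -/
lemma vark_LL_tendsto (m N : ℕ) (hm : 0 < m) (hN : 0 < N) (n : ℕ) :
    Tendsto (fun r => vark n (LL m N r)) atTop (𝓝 (mom 2 n - mom 1 n ^ 2)) := by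
  have hj : ∀ j : ℕ, Tendsto (fun r => avgk n (fun S => LL m N r S ^ j)) atTop (𝓝 (mom j n)) := by
    intro j
    apply avgk_of_avgi m N hm hN n (fun r S => LL m N r S ^ j) ((3 * n) ^ j)
    · intro r hr S hS
      have := LL_bound m N r hm hN hr S
      rw [abs_of_nonneg (pow_nonneg this.1 _)]
      apply pow_le_pow_left₀ this.1
      have h2 : (S.card : ℝ) ≤ n := by exact_mod_cast hS
      linarith [this.2]
    · have := riemann_avgi n (fun x => (tsp (univ.image x)) ^ j) (f_cont n j) m N hm hN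
      simp only [LL_image]
      exact this
  have h1 := hj 1
  have h2 := hj 2
  simp only [pow_one] at h1
  have h3 := h2.sub (h1.pow 2)
  refine h3.congr' ?_
  filter_upwards [eventually_ge_atTop (n + 1)] with r hr
  have hnc : n ≤ Fintype.card (Site m N r) := by
    rw [card_Site]
    have h1 : 1 ≤ m ^ 2 := Nat.one_le_pow _ _ hm
    have h2 : 1 ≤ N ^ 2 := Nat.one_le_pow _ _ hN
    calc n ≤ r := by omega
      _ ≤ r ^ 2 := by nlinarith
      _ = 1 * 1 * r ^ 2 := by ring
      _ ≤ m ^ 2 * N ^ 2 * r ^ 2 := by gcongr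
  rw [vark_eq n hnc]

/-- limit of `vark n SS` -/
lemma vark_SS_tendsto (m N : ℕ) (hm : 0 < m) (hN : 0 < N) (n : ℕ) :
    Tendsto (fun r => vark n (SS m N r)) atTop (𝓝 (Vf n (m ^ 2) (mom 1) (mom 2))) := by
  have hm' : (m : ℝ) ≠ 0 := by positivity
  have : Nonempty (Fin m) := ⟨⟨0, hm⟩⟩
  have : Nonempty (Fin N) := ⟨⟨0, hN⟩⟩
  have hcardβ : Fintype.card (Fin m × Fin m) = m ^ 2 := by
    simp only [Fintype.card_prod, Fintype.card_fin]; ring
  -- moments in the unit block
  have hl : ∀ j a : ℕ, Tendsto (fun r : ℕ => avgi a (fun y : Fin a → (Fin N × Fin N) × (Fin r × Fin r) =>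
      (tsp ((univ.image y).image (posU N r))) ^ j)) atTop (𝓝 (mom j a)) := by
    intro j a
    have := riemann_avgiU a (fun x => (tsp (univ.image x)) ^ j) (f_cont a j) N hN
    refine this.congr ?_
    intro r
    congr 1
    ext y
    rw [Finset.image_image]; rfl
  have hbd : ∀ j r, 0 < r → ∀ S : Finset (Site m N r), S.card ≤ n → |SS m N r S ^ j| ≤ (3 * n) ^ j := by
    intro j r hr S hS
    have := SS_bound m N r hm hN hr S
    rw [abs_of_nonneg (pow_nonneg this.1 _)]
    apply pow_le_pow_left₀ this.1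
    have h2 : (S.card : ℝ) ≤ n := by exact_mod_cast hS
    linarith [this.2]
  have h1 : Tendsto (fun r => avgk n (SS m N r)) atTop
      (𝓝 (m * ∑ a ∈ range (n + 1), q1 n (m ^ 2) a * mom 1 a)) := by
    have h1' : Tendsto (fun r => avgk n (fun S => SS m N r S ^ 1)) atTop
        (𝓝 (m * ∑ a ∈ range (n + 1), q1 n (m ^ 2) a * mom 1 a)) := by
      apply avgk_of_avgi m N hm hN n (fun r S => SS m N r S ^ 1) ((3 * n) ^ 1) (hbd 1)
      have hlim : Tendsto (fun r : ℕ => (m : ℝ) * ∑ a ∈ range (n + 1), q1 n (m ^ 2) a *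
          avgi a (fun y : Fin a → (Fin N × Fin N) × (Fin r × Fin r) =>
            (tsp ((univ.image y).image (posU N r))) ^ 1)) atTop
          (𝓝 (m * ∑ a ∈ range (n + 1), q1 n (m ^ 2) a * mom 1 a)) := by
        apply Tendsto.const_mul
        apply tendsto_finsetSum
        intro a _
        exact (hl 1 a).const_mul _
      refine hlim.congr' ?_
      filter_upwards [eventually_gt_atTop 0] with r hr
      have : Nonempty (Fin r) := ⟨⟨0, hr⟩⟩
      have := labels1 (β := Fin m × Fin m) (U := (Fin N × Fin N) × (Fin r × Fin r)) n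
        (fun A => tsp (A.image (posU N r)))
      rw [hcardβ] at this
      have h5 : avgi n (fun x : Fin n → Site m N r => SS m N r (univ.image x) ^ 1) =
          (1 / m) * avgi n (fun x : Fin n → (Fin m × Fin m) × ((Fin N × Fin N) × (Fin r × Fin r)) =>
            ∑ b, tsp (((univ.filter (fun i => (x i).1 = b)).image (fun i => (x i).2)).image (posU N r))) := by
        unfold avgi
        rw [← mul_div_assoc, Finset.mul_sum]
        congr 1
        apply Finset.sum_congr rfl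
        intro x _
        show SS m N r (univ.image x) ^ 1 = _
        rw [pow_one, SS_image m N r hm]
      rw [h5, this]
      simp only [pow_one]
      push_cast
      field_simp
    simpa using h1'
  have h2 : Tendsto (fun r => avgk n (fun S => SS m N r S ^ 2)) atTop
      (𝓝 ((∑ a ∈ range (n + 1), q1 n (m ^ 2) a * mom 2 a) + (((m ^ 2 : ℕ) : ℝ) - 1) *
        ∑ a ∈ range (n + 1), ∑ b ∈ range (n + 1), q2 n (m ^ 2) a b * (mom 1 a * mom 1 b))) := by
    apply avgk_of_avgi m N hm hN n (fun r S => SS m N r S ^ 2) ((3 * n) ^ 2) (hbd 2)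
    have hlim : Tendsto (fun r : ℕ => (∑ a ∈ range (n + 1), q1 n (m ^ 2) a *
          avgi a (fun y : Fin a → (Fin N × Fin N) × (Fin r × Fin r) =>
            (tsp ((univ.image y).image (posU N r))) ^ 2)) + (((m ^ 2 : ℕ) : ℝ) - 1) *
        ∑ a ∈ range (n + 1), ∑ b ∈ range (n + 1), q2 n (m ^ 2) a b *
          (avgi a (fun y : Fin a → (Fin N × Fin N) × (Fin r × Fin r) =>
            (tsp ((univ.image y).image (posU N r))) ^ 1) *
          avgi b (fun y : Fin b → (Fin N × Fin N) × (Fin r × Fin r) =>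
            (tsp ((univ.image y).image (posU N r))) ^ 1))) atTop
        (𝓝 ((∑ a ∈ range (n + 1), q1 n (m ^ 2) a * mom 2 a) + (((m ^ 2 : ℕ) : ℝ) - 1) *
        ∑ a ∈ range (n + 1), ∑ b ∈ range (n + 1), q2 n (m ^ 2) a b * (mom 1 a * mom 1 b))) := by
      apply Tendsto.add
      · apply tendsto_finsetSum
        intro a _
        exact (hl 2 a).const_mul _
      · apply Tendsto.const_mul
        apply tendsto_finsetSum
        intro a _
        apply tendsto_finsetSum
        intro b _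
        exact ((hl 1 a).mul (hl 1 b)).const_mul _
    refine hlim.congr' ?_
    filter_upwards [eventually_gt_atTop 0] with r hr
    have : Nonempty (Fin r) := ⟨⟨0, hr⟩⟩
    have := labels2 (β := Fin m × Fin m) (U := (Fin N × Fin N) × (Fin r × Fin r)) n
      (fun A => tsp (A.image (posU N r)))
    rw [hcardβ] at this
    have h5 : avgi n (fun x : Fin n → Site m N r => SS m N r (univ.image x) ^ 2) =
        (1 / m) ^ 2 * avgi n (fun x : Fin n → (Fin m × Fin m) × ((Fin N × Fin N) × (Fin r × Fin r)) =>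
          (∑ b, tsp (((univ.filter (fun i => (x i).1 = b)).image (fun i => (x i).2)).image (posU N r))) ^ 2) := by
      unfold avgi
      rw [← mul_div_assoc, Finset.mul_sum]
      congr 1
      apply Finset.sum_congr rfl
      intro x _
      show SS m N r (univ.image x) ^ 2 = _
      rw [SS_image m N r hm, mul_pow]
    rw [h5, this]
    simp only [pow_one]
    push_cast
    field_simp
  have h3 := h2.sub (h1.pow 2)
  have h4 : ((∑ a ∈ range (n + 1), q1 n (m ^ 2) a * mom 2 a) + (((m ^ 2 : ℕ) : ℝ) - 1) *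
        ∑ a ∈ range (n + 1), ∑ b ∈ range (n + 1), q2 n (m ^ 2) a b * (mom 1 a * mom 1 b)) -
      (m * ∑ a ∈ range (n + 1), q1 n (m ^ 2) a * mom 1 a) ^ 2 = Vf n (m ^ 2) (mom 1) (mom 2) := by
    unfold Vf
    push_cast
    ring
  rw [h4] at h3
  refine h3.congr' ?_
  filter_upwards [eventually_ge_atTop (n + 1)] with r hr
  have hnc : n ≤ Fintype.card (Site m N r) := by
    rw [card_Site]
    have h1 : 1 ≤ m ^ 2 := Nat.one_le_pow _ _ hm
    have h2 : 1 ≤ N ^ 2 := Nat.one_le_pow _ _ hN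
    calc n ≤ r := by omega
      _ ≤ r ^ 2 := by nlinarith
      _ = 1 * 1 * r ^ 2 := by ring
      _ ≤ m ^ 2 * N ^ 2 * r ^ 2 := by gcongr
  rw [vark_eq n hnc]

/-- the comparison at fixed `n` -/
lemma sqrt_close (m N : ℕ) (hm : 0 < m) (hN : 0 < N) (n : ℕ) (ε : ℝ)
    (h : ∀ᶠ r : ℕ in atTop, Real.sqrt (vark n (GG m N r)) ≤ ε) :
    |Real.sqrt (mom 2 n - mom 1 n ^ 2) - Real.sqrt (Vf n (m ^ 2) (mom 1) (mom 2))| ≤ ε := by
  have h1 := (Real.continuous_sqrt.tendsto _).comp (vark_LL_tendsto m N hm hN n)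
  have h2 := (Real.continuous_sqrt.tendsto _).comp (vark_SS_tendsto m N hm hN n)
  have h3 := (h1.sub h2).abs
  refine le_of_tendsto h3 ?_
  filter_upwards [h] with r hr
  simp only [Function.comp]
  have hLL : (fun S => SS m N r S + GG m N r S) = LL m N r := by
    ext S; unfold GG; ring
  have hSS : (fun S => LL m N r S + (-GG m N r S)) = SS m N r := by
    ext S; unfold GG; ring
  have t1 := vark_tri n (SS m N r) (GG m N r)
  have t2 := vark_tri n (LL m N r) (fun S => -GG m N r S)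
  rw [hLL] at t1
  rw [hSS] at t2
  have hneg : vark n (fun S => -GG m N r S) = vark n (GG m N r) := by
    unfold vark avgk
    have : (∑ S ∈ powersetCard n (univ : Finset (Site m N r)), -GG m N r S) /
        ((Fintype.card (Site m N r)).choose n : ℝ) =
        -((∑ S ∈ powersetCard n (univ : Finset (Site m N r)), GG m N r S) /
        ((Fintype.card (Site m N r)).choose n : ℝ)) := by
      rw [Finset.sum_neg_distrib, neg_div]
    rw [this]
    congr 1
    apply Finset.sum_congr rfl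
    intro S _
    ring
  rw [hneg] at t2
  rw [abs_le]
  constructor <;> linarith

theorem main : ∃ c : ℝ, Tendsto (fun n : ℕ => mom 2 n - mom 1 n ^ 2) atTop (𝓝 c) := by
  obtain ⟨C1, hC1, hblock⟩ := block_var
  obtain ⟨C2, hC2, hfix⟩ := fixedk
  -- bounds for the moments
  have hmomb : ∀ j a : ℕ, |mom j a| ≤ (3 * a) ^ j := by
    intro j a
    have h := riemann_avgi a (fun x => (tsp (univ.image x)) ^ j) (f_cont a j) 1 1 one_pos one_pos
    refine le_of_tendsto h.abs ?_
    filter_upwards [eventually_gt_atTop 0] with r hr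
    unfold avgi
    have hcard : 0 < Fintype.card (Site 1 1 r) := by rw [card_Site]; positivity
    have hc : (0 : ℝ) < (Fintype.card (Site 1 1 r) : ℝ) ^ a := by positivity
    rw [abs_div, abs_of_pos hc, div_le_iff₀ hc]
    refine (Finset.abs_sum_le_sum_abs _ _).trans ?_
    calc ∑ x : Fin a → Site 1 1 r, |tsp (univ.image fun i => pos 1 1 r (x i)) ^ j|
        ≤ ∑ _x : Fin a → Site 1 1 r, (3 * (a : ℝ)) ^ j := by
          apply Finset.sum_le_sum
          intro x _
          rw [← LL_image]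
          have := LL_bound 1 1 r one_pos one_pos hr (univ.image x)
          rw [abs_of_nonneg (pow_nonneg this.1 _)]
          apply pow_le_pow_left₀ this.1
          have h2 : ((univ.image x).card : ℝ) ≤ a := by
            have := card_image_le (s := (univ : Finset (Fin a))) (f := x)
            rw [card_univ, Fintype.card_fin] at this
            exact_mod_cast this
          linarith [this.2]
      _ = (3 * (a : ℝ)) ^ j * (Fintype.card (Site 1 1 r) : ℝ) ^ a := by
          rw [Finset.sum_const, card_univ, Fintype.card_fun, Fintype.card_fin, nsmul_eq_mul]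
          push_cast; ring
  -- for every ε there is a number d with |u n - d| ≤ 2 ε eventually
  have key : ∀ ε : ℝ, 0 < ε → ∃ d : ℝ, ∀ᶠ n : ℕ in atTop,
      |Real.sqrt (mom 2 n - mom 1 n ^ 2) - d| ≤ 2 * ε := by
    intro ε hε
    -- choice of the parameters
    obtain ⟨η, hη0, hη1, hη⟩ : ∃ η : ℝ, 0 < η ∧ η ≤ 1 ∧ C2 * (Real.sqrt 200 * η) ≤ ε / 2 := by
      refine ⟨min 1 (ε / 2 / (C2 * Real.sqrt 200)), by positivity, min_le_left _ _, ?_⟩
      calc C2 * (Real.sqrt 200 * min 1 (ε / 2 / (C2 * Real.sqrt 200)))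
          ≤ C2 * (Real.sqrt 200 * (ε / 2 / (C2 * Real.sqrt 200))) := by
            gcongr; exact min_le_right _ _
        _ = ε / 2 := by field_simp
    obtain ⟨ε₀, hε₀, hε₀'⟩ : ∃ ε₀ : ℝ, 0 < ε₀ ∧ C2 * Real.sqrt (ε₀ / η) ≤ ε / 2 := by
      refine ⟨η * (ε / 2 / C2) ^ 2, by positivity, ?_⟩
      have : η * (ε / 2 / C2) ^ 2 / η = (ε / 2 / C2) ^ 2 := by field_simp
      rw [this, Real.sqrt_sq (by positivity)]
      apply le_of_eq
      field_simp
    obtain ⟨N, hN, hVar⟩ := hblock (ε₀ / 3) (by positivity)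
    have hN' : (0 : ℝ) < N := by exact_mod_cast hN
    obtain ⟨μ, hμ1, hμ2, hμ3⟩ : ∃ μ : ℝ, 0 < μ ∧ C1 * N ^ 2 * Real.exp (-(μ / N ^ 2)) ≤ ε₀ / 3 ∧
        C1 / μ ≤ ε₀ / 3 := by
      have t1 : Tendsto (fun μ : ℝ => C1 * N ^ 2 * Real.exp (-(μ / N ^ 2))) atTop (𝓝 0) := by
        have : Tendsto (fun μ : ℝ => Real.exp (-(μ / N ^ 2))) atTop (𝓝 0) := by
          apply Real.tendsto_exp_neg_atTop_nhds_zero.comp
          exact tendsto_id.atTop_div_const (by positivity)
        simpa using this.const_mul (C1 * N ^ 2)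
      have t2 : Tendsto (fun μ : ℝ => C1 / μ) atTop (𝓝 0) := tendsto_const_nhds.div_atTop tendsto_id
      have e1 := t1.eventually (ge_mem_nhds (show (0 : ℝ) < ε₀ / 3 by positivity))
      have e2 := t2.eventually (ge_mem_nhds (show (0 : ℝ) < ε₀ / 3 by positivity))
      obtain ⟨μ, h1, h2, h3⟩ := (e1.and (e2.and (eventually_gt_atTop 0))).exists
      exact ⟨μ, h3, h1, h2⟩
    -- block numbers
    set m : ℕ → ℕ := fun n => ⌊Real.sqrt (n / μ)⌋₊ with hm
    have hsq : Tendsto (fun n : ℕ => Real.sqrt ((n : ℝ) / μ)) atTop atTop :=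
      Real.tendsto_sqrt_atTop.comp (tendsto_natCast_atTop_atTop.atTop_div_const hμ1)
    have hmpos : ∀ᶠ n : ℕ in atTop, 0 < m n := by
      filter_upwards [hsq.eventually_ge_atTop 1] with n hn
      exact Nat.floor_pos.2 hn
    have hmlim : Tendsto (fun n : ℕ => (n : ℝ) / ((m n) ^ 2 : ℕ)) atTop (𝓝 μ) := by
      have h1 : Tendsto (fun n : ℕ => ((⌊Real.sqrt ((n : ℝ) / μ)⌋₊ : ℕ) : ℝ) / Real.sqrt ((n : ℝ) / μ)) atTop (𝓝 1) :=
        (tendsto_nat_floor_div_atTop (R := ℝ)).comp hsq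
      have h2 := ((h1.pow 2).inv₀ (by norm_num)).const_mul μ
      simp only [one_pow, inv_one, mul_one] at h2
      refine h2.congr' ?_
      filter_upwards [hmpos, eventually_gt_atTop 0] with n hn hn0
      have hn0' : (0 : ℝ) < n := by exact_mod_cast hn0
      have hm0 : (0 : ℝ) < (m n : ℝ) := by exact_mod_cast hn
      rw [div_pow, Real.sq_sqrt (by positivity)]
      simp only [hm] at hm0 ⊢
      push_cast
      field_simp
    obtain ⟨c, hc⟩ := Vf_tendsto (mom 1) (mom 2) 9 (fun a => by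
        have := hmomb 1 a
        rw [pow_one] at this
        have h0 : (0 : ℝ) ≤ a := Nat.cast_nonneg a
        linarith) (fun a => by
        have := hmomb 2 a
        have e : (3 * (a : ℝ)) ^ 2 = 9 * (a : ℝ) ^ 2 := by ring
        rw [e] at this; exact this) (fun n => (m n) ^ 2) μ hμ1 hmlim
    have hsc : Tendsto (fun n => Real.sqrt (Vf n ((m n) ^ 2) (mom 1) (mom 2))) atTop (𝓝 (Real.sqrt c)) :=
      (Real.continuous_sqrt.tendsto _).comp hc
    refine ⟨Real.sqrt c, ?_⟩
    have hclose : ∀ᶠ n : ℕ in atTop, |Real.sqrt (mom 2 n - mom 1 n ^ 2) -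
        Real.sqrt (Vf n ((m n) ^ 2) (mom 1) (mom 2))| ≤ ε := by
      have hηn : ∀ᶠ n : ℕ in atTop, 1 ≤ η * Real.sqrt n := by
        have : Tendsto (fun n : ℕ => η * Real.sqrt (n : ℝ)) atTop atTop :=
          (Real.tendsto_sqrt_atTop.comp tendsto_natCast_atTop_atTop).const_mul_atTop hη0
        exact this.eventually_ge_atTop 1
      filter_upwards [hmpos, hηn, eventually_gt_atTop 0] with n hn hn1 hn0
      apply sqrt_close (m n) N hn hN n ε
      filter_upwards [eventually_ge_atTop (2 * n + 1)] with r hr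
      have hr0 : 0 < r := by omega
      have hr' : (0 : ℝ) < r := by exact_mod_cast hr0
      have hn' : (0 : ℝ) < n := by exact_mod_cast hn0
      have hm' : (0 : ℝ) < (m n : ℝ) := by exact_mod_cast hn
      have hm2 : ((m n : ℝ)) ^ 2 ≤ n / μ := by
        have h1 : (m n : ℝ) ≤ Real.sqrt (n / μ) := Nat.floor_le (Real.sqrt_nonneg _)
        calc ((m n : ℝ)) ^ 2 ≤ (Real.sqrt (n / μ)) ^ 2 := by gcongr
          _ = n / μ := Real.sq_sqrt (by positivity)
      have hcard : (Fintype.card (Site (m n) N r) : ℝ) = (m n : ℝ) ^ 2 * N ^ 2 * r ^ 2 := by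
        rw [card_Site]; push_cast; ring
      have hbig : 4 * n ^ 2 < Fintype.card (Site (m n) N r) := by
        rw [card_Site]
        have h1 : 1 ≤ (m n) ^ 2 := Nat.one_le_pow _ _ hn
        have h2 : 1 ≤ N ^ 2 := Nat.one_le_pow _ _ hN
        calc 4 * n ^ 2 < (2 * n + 1) ^ 2 := by nlinarith
          _ ≤ r ^ 2 := by gcongr
          _ = 1 * 1 * r ^ 2 := by ring
          _ ≤ (m n) ^ 2 * N ^ 2 * r ^ 2 := by gcongr
      set M : ℝ := (Fintype.card (Site (m n) N r) : ℝ) with hM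
      have hMpos : 0 < M := by rw [hcard]; positivity
      have hnM : (n : ℝ) < M := by
        have : n < Fintype.card (Site (m n) N r) := by nlinarith
        rw [hM]; exact_mod_cast this
      have hv := hVar (m n) r ((n : ℝ) / M) hn hr0 (by positivity) (by rw [div_lt_one hMpos]; exact hnM)
      have hμm : μ ≤ n / (m n : ℝ) ^ 2 := by
        rw [le_div_iff₀ (by positivity)]
        rw [le_div_iff₀ hμ1] at hm2
        linarith
      have hv2 : Va (bw ((n : ℝ) / M)) (GG (m n) N r) ≤ ε₀ := by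
        refine hv.trans ?_
        have e1 : (n : ℝ) / M * r ^ 2 = (n / (m n : ℝ) ^ 2) / N ^ 2 := by
          rw [hcard]; field_simp
        have e2 : (n : ℝ) / M * N ^ 2 * r ^ 2 = n / (m n : ℝ) ^ 2 := by
          rw [hcard]; field_simp
        rw [e1, e2]
        have i1 : Real.exp (-((n / (m n : ℝ) ^ 2) / N ^ 2)) ≤ Real.exp (-(μ / N ^ 2)) := by
          apply Real.exp_le_exp.2
          have : μ / N ^ 2 ≤ (n / (m n : ℝ) ^ 2) / N ^ 2 := by gcongr
          linarith
        have i2 : C1 / (n / (m n : ℝ) ^ 2) ≤ C1 / μ := by gcongr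
        have i3 : C1 * N ^ 2 * Real.exp (-((n / (m n : ℝ) ^ 2) / N ^ 2)) ≤
            C1 * N ^ 2 * Real.exp (-(μ / N ^ 2)) := by gcongr
        linarith
      have hf := hfix (Site (m n) N r) n (GG (m n) N r) 200 ε₀ η (by omega) hbig.le (by norm_num) hε₀.le
        (GG_pack (m n) N r hn hN hr0) hv2 hη0 hη1 hn1
      calc Real.sqrt (vark n (GG (m n) N r)) ≤ C2 * (Real.sqrt (ε₀ / η) + Real.sqrt 200 * η) := hf
        _ = C2 * Real.sqrt (ε₀ / η) + C2 * (Real.sqrt 200 * η) := by ring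
        _ ≤ ε := by linarith
    have hlast := (Metric.tendsto_nhds.1 hsc ε hε)
    filter_upwards [hclose, hlast] with n h1 h2
    rw [Real.dist_eq] at h2
    calc |Real.sqrt (mom 2 n - mom 1 n ^ 2) - Real.sqrt c|
        = |(Real.sqrt (mom 2 n - mom 1 n ^ 2) - Real.sqrt (Vf n ((m n) ^ 2) (mom 1) (mom 2))) +
            (Real.sqrt (Vf n ((m n) ^ 2) (mom 1) (mom 2)) - Real.sqrt c)| := by ring_nf
      _ ≤ _ := abs_add_le _ _
      _ ≤ 2 * ε := by linarith
  -- Cauchy
  have hcauchy : CauchySeq (fun n : ℕ => Real.sqrt (mom 2 n - mom 1 n ^ 2)) := by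
    rw [Metric.cauchySeq_iff']
    intro ε hε
    obtain ⟨d, hd⟩ := key (ε / 5) (by positivity)
    obtain ⟨n0, hn0⟩ := eventually_atTop.1 hd
    refine ⟨n0, fun n hn => ?_⟩
    rw [Real.dist_eq]
    have h1 := hn0 n hn
    have h2 := hn0 n0 le_rfl
    rw [abs_le] at h1 h2
    rw [abs_lt]
    constructor <;> linarith
  obtain ⟨u, hu⟩ := cauchySeq_tendsto_of_complete hcauchy
  refine ⟨u ^ 2, ?_⟩
  refine (hu.pow 2).congr ?_
  intro n
  rw [Real.sq_sqrt]
  rw [← variance_eq]
  exact ProbabilityTheory.variance_nonneg _ _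

end

end Pool.Agent.H42.TSP
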