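import Pool.Agent.H42.TSP.Bern

set_option autoImplicit false

namespace Pool.Agent.H42.TSP

open Finset
open scoped BigOperators

noncomputable section

/-! Module K, part A : variance over the `k`-subsets. -/

/-- Cauchy-Schwarz -/
lemma EE_mul_sq_le {T : Type} [Fintype T] {w : T → ℝ} (hw : PW w) (f g : T → ℝ) :
    (EE w (fun t => f t * g t)) ^ 2 ≤ EE w (fun t => f t ^ 2) * EE w (fun t => g t ^ 2) := by
  have h := Finset.sum_mul_sq_le_sq_mul_sq (univ : Finset T) (fun t => Real.sqrt (w t) * f t)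
    (fun t => Real.sqrt (w t) * g t)
  have e1 : ∀ t, Real.sqrt (w t) * f t * (Real.sqrt (w t) * g t) = w t * (f t * g t) := by
    intro t
    have := Real.mul_self_sqrt (hw.nonneg t)
    calc _ = (Real.sqrt (w t) * Real.sqrt (w t)) * (f t * g t) := by ring
      _ = _ := by rw [this]
  have e2 : ∀ (u : T → ℝ) (t : T), (Real.sqrt (w t) * u t) ^ 2 = w t * u t ^ 2 := by
    intro u t
    rw [mul_pow, Real.sq_sqrt (hw.nonneg t)]
  simp only [e1, e2] at h
  exact h

/-- triangle inequality for the L2 norm -/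
lemma sqrt_EE_add {T : Type} [Fintype T] {w : T → ℝ} (hw : PW w) (f g : T → ℝ) :
    Real.sqrt (EE w (fun t => (f t + g t) ^ 2)) ≤
      Real.sqrt (EE w (fun t => f t ^ 2)) + Real.sqrt (EE w (fun t => g t ^ 2)) := by
  set A := EE w (fun t => f t ^ 2) with hA
  set D := EE w (fun t => g t ^ 2) with hD
  set B := EE w (fun t => f t * g t) with hB
  have hA0 : 0 ≤ A := EE_nonneg hw (fun _ => sq_nonneg _)
  have hD0 : 0 ≤ D := EE_nonneg hw (fun _ => sq_nonneg _)
  have hBs : B ^ 2 ≤ A * D := EE_mul_sq_le hw f g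
  have hBle : B ≤ Real.sqrt A * Real.sqrt D := by
    rw [← Real.sqrt_mul hA0]
    exact Real.le_sqrt_of_sq_le hBs
  have hsum : EE w (fun t => (f t + g t) ^ 2) = A + 2 * B + D := by
    have : (fun t => (f t + g t) ^ 2) = fun t => (f t ^ 2 + 2 * (f t * g t)) + g t ^ 2 := by
      funext t; ring
    rw [this, EE_add, EE_add, EE_const_mul]
  rw [hsum]
  apply Real.sqrt_le_iff.2
  refine ⟨by positivity, ?_⟩
  nlinarith [Real.sq_sqrt hA0, Real.sq_sqrt hD0]

lemma sqrt_Va_add {T : Type} [Fintype T] {w : T → ℝ} (hw : PW w) (f g : T → ℝ) :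
    Real.sqrt (Va w (fun t => f t + g t)) ≤ Real.sqrt (Va w f) + Real.sqrt (Va w g) := by
  have h : Va w (fun t => f t + g t) = EE w (fun t => ((f t - EE w f) + (g t - EE w g)) ^ 2) := by
    rw [Va, EE_add]
    congr 1
    funext t
    ring
  rw [h]
  exact sqrt_EE_add hw _ _

/-- uniform weight on the `k`-subsets -/
def kw {U : Type} [Fintype U] (k : ℕ) (S : Finset U) : ℝ :=
  if S.card = k then 1 / ((Fintype.card U).choose k : ℝ) else 0

lemma EE_kw {U : Type} [Fintype U] [DecidableEq U] (k : ℕ) (F : Finset U → ℝ) :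
    EE (kw k) F = avgk k F := by
  have h : powersetCard k (univ : Finset U) = (univ : Finset (Finset U)).filter (fun S => S.card = k) := by
    ext S
    simp [Finset.mem_powersetCard]
  rw [avgk, h, Finset.sum_filter, EE, Finset.sum_div]
  refine Finset.sum_congr rfl (fun S _ => ?_)
  by_cases hS : S.card = k
  · simp only [kw, hS, if_true]; ring
  · simp only [kw, hS, if_false]; ring

lemma Va_kw {U : Type} [Fintype U] [DecidableEq U] (k : ℕ) (F : Finset U → ℝ) :
    Va (kw k) F = vark k F := by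
  rw [Va, vark, EE_kw, EE_kw]

lemma kw_PW {U : Type} [Fintype U] [DecidableEq U] (k : ℕ) (hk : k ≤ Fintype.card U) :
    PW (kw k : Finset U → ℝ) := by
  refine ⟨fun S => ?_, ?_⟩
  · rw [kw]; split_ifs <;> positivity
  · have h := EE_kw (U := U) k (fun _ => 1)
    have hc : ((Fintype.card U).choose k : ℝ) ≠ 0 := by
      exact_mod_cast (Nat.choose_pos hk).ne'
    simp only [EE, mul_one] at h
    rw [h, avgk, Finset.sum_const, Finset.card_powersetCard, Finset.card_univ, nsmul_eq_mul, mul_one,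
      div_self hc]

lemma vark_nonneg {U : Type} [Fintype U] [DecidableEq U] (k : ℕ) (F : Finset U → ℝ) : 0 ≤ vark k F :=
  div_nonneg (Finset.sum_nonneg (fun _ _ => sq_nonneg _)) (Nat.cast_nonneg _)

lemma vark_eq {U : Type} [Fintype U] [DecidableEq U] (k : ℕ) (hk : k ≤ Fintype.card U) (F : Finset U → ℝ) :
    vark k F = avgk k (fun S => F S ^ 2) - (avgk k F) ^ 2 := by
  rw [← Va_kw, Va_eq (kw_PW k hk), EE_kw, EE_kw]

theorem vark_tri {U : Type} [Fintype U] [DecidableEq U] (k : ℕ) (F G : Finset U → ℝ) :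
    Real.sqrt (vark k (fun S => F S + G S)) ≤ Real.sqrt (vark k F) + Real.sqrt (vark k G) := by
  by_cases hk : k ≤ Fintype.card U
  · rw [← Va_kw, ← Va_kw, ← Va_kw]
    exact sqrt_Va_add (kw_PW k hk) F G
  · have h : powersetCard k (univ : Finset U) = ∅ := by
      rw [Finset.powersetCard_eq_empty, Finset.card_univ]; omega
    have h0 : ∀ H : Finset U → ℝ, vark k H = 0 := by
      intro H
      rw [vark, avgk, h]; simp
    simp [h0]

/-- double counting -/
lemma sum_mem_eq_sum_notMem {U : Type} [Fintype U] [DecidableEq U] (f : Finset U → U → ℝ) :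
    ∑ S, ∑ x ∈ S, f S x = ∑ S : Finset U, ∑ x ∈ univ \ S, f (insert x S) x := by
  symm
  rw [Finset.sum_comm' (t' := univ) (s' := fun x => univ.filter (fun S : Finset U => x ∉ S)) (by simp),
    Finset.sum_comm' (t' := univ) (s' := fun x => univ.filter (fun S : Finset U => x ∈ S)) (by simp)]
  refine Finset.sum_congr rfl (fun x _ => ?_)
  refine Finset.sum_bij' (fun S _ => insert x S) (fun S _ => S.erase x) ?_ ?_ ?_ ?_ ?_
  · intro S hS; simp
  · intro S hS; simp
  · intro S hS
    have : x ∉ S := by simpa using hS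
    exact Finset.erase_insert this
  · intro S hS
    have : x ∈ S := by simpa using hS
    exact Finset.insert_erase this
  · intro S hS; rfl

/-- uniform weight on the pairs `x ∈ S`, `|S| = k + 1` -/
def kw2 {U : Type} [Fintype U] [DecidableEq U] (k : ℕ) (p : Finset U × U) : ℝ :=
  kw (k + 1) p.1 * (if p.2 ∈ p.1 then 1 / ((k : ℝ) + 1) else 0)

lemma EE_kw2 {U : Type} [Fintype U] [DecidableEq U] (k : ℕ) (f : Finset U × U → ℝ) :
    EE (kw2 k) f = EE (kw (k + 1)) (fun S => (∑ x ∈ S, f (S, x)) / ((k : ℝ) + 1)) := by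
  rw [EE, Fintype.sum_prod_type, EE]
  refine Finset.sum_congr rfl (fun S _ => ?_)
  simp only [kw2]
  rw [← Finset.sum_filter_add_sum_filter_not univ (fun x => x ∈ S)]
  have h1 : ∑ x ∈ univ.filter (fun x => ¬ x ∈ S),
      kw (k + 1) S * (if x ∈ S then 1 / ((k : ℝ) + 1) else 0) * f (S, x) = 0 := by
    refine Finset.sum_eq_zero (fun x hx => ?_)
    have : x ∉ S := by simpa using hx
    simp [this]
  rw [h1, add_zero, Finset.sum_div, Finset.mul_sum]
  have h2 : univ.filter (fun x => x ∈ S) = S := by ext x; simp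
  rw [h2]
  refine Finset.sum_congr rfl (fun x hx => ?_)
  simp only [hx, if_true]
  ring

lemma EE_kw2_fst {U : Type} [Fintype U] [DecidableEq U] (k : ℕ) (G : Finset U → ℝ) :
    EE (kw2 k) (fun p => G p.1) = EE (kw (k + 1)) G := by
  rw [EE_kw2, EE, EE]
  refine Finset.sum_congr rfl (fun S _ => ?_)
  by_cases hS : S.card = k + 1
  · dsimp only
    rw [Finset.sum_const, hS, nsmul_eq_mul]
    have : ((k + 1 : ℕ) : ℝ) = (k : ℝ) + 1 := by push_cast; ring
    have h2 : (k : ℝ) + 1 ≠ 0 := by positivity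
    rw [this]
    field_simp
  · simp [kw, hS]

lemma EE_kw2_erase {U : Type} [Fintype U] [DecidableEq U] (k : ℕ) (hk : k + 1 ≤ Fintype.card U)
    (G : Finset U → ℝ) :
    EE (kw2 k) (fun p => G (p.1.erase p.2)) = EE (kw k) G := by
  have h0 : EE (kw2 k) (fun p => G (p.1.erase p.2))
      = ∑ S : Finset U, ∑ x ∈ S, kw (k + 1) S * G (S.erase x) / ((k : ℝ) + 1) := by
    rw [EE_kw2, EE]
    refine Finset.sum_congr rfl (fun S _ => ?_)
    dsimp only
    rw [Finset.sum_div, Finset.mul_sum]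
    refine Finset.sum_congr rfl (fun x _ => by ring)
  rw [h0, sum_mem_eq_sum_notMem (fun S x => kw (k + 1) S * G (S.erase x) / ((k : ℝ) + 1)), EE]
  refine Finset.sum_congr rfl (fun S _ => ?_)
  have h1 : ∀ x ∈ univ \ S, kw (k + 1) (insert x S) * G ((insert x S).erase x) / ((k : ℝ) + 1)
      = (if S.card = k then 1 / ((Fintype.card U).choose (k + 1) : ℝ) else 0) * G S / ((k : ℝ) + 1) := by
    intro x hx
    have hx' : x ∉ S := by simpa using hx
    rw [Finset.erase_insert hx', kw, Finset.card_insert_of_notMem hx']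
    by_cases hS : S.card = k <;> simp [hS]
  rw [Finset.sum_congr rfl h1, Finset.sum_const, nsmul_eq_mul]
  by_cases hS : S.card = k
  · have hc : (univ \ S).card = Fintype.card U - k := by
      rw [Finset.card_sdiff_of_subset (Finset.subset_univ S), Finset.card_univ, hS]
    rw [hc]
    simp only [hS, if_true, kw]
    have hch := Nat.choose_succ_right_eq (Fintype.card U) k
    have hch' : ((Fintype.card U).choose (k + 1) : ℝ) * ((k : ℝ) + 1)
        = ((Fintype.card U).choose k : ℝ) * ((Fintype.card U - k : ℕ) : ℝ) := by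
      exact_mod_cast hch
    have hp1 : (0:ℝ) < ((Fintype.card U).choose (k + 1) : ℝ) := by
      exact_mod_cast Nat.choose_pos hk
    have hp2 : (0:ℝ) < ((Fintype.card U).choose k : ℝ) := by
      exact_mod_cast Nat.choose_pos (show k ≤ Fintype.card U by omega)
    have hp3 : (0:ℝ) < (k : ℝ) + 1 := by positivity
    have hne : ((Fintype.card U).choose k : ℝ) ≠ 0 := hp2.ne'
    field_simp
    linear_combination (- G S) * hch'
  · simp [hS, kw]

lemma kw2_PW {U : Type} [Fintype U] [DecidableEq U] (k : ℕ) (hk : k + 1 ≤ Fintype.card U) :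
    PW (kw2 k : Finset U × U → ℝ) := by
  have hw := kw_PW (U := U) (k + 1) hk
  refine ⟨fun p => mul_nonneg (hw.nonneg _) ?_, ?_⟩
  · split_ifs <;> positivity
  · have h := EE_kw2_fst (U := U) k (fun _ => 1)
    rw [EE_const hw] at h
    simpa [EE] using h

/-- one more point -/
theorem vark_succ {U : Type} [Fintype U] [DecidableEq U] (k : ℕ) (hk : k + 1 ≤ Fintype.card U)
    (F : Finset U → ℝ) (K : ℝ) (hF : ∀ S, ∑ x ∈ S, (F S - F (S.erase x)) ^ 2 ≤ K) :
    Real.sqrt (vark k F) ≤ Real.sqrt (vark (k + 1) F) + Real.sqrt (K / (k + 1)) := by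
  have hw2 := kw2_PW (U := U) k hk
  have hw := kw_PW (U := U) (k + 1) hk
  have h1 : vark k F = Va (kw2 k) (fun p => F (p.1.erase p.2)) := by
    rw [← Va_kw, Va, Va, EE_kw2_erase k hk F, ← EE_kw2_erase k hk (fun S => (F S - EE (kw k) F) ^ 2)]
  have h2 : vark (k + 1) F = Va (kw2 k) (fun p => F p.1) := by
    rw [← Va_kw, Va, Va, EE_kw2_fst k F, ← EE_kw2_fst k (fun S => (F S - EE (kw (k + 1)) F) ^ 2)]
  have h3 : (fun p : Finset U × U => F (p.1.erase p.2))
      = fun p => F p.1 + (F (p.1.erase p.2) - F p.1) := by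
    funext p; ring
  rw [h1, h2]
  have h4 := sqrt_Va_add hw2 (fun p : Finset U × U => F p.1) (fun p => F (p.1.erase p.2) - F p.1)
  rw [← h3] at h4
  refine h4.trans (add_le_add le_rfl (Real.sqrt_le_sqrt ?_))
  have h5 := Va_le hw2 (fun p : Finset U × U => F (p.1.erase p.2) - F p.1) 0
  refine h5.trans ?_
  rw [EE_kw2]
  have h6 : ∀ S : Finset U, (∑ x ∈ S, (F ((S, x) : Finset U × U).1 - F (S.erase x)) ^ 2) / ((k : ℝ) + 1)
      ≤ K / (k + 1) := by
    intro S
    have hp3 : (0:ℝ) < (k : ℝ) + 1 := by positivity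
    exact div_le_div_of_nonneg_right (hF S) hp3.le
  calc EE (kw (k + 1)) (fun S => (∑ x ∈ S, (F (S.erase x) - F S - 0) ^ 2) / ((k : ℝ) + 1))
      ≤ EE (kw (k + 1)) (fun _ => K / ((k : ℝ) + 1)) := by
        refine EE_mono hw (fun S => ?_)
        have : ∑ x ∈ S, (F (S.erase x) - F S - 0) ^ 2 = ∑ x ∈ S, (F S - F (S.erase x)) ^ 2 :=
          Finset.sum_congr rfl (fun x _ => by ring)
        rw [this]
        exact h6 S
    _ = K / ((k : ℝ) + 1) := EE_const hw _

end

end Pool.Agent.H42.TSP
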