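import Pool.Agent.H42.TSP.Basic

set_option autoImplicit false

namespace Pool.Agent.H42.TSP

open Finset
open scoped BigOperators

noncomputable section

/-! Module K, part B : binomial probabilities in the window `[n, n + √n]`. -/

lemma fkb_factorial_le (n : ℕ) (hn : 1 ≤ n) :
    (n.factorial : ℝ) ≤ Real.exp 1 * Real.sqrt n * ((n : ℝ) / Real.exp 1) ^ n := by
  obtain ⟨m, rfl⟩ : ∃ m, n = m + 1 := ⟨n - 1, by omega⟩
  have h := Stirling.stirlingSeq'_antitone (Nat.zero_le m)
  simp only [Function.comp, Nat.succ_eq_add_one, zero_add] at h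
  rw [Stirling.stirlingSeq_one] at h
  have hdef : Stirling.stirlingSeq (m + 1)
      = ((m + 1).factorial : ℝ) / (Real.sqrt (2 * ((m + 1 : ℕ) : ℝ))
        * (((m + 1 : ℕ) : ℝ) / Real.exp 1) ^ (m + 1)) := by
    unfold Stirling.stirlingSeq
    push_cast
    rfl
  rw [hdef] at h
  have hpos : (0:ℝ) < ((m + 1 : ℕ) : ℝ) := by positivity
  have hE : (0:ℝ) < (((m + 1 : ℕ) : ℝ) / Real.exp 1) ^ (m + 1) := by positivity
  have hS : (0:ℝ) < Real.sqrt (2 * ((m + 1 : ℕ) : ℝ)) := by positivity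
  rw [div_le_iff₀ (mul_pos hS hE)] at h
  refine h.trans (le_of_eq ?_)
  have h2 : Real.sqrt (2 * ((m + 1 : ℕ) : ℝ)) = Real.sqrt 2 * Real.sqrt ((m + 1 : ℕ) : ℝ) :=
    Real.sqrt_mul (by norm_num) _
  rw [h2]
  have h3 : Real.sqrt 2 ≠ 0 := by positivity
  field_simp

lemma fkb_choose (M k : ℕ) (hk : k ≤ M) (hM : 0 < M) :
    (1 - (k : ℝ) * (k - 1) / M) / k.factorial ≤ (M.choose k : ℝ) * (1 / (M : ℝ)) ^ k := by
  have hMr : (0:ℝ) < M := by exact_mod_cast hM
  rcases Nat.eq_zero_or_pos k with rfl | hk0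
  · simp
  have hfac : (0:ℝ) < (k.factorial : ℝ) := by exact_mod_cast k.factorial_pos
  have h1 : ((M + 1 - k) ^ k : ℕ) ≤ M.descFactorial k := Nat.pow_sub_le_descFactorial M k
  have h2 : (M.descFactorial k : ℝ) = (k.factorial : ℝ) * (M.choose k : ℝ) := by
    exact_mod_cast Nat.descFactorial_eq_factorial_mul_choose M k
  have h3 : ((M : ℝ) - (k - 1)) ^ k ≤ (k.factorial : ℝ) * (M.choose k : ℝ) := by
    rw [← h2]
    have : (((M + 1 - k) ^ k : ℕ) : ℝ) ≤ (M.descFactorial k : ℝ) := by exact_mod_cast h1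
    rw [Nat.cast_pow, Nat.cast_sub (by omega)] at this
    push_cast at this
    convert this using 2
    ring
  have h4 : 1 - (k : ℝ) * (k - 1) / M ≤ (1 - ((k : ℝ) - 1) / M) ^ k := by
    have hb := one_add_mul_le_pow (a := -(((k : ℝ) - 1) / M)) (by
      have : ((k : ℝ) - 1) / M ≤ 1 := by
        rw [div_le_one hMr]
        have : (k : ℝ) ≤ M := by exact_mod_cast hk
        linarith
      linarith) k
    calc 1 - (k : ℝ) * (k - 1) / M = 1 + (k : ℝ) * -(((k : ℝ) - 1) / M) := by ring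
      _ ≤ _ := hb
      _ = _ := by ring
  rw [div_le_iff₀ hfac]
  calc 1 - (k : ℝ) * (k - 1) / M ≤ (1 - ((k : ℝ) - 1) / M) ^ k := h4
    _ = ((M : ℝ) - (k - 1)) ^ k * (1 / (M : ℝ)) ^ k := by
        rw [← mul_pow]
        congr 1
        field_simp
    _ ≤ ((k.factorial : ℝ) * (M.choose k : ℝ)) * (1 / (M : ℝ)) ^ k := by
        apply mul_le_mul_of_nonneg_right h3
        positivity
    _ = _ := by ring

lemma fkb_exp (n M : ℕ) (hn : 1 ≤ n) (hM : 4 * n ^ 2 ≤ M) :
    Real.exp (-(n : ℝ) - 1 / 2) ≤ (1 - (n : ℝ) / M) ^ M := by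
  have hMr : (4:ℝ) * (n : ℝ) ^ 2 ≤ M := by exact_mod_cast hM
  have hnr : (1:ℝ) ≤ n := by exact_mod_cast hn
  have hM0 : (0:ℝ) < M := by nlinarith
  have hMn : (n : ℝ) < M := by nlinarith
  have hd : (0:ℝ) < (M : ℝ) - n := by linarith
  have h1 : (0:ℝ) < 1 - (n : ℝ) / M := by
    rw [sub_pos, div_lt_one hM0]
    exact hMn
  have h2 : Real.exp (-((n : ℝ) / (M - n))) ≤ 1 - (n : ℝ) / M := by
    have h3 : 1 + (n : ℝ) / (M - n) ≤ Real.exp ((n : ℝ) / (M - n)) := by
      have := Real.add_one_le_exp ((n : ℝ) / (M - n))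
      linarith
    rw [Real.exp_neg]
    have h4 : 1 - (n : ℝ) / M = (1 + (n : ℝ) / (M - n))⁻¹ := by
      field_simp
      ring
    rw [h4]
    exact inv_anti₀ (by positivity) h3
  calc Real.exp (-(n : ℝ) - 1 / 2) ≤ Real.exp ((M : ℝ) * (-((n : ℝ) / (M - n)))) := by
        apply Real.exp_le_exp.mpr
        have h5 : (M : ℝ) * (-((n : ℝ) / (M - n))) = -(n : ℝ) - (n : ℝ) ^ 2 / (M - n) := by
          field_simp
          ring
        rw [h5]
        have h6 : (n : ℝ) ^ 2 / (M - n) ≤ 1 / 2 := by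
          rw [div_le_iff₀ hd]
          nlinarith
        linarith
    _ = (Real.exp (-((n : ℝ) / (M - n)))) ^ M := by
        rw [← Real.exp_nat_mul]
    _ ≤ _ := pow_le_pow_left₀ (Real.exp_pos _).le h2 M

/-- the Poisson weight decreases slowly to the right of its mode -/
lemma fkb_shift (n j : ℕ) (hn : 1 ≤ n) :
    (n : ℝ) ^ n / n.factorial * Real.exp (-((j : ℝ) * (j + 1) / (2 * n)))
      ≤ (n : ℝ) ^ (n + j) / (n + j).factorial := by
  have hnr : (0:ℝ) < n := by exact_mod_cast hn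
  induction j with
  | zero => simp
  | succ j ih =>
    have h1 : (n : ℝ) ^ (n + (j + 1)) / (n + (j + 1)).factorial
        = (n : ℝ) ^ (n + j) / (n + j).factorial * ((n : ℝ) / (n + (j + 1))) := by
      rw [← add_assoc, pow_succ, Nat.factorial_succ]
      push_cast
      have : ((n + j).factorial : ℝ) ≠ 0 := by exact_mod_cast (n + j).factorial_ne_zero
      field_simp
      ring
    have h2 : Real.exp (-(((j : ℝ) + 1) / n)) ≤ (n : ℝ) / (n + (j + 1)) := by
      have h3 : 1 + ((j : ℝ) + 1) / n ≤ Real.exp (((j : ℝ) + 1) / n) := by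
        have := Real.add_one_le_exp (((j : ℝ) + 1) / n)
        linarith
      rw [Real.exp_neg]
      have h4 : (n : ℝ) / (n + (j + 1)) = (1 + ((j : ℝ) + 1) / n)⁻¹ := by
        field_simp
      rw [h4]
      exact inv_anti₀ (by positivity) h3
    rw [h1]
    have h5 : Real.exp (-((((j + 1 : ℕ) : ℝ)) * (((j + 1 : ℕ) : ℝ) + 1) / (2 * n)))
        = Real.exp (-((j : ℝ) * (j + 1) / (2 * n))) * Real.exp (-(((j : ℝ) + 1) / n)) := by
      rw [← Real.exp_add]
      congr 1
      push_cast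
      field_simp
      ring
    rw [h5, ← mul_assoc]
    exact mul_le_mul ih h2 (Real.exp_pos _).le (by positivity)

/-- Module K, part B : binomial probabilities are at least `c / √n` on the window `[n, n + √n]` -/
theorem binom_window : ∃ c : ℝ, 0 < c ∧ ∀ (n M k : ℕ), 1 ≤ n → 4 * n ^ 2 ≤ M → n ≤ k →
    ((k : ℝ) - n) ≤ Real.sqrt n →
    c / Real.sqrt n ≤ (M.choose k : ℝ) * ((n : ℝ) / M) ^ k * (1 - (n : ℝ) / M) ^ (M - k) := by
  refine ⟨Real.exp (-3) / 4, by positivity, ?_⟩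
  intro n M k hn hM hk hks
  have hMr : (4:ℝ) * (n : ℝ) ^ 2 ≤ M := by exact_mod_cast hM
  have hnr : (1:ℝ) ≤ n := by exact_mod_cast hn
  have hn0 : (0:ℝ) < n := by linarith
  have hM0 : (0:ℝ) < M := by nlinarith
  have hMn : (n : ℝ) < M := by nlinarith
  set s : ℝ := Real.sqrt n with hs
  have hs1 : 1 ≤ s := by
    rw [hs]
    exact Real.one_le_sqrt.mpr hnr
  have hs2 : s ^ 2 = n := Real.sq_sqrt hn0.le
  have hs0 : 0 < s := by linarith
  obtain ⟨j, rfl⟩ : ∃ j, k = n + j := ⟨k - n, by omega⟩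
  have hj : (j : ℝ) ≤ s := by
    push_cast at hks
    linarith
  have hj0 : (0:ℝ) ≤ j := by positivity
  have hkM : n + j ≤ M := by
    have h1 : ((n + j : ℕ) : ℝ) ≤ M := by
      push_cast
      nlinarith
    exact_mod_cast h1
  have hM0' : 0 < M := by exact_mod_cast hM0
  -- A
  have hA := fkb_choose M (n + j) hkM hM0'
  have hA' : 1 / 4 ≤ 1 - ((n + j : ℕ) : ℝ) * (((n + j : ℕ) : ℝ) - 1) / M := by
    have : ((n + j : ℕ) : ℝ) * (((n + j : ℕ) : ℝ) - 1) / M ≤ 3 / 4 := by
      rw [div_le_iff₀ hM0]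
      push_cast
      have h1 : ((n : ℝ) + j) * ((n : ℝ) + j - 1) ≤ (s ^ 2 + s) * (s ^ 2 + s - 1) := by
        rw [hs2]
        apply mul_le_mul (by linarith) (by linarith) (by linarith) (by positivity)
      have h2 : (s ^ 2 + s) * (s ^ 2 + s - 1) ≤ 3 * s ^ 4 := by
        have h3 : 0 ≤ s ^ 3 * (s - 1) := mul_nonneg (by positivity) (by linarith)
        nlinarith
      have h4 : (4:ℝ) * s ^ 4 ≤ M := by
        have : (4:ℝ) * s ^ 4 = 4 * (s ^ 2) ^ 2 := by ring
        rw [this, hs2]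
        exact hMr
      linarith
    linarith
  have hfac : (0:ℝ) < ((n + j).factorial : ℝ) := by exact_mod_cast (n + j).factorial_pos
  have hfacn : (0:ℝ) < ((n).factorial : ℝ) := by exact_mod_cast (n).factorial_pos
  have hA'' : 1 / 4 / ((n + j).factorial : ℝ) ≤ (M.choose (n + j) : ℝ) * (1 / (M : ℝ)) ^ (n + j) :=
    le_trans (div_le_div_of_nonneg_right hA' hfac.le) hA
  -- B
  have h1n : (0:ℝ) < 1 - (n : ℝ) / M := by
    rw [sub_pos, div_lt_one hM0]
    exact hMn
  have hB : Real.exp (-(n : ℝ) - 1 / 2) ≤ (1 - (n : ℝ) / M) ^ (M - (n + j)) := by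
    refine (fkb_exp n M hn hM).trans ?_
    apply pow_le_pow_of_le_one h1n.le _ (Nat.sub_le _ _)
    have : 0 ≤ (n : ℝ) / M := by positivity
    linarith
  -- C
  have hC := fkb_shift n j hn
  have hC' : Real.exp (-1) ≤ Real.exp (-((j : ℝ) * (j + 1) / (2 * n))) := by
    apply Real.exp_le_exp.mpr
    have : (j : ℝ) * (j + 1) / (2 * n) ≤ 1 := by
      rw [div_le_one (by positivity), ← hs2]
      nlinarith
    linarith
  -- D
  have hD : Real.exp n * Real.exp (-1) / s ≤ (n : ℝ) ^ n / n.factorial := by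
    have h1 := fkb_factorial_le n hn
    rw [← hs] at h1
    rw [div_le_div_iff₀ hs0 hfacn]
    calc Real.exp n * Real.exp (-1) * (n.factorial : ℝ)
        ≤ Real.exp n * Real.exp (-1) * (Real.exp 1 * s * ((n : ℝ) / Real.exp 1) ^ n) := by
          apply mul_le_mul_of_nonneg_left h1
          positivity
      _ = (n : ℝ) ^ n * s := by
          rw [div_pow, ← Real.exp_nat_mul, mul_one, Real.exp_neg]
          have h2 := (Real.exp_pos (n : ℝ)).ne'
          have h3 := (Real.exp_pos (1 : ℝ)).ne'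
          field_simp
  -- combine
  calc Real.exp (-3) / 4 / s
      ≤ 1 / 4 * ((Real.exp n * Real.exp (-1) / s) * Real.exp (-1)) * Real.exp (-(n : ℝ) - 1 / 2) := by
        have h1 : 1 / 4 * ((Real.exp n * Real.exp (-1) / s) * Real.exp (-1))
            * Real.exp (-(n : ℝ) - 1 / 2)
            = (Real.exp n * Real.exp (-1) * Real.exp (-1) * Real.exp (-(n : ℝ) - 1 / 2)) / 4 / s := by
          ring
        rw [h1, ← Real.exp_add, ← Real.exp_add, ← Real.exp_add]
        apply div_le_div_of_nonneg_right _ hs0.le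
        apply div_le_div_of_nonneg_right _ (by norm_num)
        apply Real.exp_le_exp.mpr
        linarith
    _ ≤ 1 / 4 * ((n : ℝ) ^ n / n.factorial * Real.exp (-((j : ℝ) * (j + 1) / (2 * n))))
          * (1 - (n : ℝ) / M) ^ (M - (n + j)) := by
        apply mul_le_mul _ hB (Real.exp_pos _).le (by positivity)
        apply mul_le_mul_of_nonneg_left _ (by norm_num)
        exact mul_le_mul hD hC' (Real.exp_pos _).le (by positivity)
    _ ≤ 1 / 4 * ((n : ℝ) ^ (n + j) / (n + j).factorial) * (1 - (n : ℝ) / M) ^ (M - (n + j)) := by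
        apply mul_le_mul_of_nonneg_right _ (by positivity)
        apply mul_le_mul_of_nonneg_left hC (by norm_num)
    _ = (1 / 4 / ((n + j).factorial : ℝ)) * (n : ℝ) ^ (n + j) * (1 - (n : ℝ) / M) ^ (M - (n + j)) := by
        ring
    _ ≤ ((M.choose (n + j) : ℝ) * (1 / (M : ℝ)) ^ (n + j)) * (n : ℝ) ^ (n + j)
          * (1 - (n : ℝ) / M) ^ (M - (n + j)) := by
        apply mul_le_mul_of_nonneg_right _ (by positivity)
        apply mul_le_mul_of_nonneg_right hA'' (by positivity)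
    _ = _ := by
        rw [mul_assoc (M.choose (n + j) : ℝ), ← mul_pow]
        congr 3
        ring

end

end Pool.Agent.H42.TSP
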