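import Pool.Agent.H42.TSP.ES

set_option autoImplicit false

namespace Pool.Agent.H42.TSP

open Finset
open scoped BigOperators

noncomputable section

namespace StepAux

lemma EE_swap {S T : Type} [Fintype S] [Fintype T] (v : S → ℝ) (w : T → ℝ) (f : S → T → ℝ) :
    EE v (fun s => EE w (fun t => f s t)) = EE w (fun t => EE v (fun s => f s t)) := by
  simp only [EE, Finset.mul_sum]
  rw [Finset.sum_comm]
  refine Finset.sum_congr rfl fun t _ => Finset.sum_congr rfl fun s _ => by ring

lemma EE_mul_coord {I T : Type} [Fintype I] [DecidableEq I] [Fintype T] {w : T → ℝ} (hw : PW w)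
    (i : I) (G : (I → T) → ℝ) (g : T → ℝ) :
    EE (pw w) (fun y => G y * g (y i))
      = EE w (fun t => g t * EE (pw w) (fun y => G (Function.update y i t))) := by
  rw [EE_resample hw i]
  simp only [Function.update_self]
  rw [EE_swap]
  congr 1; funext t
  rw [← EE_const_mul]; congr 1; funext y; ring

lemma EE_sum {T ι : Type} [Fintype T] (w : T → ℝ) (s : Finset ι) (f : ι → T → ℝ) :
    EE w (fun t => ∑ i ∈ s, f i t) = ∑ i ∈ s, EE w (f i) := by
  simp only [EE, Finset.mul_sum]
  rw [Finset.sum_comm]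

lemma EE_sub {T : Type} [Fintype T] (w f g : T → ℝ) :
    EE w (fun t => f t - g t) = EE w f - EE w g := by
  simp only [EE, mul_sub, Finset.sum_sub_distrib]

lemma EE_prod {I T : Type} [Fintype I] [DecidableEq I] [Fintype T] (w : T → ℝ) (g : I → T → ℝ) :
    EE (pw w) (fun y => ∏ i, g i (y i)) = ∏ i, EE w (g i) := by
  simp only [EE, pw]
  rw [Finset.prod_univ_sum]
  simp only [Fintype.piFinset_univ, Finset.prod_mul_distrib]

lemma exp_low {x : ℝ} (h : |x| ≤ 1) : 1 + x + x ^ 2 / 4 ≤ Real.exp x := by
  have h1 := Real.exp_bound h (n := 3) (by norm_num)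
  have h2 : (∑ m ∈ Finset.range 3, x ^ m / (m.factorial : ℝ)) = 1 + x + x ^ 2 / 2 := by
    simp [Finset.sum_range_succ, Nat.factorial]
  rw [h2] at h1
  have h3 := (abs_le.mp h1).1
  have h4 : |x| ^ 3 ≤ x ^ 2 := by
    have : |x| ^ 3 = |x| ^ 2 * |x| := by ring
    rw [this, sq_abs]
    nlinarith [sq_nonneg x]
  have h5 : ((Nat.succ 3 : ℕ) : ℝ) / ((Nat.factorial 3 : ℝ) * (3 : ℕ)) = 2 / 9 := by
    norm_num [Nat.factorial]
  rw [h5] at h3
  nlinarith [sq_nonneg x]

lemma exp_half {x : ℝ} (h0 : 0 ≤ x) (h1 : x ≤ 1) : Real.exp (x / 2) ≤ 1 + x := by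
  have h2 : 1 - x / 2 ≤ Real.exp (-(x / 2)) := by
    have := Real.add_one_le_exp (-(x / 2)); linarith
  have h3 : 0 < Real.exp (x / 2) := Real.exp_pos _
  have h4 : Real.exp (x / 2) * Real.exp (-(x / 2)) = 1 := by
    rw [← Real.exp_add]; simp
  have h5 : Real.exp (x / 2) * (1 - x / 2) ≤ 1 := by
    calc Real.exp (x / 2) * (1 - x / 2) ≤ Real.exp (x / 2) * Real.exp (-(x / 2)) := by
          exact mul_le_mul_of_nonneg_left h2 h3.le
      _ = 1 := h4
  have h6 : 1 ≤ (1 + x) * (1 - x / 2) := by nlinarith
  have h7 : 0 < 1 - x / 2 := by linarith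
  by_contra hcon
  push Not at hcon
  have := mul_lt_mul_of_pos_right hcon h7
  linarith

lemma exp_up {x : ℝ} (h : |x| ≤ 1) : Real.exp x ≤ 1 + x + x ^ 2 := by
  have := (abs_le.mp (Real.abs_exp_sub_one_sub_id_le h)).2
  linarith

/-- moment generating function of a centred bounded variable: lower bound -/
lemma mgf_low {T : Type} [Fintype T] {w : T → ℝ} (hw : PW w) (f : T → ℝ) (hf : EE w f = 0)
    (t : ℝ) (hb : ∀ x, |t * f x| ≤ 1) :
    Real.exp (t ^ 2 * EE w (fun x => f x ^ 2) / 8) ≤ EE w (fun x => Real.exp (t * f x)) := by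
  have h1 : 1 + t ^ 2 * EE w (fun x => f x ^ 2) / 4 ≤ EE w (fun x => Real.exp (t * f x)) := by
    calc 1 + t ^ 2 * EE w (fun x => f x ^ 2) / 4
        = EE w (fun x => (1 + t * f x) + (t ^ 2 / 4) * f x ^ 2) := by
          rw [EE_add, EE_add, EE_const hw, EE_const_mul, EE_const_mul, hf]; ring
      _ ≤ _ := by
          refine EE_mono hw fun x => ?_
          have := exp_low (hb x)
          calc (1 + t * f x) + (t ^ 2 / 4) * f x ^ 2 = 1 + t * f x + (t * f x) ^ 2 / 4 := by ring
            _ ≤ _ := this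
  have h2 : t ^ 2 * EE w (fun x => f x ^ 2) ≤ 1 := by
    rw [← EE_const_mul]
    calc EE w (fun x => t ^ 2 * f x ^ 2) ≤ EE w (fun _ => (1 : ℝ)) := by
          refine EE_mono hw fun x => ?_
          have := hb x
          have h3 : (t * f x) ^ 2 ≤ 1 := by
            rw [← sq_abs]
            have := abs_nonneg (t * f x)
            nlinarith [hb x]
          calc t ^ 2 * f x ^ 2 = (t * f x) ^ 2 := by ring
            _ ≤ 1 := h3
      _ = 1 := EE_const hw 1
  have h0 : 0 ≤ t ^ 2 * EE w (fun x => f x ^ 2) := by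
    refine mul_nonneg (sq_nonneg _) ?_
    calc (0 : ℝ) = EE w (fun _ => (0 : ℝ)) := (EE_const hw 0).symm
      _ ≤ _ := EE_mono hw fun x => sq_nonneg _
  have h3 := exp_half (x := t ^ 2 * EE w (fun x => f x ^ 2) / 4) (by linarith) (by linarith)
  calc Real.exp (t ^ 2 * EE w (fun x => f x ^ 2) / 8)
      = Real.exp (t ^ 2 * EE w (fun x => f x ^ 2) / 4 / 2) := by congr 1; ring
    _ ≤ _ := h3
    _ ≤ _ := h1

/-- moment generating function of a centred bounded variable: upper bound -/
lemma mgf_up {T : Type} [Fintype T] {w : T → ℝ} (hw : PW w) (f : T → ℝ) (hf : EE w f = 0)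
    (t : ℝ) (hb : ∀ x, |t * f x| ≤ 1) :
    EE w (fun x => Real.exp (t * f x)) ≤ Real.exp (t ^ 2 * EE w (fun x => f x ^ 2)) := by
  have h1 : EE w (fun x => Real.exp (t * f x)) ≤ 1 + t ^ 2 * EE w (fun x => f x ^ 2) := by
    calc EE w (fun x => Real.exp (t * f x)) ≤ EE w (fun x => (1 + t * f x) + t ^ 2 * f x ^ 2) := by
          refine EE_mono hw fun x => ?_
          have := exp_up (hb x)
          calc _ ≤ _ := this
            _ = _ := by ring
      _ = _ := by
          rw [EE_add, EE_add, EE_const hw, EE_const_mul, EE_const_mul, hf]; ring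
  have h2 := Real.add_one_le_exp (t ^ 2 * EE w (fun x => f x ^ 2))
  linarith

end StepAux

open StepAux

/-- Module S : one scale step (exponential moments). -/
theorem step (C a : ℝ) (hC : 0 < C) (ha : 0 < a) : ∃ (b : ℕ) (δ : ℝ), 2 ≤ b ∧ 0 < δ ∧
    ∀ (I T : Type) [Fintype I] [DecidableEq I] [Fintype T] (w : T → ℝ), PW w → ∀ F : (I → T) → ℝ,
    Fintype.card I = b ^ 2 →
    (∀ i y t t', |F (Function.update y i t) - F (Function.update y i t')| ≤ C / b) →
    (∀ y y', |F y - F y'| ≤ C) → ∀ θ : ℝ,
    (∑ i, EE (pw w) (fun y => Va w (fun t => F (Function.update y i t))) ≤ θ) →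
    Va (pw w) F ≤ max a (θ - δ) := by
  -- parameters
  set τ : ℝ := 32 * C / a with hτ
  have hτ0 : 0 < τ := by positivity
  set gap : ℝ := Real.exp (2 * τ * C) - Real.exp (τ * C) with hgap
  have hgap0 : 0 < gap := by
    have : Real.exp (τ * C) < Real.exp (2 * τ * C) := by
      apply Real.exp_lt_exp.mpr
      have : 0 < τ * C := by positivity
      linarith
    linarith
  set K : ℝ := τ * (1 + Real.exp (4 * τ ^ 2 * C ^ 2)) / 2 with hK
  have hK0 : 0 < K := by positivity
  set s : ℝ := min (gap / (2 * K)) (min 1 (a / 2)) with hs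
  have hs0 : 0 < s := by
    rw [hs]; refine lt_min (by positivity) (lt_min one_pos (by positivity))
  have hs1 : s ≤ 1 := le_trans (min_le_right _ _) (min_le_left _ _)
  have hs2 : s ≤ a / 2 := le_trans (min_le_right _ _) (min_le_right _ _)
  have hs3 : s ≤ gap / (2 * K) := min_le_left _ _
  have hsK : s * K ≤ gap / 2 := by
    have : s * (2 * K) ≤ gap := by
      rw [le_div_iff₀ (by positivity)] at hs3; exact hs3
    linarith
  set b : ℕ := max 2 ⌈2 * τ * C⌉₊ with hb
  have hb2 : 2 ≤ b := le_max_left _ _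
  have hbpos : (0 : ℝ) < b := by
    have : 0 < b := by omega
    exact_mod_cast this
  have hbt : 2 * τ * C ≤ b := by
    calc 2 * τ * C ≤ (⌈2 * τ * C⌉₊ : ℝ) := Nat.le_ceil _
      _ ≤ (b : ℝ) := by exact_mod_cast le_max_right _ _
  refine ⟨b, s ^ 2, hb2, by positivity, ?_⟩
  intro I T _ _ _ w hw F hcard hosc hosc' θ hθ
  by_contra hcon
  push Not at hcon
  obtain ⟨hV1, hV2⟩ := max_lt_iff.mp hcon
  have hpw : PW (pw w : (I → T) → ℝ) := pw_PW hw
  set m : ℝ := EE (pw w) F with hm
  set f : I → T → ℝ := fun i t => EE (pw w) (fun y => F (Function.update y i t)) - m with hf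
  set W : (I → T) → ℝ := fun y => ∑ i, f i (y i) with hW
  -- centred
  have hf0 : ∀ i, EE w (f i) = 0 := by
    intro i
    have h1 : EE w (f i) = EE w (fun t => EE (pw w) (fun y => F (Function.update y i t)))
        - EE w (fun _ => m) := EE_sub _ _ _
    rw [h1, EE_const hw, ← EE_swap, ← EE_resample hw i, ← hm, sub_self]
  -- variance of f i
  have hfv : ∀ i, Va w (fun t => EE (pw w) (fun y => F (Function.update y i t)))
      = EE w (fun t => f i t ^ 2) := by
    intro i
    have h1 : Va w (f i) = Va w (fun t => EE (pw w) (fun y => F (Function.update y i t))) := by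
      have := Va_add_const hw (fun t => EE (pw w) (fun y => F (Function.update y i t))) (-m)
      rw [← this]; rfl
    rw [← h1, Va_eq hw, hf0 i]; ring
  set V1 : ℝ := ∑ i, EE w (fun t => f i t ^ 2) with hV1def
  have hES2 := ES2 hw F
  have hV1' : Va (pw w) F - s ^ 2 < V1 := by
    have h1 : ∑ i, Va w (fun t => EE (pw w) (fun y => F (Function.update y i t))) = V1 :=
      Finset.sum_congr rfl fun i _ => hfv i
    rw [h1] at hES2
    linarith
  have hs4 : s ^ 2 ≤ a / 2 := by nlinarith
  have hV1a : a / 2 < V1 := by linarith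
  -- bounds of f
  have hfb : ∀ i t, |f i t| ≤ C / b := by
    intro i t
    have h1 : f i t = EE (pw w) (fun y => EE w (fun t' =>
        F (Function.update y i t) - F (Function.update y i t'))) := by
      have h2 : ∀ y : I → T, EE w (fun t' => F (Function.update y i t) - F (Function.update y i t'))
          = F (Function.update y i t) - EE w (fun t' => F (Function.update y i t')) := by
        intro y; rw [EE_sub, EE_const hw]
      simp only [h2]
      rw [EE_sub, ← EE_resample hw i]
    rw [h1, abs_le]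
    constructor
    · calc -(C / b) = EE (pw w) (fun _ : I → T => EE w (fun _ => -(C / (b : ℝ)))) := by
            rw [EE_const hw, EE_const hpw]
        _ ≤ _ := EE_mono hpw fun y => EE_mono hw fun t' => (abs_le.mp (hosc i y t t')).1
    · calc _ ≤ EE (pw w) (fun _ : I → T => EE w (fun _ => (C / (b : ℝ)))) :=
            EE_mono hpw fun y => EE_mono hw fun t' => (abs_le.mp (hosc i y t t')).2
        _ = _ := by rw [EE_const hw, EE_const hpw]
  -- F - m bounded by C
  have hFb : ∀ y, F y - m ≤ C := by
    intro y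
    have h1 : F y - m = EE (pw w) (fun y' => F y - F y') := by
      rw [EE_sub, EE_const hpw]
    rw [h1]
    calc _ ≤ EE (pw w) (fun _ : I → T => C) := EE_mono hpw fun y' => (abs_le.mp (hosc' y y')).2
      _ = C := EE_const hpw C
  -- E (F-m) W = V1
  have hFW : EE (pw w) (fun y => (F y - m) * W y) = V1 := by
    have h1 : ∀ y : I → T, (F y - m) * W y = ∑ i, (F y - m) * f i (y i) := by
      intro y; rw [hW, Finset.mul_sum]
    simp only [h1]
    rw [EE_sum]
    refine Finset.sum_congr rfl fun i _ => ?_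
    rw [EE_mul_coord hw i (fun y => F y - m) (f i)]
    congr 1; funext t
    have h2 : EE (pw w) (fun y => F (Function.update y i t) - m) = f i t := by
      rw [EE_sub, EE_const hpw]
    rw [h2]; ring
  -- E W^2 = V1
  have hWW : EE (pw w) (fun y => W y * W y) = V1 := by
    have h1 : ∀ y : I → T, W y * W y = ∑ i, W y * f i (y i) := by
      intro y
      conv_lhs => rhs; rw [hW]
      rw [Finset.mul_sum]
    simp only [h1]
    rw [EE_sum]
    refine Finset.sum_congr rfl fun i _ => ?_
    rw [EE_mul_coord hw i W (f i)]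
    congr 1; funext t
    have h2 : EE (pw w) (fun y => W (Function.update y i t)) = f i t := by
      simp only [hW]
      rw [EE_sum]
      rw [← Finset.add_sum_erase _ _ (Finset.mem_univ i)]
      have h3 : ∑ j ∈ Finset.univ.erase i, EE (pw w) (fun y : I → T => f j (Function.update y i t j))
          = 0 := by
        refine Finset.sum_eq_zero fun j hj => ?_
        have hji : j ≠ i := Finset.ne_of_mem_erase hj
        have h4 : ∀ y : I → T, f j (Function.update y i t j) = f j (y j) := by
          intro y; rw [Function.update_of_ne hji]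
        simp only [h4]
        have h5 := EE_mul_coord hw j (fun _ : I → T => (1 : ℝ)) (f j)
        simp only [one_mul] at h5
        rw [h5, EE_const hpw]
        simp only [mul_one]
        exact hf0 j
      rw [h3, add_zero]
      have h6 : ∀ y : I → T, f i (Function.update y i t i) = f i t := by
        intro y; rw [Function.update_self]
      simp only [h6]
      exact EE_const hpw _
    rw [h2]; ring
  -- E (W - (F-m))^2 < s^2
  have hD : EE (pw w) (fun y => (W y - (F y - m)) ^ 2) < s ^ 2 := by
    have h1 : EE (pw w) (fun y => (W y - (F y - m)) ^ 2)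
        = EE (pw w) (fun y => W y * W y) - 2 * EE (pw w) (fun y => (F y - m) * W y)
          + Va (pw w) F := by
      unfold Va
      rw [← EE_const_mul, ← EE_sub, ← EE_add]
      congr 1; funext y; ring
    rw [h1, hFW, hWW]; linarith
  -- moment generating functions
  have htf : ∀ i x, |τ * f i x| ≤ 1 := by
    intro i x
    rw [abs_mul, abs_of_pos hτ0]
    calc τ * |f i x| ≤ τ * (C / b) := mul_le_mul_of_nonneg_left (hfb i x) hτ0.le
      _ ≤ 1 := by
        rw [mul_div_assoc', div_le_one hbpos]
        have : 0 < τ * C := by positivity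
        linarith
  have htf2 : ∀ i x, |2 * τ * f i x| ≤ 1 := by
    intro i x
    rw [abs_mul, abs_of_pos (by positivity : 0 < 2 * τ)]
    calc 2 * τ * |f i x| ≤ 2 * τ * (C / b) := mul_le_mul_of_nonneg_left (hfb i x) (by positivity)
      _ ≤ 1 := by
        rw [mul_div_assoc', div_le_one hbpos]
        exact hbt
  have hprod : ∀ r : ℝ, EE (pw w) (fun y => Real.exp (r * W y))
      = ∏ i, EE w (fun x => Real.exp (r * f i x)) := by
    intro r
    rw [← EE_prod w (fun i x => Real.exp (r * f i x))]
    congr 1; funext y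
    rw [hW, Finset.mul_sum, Real.exp_sum]
  have hlow : Real.exp (2 * τ * C) ≤ EE (pw w) (fun y => Real.exp (τ * W y)) := by
    rw [hprod]
    calc Real.exp (2 * τ * C) ≤ Real.exp (∑ i, τ ^ 2 * EE w (fun x => f i x ^ 2) / 8) := by
          apply Real.exp_le_exp.mpr
          have h1 : ∑ i, τ ^ 2 * EE w (fun x => f i x ^ 2) / 8 = τ ^ 2 * V1 / 8 := by
            rw [hV1def, Finset.mul_sum, Finset.sum_div]
          rw [h1]
          have h2 : τ * a = 32 * C := by rw [hτ]; field_simp
          have h3 : τ ^ 2 * (a / 2) ≤ τ ^ 2 * V1 := mul_le_mul_of_nonneg_left hV1a.le (sq_nonneg _)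
          have h4 : τ ^ 2 * (a / 2) = 16 * (τ * C) := by
            calc τ ^ 2 * (a / 2) = τ * (τ * a) / 2 := by ring
              _ = _ := by rw [h2]; ring
          linarith
      _ = ∏ i, Real.exp (τ ^ 2 * EE w (fun x => f i x ^ 2) / 8) := Real.exp_sum _ _
      _ ≤ _ := by
          refine Finset.prod_le_prod (fun i _ => (Real.exp_pos _).le) fun i _ => ?_
          exact mgf_low hw (f i) (hf0 i) τ (htf i)
  have hup : EE (pw w) (fun y => Real.exp (2 * τ * W y)) ≤ Real.exp (4 * τ ^ 2 * C ^ 2) := by
    rw [hprod]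
    calc _ ≤ ∏ i, Real.exp ((2 * τ) ^ 2 * EE w (fun x => f i x ^ 2)) := by
          refine Finset.prod_le_prod (fun i _ => ?_) fun i _ => ?_
          · calc (0 : ℝ) = EE w (fun _ => (0 : ℝ)) := (EE_const hw 0).symm
              _ ≤ _ := EE_mono hw fun x => (Real.exp_pos _).le
          · exact mgf_up hw (f i) (hf0 i) (2 * τ) (htf2 i)
      _ = Real.exp (∑ i, (2 * τ) ^ 2 * EE w (fun x => f i x ^ 2)) := (Real.exp_sum _ _).symm
      _ ≤ _ := by
          apply Real.exp_le_exp.mpr
          rw [← Finset.mul_sum]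
          have h1 : ∑ i, EE w (fun x => f i x ^ 2) ≤ C ^ 2 := by
            calc ∑ i, EE w (fun x => f i x ^ 2) ≤ ∑ _i : I, (C / b) ^ 2 := by
                  refine Finset.sum_le_sum fun i _ => ?_
                  calc EE w (fun x => f i x ^ 2) ≤ EE w (fun _ => (C / (b : ℝ)) ^ 2) := by
                        refine EE_mono hw fun x => ?_
                        rw [← sq_abs]
                        exact pow_le_pow_left₀ (abs_nonneg _) (hfb i x) 2
                    _ = _ := EE_const hw _
              _ = C ^ 2 := by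
                  rw [Finset.sum_const, Finset.card_univ, hcard, nsmul_eq_mul]
                  push_cast
                  field_simp
          have h2 : 0 ≤ (2 * τ) ^ 2 := sq_nonneg _
          calc (2 * τ) ^ 2 * ∑ i, EE w (fun x => f i x ^ 2) ≤ (2 * τ) ^ 2 * C ^ 2 :=
                mul_le_mul_of_nonneg_left h1 h2
            _ = _ := by ring
  -- upper bound for E exp(τ W)
  have hpt : ∀ y, Real.exp (τ * W y) ≤ Real.exp (τ * C)
      + (τ / (2 * s) * (W y - (F y - m)) ^ 2 + τ * s / 2 * Real.exp (2 * τ * W y)) := by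
    intro y
    set D := W y - (F y - m) with hDdef
    have h1 : Real.exp (τ * W y) ≤ Real.exp (τ * (F y - m)) + τ * D * Real.exp (τ * W y) := by
      have h2 := Real.add_one_le_exp (τ * (F y - m) - τ * W y)
      have h3 : Real.exp (τ * (F y - m) - τ * W y) * Real.exp (τ * W y)
          = Real.exp (τ * (F y - m)) := by
        rw [← Real.exp_add]; congr 1; ring
      have h4 := mul_le_mul_of_nonneg_right h2 (Real.exp_pos (τ * W y)).le
      rw [h3] at h4
      have h5 : (τ * (F y - m) - τ * W y + 1) * Real.exp (τ * W y)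
          = Real.exp (τ * W y) - τ * D * Real.exp (τ * W y) := by rw [hDdef]; ring
      linarith
    have h6 : Real.exp (τ * (F y - m)) ≤ Real.exp (τ * C) :=
      Real.exp_le_exp.mpr (mul_le_mul_of_nonneg_left (hFb y) hτ0.le)
    have h7 : Real.exp (2 * τ * W y) = Real.exp (τ * W y) ^ 2 := by
      rw [← Real.exp_nat_mul]; congr 1; push_cast; ring
    have h8 : D * Real.exp (τ * W y) ≤ 1 / (2 * s) * D ^ 2 + s / 2 * Real.exp (τ * W y) ^ 2 := by
      have h9 : 0 ≤ (D - s * Real.exp (τ * W y)) ^ 2 / (2 * s) := by positivity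
      have h10 : (D - s * Real.exp (τ * W y)) ^ 2 / (2 * s)
          = 1 / (2 * s) * D ^ 2 + s / 2 * Real.exp (τ * W y) ^ 2 - D * Real.exp (τ * W y) := by
        field_simp; ring
      linarith
    have h11 := mul_le_mul_of_nonneg_left h8 hτ0.le
    rw [h7]
    have h12 : τ * (1 / (2 * s) * D ^ 2 + s / 2 * Real.exp (τ * W y) ^ 2)
        = τ / (2 * s) * D ^ 2 + τ * s / 2 * Real.exp (τ * W y) ^ 2 := by ring
    rw [h12] at h11
    have h13 : τ * (D * Real.exp (τ * W y)) = τ * D * Real.exp (τ * W y) := by ring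
    linarith
  have hfin : EE (pw w) (fun y => Real.exp (τ * W y)) ≤ Real.exp (τ * C) + s * K := by
    calc EE (pw w) (fun y => Real.exp (τ * W y))
        ≤ EE (pw w) (fun y => Real.exp (τ * C)
          + (τ / (2 * s) * (W y - (F y - m)) ^ 2 + τ * s / 2 * Real.exp (2 * τ * W y))) :=
          EE_mono hpw hpt
      _ = Real.exp (τ * C) + (τ / (2 * s) * EE (pw w) (fun y => (W y - (F y - m)) ^ 2)
          + τ * s / 2 * EE (pw w) (fun y => Real.exp (2 * τ * W y))) := by
          rw [EE_add, EE_add, EE_const hpw, EE_const_mul, EE_const_mul]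
      _ ≤ Real.exp (τ * C) + (τ / (2 * s) * s ^ 2
          + τ * s / 2 * Real.exp (4 * τ ^ 2 * C ^ 2)) := by
          have h1 : 0 ≤ τ / (2 * s) := by positivity
          have h2 : 0 ≤ τ * s / 2 := by positivity
          have h3 := mul_le_mul_of_nonneg_left hD.le h1
          have h4 := mul_le_mul_of_nonneg_left hup h2
          linarith
      _ = _ := by rw [hK]; field_simp
  have : gap ≤ s * K := by rw [hgap]; linarith
  linarith

end

end Pool.Agent.H42.TSP
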