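import Pool.Agent.H42.TSP.Basic

set_option autoImplicit false

namespace Pool.Agent.H42.TSP

open Finset
open scoped BigOperators

noncomputable section

/-! Module A : basic facts on tours. -/

lemma ed_nonneg (p q : ℝ × ℝ) : 0 ≤ ed p q := Real.sqrt_nonneg _
lemma ed_self (p : ℝ × ℝ) : ed p p = 0 := by simp [ed]
lemma ed_comm (p q : ℝ × ℝ) : ed p q = ed q p := by
  unfold ed
  congr 1
  ring

lemma ed_eq_norm (p q : ℝ × ℝ) : ed p q = ‖(⟨p.1 - q.1, p.2 - q.2⟩ : ℂ)‖ := by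
  rw [Complex.norm_eq_sqrt_sq_add_sq]
  rfl

lemma ed_triangle (p q r : ℝ × ℝ) : ed p r ≤ ed p q + ed q r := by
  rw [ed_eq_norm, ed_eq_norm, ed_eq_norm]
  have h : (⟨p.1 - r.1, p.2 - r.2⟩ : ℂ) = ⟨p.1 - q.1, p.2 - q.2⟩ + ⟨q.1 - r.1, q.2 - r.2⟩ := by
    apply Complex.ext
    · simp
    · simp
  rw [h]
  exact norm_add_le _ _

lemma wl_nil : wl [] = 0 := rfl
lemma wl_single (x : ℝ × ℝ) : wl [x] = 0 := rfl
lemma wl_cons_cons (x y : ℝ × ℝ) (l : List (ℝ × ℝ)) : wl (x :: y :: l) = ed x y + wl (y :: l) := rfl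
lemma cl_nil : cl [] = 0 := rfl
lemma cl_cons (x : ℝ × ℝ) (l : List (ℝ × ℝ)) : cl (x :: l) = wl (x :: (l ++ [x])) := rfl

lemma wl_nonneg (l : List (ℝ × ℝ)) : 0 ≤ wl l := by
  induction l with
  | nil => exact le_refl _
  | cons x l ih =>
    cases l with
    | nil => exact le_refl _
    | cons y l => rw [wl_cons_cons]; have := ed_nonneg x y; linarith

lemma cl_nonneg (l : List (ℝ × ℝ)) : 0 ≤ cl l := by
  cases l with
  | nil => exact le_refl _
  | cons x l => exact wl_nonneg _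

lemma wl_append (l : List (ℝ × ℝ)) (x : ℝ × ℝ) (l' : List (ℝ × ℝ)) :
    wl (l ++ x :: l') = wl (l ++ [x]) + wl (x :: l') := by
  induction l with
  | nil => simp [wl_single]
  | cons a l ih =>
    cases l with
    | nil =>
      show wl (a :: x :: l') = wl (a :: x :: []) + wl (x :: l')
      rw [wl_cons_cons, wl_cons_cons, wl_single]
      ring
    | cons b l =>
      show wl (a :: b :: (l ++ x :: l')) = wl (a :: b :: (l ++ [x])) + wl (x :: l')
      rw [wl_cons_cons, wl_cons_cons]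
      have ih' : wl (b :: (l ++ x :: l')) = wl (b :: (l ++ [x])) + wl (x :: l') := ih
      rw [ih']
      ring

lemma wl_reverse (l : List (ℝ × ℝ)) : wl l.reverse = wl l := by
  induction l with
  | nil => rfl
  | cons x l ih =>
    cases l with
    | nil => rfl
    | cons y l =>
      rw [List.reverse_cons, List.reverse_cons, List.append_assoc]
      show wl (l.reverse ++ y :: [x]) = _
      rw [wl_append, wl_cons_cons]
      rw [List.reverse_cons] at ih
      rw [ih, wl_cons_cons, wl_single, ed_comm y x]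
      ring

lemma cl_rotate (x : ℝ × ℝ) (l : List (ℝ × ℝ)) : cl (x :: l) = cl (l ++ [x]) := by
  cases l with
  | nil => rfl
  | cons y l =>
    show wl (x :: y :: (l ++ [x])) = wl (y :: ((l ++ [x]) ++ [y]))
    have h : (y :: ((l ++ [x]) ++ [y])) = (y :: l) ++ x :: [y] := by simp
    rw [h, wl_append, wl_cons_cons, wl_cons_cons, wl_single, ed_comm x y]
    show ed y x + wl (y :: (l ++ [x])) = wl (y :: (l ++ [x])) + (ed y x + 0)
    ring

lemma cl_append_comm (l l' : List (ℝ × ℝ)) : cl (l ++ l') = cl (l' ++ l) := by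
  induction l generalizing l' with
  | nil => simp
  | cons x l ih =>
    show cl (x :: (l ++ l')) = cl (l' ++ x :: l)
    rw [cl_rotate, List.append_assoc, ih]
    congr 1
    simp

/-- leaving out the second vertex -/
lemma wl_skip (a b : ℝ × ℝ) (l : List (ℝ × ℝ)) : wl (a :: l) ≤ ed a b + wl (b :: l) := by
  cases l with
  | nil => rw [wl_single, wl_single]; have := ed_nonneg a b; linarith
  | cons c l =>
    rw [wl_cons_cons, wl_cons_cons]
    have := ed_triangle a b c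
    linarith

lemma wl_le_cons (a : ℝ × ℝ) (l : List (ℝ × ℝ)) : wl l ≤ wl (a :: l) := by
  cases l with
  | nil => exact le_refl _
  | cons b l => rw [wl_cons_cons]; have := ed_nonneg a b; linarith

lemma wl_cons_sublist {l l' : List (ℝ × ℝ)} (h : l.Sublist l') :
    ∀ a : ℝ × ℝ, wl (a :: l) ≤ wl (a :: l') := by
  induction h with
  | slnil => intro a; exact le_refl _
  | cons b _ ih =>
    intro a
    rw [wl_cons_cons]
    have h1 := wl_skip a b
    exact (h1 _).trans (by have := ih b; linarith)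
  | cons_cons b _ ih =>
    intro a
    rw [wl_cons_cons, wl_cons_cons]
    have := ih b
    linarith

/-- leaving out vertices does not increase the length -/
lemma wl_sublist {l l' : List (ℝ × ℝ)} (h : l.Sublist l') : wl l ≤ wl l' := by
  induction h with
  | slnil => exact le_refl _
  | cons b _ ih => exact ih.trans (wl_le_cons _ _)
  | cons_cons b h _ => exact wl_cons_sublist h b

lemma cl_sublist {l l' : List (ℝ × ℝ)} (h : l.Sublist l') : cl l ≤ cl l' := by
  cases l with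
  | nil => exact cl_nonneg _
  | cons x m =>
    rw [List.cons_sublist_iff] at h
    obtain ⟨r₁, r₂, rfl, hx, hm⟩ := h
    obtain ⟨s, t, rfl⟩ := List.append_of_mem hx
    have e : cl (s ++ x :: t ++ r₂) = cl (x :: ((t ++ r₂) ++ s)) := by
      have h1 : s ++ x :: t ++ r₂ = s ++ (x :: (t ++ r₂)) := by simp
      rw [h1, cl_append_comm]
      rfl
    rw [e, cl_cons, cl_cons]
    apply wl_cons_sublist
    apply List.Sublist.append _ (List.Sublist.refl _)
    exact (hm.trans (List.sublist_append_right t r₂)).trans (List.sublist_append_left _ s)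

lemma tsp_set_nonempty (S : Finset (ℝ × ℝ)) :
    {c | ∃ l : List (ℝ × ℝ), (∀ p ∈ S, p ∈ l) ∧ cl l = c}.Nonempty :=
  ⟨cl S.toList, S.toList, fun _ hp => Finset.mem_toList.mpr hp, rfl⟩

lemma tsp_set_bdd (S : Finset (ℝ × ℝ)) :
    BddBelow {c | ∃ l : List (ℝ × ℝ), (∀ p ∈ S, p ∈ l) ∧ cl l = c} := by
  refine ⟨0, ?_⟩
  rintro c ⟨l, _, rfl⟩
  exact cl_nonneg _

theorem tsp_le_cl {S : Finset (ℝ × ℝ)} {l : List (ℝ × ℝ)} (h : ∀ p ∈ S, p ∈ l) : tsp S ≤ cl l :=
  csInf_le (tsp_set_bdd S) ⟨l, h, rfl⟩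

theorem le_tsp {S : Finset (ℝ × ℝ)} {c : ℝ} (h : ∀ l : List (ℝ × ℝ), (∀ p ∈ S, p ∈ l) → c ≤ cl l) :
    c ≤ tsp S := by
  apply le_csInf (tsp_set_nonempty S)
  rintro b ⟨l, hl, rfl⟩
  exact h l hl

theorem tsp_nonneg (S : Finset (ℝ × ℝ)) : 0 ≤ tsp S := le_tsp fun l _ => cl_nonneg l

theorem tsp_empty : tsp ∅ = 0 := by
  apply le_antisymm _ (tsp_nonneg _)
  have h : tsp ∅ ≤ cl [] := tsp_le_cl (by simp)
  exact h

theorem tsp_singleton (p : ℝ × ℝ) : tsp {p} = 0 := by
  apply le_antisymm _ (tsp_nonneg _)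
  have h : tsp {p} ≤ cl [p] := tsp_le_cl (by simp)
  refine h.trans (le_of_eq ?_)
  show wl (p :: p :: []) = 0
  rw [wl_cons_cons, wl_single, ed_self]
  ring

theorem tsp_mono {S T : Finset (ℝ × ℝ)} (h : S ⊆ T) : tsp S ≤ tsp T :=
  le_tsp fun _ hl => tsp_le_cl fun p hp => hl p (h hp)

theorem tsp_union_le {S T : Finset (ℝ × ℝ)} {p : ℝ × ℝ} (hS : p ∈ S) (hT : p ∈ T) :
    tsp (S ∪ T) ≤ tsp S + tsp T := by
  have key : ∀ l : List (ℝ × ℝ), (∀ q ∈ S, q ∈ l) → ∀ l' : List (ℝ × ℝ), (∀ q ∈ T, q ∈ l') →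
      tsp (S ∪ T) ≤ cl l + cl l' := by
    intro l hl l' hl'
    obtain ⟨s, t, rfl⟩ := List.append_of_mem (hl p hS)
    obtain ⟨s', t', rfl⟩ := List.append_of_mem (hl' p hT)
    have e1 : cl (s ++ p :: t) = wl (p :: (t ++ s ++ [p])) := by
      rw [cl_append_comm]; rfl
    have e2 : cl (s' ++ p :: t') = wl (p :: (t' ++ s' ++ [p])) := by
      rw [cl_append_comm]; rfl
    have e3 : cl ((p :: (t ++ s)) ++ p :: (t' ++ s')) =
        wl (p :: (t ++ s ++ [p])) + wl (p :: (t' ++ s' ++ [p])) := by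
      show wl (p :: ((t ++ s ++ p :: (t' ++ s')) ++ [p])) = _
      have e4 : (p :: ((t ++ s ++ p :: (t' ++ s')) ++ [p])) =
          (p :: (t ++ s)) ++ p :: (t' ++ s' ++ [p]) := by simp
      rw [e4, wl_append]
      rfl
    rw [e1, e2, ← e3]
    apply tsp_le_cl
    intro q hq
    rw [Finset.mem_union] at hq
    rw [List.mem_append]
    rcases hq with hq | hq
    · left
      have := hl q hq
      simp only [List.mem_append, List.mem_cons] at this ⊢
      tauto
    · right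
      have := hl' q hq
      simp only [List.mem_append, List.mem_cons] at this ⊢
      tauto
  have h1 : ∀ l : List (ℝ × ℝ), (∀ q ∈ S, q ∈ l) → tsp (S ∪ T) - cl l ≤ tsp T := by
    intro l hl
    apply le_tsp
    intro l' hl'
    have := key l hl l' hl'
    linarith
  have h2 : tsp (S ∪ T) - tsp T ≤ tsp S := by
    apply le_tsp
    intro l hl
    have := h1 l hl
    linarith
  linarith

theorem tsp_insert_le {S : Finset (ℝ × ℝ)} {p q : ℝ × ℝ} (hq : q ∈ S) :
    tsp (insert p S) ≤ tsp S + 2 * ed p q := by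
  have h1 : tsp (insert p S) ≤ tsp (S ∪ {q, p}) := by
    apply tsp_mono
    intro r hr
    rw [Finset.mem_insert] at hr
    rw [Finset.mem_union, Finset.mem_insert, Finset.mem_singleton]
    tauto
  have h2 : tsp (S ∪ {q, p}) ≤ tsp S + tsp {q, p} := tsp_union_le hq (by simp)
  have h3 : tsp {q, p} ≤ cl [q, p] := tsp_le_cl (by simp)
  have h4 : cl [q, p] = 2 * ed p q := by
    show wl (q :: p :: q :: []) = _
    rw [wl_cons_cons, wl_cons_cons, wl_single, ed_comm q p]
    ring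
  linarith

/-- the empty-or-not version used for subsets of the unit square -/
theorem tsp_le_card {S : Finset (ℝ × ℝ)} {s : ℝ} (hs : 0 ≤ s) (h : ∀ p ∈ S, ∀ q ∈ S, ed p q ≤ s) :
    tsp S ≤ 2 * s * S.card := by
  induction S using Finset.induction_on with
  | empty => rw [tsp_empty]; simp
  | insert a S ha ih =>
    rw [Finset.card_insert_of_notMem ha]
    push_cast
    rcases S.eq_empty_or_nonempty with hS | ⟨q, hq⟩
    · subst hS
      rw [insert_empty_eq, tsp_singleton]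
      simp
      linarith
    · have h1 := tsp_insert_le (p := a) hq
      have h2 := ih (fun p hp r hr => h p (Finset.mem_insert_of_mem hp) r (Finset.mem_insert_of_mem hr))
      have h3 := h a (Finset.mem_insert_self _ _) q (Finset.mem_insert_of_mem hq)
      nlinarith

theorem tsp_union_image_le {n : ℕ} (x y : Fin n → ℝ × ℝ) (I : Finset (Fin n)) :
    tsp (univ.image y ∪ I.image x) ≤ tsp (univ.image y) + 2 * ∑ i ∈ I, ed (x i) (y i) := by
  induction I using Finset.induction_on with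
  | empty => simp
  | insert a I ha ih =>
    rw [Finset.image_insert, Finset.union_insert, Finset.sum_insert ha]
    have h1 : tsp (insert (x a) (univ.image y ∪ I.image x)) ≤
        tsp (univ.image y ∪ I.image x) + 2 * ed (x a) (y a) :=
      tsp_insert_le (Finset.mem_union_left _ (Finset.mem_image_of_mem _ (Finset.mem_univ _)))
    linarith

theorem tsp_lip_aux {n : ℕ} (x y : Fin n → ℝ × ℝ) :
    tsp (univ.image x) ≤ tsp (univ.image y) + 2 * ∑ i, ed (x i) (y i) :=
  (tsp_mono Finset.subset_union_right).trans (tsp_union_image_le x y univ)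

theorem tsp_lip {n : ℕ} (x y : Fin n → ℝ × ℝ) :
    |tsp (univ.image x) - tsp (univ.image y)| ≤ 2 * ∑ i, ed (x i) (y i) := by
  rw [abs_le]
  have h1 := tsp_lip_aux x y
  have h2 := tsp_lip_aux y x
  have h3 : ∑ i, ed (y i) (x i) = ∑ i, ed (x i) (y i) :=
    Finset.sum_congr rfl (fun i _ => ed_comm _ _)
  constructor
  · linarith
  · linarith

theorem tsp_continuous (n : ℕ) : Continuous (fun x : Fin n → ℝ × ℝ => tsp (univ.image x)) := by
  rw [continuous_iff_continuousAt]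
  intro y
  rw [ContinuousAt, tendsto_iff_norm_sub_tendsto_zero]
  have hc : Continuous (fun x : Fin n → ℝ × ℝ => 2 * ∑ i, ed (x i) (y i)) := by
    unfold ed
    fun_prop
  have h0 : Filter.Tendsto (fun x : Fin n → ℝ × ℝ => 2 * ∑ i, ed (x i) (y i)) (nhds y) (nhds 0) := by
    have := hc.tendsto y
    simpa [ed_self] using this
  refine squeeze_zero (fun x => norm_nonneg _) (fun x => ?_) h0
  rw [Real.norm_eq_abs]
  exact tsp_lip x y

lemma wl_map (c : ℝ) (hc : 0 ≤ c) (v : ℝ × ℝ) (l : List (ℝ × ℝ)) :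
    wl (l.map (fun p => (v.1 + c * p.1, v.2 + c * p.2))) = c * wl l := by
  induction l with
  | nil => simp [wl_nil]
  | cons x l ih =>
    cases l with
    | nil => simp [wl_single]
    | cons y l =>
      rw [List.map_cons, List.map_cons, wl_cons_cons, wl_cons_cons]
      rw [List.map_cons] at ih
      rw [ih]
      have he : ed (v.1 + c * x.1, v.2 + c * x.2) (v.1 + c * y.1, v.2 + c * y.2) = c * ed x y := by
        unfold ed
        have h1 : (v.1 + c * x.1 - (v.1 + c * y.1)) ^ 2 + (v.2 + c * x.2 - (v.2 + c * y.2)) ^ 2 =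
            c ^ 2 * ((x.1 - y.1) ^ 2 + (x.2 - y.2) ^ 2) := by ring
        show Real.sqrt ((v.1 + c * x.1 - (v.1 + c * y.1)) ^ 2 +
          (v.2 + c * x.2 - (v.2 + c * y.2)) ^ 2) = _
        rw [h1, Real.sqrt_mul (sq_nonneg c), Real.sqrt_sq hc]
      rw [he]
      ring

lemma cl_map (c : ℝ) (hc : 0 ≤ c) (v : ℝ × ℝ) (l : List (ℝ × ℝ)) :
    cl (l.map (fun p => (v.1 + c * p.1, v.2 + c * p.2))) = c * cl l := by
  cases l with
  | nil => simp [cl_nil]
  | cons x l =>
    rw [cl_cons, ← wl_map c hc v, List.map_cons, List.map_cons, List.map_append, cl_cons]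
    rfl

theorem tsp_affine_le (S : Finset (ℝ × ℝ)) (c : ℝ) (hc : 0 < c) (v : ℝ × ℝ) :
    tsp (S.image (fun p => (v.1 + c * p.1, v.2 + c * p.2))) ≤ c * tsp S := by
  have h : tsp (S.image (fun p => (v.1 + c * p.1, v.2 + c * p.2))) / c ≤ tsp S := by
    apply le_tsp
    intro l hl
    rw [div_le_iff₀ hc, mul_comm, ← cl_map c hc.le v]
    apply tsp_le_cl
    intro p hp
    rw [Finset.mem_image] at hp
    obtain ⟨q, hq, rfl⟩ := hp
    exact List.mem_map.mpr ⟨q, hl q hq, rfl⟩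
  rw [div_le_iff₀ hc] at h
  linarith

theorem tsp_affine (S : Finset (ℝ × ℝ)) (c : ℝ) (hc : 0 < c) (v : ℝ × ℝ) :
    tsp (S.image (fun p => (v.1 + c * p.1, v.2 + c * p.2))) = c * tsp S := by
  apply le_antisymm (tsp_affine_le S c hc v)
  have h := tsp_affine_le (S.image (fun p => (v.1 + c * p.1, v.2 + c * p.2))) c⁻¹ (inv_pos.mpr hc)
    (-(c⁻¹ * v.1), -(c⁻¹ * v.2))
  have e : (S.image (fun p => (v.1 + c * p.1, v.2 + c * p.2))).image
      (fun p => ((-(c⁻¹ * v.1), -(c⁻¹ * v.2)) : ℝ × ℝ).1 + c⁻¹ * p.1 |> fun a =>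
        (a, ((-(c⁻¹ * v.1), -(c⁻¹ * v.2)) : ℝ × ℝ).2 + c⁻¹ * p.2)) = S := by
    rw [Finset.image_image]
    have : ((fun p : ℝ × ℝ => ((-(c⁻¹ * v.1), -(c⁻¹ * v.2)) : ℝ × ℝ).1 + c⁻¹ * p.1 |> fun a =>
        (a, ((-(c⁻¹ * v.1), -(c⁻¹ * v.2)) : ℝ × ℝ).2 + c⁻¹ * p.2)) ∘
        (fun p : ℝ × ℝ => (v.1 + c * p.1, v.2 + c * p.2))) = id := by
      funext p
      apply Prod.ext
      · show -(c⁻¹ * v.1) + c⁻¹ * (v.1 + c * p.1) = p.1
        field_simp
        ring
      · show -(c⁻¹ * v.2) + c⁻¹ * (v.2 + c * p.2) = p.2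
        field_simp
        ring
    rw [this, Finset.image_id]
  rw [show (fun p : ℝ × ℝ => (((-(c⁻¹ * v.1), -(c⁻¹ * v.2)) : ℝ × ℝ).1 + c⁻¹ * p.1,
    ((-(c⁻¹ * v.1), -(c⁻¹ * v.2)) : ℝ × ℝ).2 + c⁻¹ * p.2)) =
    (fun p => ((-(c⁻¹ * v.1), -(c⁻¹ * v.2)) : ℝ × ℝ).1 + c⁻¹ * p.1 |> fun a =>
        (a, ((-(c⁻¹ * v.1), -(c⁻¹ * v.2)) : ℝ × ℝ).2 + c⁻¹ * p.2)) from rfl, e] at h
  have h2 := mul_le_mul_of_nonneg_left h hc.le
  rw [← mul_assoc, mul_inv_cancel₀ hc.ne', one_mul] at h2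
  exact h2

end

end Pool.Agent.H42.TSP
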